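import Pool.Agent.Lib_helper41.SapR.FinalDefs

/-!
Definitions for the result on self-avoiding polygons under a force (problem MP_f6626d_co).
`SAP`, `pos`, `area` are in `Lib_helper27/Defs.lean`, `Staircase`, `areaCdf` in
`Lib_helper41/SapR/FinalDefs.lean`.
-/

set_option autoImplicit false

namespace Pool.Agent.AreaLaw

/-- The span of the polygon `s` in the direction `(1, 1)`: the maximum of the differences
between the levels `x + y` of its vertices. -/
def span (n : ℕ) (s : Fin (2 * n) → Fin 4) : ℕ :=
  (Finset.range (2 * n) ×ˢ Finset.range (2 * n)).sup (fun k =>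
    ((pos n s k.1).1 + (pos n s k.1).2 - ((pos n s k.2).1 + (pos n s k.2).2)).toNat)

/-- Total weight of the self-avoiding polygons of perimeter `2n` under the weights
`exp (f * span)`. -/
noncomputable def forceZ (f : ℝ) (n : ℕ) : ℝ := ∑ s ∈ SAP n, Real.exp (f * span n s)

open Classical in
/-- Distribution function of `area / E[area]` for the self-avoiding polygons of perimeter `2n`
with probabilities proportional to `exp (f * span)`: the probability that
`area ≤ x * E[area]`. -/
noncomputable def forceCdf (f : ℝ) (n : ℕ) (x : ℝ) : ℝ :=
  (∑ s ∈ (SAP n).filter (fun s => area n s * forceZ f n ≤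
      x * ∑ t ∈ SAP n, Real.exp (f * span n t) * area n t), Real.exp (f * span n s)) / forceZ f n

end Pool.Agent.AreaLaw
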