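import Pool.Agent.Lib_helper79.Gap.Defs3
import Pool.Agent.Lib_helper79.Gap.EA

/-!
# Polygons under a force (MP_f6626d_co): statements of the modules of part GU

The gap analysis of `Lib_helper79/Gap` with constants which are uniform over a class of kernels
whose pieces have exponential tails. Each statement is the old one with the range `R` replaced by
ranges depending on the half length of the piece; constants depend on `(C, θ)` only.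
-/

set_option autoImplicit false

open Finset Filter Topology

namespace Pool.Agent.FL

open Pool.Agent.Gap

/-- locality of the kernel, piece type by piece type -/
structure Loc (G : GapKernel) : Prop where
  h_le : ∀ i ∈ G.S, i.2 ≤ i.1
  T_loc : ∀ (i : ℕ × ℕ) (d : ℤ), 2 * (i.1 : ℤ) < |d| → G.T i d = 0
  K_loc : ∀ (i : ℕ × ℕ) (g g' : ℤ), 1 ≤ g → 1 ≤ g' → 2 * (i.1 : ℤ) < g →
    G.K i g g' = G.T i (g' - g)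

/-- the class of kernels -/
structure Cls (C θ : ℝ) (G : GapKernel) : Prop where
  loc : Loc G
  rho_ge : C⁻¹ ≤ G.rho
  dec : ∀ m : ℕ, ∑ i ∈ G.S.filter (fun i => i.1 = m), G.rho ^ m * G.tot i ≤ C * θ ^ m

/-- the class of caps -/
structure ClsCap (C θ : ℝ) (G : GapKernel) (C0 : ℕ) (s : ℕ → ℤ → ℝ) : Prop where
  cap : IsCap C0 s
  one : C⁻¹ ≤ s 1 1
  supp : ∀ (m : ℕ) (g : ℤ), (m : ℤ) < g → s m g = 0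
  dec : ∀ m : ℕ, ∑ g ∈ Icc (1 : ℤ) m, G.rho ^ m * s m g ≤ C * θ ^ m

/-- weighted l1 norm -/
noncomputable def lw (p N : ℕ) (e : ℤ → ℂ) : ℝ := ∑ g ∈ Icc (1 : ℤ) N, (g : ℝ) ^ p * ‖e g‖

/-- GC2 (old C2): only locality is used. -/
def GC2_Stmt : Prop := ∃ C : ℝ, 0 < C ∧ ∀ G : GapKernel, Loc G →
  ∀ (N : ℕ) (eps : ℝ) (i : ℕ × ℕ) (f h : ℤ → ℂ), i ∈ G.S → 0 ≤ eps → Supp N f → Supp N h →
    ‖(G.tot i : ℂ) * ∑ g ∈ Icc (1 : ℤ) N, f g * h g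
      - ∑ g ∈ Icc (1 : ℤ) N, ∑ g' ∈ Icc (1 : ℤ) N,
          ((G.K i g g' * GapKernel.wt eps i g g' : ℝ) : ℂ) * f g * h g'‖
      ≤ C * (i.1 : ℝ) ^ 3 * G.tot i *
        (Real.sqrt (En N f + Pot eps N f) * Real.sqrt (En N h + Pot eps N h))

/-- GC (old C), from GC2. -/
def GC_Stmt : Prop := ∀ C θ : ℝ, 0 < C → 0 < θ → θ < 1 → ∃ c : ℝ, 0 < c ∧
  ∀ G : GapKernel, Cls C θ G →
  ∀ (N : ℕ) (eps : ℝ) (z : ℂ) (f : ℤ → ℂ), 0 ≤ eps → ‖z‖ ≤ G.rho → Supp N f →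
    c * (‖(G.rho : ℂ) - z‖ * nsq N f + En N f + Pot eps N f)
      ≤ ‖form N f (G.Lop eps z N f)‖

/-- GRE (old RE), from GC. -/
def GRE_Stmt : Prop := ∀ C θ : ℝ, 0 < C → 0 < θ → θ < 1 → ∃ C1 : ℝ, 0 < C1 ∧
  ∀ G : GapKernel, Cls C θ G →
  ∀ (N : ℕ) (eps : ℝ) (z : ℂ), 0 ≤ eps → ‖z‖ ≤ G.rho →
    (∀ e : ℤ → ℂ, ∃ v : ℤ → ℂ, G.Solves eps z N v e) ∧
    (∀ v v' e : ℤ → ℂ, G.Solves eps z N v e → G.Solves eps z N v' e → v = v') ∧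
    (∀ v e : ℤ → ℂ, G.Solves eps z N v e →
      ‖(G.rho : ℂ) - z‖ * Real.sqrt (nsq N v) ≤ C1 * Real.sqrt (nsq N e) ∧
      En N v + Pot eps N v ≤ C1 * (Real.sqrt (nsq N v) * Real.sqrt (nsq N e)))

/-- GSUP (old SUP), from GC, GRE: arbitrary sources, weight `g`. -/
def GSUP_Stmt : Prop := ∀ C θ : ℝ, 0 < C → 0 < θ → θ < 1 → ∃ C1 : ℝ, 0 < C1 ∧
  ∀ G : GapKernel, Cls C θ G →
  ∀ (N : ℕ) (eps : ℝ) (z : ℂ) (v e : ℤ → ℂ), 0 ≤ eps → ‖z‖ ≤ G.rho →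
    G.Solves eps z N v e →
    (∀ g, ‖v g‖ ≤ C1 * lw 1 N e) ∧ En N v + Pot eps N v ≤ C1 * (lw 1 N e) ^ 2

/-- GW (old W), from GC, GSUP: arbitrary sources, weight `g ^ 4`. -/
def GW_Stmt : Prop := ∀ C θ : ℝ, 0 < C → 0 < θ → θ < 1 → ∃ C1 : ℝ, 0 < C1 ∧
  ∀ G : GapKernel, Cls C θ G →
  ∀ (N : ℕ) (eps : ℝ) (z : ℂ) (v e : ℤ → ℂ), 0 ≤ eps → ‖z‖ ≤ G.rho → z ≠ (G.rho : ℂ) →
    G.Solves eps z N v e →
    (∀ k : ℕ, k ≤ 2 → nsq N (mulg k v)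
        ≤ C1 * (lw 4 N e) ^ 2 / (Real.sqrt ‖(G.rho : ℂ) - z‖ * ‖(G.rho : ℂ) - z‖ ^ k)) ∧
    (∀ k : ℕ, 1 ≤ k → k ≤ 2 → En N (mulg k v) + Pot eps N (mulg k v)
        ≤ C1 * (lw 4 N e) ^ 2 * Real.sqrt ‖(G.rho : ℂ) - z‖ / ‖(G.rho : ℂ) - z‖ ^ k)

/-- a critical solution with all its uniform bounds -/
structure CritSol (C : ℝ) (G : GapKernel) (s v : ℤ → ℝ) : Prop where
  zero : ∀ g ≤ 0, v g = 0
  low : ∀ g : ℤ, 1 ≤ g → C⁻¹ ≤ v g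
  up : ∀ g, v g ≤ C
  energy : ∀ N : ℕ, ∑ g ∈ Icc (0 : ℤ) N, (v (g + 1) - v g) ^ 2 ≤ C
  eq : ∀ g : ℤ, 1 ≤ g → v g = s g + ∑ g' ∈ Icc (g - G.R) (g + G.R), G.Kc g g' * v g'

/-- a source with exponential decay -/
structure CritSrc (C θ : ℝ) (R' : ℕ) (s : ℤ → ℝ) : Prop where
  nonneg : ∀ g, 0 ≤ s g
  supp : ∀ g : ℤ, (g < 1 ∨ (R' : ℤ) < g) → s g = 0
  one : C⁻¹ ≤ s 1
  dec : ∀ g : ℕ, s g ≤ C * θ ^ g

/-- GV (old VEX + positivity), from GRE, GSUP. -/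
def GV_Stmt : Prop := ∀ C θ : ℝ, 0 < C → 0 < θ → θ < 1 → ∃ C1 : ℝ, 0 < C1 ∧
  ∀ G : GapKernel, Cls C θ G → ∀ (R' : ℕ) (s : ℤ → ℝ), CritSrc C θ R' s →
    ∃ v : ℤ → ℝ, CritSol C1 G s v

/-- GVL (old VLIM with an explicit rate). -/
def GVL_Stmt : Prop := ∀ C θ : ℝ, 0 < C → 0 < θ → θ < 1 → ∃ C1 : ℝ, 0 < C1 ∧
  ∀ G : GapKernel, Cls C θ G → ∀ (R' : ℕ) (s v : ℤ → ℝ), CritSrc C θ R' s → CritSol C G s v →
    ∃ A : ℝ, C⁻¹ ≤ A ∧ A ≤ C ∧ ∀ N : ℕ, ∑ g ∈ Icc (1 : ℤ) N, (g : ℝ) ^ 2 * (v g - A) ^ 2 ≤ C1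

/-- GEB (old EB): residual of the staircase solution, bulk part `rb` and wall part `rl`. -/
def GEB_Stmt : Prop := ∀ C θ : ℝ, 0 < C → 0 < θ → θ < 1 → ∃ C1 θ1 : ℝ, 0 < C1 ∧ 0 < θ1 ∧ θ1 < 1 ∧
  ∀ G : GapKernel, Cls C θ G →
  ∀ (N : ℕ) (eps eps' η : ℝ) (z z' : ℂ) (v : ℤ → ℂ), 0 ≤ eps → eps ≤ 1 → 0 ≤ eps' → eps' ≤ 1 →
    ‖z‖ ≤ G.rho → ‖z'‖ ≤ 1 / 4 → ‖(1 / 4 : ℂ) - z'‖ ≤ 1 / 8 → 0 ≤ η →
    stair.Solves eps' z' N v (src1 z') → (∀ g ∈ Icc (1 : ℤ) N, ‖v g - 1‖ ≤ η * g) →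
    ∃ rb rl : ℤ → ℂ, (∀ g ∈ Icc (1 : ℤ) N, G.Lop eps z N v g = (G.kap g : ℂ) + rb g + rl g) ∧
      Real.sqrt (nsq N rb)
        ≤ ‖2 * (G.sig2 : ℂ) * (1 - 4 * z') - (G.mbar : ℂ) * (1 - z / (G.rho : ℂ))‖
              * Real.sqrt (nsq N v)
          + 2 * |2 * G.sig2 * eps' - G.hbar * eps| * Real.sqrt (nsq N (mulg 1 v))
          + C1 * ((‖(G.rho : ℂ) - z‖ + ‖(1 / 4 : ℂ) - z'‖) * Real.sqrt (En N v)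
              + (eps + eps') * (Real.sqrt (En N (mulg 1 v)) + Real.sqrt (nsq N v))
              + (‖(G.rho : ℂ) - z‖ + ‖(1 / 4 : ℂ) - z'‖) ^ 2 * Real.sqrt (nsq N v)
              + (eps + eps') ^ 2 * Real.sqrt (nsq N (mulg 2 v)) + ‖v N‖) ∧
      ∀ g ∈ Icc (1 : ℤ) N, ‖rl g‖ ≤ C1 * θ1 ^ g.toNat *
        (η + ‖(G.rho : ℂ) - z‖ + ‖(1 / 4 : ℂ) - z'‖ + eps + eps' + (N : ℝ)⁻¹)

/-- GJ2 (old J2), from GC2, GC, GRE, GSUP, GW and the old J1. -/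
def GJ2_Stmt : Prop := ∀ C θ : ℝ, 0 < C → 0 < θ → θ < 1 → ∃ C1 : ℝ, 0 < C1 ∧
  ∀ G : GapKernel, Cls C θ G → ∀ (C0 : ℕ) (s t : ℕ → ℤ → ℝ), ClsCap C θ G C0 s →
    ClsCap C θ G C0 t → ∀ (N : ℕ) (eps : ℝ), 0 ≤ eps → C0 ≤ N →
    ∀ b b', IsArr G s eps N b → IsArr G t eps N b' → ∀ z : ℂ, ‖z‖ < G.rho →
    (∀ j, Summable fun n : ℕ => ‖((n : ℂ)) ^ j * ((close C0 t b n : ℝ) : ℂ) * z ^ n‖) ∧
    ‖sgf 1 (close C0 t b) z - (G.mbar : ℂ) * ∑ g ∈ Icc (1 : ℤ) N, gf 0 b z g * gf 0 b' z g‖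
      ≤ C1 ∧
    ‖sgf 2 (close C0 t b) z‖ * (‖(G.rho : ℂ) - z‖ * Real.sqrt ‖(G.rho : ℂ) - z‖) ≤ C1 ∧
    ‖sgf 3 (close C0 t b) z‖ * (‖(G.rho : ℂ) - z‖ ^ 2 * Real.sqrt ‖(G.rho : ℂ) - z‖) ≤ C1

/-- GM2 (old M2), from GC2, GRE, GSUP, GW and the old J1, B1. -/
def GM2_Stmt : Prop := ∀ C θ : ℝ, 0 < C → 0 < θ → θ < 1 → ∃ C1 : ℝ, 0 < C1 ∧
  ∀ G : GapKernel, Cls C θ G → ∀ (C0 : ℕ) (s t : ℕ → ℤ → ℝ), ClsCap C θ G C0 s →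
    ClsCap C θ G C0 t → ∀ B, IsSol G s B → ∀ n : ℕ,
    G.rho ^ n * ((closeP C0 t B n).derivative.derivative.eval 1
      + (closeP C0 t B n).derivative.eval 1) ≤ C1 * ((n : ℝ) * Real.sqrt n)

/-- staircase area parameter for the limit parameters `mb, hb, sg` of the kernels -/
noncomputable def lamS (mb hb sg lam : ℝ) : ℝ := hb / (2 * sg) * (2 * sg / mb) ^ (3 / 2 : ℝ) * lam

/-- a sequence of kernels of the class whose three parameters converge -/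
structure KSeq (C θ : ℝ) (G : ℕ → GapKernel) (mb hb sg : ℝ) : Prop where
  cls : ∀ n, Cls C θ (G n)
  lim_m : Tendsto (fun n => (G n).mbar) atTop (𝓝 mb)
  lim_h : Tendsto (fun n => (G n).hbar) atTop (𝓝 hb)
  lim_s : Tendsto (fun n => (G n).sig2) atTop (𝓝 sg)

/-- GE (old E) for sequences of kernels, from GRE, GSUP, GW, GV, GVL, GEB and the old ST1. -/
def GE_Stmt : Prop := ∀ C θ : ℝ, 0 < C → 0 < θ → θ < 1 → ∃ C1 : ℝ, 0 < C1 ∧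
  ∀ (G : ℕ → GapKernel) (mb hb sg : ℝ) (C0 : ℕ → ℕ) (s : ℕ → ℕ → ℤ → ℝ), KSeq C θ G mb hb sg →
    (∀ n, ClsCap C θ (G n) (C0 n) (s n)) →
  ∃ A : ℕ → ℝ, (∀ n, C1⁻¹ ≤ A n ∧ A n ≤ C1) ∧ ∀ (n0 N : ℕ → ℕ),
    Tendsto (fun n : ℕ => (n0 n : ℝ) / n) atTop (𝓝 (2 * sg / mb)) →
    (∀ n : ℕ, 4 * n ^ 2 + 4 * (n0 n) ^ 2 ≤ N n) →
    ∀ (lam : ℝ) (w : ℂ), 0 ≤ lam → 0 < w.re →
    ∀ (v v0 : ℕ → ℤ → ℂ),
      (∀ n, 1 ≤ n → 1 ≤ n0 n →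
        (G n).Solves (epsn lam n) (zn (G n).rho w n) (N n) (v n)
          (capz (C0 n) (s n) 0 (zn (G n).rho w n)) ∧
        stair.Solves (epsn (lamS mb hb sg lam) (n0 n)) (zn (1 / 4) w (n0 n)) (N n) (v0 n)
          (src1 (zn (1 / 4) w (n0 n)))) →
      Tendsto (fun n : ℕ => nsq (N n) (fun g => v n g - (A n : ℂ) * v0 n g) / Real.sqrt n)
        atTop (𝓝 0)

/-- GLT (old LT) for sequences of kernels, from GE, GJ2 and the old J1, J2, X, B1. -/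
def GLT_Stmt : Prop := ∀ C θ : ℝ, 0 < C → 0 < θ → θ < 1 → ∃ C1 : ℝ, 0 < C1 ∧
  ∀ (G : ℕ → GapKernel) (mb hb sg : ℝ) (C0 : ℕ → ℕ) (s t : ℕ → ℕ → ℤ → ℝ)
    (B : ℕ → ℕ → ℤ → Polynomial ℝ), KSeq C θ G mb hb sg →
    (∀ n, ClsCap C θ (G n) (C0 n) (s n)) → (∀ n, ClsCap C θ (G n) (C0 n) (t n)) →
    (∀ n, IsSol (G n) (s n) (B n)) → ∀ B0, IsSol stair cap1 B0 →
  ∃ cr : ℕ → ℝ, (∀ n, C1⁻¹ ≤ cr n ∧ cr n ≤ C1) ∧ ∀ (n0 : ℕ → ℕ),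
    Tendsto (fun n : ℕ => (n0 n : ℝ) / n) atTop (𝓝 (2 * sg / mb)) →
    ∀ lam : ℝ, 0 ≤ lam →
      Tendsto (fun n : ℕ => ((n : ℝ) * Real.sqrt n) * (G n).rho ^ n
          * (closeP (C0 n) (t n) (B n) n).eval (Real.exp (-(epsn lam n)))
        - cr n * (((n0 n : ℝ) * Real.sqrt (n0 n)) * (1 / 4 : ℝ) ^ (n0 n)
          * (closeP 1 cap1 B0 (n0 n)).eval (Real.exp (-(epsn (lamS mb hb sg lam) (n0 n))))))
        atTop (𝓝 0)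

/-- A sequence of weighted models (one kernel for each `n`), with a negligible part. -/
structure SeqModel (C θ : ℝ) where
  G : ℕ → GapKernel
  C0 : ℕ → ℕ
  s : ℕ → ℕ → ℤ → ℝ
  t : ℕ → ℕ → ℤ → ℝ
  cls : ∀ n, Cls C θ (G n)
  cap_s : ∀ n, ClsCap C θ (G n) (C0 n) (s n)
  cap_t : ∀ n, ClsCap C θ (G n) (C0 n) (t n)
  B : ℕ → ℕ → ℤ → Polynomial ℝ
  sol : ∀ n, IsSol (G n) (s n) (B n)
  Omega : ℕ → Type
  fin : ∀ n, Fintype (Omega n)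
  good : ∀ n, Finset (Omega n)
  wt : ∀ n, Omega n → ℝ
  T : ∀ n, Omega n → ℝ
  A : ∀ n, Omega n → ℕ
  wt_nonneg : ∀ n x, 0 ≤ wt n x
  T_nonneg : ∀ n x, 0 ≤ T n x
  c : ℕ → ℝ
  c_pos : ∀ n, 0 < c n
  κ : ℕ → ℝ
  κ_lim : Tendsto κ atTop (𝓝 0)
  n1 : ℕ
  count : ∀ n, n1 ≤ n → (∑ x ∈ good n, Polynomial.C (wt n x) *
    (Polynomial.X : Polynomial ℝ) ^ (A n x)) = Polynomial.C (c n) * closeP (C0 n) (t n) (B n) n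
  near : ∀ n, n1 ≤ n → ∑ x ∈ good n, wt n x * |T n x - A n x| ≤
    κ n * ((n : ℝ) * Real.sqrt n) *
      (∑ x ∈ good n, wt n x + c n / ((n : ℝ) * Real.sqrt n * (G n).rho ^ n))
  bad : ∀ n, n1 ≤ n → ∑ x : Omega n, wt n x * (1 + T n x) - ∑ x ∈ good n, wt n x * (1 + T n x) ≤
    κ n * (c n / ((n : ℝ) * Real.sqrt n * (G n).rho ^ n))

attribute [instance] SeqModel.fin

/-- total weight -/
noncomputable def SeqModel.W {C θ : ℝ} (M : SeqModel C θ) (n : ℕ) : ℝ := ∑ y : M.Omega n, M.wt n y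

open Classical in
/-- distribution function of `T / E[T]` under the weights -/
noncomputable def SeqModel.cdf {C θ : ℝ} (M : SeqModel C θ) (n : ℕ) (x : ℝ) : ℝ :=
  (∑ y ∈ univ.filter fun y : M.Omega n =>
      M.T n y * M.W n ≤ x * ∑ y' : M.Omega n, M.wt n y' * M.T n y', M.wt n y) / M.W n

/-- GFIN : the universal law (from GLT, GM2 and the old LT, LT1, M2, BAL). -/
def GFIN_Stmt : Prop := ∃ μ : MeasureTheory.Measure ℝ, MeasureTheory.IsProbabilityMeasure μ ∧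
  (∀ M : AreaModel, M.Conv μ) ∧ ∀ C θ : ℝ, 0 < C → 0 < θ → θ < 1 → ∀ M : SeqModel C θ,
    ∀ x : ℝ, μ {x} = 0 → Tendsto (fun n : ℕ => M.cdf n x) atTop (𝓝 (μ (Set.Iic x)).toReal)

end Pool.Agent.FL
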