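import Pool.Agent.Lib_helper89.FL.StmtsMG
import Pool.Agent.Lib_helper89.FL.StmtsGU
import Pool.Agent.Lib_helper41.SapR.Model
import Pool.Agent.Lib_helper89.FL.FinalDefs

/-!
# Polygons under a force (MP_f6626d_co): statements of the modules of part CW (combinatorics)

The area functional `Ar`, the index set `Om r n` (canonical polygon words, `q = (x, M, T, w)`)
and the sets `PcT`, `alT` are those of `Lib_helper41/SapR/{ArDef,Model,Kern}`.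
-/

set_option autoImplicit false

namespace Pool.Agent.FL

open Finset Pool.Agent.Lib27 Pool.Agent.SapR Pool.Agent.Gap Filter Topology
open scoped NNReal ENNReal

/-- K1H (old K1 with the span). -/
def K1H_Stmt : Prop := ∀ (r n : ℕ), r < 2 * n → ∀ F : ℤ → ℕ → ℝ,
  ∑ s ∈ Fam r n, F |dbl 0 s| (spn s) =
    4 * n * ∑ x ∈ Icc (1 : ℤ) r, ∑ M ∈ range (r + 2), ∑ T ∈ CapSet r x M,
      ∑ w ∈ ArchSet r x (2 * n - M), F (dbl 0 w + dbl 0 T) (hgt w + hgt T)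

/-- HG : heights of arches and pieces. -/
def HG_Stmt : Prop :=
  (∀ (r : ℕ) (x : ℤ) (N : ℕ) (p : Wd × Wd) (w : Wd), 1 ≤ x → p ∈ allowed r x →
    w ∈ ArchSet r (x + jump p) N → hgt (p.1 ++ w ++ p.2) = htn p + hgt w) ∧
  (∀ (x : ℤ) (w : Wd), 1 ≤ x → Arch x w → 1 ≤ hgt w ∧ 2 * hgt w ≤ w.length) ∧
  ∀ (r : ℕ) (p : Wd × Wd), p ∈ Pc r → 1 ≤ htn p ∧ htn p ≤ hl p

/-- weighted number of caps of half length `m` and gap `g` -/
noncomputable def capW (n : ℕ) (s : ℝ) (m : ℕ) (g : ℤ) : ℝ :=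
  if 1 ≤ g then ∑ T ∈ CapSet (2 * n - 1) g (2 * m), s ^ (m - hgt T) else 0

/-- weight of a canonical polygon word -/
noncomputable def wtq (n : ℕ) (s : ℝ) (q : (_ : ℤ) × (_ : ℕ) × (Wd × Wd)) : ℝ :=
  s ^ (n - (hgt q.2.2.2 + hgt q.2.2.1))

/-- KW : the kernel and the area generating function of the canonical polygon words (from HG and
the old K2, K5). -/
def KW_Stmt : Prop := ∀ (n : ℕ) (s : ℝ), 1 ≤ n → 0 < s → s ≤ 1 →
  ∃ (G : GapKernel) (B : ℕ → ℤ → Polynomial ℝ), Loc G ∧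
    ∑ p ∈ Pc (2 * n - 1), G.rho ^ hl p * s ^ (hl p - htn p) = 1 ∧
    (∀ m : ℕ, ∑ i ∈ G.S.filter (fun i => i.1 = m), G.tot i =
      ∑ p ∈ (Pc (2 * n - 1)).filter (fun p => hl p = m), s ^ (m - htn p)) ∧
    IsCap (2 * n) (capW n s) ∧ 1 ≤ capW n s 1 1 ∧
    (∀ (m : ℕ) (g : ℤ), (m : ℤ) < g → capW n s m g = 0) ∧
    IsSol G (capW n s) B ∧
    ∑ q ∈ M41.Om (2 * n - 1) n, Polynomial.C (wtq n s q) *
      (Polynomial.X : Polynomial ℝ) ^ (M41.Ar (2 * n - 1) q.2.2.2) =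
        closeP (2 * n) (capW n s) B n

/-- NEAR : mean error of the area functional (from HG and the old K2, K4, K5). -/
def NEAR_Stmt : Prop := ∀ C θ : ℝ, 0 < C → 0 < θ → θ < 1 → ∃ C1 : ℝ, 0 < C1 ∧
  ∀ (n : ℕ) (s rho : ℝ), 2 ≤ n → 0 < s → s ≤ 1 → 0 < rho →
    ∑ p ∈ Pc (2 * n - 1), rho ^ hl p * s ^ (hl p - htn p) = 1 → Tails C θ n s rho →
    ∑ q ∈ M41.Om (2 * n - 1) n, wtq n s q *
      |(|((dbl 0 q.2.2.2 + dbl 0 q.2.2.1 : ℤ) : ℝ)| - (M41.Ar (2 * n - 1) q.2.2.2 : ℝ))| ≤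
    C1 * n * Real.log n * ∑ q ∈ M41.Om (2 * n - 1) n, wtq n s q + C1 / ((n : ℝ) ^ 5 * rho ^ n)

end Pool.Agent.FL


namespace Pool.Agent.FL

open Finset Pool.Agent.Lib27 Pool.Agent.SapR Pool.Agent.AreaLaw

/-- TR : from the frozen encoding to canonical words and words without cut (from K1H). -/
def TR_Stmt : Prop := ∀ n : ℕ, 1 ≤ n → ∀ F : ℤ → ℕ → ℝ,
  ∑ s ∈ SAP n, F |dbl 0 (List.ofFn s)| (span n s) =
    4 * n * ∑ q ∈ M41.Om (2 * n - 1) n, F (dbl 0 q.2.2.2 + dbl 0 q.2.2.1)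
      (hgt q.2.2.2 + hgt q.2.2.1) + ∑ w ∈ NoCut n, F |dbl 0 w| (spn w)

/-- the final theorem -/
def FINAL_Stmt : Prop := ∃ μ : MeasureTheory.Measure ℝ, MeasureTheory.IsProbabilityMeasure μ ∧
  (∀ x : ℝ, μ {x} = 0 → Filter.Tendsto (fun n : ℕ => areaCdf n (Staircase n) x) Filter.atTop
    (nhds (μ (Set.Iic x)).toReal)) ∧
  ∃ e : ℕ → ℝ, (∀ n, 0 < e n) ∧ Filter.Tendsto e Filter.atTop (nhds 0) ∧
    ∀ f : ℕ → ℝ, (∀ n, e n ≤ f n) → ∀ x : ℝ, μ {x} = 0 →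
      Filter.Tendsto (fun n : ℕ => forceCdf (f n) n x) Filter.atTop (nhds (μ (Set.Iic x)).toReal)

end Pool.Agent.FL
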