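import Pool.Agent.Lib_helper58.SapR.K1
import Pool.Agent.Lib_helper89.FL.StmtsCW

/-! Module FL_K1H (MP_f6626d_co): the canonical root decomposition `k1` together with the span. -/

set_option autoImplicit false

namespace Pool.Agent.FL.K1H

open Finset Pool.Agent.Lib27 Pool.Agent.SapR Pool.Agent.SapR.H58

/-- span of a list of vertices -/
def spl (l : List (ℤ × ℤ)) : ℕ :=
  (l.toFinset ×ˢ l.toFinset).sup (fun p => (lev p.1 - lev p.2).toNat)

lemma spn_eq (w : Wd) : spn w = spl (vs 0 w) := rfl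

lemma spl_le_iff (l : List (ℤ × ℤ)) (k : ℕ) :
    spl l ≤ k ↔ ∀ a ∈ l, ∀ b ∈ l, (lev a - lev b).toNat ≤ k := by
  unfold spl
  rw [Finset.sup_le_iff]
  constructor
  · intro h a ha b hb
    exact h (a, b) (Finset.mem_product.2 ⟨List.mem_toFinset.2 ha, List.mem_toFinset.2 hb⟩)
  · rintro h ⟨a, b⟩ hab
    rw [Finset.mem_product, List.mem_toFinset, List.mem_toFinset] at hab
    exact h a hab.1 b hab.2

lemma spl_perm {l l' : List (ℤ × ℤ)} (h : l.Perm l') : spl l = spl l' := by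
  unfold spl
  rw [List.toFinset_eq_of_perm _ _ h]

lemma spl_shift (l : List (ℤ × ℤ)) (p : ℤ × ℤ) : spl (l.map (· + p)) = spl l := by
  apply eq_of_forall_ge_iff
  intro k
  rw [spl_le_iff, spl_le_iff]
  simp only [List.mem_map, forall_exists_index, and_imp, forall_apply_eq_imp_iff₂, lev_add,
    add_sub_add_right_eq_sub]

lemma spn_rotate (l₁ l₂ : Wd) (h : ep 0 (l₁ ++ l₂) = 0) : spn (l₂ ++ l₁) = spn (l₁ ++ l₂) := by
  rw [spn_eq, spn_eq, spl_perm (perm_rot l₁ l₂ h), spl_shift]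

lemma spn_rot' (n j : ℕ) (s : Wd) (hl : s.length = 2 * n) (hs : ep 0 s = 0)
    (hj : j ≤ 2 * n) : spn (s.rotate j) = spn s := by
  rw [List.rotate_eq_drop_append_take (by omega), spn_rotate _ _ (by rwa [List.take_append_drop]),
    List.take_append_drop]

lemma spn_rv (s : Wd) (hs : ep 0 s = 0) : spn (rv s) = spn s := by
  rw [spn_eq, spn_eq, spl_perm (vs_rv_perm s hs)]

lemma arch_lev_nonneg {x : ℤ} {w : Wd} (hw : Arch x w) (p : ℤ × ℤ) (hp : p ∈ vs 0 w) :
    0 ≤ lev p := by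
  cases w with
  | nil => simp at hp
  | cons c w' =>
    rw [vs_cons, List.mem_cons] at hp
    rcases hp with hp | hp
    · rw [hp, lev_zero]
    · exact (hw.2.2.2 _ (by rw [vs_cons, List.tail_cons]; exact hp)).le

lemma arch_zero_mem {x : ℤ} {w : Wd} (hw : Arch x w) : (0 : ℤ × ℤ) ∈ vs 0 w := by
  cases w with
  | nil => exact absurd rfl hw.1
  | cons c w' =>
    rw [vs_cons]
    exact List.mem_cons_self

lemma lev_le_hgt {x : ℤ} {w : Wd} (hw : Arch x w) (p : ℤ × ℤ) (hp : p ∈ vs 0 w) :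
    lev p ≤ hgt w := by
  have h1 := arch_lev_nonneg hw p hp
  have h2 : (lev p).toNat ≤ hgt w := by
    unfold hgt
    exact Finset.le_sup (f := fun p => (lev p).toNat)
      (List.mem_toFinset.2 (by unfold vt; exact List.mem_append_left _ hp))
  omega

lemma exists_lev_eq_hgt {x : ℤ} {w : Wd} (hw : Arch x w) : ∃ p ∈ vs 0 w, lev p = hgt w := by
  have h0 := arch_zero_mem hw
  have hne : (vt 0 w).toFinset.Nonempty :=
    ⟨0, List.mem_toFinset.2 (by unfold vt; exact List.mem_append_left _ h0)⟩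
  obtain ⟨p, hp, hpe⟩ := Finset.exists_mem_eq_sup (vt 0 w).toFinset hne
    (fun p => (lev p).toNat)
  have hh : hgt w = (lev p).toNat := hpe
  rw [List.mem_toFinset] at hp
  unfold vt at hp
  rw [List.mem_append, List.mem_singleton] at hp
  rcases hp with hp | hp
  · refine ⟨p, hp, ?_⟩
    have := arch_lev_nonneg hw p hp
    omega
  · refine ⟨0, h0, ?_⟩
    rw [hp, hw.2.1, lev_gap] at hh
    rw [lev_zero, hh]
    rfl

lemma mem_glue {x : ℤ} {w T : Wd} (hw : Arch x w) (p : ℤ × ℤ) :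
    p ∈ vs 0 (w ++ rot2 T) ↔ p ∈ vs 0 w ∨ ∃ q ∈ vs 0 T, p = -q + (-x, x) := by
  rw [vs_append, List.mem_append, hw.2.1, vs_eq (-x, x), vs_rot2', List.map_map, List.mem_map]
  constructor
  · rintro (h | ⟨q, hq, h⟩)
    · exact Or.inl h
    · exact Or.inr ⟨q, hq, h.symm⟩
  · rintro (h | ⟨q, hq, h⟩)
    · exact Or.inl h
    · exact Or.inr ⟨q, hq, h.symm⟩

lemma spn_glue {x : ℤ} {w T : Wd} (hw : Arch x w) (hT : Arch x T) :
    spn (w ++ rot2 T) = hgt w + hgt T := by
  rw [spn_eq]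
  apply le_antisymm
  · rw [spl_le_iff]
    intro a ha b hb
    have h1 : lev a ≤ hgt w := by
      rcases (mem_glue hw a).1 ha with h | ⟨q, hq, h⟩
      · exact lev_le_hgt hw a h
      · rw [h, lev_add, lev_neg, lev_gap]
        have := arch_lev_nonneg hT q hq
        omega
    have h2 : - (hgt T : ℤ) ≤ lev b := by
      rcases (mem_glue hw b).1 hb with h | ⟨q, hq, h⟩
      · have := arch_lev_nonneg hw b h
        omega
      · rw [h, lev_add, lev_neg, lev_gap]
        have := lev_le_hgt hT q hq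
        omega
    omega
  · obtain ⟨a, ha, hae⟩ := exists_lev_eq_hgt hw
    obtain ⟨q, hq, hqe⟩ := exists_lev_eq_hgt hT
    have h1 := (spl_le_iff (vs 0 (w ++ rot2 T)) _).1 le_rfl a ((mem_glue hw a).2 (Or.inl ha))
      (-q + (-x, x)) ((mem_glue hw _).2 (Or.inr ⟨q, hq, rfl⟩))
    rw [lev_add, lev_neg, lev_gap, hae, hqe] at h1
    omega

theorem k1h : K1H_Stmt := by
  classical
  intro r n hr F
  set G : List (Fin 4) → ℝ := fun s => if 0 < dbl 0 s then F (dbl 0 s) (spn s) else 0 with hG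
  -- step 1: reversal
  have h1 : ∑ s ∈ Fam r n, F |dbl 0 s| (spn s) = 2 * ∑ s ∈ Fam r n, G s := by
    have e1 : ∀ s ∈ Fam r n, F |dbl 0 s| (spn s) = G s + G (rv s) := by
      intro s hs
      have hcl := ((mem_Fam r n s).1 hs).1.2.1
      have hne := dbl_ne_zero r n hr s hs
      simp only [hG, dbl_rv', spn_rv s hcl]
      rcases lt_or_gt_of_ne hne with h | h
      · rw [if_neg (by omega), if_pos (by omega), abs_of_neg h, zero_add]
      · rw [if_pos h, if_neg (by omega), abs_of_pos h, add_zero]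
    rw [sum_congr rfl e1, sum_add_distrib]
    have e2 : ∑ s ∈ Fam r n, G (rv s) = ∑ s ∈ Fam r n, G s := by
      refine sum_nbij' rv rv (fun s hs => fam_rv r n s hs) (fun s hs => fam_rv r n s hs)
        (fun s _ => rv_rv s) (fun s _ => rv_rv s) (fun s _ => rfl)
    rw [e2]; ring
  -- step 2: rotation
  have h2 : ∑ s ∈ Fam r n, G s = 2 * n * ∑ s ∈ (Fam r n).filter Canon, G s := by
    apply sum_canon r n hr
    intro s hs j hj
    have hs' := (mem_Fam r n s).1 hs
    simp only [hG]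
    rw [dbl_rot' n j s hs'.1.1 hs'.1.2.1 hj, spn_rot' n j s hs'.1.1 hs'.1.2.1 hj]
  -- step 3: decomposition
  have h3 : ∑ s ∈ (Fam r n).filter Canon, G s =
      ∑ x ∈ Icc (1 : ℤ) r, ∑ M ∈ range (r + 2), ∑ T ∈ CapSet r x M,
        ∑ w ∈ ArchSet r x (2 * n - M), F (dbl 0 w + dbl 0 T) (hgt w + hgt T) := by
    simp only [hG]
    rw [← sum_filter]
    simp only [sum_sigma']
    symm
    refine sum_nbij (fun p => p.2.2.2 ++ rot2 p.2.2.1) ?_ ?_ ?_ ?_
    · rintro ⟨x, M, T, w⟩ hp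
      simp only [mem_sigma, mem_Icc, mem_range] at hp
      obtain ⟨⟨hx1, hx2⟩, hM, hT, hw⟩ := hp
      have := glue_mem r n M x hx1 w T hT hw
      rw [mem_CapSet] at hT
      rw [mem_ArchSet] at hw
      rw [mem_filter, mem_filter]
      exact ⟨this, k1pos x w T hx1 hw.2.1 hT.2.1⟩
    · rintro ⟨x, M, T, w⟩ hp ⟨x', M', T', w'⟩ hp' heq
      rw [mem_coe] at hp hp'
      simp only [mem_sigma, mem_Icc, mem_range] at hp hp'
      obtain ⟨⟨hx1, hx2⟩, hM, hT, hw⟩ := hp
      obtain ⟨⟨hx1', hx2'⟩, hM', hT', hw'⟩ := hp'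
      rw [mem_CapSet] at hT hT'
      rw [mem_ArchSet] at hw hw'
      simp only at heq
      have hl := glue_len hw.2.1 hT.2.1 hw'.2.1 hT'.2.1 heq
      obtain ⟨e1, e2⟩ := List.append_inj heq hl
      have e3 : T = T' := by
        have := congrArg rot2 e2
        rwa [rot2_rot2, rot2_rot2] at this
      have e4 : x = x' := by
        have h4 := hw.2.1.2.1
        have h5 := hw'.2.1.2.1
        rw [e1, h5, Prod.ext_iff] at h4
        exact h4.2.symm
      have e5 : M = M' := by rw [← hT.1, ← hT'.1, e3]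
      subst e1 e3 e4 e5
      rfl
    · intro c hc
      rw [mem_coe, mem_filter, mem_filter] at hc
      obtain ⟨⟨hcF, hcC⟩, hcd⟩ := hc
      obtain ⟨x, w, T, hx, hcw, hwA, hTA, hTc, hwc⟩ := canon_decomp r n c hcF hcC
      have hx1 : 1 ≤ x := by
        rcases dbl_glue_sign hwA hTA hx with h | h
        · exact h.1
        · rw [← hcw] at h
          omega
      have hT' := (mem_CapSet r x _ T).1 hTc
      have hxl : 2 * x ≤ T.length := by
        have := gap_le_length 0 T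
        rw [hTA.2.1] at this
        simp only [Prod.fst_zero, Prod.snd_zero] at this
        linarith
      have hTr := hT'.2.2.2
      refine ⟨⟨x, T.length, T, w⟩, ?_, ?_⟩
      · rw [mem_coe]
        simp only [mem_sigma, mem_Icc, mem_range]
        exact ⟨⟨hx1, by omega⟩, by omega, hTc, hwc⟩
      · exact hcw.symm
    · rintro ⟨x, M, T, w⟩ hp
      simp only [mem_sigma, mem_Icc, mem_range] at hp
      obtain ⟨⟨hx1, hx2⟩, hM, hT, hw⟩ := hp
      rw [mem_CapSet] at hT
      rw [mem_ArchSet] at hw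
      simp only
      rw [dbl_glue hw.2.1.2.1 hT.2.1.2.1, spn_glue hw.2.1 hT.2.1]
  rw [h1, h2, h3]
  ring

end Pool.Agent.FL.K1H
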