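import Pool.Agent.Lib_helper41.SapR.Diag

/-!
Diagonal argument for distribution functions depending on a force.
-/

set_option autoImplicit false

namespace Pool.Agent.FL

open Filter Topology MeasureTheory ProbabilityTheory

/-- uniformity in the force from the convergence along all sequences of forces -/
lemma unif_of_seq (F : ℝ → ℕ → ℝ) (l a : ℝ)
    (h : ∀ f : ℕ → ℝ, (∀ n, a ≤ f n) → Tendsto (fun n : ℕ => F (f n) n) atTop (𝓝 l))
    (ε : ℝ) (hε : 0 < ε) : ∀ᶠ n : ℕ in atTop, ∀ f : ℝ, a ≤ f → |F f n - l| ≤ ε := by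
  classical
  set f : ℕ → ℝ := fun n => if hn : ∃ g : ℝ, a ≤ g ∧ ε < |F g n - l| then hn.choose else a with hf
  have hfa : ∀ n, a ≤ f n := by
    intro n
    simp only [hf]
    split_ifs with hn
    · exact hn.choose_spec.1
    · exact le_rfl
  have h1 := h f hfa
  obtain ⟨N, hN⟩ := Metric.tendsto_atTop.1 h1 ε hε
  filter_upwards [eventually_ge_atTop N] with n hn g hg
  by_contra hcon
  push Not at hcon
  have hex : ∃ g : ℝ, a ≤ g ∧ ε < |F g n - l| := ⟨g, hg, hcon⟩
  have h2 := hN n hn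
  rw [Real.dist_eq] at h2
  have h3 : f n = hex.choose := by
    simp only [hf]
    rw [dif_pos hex]
  rw [h3] at h2
  have := hex.choose_spec.2
  linarith

lemma diag_force (μ : Measure ℝ) [IsProbabilityMeasure μ] (F : ℝ → ℕ → ℝ → ℝ)
    (hmono : ∀ f n, Monotone (F f n))
    (h : ∀ a : ℝ, 0 < a → ∀ f : ℕ → ℝ, (∀ n, a ≤ f n) → ∀ x : ℝ, μ {x} = 0 →
      Tendsto (fun n : ℕ => F (f n) n x) atTop (𝓝 (μ (Set.Iic x)).toReal)) :
    ∃ e : ℕ → ℝ, (∀ n, 0 < e n) ∧ Tendsto e atTop (𝓝 0) ∧ ∀ f : ℕ → ℝ, (∀ n, e n ≤ f n) →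
      ∀ x : ℝ, μ {x} = 0 → Tendsto (fun n : ℕ => F (f n) n x) atTop (𝓝 (μ (Set.Iic x)).toReal) := by
  classical
  have hdense : Dense ({x : ℝ | μ {x} ≠ 0}ᶜ) :=
    (SapR.M41.countable_atoms μ).dense_compl ℝ
  obtain ⟨t, hts, htc, htd⟩ := hdense.exists_countable_dense_subset
  obtain ⟨u, hu⟩ := htc.exists_eq_range htd.nonempty
  have hu0 : ∀ i, μ {u i} = 0 := by
    intro i
    have : u i ∈ {x : ℝ | μ {x} ≠ 0}ᶜ := hts (by rw [hu]; exact Set.mem_range_self i)
    simpa using this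
  set G : ℝ → ℝ := fun x => (μ (Set.Iic x)).toReal with hG
  set P : ℕ → ℕ → Prop := fun n k => ∀ i ∈ Finset.range (k + 1), ∀ f : ℝ, 1 / ((k : ℝ) + 1) ≤ f →
    |F f n (u i) - G (u i)| ≤ 1 / ((k : ℝ) + 1) with hP
  have hPk : ∀ k, ∀ᶠ n in atTop, P n k := by
    intro k
    rw [hP]
    simp only
    rw [Filter.eventually_all_finset]
    intro i _
    exact unif_of_seq (fun f n => F f n (u i)) (G (u i)) (1 / ((k : ℝ) + 1))
      (fun f hf => h _ (by positivity) f hf (u i) (hu0 i)) _ (by positivity)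
  have hR : Tendsto (fun n => Nat.findGreatest (P n) n) atTop atTop := by
    rw [tendsto_atTop]
    intro k
    filter_upwards [hPk k, eventually_ge_atTop k] with n h1 h2
    exact Nat.le_findGreatest h2 h1
  have hinv : Tendsto (fun n => 1 / (((Nat.findGreatest (P n) n : ℕ) : ℝ) + 1)) atTop (𝓝 0) :=
    tendsto_one_div_add_atTop_nhds_zero_nat.comp hR
  refine ⟨fun n => 1 / (((Nat.findGreatest (P n) n : ℕ) : ℝ) + 1), fun n => by positivity, hinv, ?_⟩
  intro f hf x hx
  have hpt : ∀ i, Tendsto (fun n : ℕ => F (f n) n (u i)) atTop (𝓝 (G (u i))) := by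
    intro i
    rw [tendsto_iff_dist_tendsto_zero]
    refine squeeze_zero' (Eventually.of_forall fun n => dist_nonneg) ?_ hinv
    filter_upwards [hR.eventually_ge_atTop (i + 1)] with n h2
    have hne : Nat.findGreatest (P n) n ≠ 0 := by omega
    have hPn : P n (Nat.findGreatest (P n) n) := Nat.findGreatest_of_ne_zero rfl hne
    rw [Real.dist_eq]
    exact hPn i (Finset.mem_range.2 (by omega)) (f n) (hf n)
  rw [Metric.tendsto_atTop]
  intro ε hε
  have hc := SapR.M41.cdf_continuousAt μ x hx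
  obtain ⟨δ, hδ, hball⟩ := Metric.continuousAt_iff.1 hc (ε / 2) (by linarith)
  obtain ⟨a, hat, ha⟩ := htd.exists_between (show x - δ < x by linarith)
  obtain ⟨b, hbt, hb⟩ := htd.exists_between (show x < x + δ by linarith)
  rw [hu] at hat hbt
  obtain ⟨i, rfl⟩ := hat
  obtain ⟨j, rfl⟩ := hbt
  have h1 := Metric.tendsto_atTop.1 (hpt i) (ε / 2) (by linarith)
  have h2 := Metric.tendsto_atTop.1 (hpt j) (ε / 2) (by linarith)
  obtain ⟨N1, hN1⟩ := h1
  obtain ⟨N2, hN2⟩ := h2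
  refine ⟨max N1 N2, fun n hn => ?_⟩
  have e1 := hN1 n (le_trans (le_max_left _ _) hn)
  have e2 := hN2 n (le_trans (le_max_right _ _) hn)
  have e3 := @hball (u i) (by
    rw [Real.dist_eq, abs_lt]
    constructor <;> [linarith [ha.1]; linarith [ha.2]])
  have e4 := @hball (u j) (by
    rw [Real.dist_eq, abs_lt]
    constructor <;> [linarith [hb.1]; linarith [hb.2]])
  rw [Real.dist_eq, abs_lt] at e1 e2 e3 e4 ⊢
  have m1 := hmono (f n) n ha.2.le
  have m2 := hmono (f n) n hb.1.le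
  constructor
  · linarith [e1.1, e3.1]
  · linarith [e2.2, e4.2]

end Pool.Agent.FL
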