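import Pool.Agent.Lib_helper89.FL.FinA
import Pool.Agent.Lib_helper89.FL.Diag
import Pool.Agent.Lib_helper27.Transl

/-!
Assembly, part B: the sequence of weighted models and its distribution functions.
-/

set_option autoImplicit false

namespace Pool.Agent.FL

open Finset Pool.Agent.Lib27 Pool.Agent.SapR Pool.Agent.Gap Filter Topology Pool.Agent.AreaLaw

/-- the sample space: canonical words and words without cut -/
abbrev Omg (n : ℕ) : Type := {q // q ∈ M41.Om (2 * n - 1) n} ⊕ {w // w ∈ NoCut n}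

/-- weights on the sample space -/
noncomputable def wtO (n : ℕ) (s : ℝ) : Omg n → ℝ :=
  Sum.elim (fun q => wtq n s q.1) (fun w => 1 / (4 * (n : ℝ)) * s ^ (n - spn w.1))

/-- shoelace sum on the sample space -/
def TZ (n : ℕ) : Omg n → ℤ :=
  Sum.elim (fun q => |dbl 0 q.1.2.2.2 + dbl 0 q.1.2.2.1|) (fun w => |dbl 0 w.1|)

/-- area functional on the sample space -/
noncomputable def AO (n : ℕ) : Omg n → ℕ :=
  Sum.elim (fun q => M41.Ar (2 * n - 1) q.1.2.2.2) (fun _ => 0)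

/-- the good part of the sample space -/
noncomputable def goodO (n : ℕ) : Finset (Omg n) := univ.map ⟨Sum.inl, Sum.inl_injective⟩

lemma sum_goodO (n : ℕ) {β : Type} [AddCommMonoid β]
    (F : ((_ : ℤ) × (_ : ℕ) × (Wd × Wd)) → β) (F' : Omg n → β)
    (h : ∀ q : {q // q ∈ M41.Om (2 * n - 1) n}, F' (Sum.inl q) = F q.1) :
    ∑ x ∈ goodO n, F' x = ∑ q ∈ M41.Om (2 * n - 1) n, F q := by
  unfold goodO
  rw [Finset.sum_map]
  simp only [Function.Embedding.coeFn_mk, h]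
  exact Finset.sum_coe_sort (M41.Om (2 * n - 1) n) F

lemma sum_Omg (n : ℕ) (F' : Omg n → ℝ) (F : ((_ : ℤ) × (_ : ℕ) × (Wd × Wd)) → ℝ) (H : Wd → ℝ)
    (h : ∀ q : {q // q ∈ M41.Om (2 * n - 1) n}, F' (Sum.inl q) = F q.1)
    (h' : ∀ w : {w // w ∈ NoCut n}, F' (Sum.inr w) = H w.1) :
    ∑ x : Omg n, F' x = ∑ q ∈ M41.Om (2 * n - 1) n, F q + ∑ w ∈ NoCut n, H w := by
  rw [Fintype.sum_sum_type]
  simp only [h, h']
  congr 1
  · exact Finset.sum_coe_sort (M41.Om (2 * n - 1) n) F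
  · exact Finset.sum_coe_sort (NoCut n) H

lemma wtO_nonneg (n : ℕ) (s : ℝ) (hs : 0 < s) (x : Omg n) : 0 ≤ wtO n s x := by
  rcases x with q | w
  · simp only [wtO, Sum.elim_inl]
    unfold wtq
    positivity
  · simp only [wtO, Sum.elim_inr]
    positivity

lemma TZ_nonneg (n : ℕ) (x : Omg n) : (0 : ℝ) ≤ (TZ n x : ℝ) := by
  rcases x with q | w
  · simp only [TZ, Sum.elim_inl]
    exact_mod_cast abs_nonneg _
  · simp only [TZ, Sum.elim_inr]
    exact_mod_cast abs_nonneg _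

/-- the index used for `n` -/
def mx (N0 n : ℕ) : ℕ := max n N0

lemma mx_eq (N0 n : ℕ) (h : N0 ≤ n) : mx N0 n = n := max_eq_left h

/-- the sequence of models of a sequence of forces -/
noncomputable def seqM (C θ C1 : ℝ) (hC : 0 < C) (hθ : 0 < θ) (hθ1 : θ < 1) (hC1 : 0 < C1)
    (hN : ∀ (n : ℕ) (s rho : ℝ), 2 ≤ n → 0 < s → s ≤ 1 → 0 < rho →
      ∑ p ∈ Pc (2 * n - 1), rho ^ hl p * s ^ (hl p - htn p) = 1 → Tails C θ n s rho →
      ∑ q ∈ M41.Om (2 * n - 1) n, wtq n s q *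
        |(|((dbl 0 q.2.2.2 + dbl 0 q.2.2.1 : ℤ) : ℝ)| - (M41.Ar (2 * n - 1) q.2.2.2 : ℝ))| ≤
      C1 * n * Real.log n * ∑ q ∈ M41.Om (2 * n - 1) n, wtq n s q + C1 / ((n : ℝ) ^ 5 * rho ^ n))
    (N0 : ℕ) (hN0 : 2 ≤ N0) (s : ℕ → ℝ) (hs : ∀ n, 0 < s n) (hs1 : ∀ n, s n ≤ 1)
    (D : ∀ n, Dat C θ (mx N0 n) (s (mx N0 n))) : SeqModel C θ where
  G := fun n => (D n).G
  C0 := fun n => 2 * mx N0 n
  s := fun n => capW (mx N0 n) (s (mx N0 n))
  t := fun n => capW (mx N0 n) (s (mx N0 n))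
  cls := fun n => (D n).cls
  cap_s := fun n => (D n).cap
  cap_t := fun n => (D n).cap
  B := fun n => (D n).B
  sol := fun n => (D n).sol
  Omega := fun n => Omg (mx N0 n)
  fin := fun n => inferInstance
  good := fun n => goodO (mx N0 n)
  wt := fun n => wtO (mx N0 n) (s (mx N0 n))
  T := fun n x => (TZ (mx N0 n) x : ℝ)
  A := fun n => AO (mx N0 n)
  wt_nonneg := fun n x => wtO_nonneg _ _ (hs _) x
  T_nonneg := fun n x => TZ_nonneg _ x
  c := fun _ => 1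
  c_pos := fun _ => one_pos
  κ := kap0 C1 C θ
  κ_lim := kap0_lim C1 C θ hθ hθ1
  n1 := N0
  count := fun n hn => by
    have h1 := (D n).count
    rw [Polynomial.C_1, one_mul]
    have h2 : closeP (2 * mx N0 n) (capW (mx N0 n) (s (mx N0 n))) (D n).B (mx N0 n) =
        closeP (2 * mx N0 n) (capW (mx N0 n) (s (mx N0 n))) (D n).B n :=
      congrArg (closeP (2 * mx N0 n) (capW (mx N0 n) (s (mx N0 n))) (D n).B) (mx_eq N0 n hn)
    rw [← h2, ← h1]
    exact sum_goodO (mx N0 n) (fun q => Polynomial.C (wtq (mx N0 n) (s (mx N0 n)) q) *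
      (Polynomial.X : Polynomial ℝ) ^ (M41.Ar (2 * mx N0 n - 1) q.2.2.2)) _ (fun q => rfl)
  near := fun n hn => by
    have h1 := near_bound hC hθ hC1 hN (mx N0 n) n (mx_eq N0 n hn) (hN0.trans hn) _ (hs _) (hs1 _)
      (D n)
    have e1 : ∑ x ∈ goodO (mx N0 n), wtO (mx N0 n) (s (mx N0 n)) x *
        |(TZ (mx N0 n) x : ℝ) - AO (mx N0 n) x| =
        ∑ q ∈ M41.Om (2 * mx N0 n - 1) (mx N0 n), wtq (mx N0 n) (s (mx N0 n)) q *
        |(|((dbl 0 q.2.2.2 + dbl 0 q.2.2.1 : ℤ) : ℝ)| -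
          (M41.Ar (2 * mx N0 n - 1) q.2.2.2 : ℝ))| := by
      refine sum_goodO (mx N0 n) (fun q => wtq (mx N0 n) (s (mx N0 n)) q *
        |(|((dbl 0 q.2.2.2 + dbl 0 q.2.2.1 : ℤ) : ℝ)| -
          (M41.Ar (2 * mx N0 n - 1) q.2.2.2 : ℝ))|) _ (fun q => ?_)
      simp only [wtO, TZ, AO, Sum.elim_inl, Int.cast_abs]
    have e2 : ∑ x ∈ goodO (mx N0 n), wtO (mx N0 n) (s (mx N0 n)) x =
        ∑ q ∈ M41.Om (2 * mx N0 n - 1) (mx N0 n), wtq (mx N0 n) (s (mx N0 n)) q :=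
      sum_goodO (mx N0 n) (fun q => wtq (mx N0 n) (s (mx N0 n)) q) _ (fun q => rfl)
    rw [e1, e2]
    exact h1
  bad := fun n hn => by
    have h1 := bad_bound hC hθ hC1 (mx N0 n) n (mx_eq N0 n hn) (hN0.trans hn) _ (hs _) (D n)
    refine le_trans (le_of_eq ?_) h1
    have e1 : ∑ x : Omg (mx N0 n), wtO (mx N0 n) (s (mx N0 n)) x * (1 + (TZ (mx N0 n) x : ℝ)) =
        ∑ q ∈ M41.Om (2 * mx N0 n - 1) (mx N0 n), wtq (mx N0 n) (s (mx N0 n)) q *
          (1 + |((dbl 0 q.2.2.2 + dbl 0 q.2.2.1 : ℤ) : ℝ)|) +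
        ∑ w ∈ NoCut (mx N0 n), 1 / (4 * ((mx N0 n : ℕ) : ℝ)) *
          (s (mx N0 n)) ^ (mx N0 n - spn w) * (1 + |((dbl 0 w : ℤ) : ℝ)|) := by
      refine sum_Omg (mx N0 n) _ _ _ (fun q => ?_) (fun w => ?_)
      · simp only [wtO, TZ, Sum.elim_inl, Int.cast_abs]
      · simp only [wtO, TZ, Sum.elim_inr, Int.cast_abs]
    have e2 : ∑ x ∈ goodO (mx N0 n), wtO (mx N0 n) (s (mx N0 n)) x * (1 + (TZ (mx N0 n) x : ℝ)) =
        ∑ q ∈ M41.Om (2 * mx N0 n - 1) (mx N0 n), wtq (mx N0 n) (s (mx N0 n)) q *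
          (1 + |((dbl 0 q.2.2.2 + dbl 0 q.2.2.1 : ℤ) : ℝ)|) := by
      refine sum_goodO (mx N0 n) (fun q => wtq (mx N0 n) (s (mx N0 n)) q *
          (1 + |((dbl 0 q.2.2.2 + dbl 0 q.2.2.1 : ℤ) : ℝ)|)) _ (fun q => ?_)
      simp only [wtO, TZ, Sum.elim_inl, Int.cast_abs]
    rw [e1, e2]
    ring

/-! ### distribution functions -/

open Classical in
/-- distribution function on the sample space -/
noncomputable def cdfO (n : ℕ) (s x : ℝ) : ℝ :=
  (∑ y ∈ univ.filter fun y : Omg n => (TZ n y : ℝ) * ∑ y' : Omg n, wtO n s y' ≤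
      x * ∑ y' : Omg n, wtO n s y' * (TZ n y' : ℝ), wtO n s y) / ∑ y' : Omg n, wtO n s y'

lemma height_le (hHG : HG_Stmt) (n : ℕ) (q : (_ : ℤ) × (_ : ℕ) × (Wd × Wd))
    (hq : q ∈ M41.Om (2 * n - 1) n) : hgt q.2.2.2 + hgt q.2.2.1 ≤ n := by
  classical
  obtain ⟨x, M, T, w⟩ := q
  unfold M41.Om at hq
  rw [mem_sigma, mem_sigma, mem_product] at hq
  obtain ⟨hx, hM, hT, hw⟩ := hq
  simp only at hx hM hT hw ⊢
  rw [mem_Icc] at hx
  rw [mem_range] at hM
  have hT' := (M41.mem_CapSet _ _ _ _).1 hT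
  have hw' := (M41.mem_ArchSet _ _ _ _).1 hw
  have h1 := hHG.2.1 x T hx.1 hT'.2.1
  have h2 := hHG.2.1 x w hx.1 hw'.2.1
  rw [hT'.1] at h1
  rw [hw'.1] at h2
  omega

/-- the weighted sums over `SAP n` in terms of the sample space -/
lemma transfer (hHG : HG_Stmt) (hTR : TR_Stmt) (n : ℕ) (hn : 1 ≤ n) (f : ℝ) (Φ : ℤ → ℝ) :
    ∑ s ∈ SAP n, Real.exp (f * span n s) * Φ |dbl 0 (List.ofFn s)| =
      Real.exp (f * n) * (4 * n) * ∑ y : Omg n, wtO n (Real.exp (-f)) y * Φ (TZ n y) := by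
  have h1 := hTR n hn (fun a b => Real.exp (f * b) * Φ |a|)
  simp only [abs_abs] at h1
  rw [h1]
  have hn0 : (0 : ℝ) < n := by exact_mod_cast hn
  have hexp : ∀ b : ℕ, b ≤ n → Real.exp (f * b) = Real.exp (f * n) * Real.exp (-f) ^ (n - b) := by
    intro b hb
    rw [← Real.exp_nat_mul, ← Real.exp_add]
    congr 1
    rw [Nat.cast_sub hb]
    ring
  have h2 := sum_Omg n (fun y => wtO n (Real.exp (-f)) y * Φ (TZ n y))
    (fun q => wtq n (Real.exp (-f)) q * Φ |dbl 0 q.2.2.2 + dbl 0 q.2.2.1|)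
    (fun w => 1 / (4 * (n : ℝ)) * Real.exp (-f) ^ (n - spn w) * Φ |dbl 0 w|)
    (fun q => rfl) (fun w => rfl)
  rw [h2, mul_add, mul_sum, mul_sum, mul_sum]
  congr 1
  · refine sum_congr rfl fun q hq => ?_
    have h3 := hexp _ (height_le hHG n q hq)
    rw [h3]
    unfold wtq
    ring
  · refine sum_congr rfl fun w hw => ?_
    have hw' : w ∈ W n := by
      classical
      exact (Finset.mem_filter.1 hw).1
    have h3 := hexp _ (spn_le n w hw')
    rw [h3]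
    field_simp

lemma forceCdf_eq (hHG : HG_Stmt) (hTR : TR_Stmt) (n : ℕ) (hn : 1 ≤ n) (f x : ℝ) :
    forceCdf f n x = cdfO n (Real.exp (-f)) x := by
  classical
  have hn0 : (0 : ℝ) < n := by exact_mod_cast hn
  obtain ⟨K, hK⟩ : ∃ K, K = Real.exp (f * n) * (4 * n) := ⟨_, rfl⟩
  have hK0 : 0 < K := by rw [hK]; positivity
  have hZ : forceZ f n = K * ∑ y : Omg n, wtO n (Real.exp (-f)) y := by
    have := transfer hHG hTR n hn f (fun _ => 1)
    simp only [mul_one] at this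
    unfold forceZ
    rw [this, hK]
  have harea : ∀ s : Fin (2 * n) → Fin 4, area n s = ((|dbl 0 (List.ofFn s)| : ℤ) : ℝ) / 2 := by
    intro s
    rw [area_eq]
    rfl
  have hS : ∑ t ∈ SAP n, Real.exp (f * span n t) * area n t =
      K * (∑ y : Omg n, wtO n (Real.exp (-f)) y * (TZ n y : ℝ)) / 2 := by
    have := transfer hHG hTR n hn f (fun a => (a : ℝ))
    simp only [harea]
    rw [← hK] at this
    rw [← this, Finset.sum_div]
    refine sum_congr rfl fun s _ => ?_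
    ring
  unfold forceCdf cdfO
  rw [hZ, hS]
  have h1 : ∑ s ∈ (SAP n).filter (fun s => area n s * (K * ∑ y : Omg n, wtO n (Real.exp (-f)) y) ≤
      x * (K * (∑ y : Omg n, wtO n (Real.exp (-f)) y * (TZ n y : ℝ)) / 2)),
      Real.exp (f * span n s) = K * ∑ y ∈ univ.filter fun y : Omg n => (TZ n y : ℝ) *
        ∑ y' : Omg n, wtO n (Real.exp (-f)) y' ≤
      x * ∑ y' : Omg n, wtO n (Real.exp (-f)) y' * (TZ n y' : ℝ), wtO n (Real.exp (-f)) y := by
    have := transfer hHG hTR n hn f (fun a => if (a : ℝ) *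
        ∑ y' : Omg n, wtO n (Real.exp (-f)) y' ≤
      x * ∑ y' : Omg n, wtO n (Real.exp (-f)) y' * (TZ n y' : ℝ) then 1 else 0)
    rw [← hK] at this
    simp only [mul_ite, mul_one, mul_zero] at this
    rw [Finset.sum_filter, Finset.sum_filter, ← this]
    refine sum_congr rfl fun s _ => ?_
    refine if_congr ?_ rfl rfl
    rw [harea]
    constructor
    · intro h
      have h2 : K * ((((|dbl 0 (List.ofFn s)| : ℤ) : ℝ)) * ∑ y' : Omg n, wtO n (Real.exp (-f)) y') ≤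
          K * (x * ∑ y' : Omg n, wtO n (Real.exp (-f)) y' * (TZ n y' : ℝ)) := by
        linarith
      exact le_of_mul_le_mul_left h2 hK0
    · intro h
      have h2 := mul_le_mul_of_nonneg_left h hK0.le
      linarith
  rw [h1]
  exact mul_div_mul_left _ _ hK0.ne'

end Pool.Agent.FL
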