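import Pool.Agent.Lib_helper89.FL.StmtsCW

/-!
# Heights of arches and pieces (module FL_HG)
-/

set_option autoImplicit false

namespace Pool.Agent.FL

open Finset Pool.Agent.Lib27 Pool.Agent.SapR

namespace HG

lemma lev_add (p q : ℤ × ℤ) : lev (p + q) = lev p + lev q := by
  unfold lev
  simp only [Prod.fst_add, Prod.snd_add]
  ring

lemma lev_zero : lev 0 = 0 := rfl

lemma lev_dv (d : Fin 4) : lev (dv d) = 1 ∨ lev (dv d) = -1 := by
  fin_cases d <;> simp [dv, lev]

lemma lev_ep (p : ℤ × ℤ) (w : List (Fin 4)) :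
    lev (ep p w) ≤ lev p + w.length ∧ lev p - w.length ≤ lev (ep p w) := by
  induction w generalizing p with
  | nil => simp
  | cons d s ih =>
    have h := ih (p + dv d)
    rw [lev_add] at h
    rw [ep_cons, List.length_cons]
    push_cast
    rcases lev_dv d with h1 | h1 <;> rw [h1] at h <;> constructor <;> linarith [h.1, h.2]

lemma split (p q : ℤ × ℤ) (w : List (Fin 4)) (h : q ∈ vt p w) :
    ∃ a b : List (Fin 4), w = a ++ b ∧ q = ep p a := by
  induction w generalizing p with
  | nil =>
    rw [vt_nil, List.mem_singleton] at h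
    exact ⟨[], [], rfl, h⟩
  | cons d s ih =>
    rw [vt_cons, List.mem_cons] at h
    rcases h with h | h
    · exact ⟨[], d :: s, rfl, h⟩
    · obtain ⟨a, b, h1, h2⟩ := ih (p + dv d) h
      exact ⟨d :: a, b, by rw [h1]; rfl, h2⟩

lemma le_hgt (w : Wd) (q : ℤ × ℤ) (h : q ∈ vt 0 w) : (lev q).toNat ≤ hgt w :=
  Finset.le_sup (f := fun p : ℤ × ℤ => (lev p).toNat) (List.mem_toFinset.2 h)

lemma hgt_le (w : Wd) (m : ℕ) (h : ∀ q ∈ vt 0 w, lev q ≤ m) : hgt w ≤ m := by
  refine Finset.sup_le fun q hq => ?_
  have := h q (List.mem_toFinset.1 hq)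
  omega

lemma exists_hgt (w : Wd) : ∃ q ∈ vt 0 w, (lev q).toNat = hgt w := by
  have hne : (vt 0 w).toFinset.Nonempty := ⟨0, List.mem_toFinset.2 (mem_vt_self 0 w)⟩
  obtain ⟨q, hq, h⟩ := Finset.exists_mem_eq_sup _ hne (fun p : ℤ × ℤ => (lev p).toNat)
  exact ⟨q, List.mem_toFinset.1 hq, h.symm⟩

/-- all vertices of an arch are at level at least `0` -/
lemma arch_nonneg (x : ℤ) (w : Wd) (h : Arch x w) (q : ℤ × ℤ) (hq : q ∈ vt 0 w) : 0 ≤ lev q := by
  obtain ⟨h1, h2, _, h4⟩ := h
  unfold vt at hq
  rw [List.mem_append] at hq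
  rcases hq with hq | hq
  · cases w with
    | nil => exact absurd rfl h1
    | cons d s =>
      rw [vs_cons] at hq h4
      rw [List.mem_cons] at hq
      rcases hq with hq | hq
      · rw [hq]; simp [lev]
      · exact (h4 q hq).le
  · rw [List.mem_singleton] at hq
    rw [hq, h2]
    simp [lev]

lemma strip_U (U D : Wd) (h : StripPair U D) (q : ℤ × ℤ) (hq : q ∈ vs 0 U) :
    lev q ≤ lev (ep 0 U) := by
  obtain ⟨h0, _, _, _, h1, _⟩ := h
  cases U with
  | nil => simp at hq
  | cons d s =>
    rw [vs_cons] at hq h1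
    rw [List.mem_cons] at hq
    rcases hq with hq | hq
    · rw [hq]
      exact h0.le
    · exact (h1 q hq).2.le

lemma strip_D (U D : Wd) (h : StripPair U D) (q : ℤ × ℤ) (hq : q ∈ vt 0 D) : lev q ≤ 0 := by
  obtain ⟨h0, h01, _, _, _, h1⟩ := h
  unfold vt at hq
  rw [List.mem_append] at hq
  rcases hq with hq | hq
  · cases D with
    | nil => simp at hq
    | cons d s =>
      rw [vs_cons] at hq h1
      rw [List.mem_cons] at hq
      rcases hq with hq | hq
      · rw [hq]; simp [lev]
      · exact (h1 q hq).1.le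
  · rw [List.mem_singleton] at hq
    rw [hq, h01]
    linarith

end HG

open HG

theorem hg : HG_Stmt := by
  classical
  refine ⟨?_, ?_, ?_⟩
  · intro r x N p w hx hp hw
    obtain ⟨U, D⟩ := p
    rw [allowed, mem_filter] at hp
    obtain ⟨hPc, -, -, -⟩ := hp
    rw [Pc, mem_filter] at hPc
    obtain ⟨-, ⟨hSP, -⟩, -⟩ := hPc
    rw [ArchSet, mem_filter] at hw
    obtain ⟨-, hA, -⟩ := hw
    simp only at hSP ⊢
    have hpos := hSP.1
    have hlevw : lev (ep 0 w) = 0 := by
      rw [hA.2.1]; simp [lev]
    have hvt : vt 0 (U ++ w ++ D) = vs 0 U ++ (vs (ep 0 U) w ++ vt (ep (ep 0 U) w) D) := by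
      rw [List.append_assoc, vt_append, vt_append]
    have hht : ((htn (U, D) : ℕ) : ℤ) = lev (ep 0 U) := by
      unfold htn ht
      simp only
      omega
    apply le_antisymm
    · apply hgt_le
      intro q hq
      push_cast
      rw [hht]
      rw [hvt, List.mem_append, List.mem_append] at hq
      rcases hq with hq | hq | hq
      · have := strip_U U D hSP q hq
        have h2 : (0 : ℤ) ≤ (hgt w : ℤ) := by positivity
        linarith
      · rw [vs_eq, List.mem_map] at hq
        obtain ⟨q', hq', rfl⟩ := hq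
        have h1 : q' ∈ vt 0 w := by
          unfold vt
          exact List.mem_append_left _ hq'
        have h2 := le_hgt w q' h1
        rw [lev_add]
        omega
      · rw [vt_eq, List.mem_map] at hq
        obtain ⟨q', hq', rfl⟩ := hq
        have h1 := strip_D U D hSP q' hq'
        rw [ep_eq (ep 0 U) w, lev_add, lev_add, hlevw]
        have h2 : (0 : ℤ) ≤ (hgt w : ℤ) := by positivity
        linarith
    · obtain ⟨q, hq, hq2⟩ := exists_hgt w
      have h0 := arch_nonneg _ _ hA q hq
      have hmem : q + ep 0 U ∈ vt 0 (U ++ w ++ D) := by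
        rw [hvt, List.mem_append, List.mem_append]
        right
        unfold vt at hq
        rw [List.mem_append] at hq
        rcases hq with hq | hq
        · left
          rw [vs_eq, List.mem_map]
          exact ⟨q, hq, rfl⟩
        · right
          rw [List.mem_singleton] at hq
          rw [hq, ← ep_eq]
          exact mem_vt_self _ _
      have h1 := le_hgt _ _ hmem
      rw [lev_add] at h1
      omega
  · intro x w hx hA
    constructor
    · obtain ⟨h1, h2, h3, h4⟩ := hA
      cases w with
      | nil => exact absurd rfl h1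
      | cons d s =>
        cases s with
        | nil =>
          exfalso
          rw [ep_cons, ep_nil, zero_add] at h2
          have h5 := lev_dv d
          rw [h2] at h5
          simp [lev] at h5
        | cons e t =>
          have hm : (0 : ℤ × ℤ) + dv d ∈ (vs 0 (d :: e :: t)).tail := by
            simp
          have h5 := h4 _ hm
          have hm2 : (0 : ℤ × ℤ) + dv d ∈ vt 0 (d :: e :: t) := by
            simp
          have h6 := le_hgt _ _ hm2
          omega
    · obtain ⟨q, hq, hq2⟩ := exists_hgt w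
      obtain ⟨a, b, hab, hqa⟩ := split 0 q w hq
      have h1 := (lev_ep 0 a).1
      have h2 := (lev_ep q b).2
      have h3 : ep q b = ep 0 w := by
        rw [hab, ep_append, ← hqa]
      have h4 : lev (ep 0 w) = 0 := by
        rw [hA.2.1]; simp [lev]
      rw [h3, h4] at h2
      rw [← hqa, lev_zero] at h1
      have hl : w.length = a.length + b.length := by rw [hab, List.length_append]
      omega
  · intro r p hp
    obtain ⟨U, D⟩ := p
    rw [Pc, mem_filter] at hp
    obtain ⟨-, ⟨hSP, -⟩, -⟩ := hp
    simp only at hSP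
    have hpos := hSP.1
    have hD := hSP.2.1
    have h1 := (lev_ep 0 U).1
    have h2 := (lev_ep 0 D).2
    rw [lev_zero] at h1 h2
    unfold htn ht hl
    simp only
    omega

end Pool.Agent.FL
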