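import Pool.Agent.Lib_helper89.FL.Bound
import Pool.Agent.Lib_helper89.FL.FinB

/-!
Two-sided bounds of the weighted number of polygons.
-/

set_option autoImplicit false

namespace Pool.Agent.FL

open Finset Filter Topology Pool.Agent.Gap Pool.Agent.Lib27 Pool.Agent.SapR Pool.Agent.AreaLaw

/-- the data of kernel, caps and solution -/
noncomputable def Dat.dt {C θ : ℝ} {n : ℕ} {s : ℝ} (D : Dat C θ n s) : Bound.Dt C θ where
  G := D.G
  C0 := 2 * n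
  s := capW n s
  t := capW n s
  B := D.B
  cls := D.cls
  cs := D.cap
  ct := D.cap
  sol := D.sol

/-- the value at `1` is the weighted number of canonical words -/
theorem Dat.X_eq {C θ : ℝ} {n : ℕ} {s : ℝ} (D : Dat C θ n s) :
    D.dt.X n = ((n : ℝ) * Real.sqrt n) * D.G.rho ^ n * ∑ q ∈ M41.Om (2 * n - 1) n, wtq n s q := by
  unfold Bound.Dt.X Dat.dt
  simp only
  congr 1
  have h := congrArg (Polynomial.eval 1) D.count
  rw [Polynomial.eval_finsetSum] at h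
  rw [← h]
  refine Finset.sum_congr rfl fun q _ => ?_
  rw [Polynomial.eval_mul, Polynomial.eval_C, Polynomial.eval_pow, Polynomial.eval_X, one_pow,
    mul_one]

/-- the critical point is unique -/
theorem crit_unique {n : ℕ} {s a b : ℝ} (hs : 0 < s) (hn : 1 ≤ n) (ha : 0 < a) (hb : 0 < b)
    (h1 : ∑ p ∈ Pc (2 * n - 1), a ^ hl p * s ^ (hl p - htn p) = 1)
    (h2 : ∑ p ∈ Pc (2 * n - 1), b ^ hl p * s ^ (hl p - htn p) = 1) (hhl : ∀ p ∈ Pc (2 * n - 1), 1 ≤ hl p) :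
    a = b := by
  by_contra hne
  have key : ∀ a b : ℝ, 0 < a → a < b →
      ∑ p ∈ Pc (2 * n - 1), a ^ hl p * s ^ (hl p - htn p) = 1 →
      ∑ p ∈ Pc (2 * n - 1), b ^ hl p * s ^ (hl p - htn p) = 1 → False := by
    intro a b ha hab h1 h2
    have hne : (Pc (2 * n - 1)).Nonempty := by
      by_contra hE
      rw [Finset.not_nonempty_iff_eq_empty] at hE
      rw [hE] at h1
      simp at h1
    have : ∑ p ∈ Pc (2 * n - 1), a ^ hl p * s ^ (hl p - htn p) <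
        ∑ p ∈ Pc (2 * n - 1), b ^ hl p * s ^ (hl p - htn p) := by
      refine Finset.sum_lt_sum_of_nonempty hne fun p hp => ?_
      refine mul_lt_mul_of_pos_right ?_ (pow_pos hs _)
      exact pow_lt_pow_left₀ hab ha.le (by have := hhl p hp; omega)
    rw [h1, h2] at this
    exact lt_irrefl _ this
  rcases lt_or_gt_of_ne hne with h | h
  · exact key a b ha h h1 h2
  · exact key b a hb h h2 h1

/-- Two-sided bound of the weighted number of canonical words, uniformly for `s ≤ s1`. -/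
theorem Z_bound (hMG : MG_Stmt) (hMG2 : MGI2_Stmt) (hKW : KW_Stmt) (hLT : GLT_Stmt)
    (oLT1 : Gap.LT1_Stmt) (oM2 : Gap.M2_Stmt) (oBAL : Gap.BAL_Stmt) (s1 : ℝ) (h0 : 0 < s1)
    (h1 : s1 < 1) : ∃ C1 : ℝ, 0 < C1 ∧ ∃ N1 : ℕ, ∀ n : ℕ, N1 ≤ n → ∀ s : ℝ, 0 < s → s ≤ s1 →
      ∃ rho : ℝ, 0 < rho ∧ ∑ p ∈ Pc (2 * n - 1), rho ^ hl p * s ^ (hl p - htn p) = 1 ∧
        C1⁻¹ ≤ ((n : ℝ) * Real.sqrt n) * rho ^ n * ∑ q ∈ M41.Om (2 * n - 1) n, wtq n s q ∧
        ((n : ℝ) * Real.sqrt n) * rho ^ n * ∑ q ∈ M41.Om (2 * n - 1) n, wtq n s q ≤ C1 := by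
  obtain ⟨C, θ, hC, hθ, hθ1, N0, hN0, hD⟩ := exists_dat hMG hMG2 hKW s1 h0 h1
  obtain ⟨C1, hC1, n1, hX⟩ := Bound.two_sided hLT oLT1 oM2 oBAL hC hθ hθ1
  refine ⟨C1, hC1, max N0 n1, fun n hn s hs hs1 => ?_⟩
  obtain ⟨D⟩ := hD n ((le_max_left _ _).trans hn) s hs hs1
  have h2 := hX D.dt n ((le_max_right _ _).trans hn)
  rw [D.X_eq] at h2
  exact ⟨D.G.rho, D.G.rho_pos, D.crit, h2.1, h2.2⟩

end Pool.Agent.FL
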