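import Pool.Agent.Lib_helper89.FL.StmtsCW
import Pool.Agent.Lib_helper58.SapR.Rot
import Pool.Agent.Lib_helper27.Transl

/-!
# Polygons under a force (MP_f6626d_co): module TR
-/

set_option autoImplicit false

namespace Pool.Agent.FL.TR

open Finset Pool.Agent.Lib27 Pool.Agent.SapR Pool.Agent.AreaLaw

lemma span_eq (n : ℕ) (s : Fin (2 * n) → Fin 4) : span n s = spn (List.ofFn s) := by
  have hL : (vs 0 (List.ofFn s)).length = 2 * n := by rw [vs_length, List.length_ofFn]
  have hpos : ∀ j : ℕ, j < 2 * n → (pos n s j).1 + (pos n s j).2 =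
      lev (ep 0 ((List.ofFn s).take j)) := by
    intro j hj
    rw [pos_eq n s j hj.le]
    rfl
  unfold span spn
  apply le_antisymm
  · apply Finset.sup_le
    rintro ⟨i, j⟩ hij
    rw [mem_product, mem_range, mem_range] at hij
    have hi : i < (vs 0 (List.ofFn s)).length := by rw [hL]; exact hij.1
    have hj : j < (vs 0 (List.ofFn s)).length := by rw [hL]; exact hij.2
    have h1 := Finset.le_sup (f := fun p : (ℤ × ℤ) × (ℤ × ℤ) => (lev p.1 - lev p.2).toNat)
      (s := (vs 0 (List.ofFn s)).toFinset ×ˢ (vs 0 (List.ofFn s)).toFinset)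
      (b := ((vs 0 (List.ofFn s))[i], (vs 0 (List.ofFn s))[j]))
      (mem_product.2 ⟨List.mem_toFinset.2 (List.getElem_mem hi),
        List.mem_toFinset.2 (List.getElem_mem hj)⟩)
    refine le_trans (le_of_eq ?_) h1
    simp only [vs_getElem]
    rw [hpos i hij.1, hpos j hij.2]
  · apply Finset.sup_le
    rintro ⟨p, q⟩ hpq
    rw [mem_product, List.mem_toFinset, List.mem_toFinset] at hpq
    obtain ⟨i, hi, hi'⟩ := List.getElem_of_mem hpq.1
    obtain ⟨j, hj, hj'⟩ := List.getElem_of_mem hpq.2
    have hi2 : i < 2 * n := by rw [← hL]; exact hi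
    have hj2 : j < 2 * n := by rw [← hL]; exact hj
    have h1 := Finset.le_sup (f := fun k : ℕ × ℕ =>
        ((pos n s k.1).1 + (pos n s k.1).2 - ((pos n s k.2).1 + (pos n s k.2).2)).toNat)
      (s := Finset.range (2 * n) ×ˢ Finset.range (2 * n)) (b := (i, j))
      (mem_product.2 ⟨mem_range.2 hi2, mem_range.2 hj2⟩)
    refine le_trans (le_of_eq ?_) h1
    rw [vs_getElem] at hi' hj'
    change (lev p - lev q).toNat = ((pos n s i).1 + (pos n s i).2 -
      ((pos n s j).1 + (pos n s j).2)).toNat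
    rw [hpos i hi2, hpos j hj2, hi', hj']

lemma countP_add_le {α : Type} (l : List α) (p q : α → Bool) (h : ∀ x, ¬ (p x = true ∧ q x = true)) :
    l.countP p + l.countP q ≤ l.length := by
  induction l with
  | nil => simp
  | cons a l ih =>
    rw [List.countP_cons, List.countP_cons, List.length_cons]
    have := h a
    split_ifs with h1 h2
    · exact absurd ⟨h1, h2⟩ this
    · omega
    · omega
    · omega

lemma exists_bound (l : List (ℤ × ℤ)) : ∃ B : ℤ, ∀ p ∈ l, -B ≤ lev p ∧ lev p ≤ B := by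
  induction l with
  | nil => exact ⟨0, by simp⟩
  | cons a l ih =>
    obtain ⟨B, hB⟩ := ih
    refine ⟨max B |lev a|, ?_⟩
    intro p hp
    rcases List.mem_cons.1 hp with rfl | hp
    · have h1 := abs_le.1 (le_max_right B |lev p|)
      exact ⟨h1.1, h1.2⟩
    · have h1 := hB p hp
      have h2 := le_max_left B |lev a|
      constructor <;> linarith

/-- words of polygons: the run condition with `r = 2 n - 1` is the existence of a cut -/
lemma short_iff_cut (n : ℕ) (hn : 1 ≤ n) (w : List (Fin 4)) (hw : w ∈ W n) :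
    ShortRuns (2 * n - 1) (vs 0 w) ↔ ¬ ∀ h : ℤ, ¬ Cut (vs 0 w) h := by
  have hlen : (vs 0 w).length = 2 * n := by rw [vs_length, ((mem_W n w).1 hw).1]
  constructor
  · intro hs hc
    obtain ⟨B, hB⟩ := exists_bound (vs 0 w)
    have h1 := hs (-B) B (fun h _ _ => hc h)
    have h2 : cntI (vs 0 w) (-B) B = (vs 0 w).length := by
      unfold cntI
      rw [List.countP_eq_length]
      intro p hp
      simpa using hB p hp
    omega
  · intro hc a b hab
    push Not at hc
    obtain ⟨h, hh⟩ := hc
    have hnot : ¬ (a ≤ h ∧ h ≤ b) := fun hx => hab h hx.1 hx.2 hh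
    have h1 := countP_add_le (vs 0 w) (fun p => decide (a ≤ lev p ∧ lev p ≤ b))
      (fun p => decide (lev p = h)) (by
        rintro p ⟨h1, h2⟩
        have h1' := of_decide_eq_true h1
        have h2' := of_decide_eq_true h2
        rw [h2'] at h1'
        exact hnot h1')
    have h2 : cnt (vs 0 w) h = 2 := hh.1
    unfold cnt at h2
    unfold cntI
    omega

theorem fam_eq (n : ℕ) (hn : 1 ≤ n) : ∀ g : List (Fin 4) → ℝ,
    ∑ w ∈ W n, g w = ∑ w ∈ Fam (2 * n - 1) n, g w + ∑ w ∈ NoCut n, g w := by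
  classical
  intro g
  have e1 : (W n).filter (fun w => ShortRuns (2 * n - 1) (vs 0 w)) = Fam (2 * n - 1) n := by
    ext w
    simp only [Fam, mem_filter]
  have e2 : (W n).filter (fun w => ¬ ShortRuns (2 * n - 1) (vs 0 w)) = NoCut n := by
    ext w
    unfold NoCut
    rw [mem_filter, mem_filter]
    apply and_congr_right
    intro hw
    rw [short_iff_cut n hn w hw, not_not]
  rw [← Finset.sum_filter_add_sum_filter_not (W n) (fun w => ShortRuns (2 * n - 1) (vs 0 w)) g,
    e1, e2]

end Pool.Agent.FL.TR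

namespace Pool.Agent.FL

open Finset Pool.Agent.Lib27 Pool.Agent.SapR Pool.Agent.AreaLaw

/-- TR -/
theorem tr (h : K1H_Stmt) : TR_Stmt := by
  intro n hn F
  have h1 : ∑ s ∈ SAP n, F |dbl 0 (List.ofFn s)| (span n s) =
      ∑ w ∈ W n, F |dbl 0 w| (spn w) := by
    rw [← sum_SAP n (fun w => F |dbl 0 w| (spn w))]
    apply Finset.sum_congr rfl
    intro s _
    rw [TR.span_eq]
  rw [h1, TR.fam_eq n hn, h (2 * n - 1) n (by omega) F]
  congr 2
  unfold M41.Om
  rw [sum_sigma]
  apply sum_congr rfl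
  intro a _
  rw [sum_sigma]
  apply sum_congr rfl
  intro M _
  rw [sum_product]

end Pool.Agent.FL
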