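import Pool.Agent.Lib_helper89.FL.FinB
import Pool.Agent.Lib_helper41.SapR.Transfer

/-!
Assembly, part C: the final theorem from the modules.
-/

set_option autoImplicit false

namespace Pool.Agent.FL

open Finset Pool.Agent.Lib27 Pool.Agent.SapR Pool.Agent.Gap Filter Topology Pool.Agent.AreaLaw
  MeasureTheory

lemma seqM_cdf (C θ C1 : ℝ) (hC : 0 < C) (hθ : 0 < θ) (hθ1 : θ < 1) (hC1 : 0 < C1)
    (hN : ∀ (n : ℕ) (s rho : ℝ), 2 ≤ n → 0 < s → s ≤ 1 → 0 < rho →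
      ∑ p ∈ Pc (2 * n - 1), rho ^ hl p * s ^ (hl p - htn p) = 1 → Tails C θ n s rho →
      ∑ q ∈ M41.Om (2 * n - 1) n, wtq n s q *
        |(|((dbl 0 q.2.2.2 + dbl 0 q.2.2.1 : ℤ) : ℝ)| - (M41.Ar (2 * n - 1) q.2.2.2 : ℝ))| ≤
      C1 * n * Real.log n * ∑ q ∈ M41.Om (2 * n - 1) n, wtq n s q + C1 / ((n : ℝ) ^ 5 * rho ^ n))
    (N0 : ℕ) (hN0 : 2 ≤ N0) (s : ℕ → ℝ) (hs : ∀ n, 0 < s n) (hs1 : ∀ n, s n ≤ 1)
    (D : ∀ n, Dat C θ (mx N0 n) (s (mx N0 n))) (n : ℕ) (x : ℝ) :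
    (seqM C θ C1 hC hθ hθ1 hC1 hN N0 hN0 s hs hs1 D).cdf n x =
      cdfO (mx N0 n) (s (mx N0 n)) x := by
  unfold SeqModel.cdf cdfO SeqModel.W
  rfl

/-- convergence along every sequence of forces bounded below -/
theorem conv_of_bound (hMG : MG_Stmt) (hMG2 : MGI2_Stmt) (hKW : KW_Stmt) (hNEAR : NEAR_Stmt)
    (hHG : HG_Stmt) (hTR : TR_Stmt) (μ : Measure ℝ)
    (hG : ∀ C θ : ℝ, 0 < C → 0 < θ → θ < 1 → ∀ M : SeqModel C θ,
      ∀ x : ℝ, μ {x} = 0 → Tendsto (fun n : ℕ => M.cdf n x) atTop (𝓝 (μ (Set.Iic x)).toReal))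
    (a : ℝ) (ha : 0 < a) (f : ℕ → ℝ) (hf : ∀ n, a ≤ f n) (x : ℝ) (hx : μ {x} = 0) :
    Tendsto (fun n : ℕ => forceCdf (f n) n x) atTop (𝓝 (μ (Set.Iic x)).toReal) := by
  obtain ⟨C, θ, hC, hθ, hθ1, N0, hN0, hD⟩ := exists_dat hMG hMG2 hKW (Real.exp (-a))
    (Real.exp_pos _) (by rw [Real.exp_lt_one_iff]; linarith)
  obtain ⟨C1, hC1, hN⟩ := hNEAR C θ hC hθ hθ1
  have hs : ∀ n, 0 < Real.exp (-(f n)) := fun n => Real.exp_pos _
  have hs1 : ∀ n, Real.exp (-(f n)) ≤ 1 := fun n => by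
    rw [Real.exp_le_one_iff]
    linarith [hf n]
  have hsa : ∀ n, Real.exp (-(f n)) ≤ Real.exp (-a) := fun n => by
    apply Real.exp_le_exp.2
    linarith [hf n]
  set D : ∀ n, Dat C θ (mx N0 n) (Real.exp (-(f (mx N0 n)))) := fun n =>
    (hD (mx N0 n) (le_max_right _ _) _ (hs _) (hsa _)).some
  have h1 := hG C θ hC hθ hθ1 (seqM C θ C1 hC hθ hθ1 hC1 hN N0 hN0
    (fun n => Real.exp (-(f n))) hs hs1 D) x hx
  refine h1.congr' ?_
  filter_upwards [eventually_ge_atTop N0] with n hn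
  rw [seqM_cdf]
  simp only [mx_eq N0 n hn]
  rw [forceCdf_eq hHG hTR n (by omega)]

lemma forceCdf_mono (f : ℝ) (n : ℕ) : Monotone (forceCdf f n) := by
  classical
  intro x y hxy
  unfold forceCdf
  have hZ : 0 ≤ forceZ f n := Finset.sum_nonneg fun s _ => (Real.exp_pos _).le
  apply div_le_div_of_nonneg_right _ hZ
  apply Finset.sum_le_sum_of_subset_of_nonneg
  · intro s hs
    rw [mem_filter] at hs ⊢
    refine ⟨hs.1, hs.2.trans ?_⟩
    exact mul_le_mul_of_nonneg_right hxy (Finset.sum_nonneg fun t _ =>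
      mul_nonneg (Real.exp_pos _).le (by rw [area_eq]; unfold T; positivity))
  · intro s _ _
    exact (Real.exp_pos _).le

/-- the final theorem from the modules -/
theorem final (hMG : MG_Stmt) (hMG2 : MGI2_Stmt) (hKW : KW_Stmt) (hNEAR : NEAR_Stmt)
    (hHG : HG_Stmt) (hTR : TR_Stmt) (hG : GFIN_Stmt) : FINAL_Stmt := by
  obtain ⟨μ, hμ, hold, hnew⟩ := hG
  refine ⟨μ, hμ, ?_, ?_⟩
  · intro x hx
    have key : Tendsto (fun n : ℕ => areaCdf n (Short 1 n) x) atTop (𝓝 (μ (Set.Iic x)).toReal) := by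
      refine (hold (M41.mdl 1 le_rfl) x hx).congr' ?_
      filter_upwards [eventually_gt_atTop 1] with n hn
      exact (M41.short_cdf 1 le_rfl n (by omega) x).symm
    refine key.congr' ?_
    filter_upwards [eventually_ge_atTop 2] with n hn
    exact (M41.stair_cdf n hn x).symm
  · exact diag_force μ (fun f n x => forceCdf f n x) (fun f n => forceCdf_mono f n)
      (fun a ha f hf x hx => conv_of_bound hMG hMG2 hKW hNEAR hHG hTR μ hnew a ha f hf x hx)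

end Pool.Agent.FL
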