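import Pool.Agent.Lib_helper89.FL.StmtsGU
import Pool.Agent.Lib_helper94.Gap.VEX

/-!
# MODULE GV (MP_f6626d_co): the critical solution with uniform bounds

Existence as in `Lib_helper94/Gap/VEX`; the uniform lower bound by the maximum principle:
`1 ≤ (g + R) / N + t + ∑_{a ≤ L} x_a`, where `x_a` is the solution with source `δ_a`, `t` the one
with source `κ 1_{> L}`, and `rho ^ (a - 1) x_a ≤ x_1`.
-/

set_option autoImplicit false

open Finset Filter Topology

namespace Pool.Agent.FL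

open Pool.Agent.Gap

namespace GV

variable (G : GapKernel)

lemma RS_sub {N : ℕ} {x y e f : ℤ → ℝ} (hx : VX.RS G N x e) (hy : VX.RS G N y f) :
    VX.RS G N (fun g => x g - y g) (fun g => e g - f g) := by
  refine ⟨fun g hg => by simp only [hx.1 g hg, hy.1 g hg, sub_zero], fun g hg => ?_⟩
  have h1 := hx.2 g hg
  have h2 := hy.2 g hg
  simp only [mul_sub, Finset.sum_sub_distrib]
  rw [h1, h2]
  ring

lemma RS_add {N : ℕ} {x y e f : ℤ → ℝ} (hx : VX.RS G N x e) (hy : VX.RS G N y f) :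
    VX.RS G N (fun g => x g + y g) (fun g => e g + f g) := by
  refine ⟨fun g hg => by simp only [hx.1 g hg, hy.1 g hg, add_zero], fun g hg => ?_⟩
  have h1 := hx.2 g hg
  have h2 := hy.2 g hg
  simp only [mul_add, Finset.sum_add_distrib]
  rw [h1, h2]
  ring

lemma RS_smul {N : ℕ} {x e : ℤ → ℝ} (c : ℝ) (hx : VX.RS G N x e) :
    VX.RS G N (fun g => c * x g) (fun g => c * e g) := by
  refine ⟨fun g hg => by simp only [hx.1 g hg, mul_zero], fun g hg => ?_⟩
  have h1 := hx.2 g hg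
  simp only
  rw [h1, mul_add, Finset.mul_sum]
  congr 1
  exact Finset.sum_congr rfl fun g' _ => by ring

lemma RS_sum {N : ℕ} {ι : Type*} (s : Finset ι) {x e : ι → ℤ → ℝ}
    (hx : ∀ a ∈ s, VX.RS G N (x a) (e a)) :
    VX.RS G N (fun g => ∑ a ∈ s, x a g) (fun g => ∑ a ∈ s, e a g) := by
  refine ⟨fun g hg => Finset.sum_eq_zero fun a ha => (hx a ha).1 g hg, fun g hg => ?_⟩
  simp only
  rw [Finset.sum_congr rfl fun a ha => (hx a ha).2 g hg, Finset.sum_add_distrib]
  congr 1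
  rw [Finset.sum_comm]
  exact Finset.sum_congr rfl fun g' _ => by rw [Finset.mul_sum]

/-- comparison principle -/
lemma RS_le {N : ℕ} {x y e f : ℤ → ℝ} (hx : VX.RS G N x e) (hy : VX.RS G N y f)
    (h : ∀ g ∈ Icc (1 : ℤ) N, e g ≤ f g) (g : ℤ) : x g ≤ y g := by
  have := VX.RS_nonneg G (RS_sub G hy hx) (fun g hg => sub_nonneg.2 (h g hg)) g
  linarith

/-- unit source -/
def dl (a : ℕ) (g : ℤ) : ℝ := if g = a then 1 else 0

lemma dl_nonneg (a : ℕ) (g : ℤ) : 0 ≤ dl a g := by unfold dl; split_ifs <;> norm_num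

/-- one step of the comparison of the Green's functions -/
lemma dl_step {N a : ℕ} (ha : 1 ≤ a) (haN : a < N) {x y : ℤ → ℝ} (hx : VX.RS G N x (dl a))
    (hy : VX.RS G N y (dl (a + 1))) (g : ℤ) : G.rho * y g ≤ x g := by
  have hw : VX.RS G N (fun g => x g - dl a g) (fun g => G.Kc g a) := by
    refine ⟨fun g hg => ?_, fun g hg => ?_⟩
    · simp only [hx.1 g hg, dl]
      rw [if_neg (by omega), sub_zero]
    · have h1 := hx.2 g hg
      have h2 : ∑ g' ∈ Icc (1 : ℤ) N, G.Kc g g' * dl a g' = G.Kc g a := by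
        rw [Finset.sum_eq_single (a : ℤ)]
        · simp [dl]
        · intro b _ hb
          simp [dl, hb]
        · intro h
          exact absurd (by rw [Finset.mem_Icc]; omega) h
      simp only [mul_sub, Finset.sum_sub_distrib]
      rw [h2, h1]
      ring
  have h := RS_le G (RS_smul G G.rho hy) hw (fun g _ => ?_) g
  · have := dl_nonneg a g
    linarith
  · unfold dl
    split_ifs with h1
    · subst h1
      have := VL.Kc_down G ((a + 1 : ℕ) : ℤ) (by push_cast; omega)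
      rw [show ((a + 1 : ℕ) : ℤ) - 1 = a by push_cast; ring] at this
      linarith
    · have := VL.Kc_nonneg G g a
      linarith

/-- comparison of the Green's functions with source at `a` and at `1` -/
lemma dl_le {N : ℕ} (hex : ∀ e : ℤ → ℝ, ∃ x, VX.RS G N x e) {x1 : ℤ → ℝ}
    (h1 : VX.RS G N x1 (dl 1)) : ∀ a : ℕ, a + 1 ≤ N → ∀ x : ℤ → ℝ, VX.RS G N x (dl (a + 1)) →
      ∀ g, G.rho ^ a * x g ≤ x1 g := by
  intro a
  induction a with
  | zero =>
    intro _ x hx g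
    rw [pow_zero, one_mul]
    exact RS_le G hx h1 (fun g _ => le_rfl) g
  | succ a ih =>
    intro ha x hx g
    obtain ⟨y, hy⟩ := hex (dl (a + 1))
    have h2 := ih (by omega) y hy g
    have h3 := dl_step G (a := a + 1) (by omega) (by omega) hy hx g
    have h4 := mul_le_mul_of_nonneg_left h3 (pow_nonneg G.rho_pos.le a)
    calc G.rho ^ (a + 1) * x g = G.rho ^ a * (G.rho * x g) := by ring
      _ ≤ _ := h4.trans h2

/-- the full sum over the range of the kernel -/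
lemma sum_full (g : ℤ) (f : ℤ → ℝ) (s : Finset ℤ)
    (hs : ∀ g' : ℤ, 1 ≤ g' → g - G.R ≤ g' → g' ≤ g + G.R → g' ∈ s) :
    ∑ g' ∈ s, G.Kc g g' * f g' = ∑ g' ∈ Icc (g - G.R) (g + G.R), G.Kc g g' * f g' := by
  have e1 : ∑ g' ∈ s ∩ Icc (g - (G.R : ℤ)) (g + G.R), G.Kc g g' * f g'
      = ∑ g' ∈ Icc (g - (G.R : ℤ)) (g + G.R), G.Kc g g' * f g' := by
    refine Finset.sum_subset Finset.inter_subset_right fun g' h2 h3 => ?_
    have h4 : g' ∉ s := fun hc => h3 (Finset.mem_inter.2 ⟨hc, h2⟩)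
    rw [Finset.mem_Icc] at h2
    have h5 : g' ≤ 0 := by
      by_contra h6
      exact h4 (hs g' (by omega) h2.1 h2.2)
    rw [G.Kc_out g g' h5, zero_mul]
  have e2 : ∑ g' ∈ s ∩ Icc (g - (G.R : ℤ)) (g + G.R), G.Kc g g' * f g'
      = ∑ g' ∈ s, G.Kc g g' * f g' := by
    refine Finset.sum_subset Finset.inter_subset_left fun g' h2 h3 => ?_
    have h4 : g' ∉ Icc (g - (G.R : ℤ)) (g + G.R) := fun hc => h3 (Finset.mem_inter.2 ⟨h2, hc⟩)
    rw [Finset.mem_Icc] at h4
    rw [G.Kc_range g g' (by rw [lt_abs]; omega), zero_mul]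
  rw [← e1, e2]

lemma sum_kk_lin (g : ℤ) :
    ∑ d ∈ Icc (-(G.R : ℤ)) G.R, VL.kk G d * ((g : ℝ) + d + G.R) = (g : ℝ) + G.R := by
  have h1 : ∑ d ∈ Icc (-(G.R : ℤ)) G.R, VL.kk G d * (d : ℝ) = 0 := by
    rw [VL.sum_symm]
    simp only [VL.kk_even]
    push_cast
    simp
  have h2 : ∀ d ∈ Icc (-(G.R : ℤ)) G.R, VL.kk G d * ((g : ℝ) + d + G.R)
      = ((g : ℝ) + G.R) * VL.kk G d + VL.kk G d * d := fun d _ => by ring
  rw [Finset.sum_congr rfl h2, Finset.sum_add_distrib, ← Finset.mul_sum, VL.kk_sum, h1]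
  ring

/-- `g + R` is superharmonic on the half line -/
lemma lin_super (g : ℤ) (hg : 1 ≤ g) :
    ∑ g' ∈ Icc (g - G.R) (g + G.R), G.Kc g g' * ((g' : ℝ) + G.R) ≤ (g : ℝ) + G.R := by
  rw [← sum_kk_lin G g, VL.sum_Icc_shift]
  refine Finset.sum_le_sum fun d hd => ?_
  rw [Finset.mem_Icc] at hd
  have h1 := VX.Kc_le_kk G g (g + d)
  rw [show g + d - g = d by ring] at h1
  have h2 : (0 : ℝ) ≤ (g : ℝ) + d + G.R := by
    have : (0 : ℤ) ≤ g + d + G.R := by omega
    exact_mod_cast this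
  push_cast
  exact mul_le_mul_of_nonneg_right h1 h2

/-- splitting the sum at `N` -/
lemma sum_split (N : ℕ) (g : ℤ) (hg : g ∈ Icc (1 : ℤ) N) (f : ℤ → ℝ) :
    ∑ g' ∈ Icc (1 : ℤ) N, G.Kc g g' * f g' + ∑ g' ∈ Icc ((N : ℤ) + 1) (N + G.R), G.Kc g g' * f g'
      = ∑ g' ∈ Icc (g - G.R) (g + G.R), G.Kc g g' * f g' := by
  rw [Finset.mem_Icc] at hg
  rw [← Finset.sum_union]
  · refine sum_full G g f _ fun g' h1 h2 h3 => ?_
    rw [Finset.mem_union, Finset.mem_Icc, Finset.mem_Icc]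
    omega
  · rw [Finset.disjoint_left]
    intro a ha hb
    rw [Finset.mem_Icc] at ha hb
    omega

/-- the defect of the kernel is controlled by the long pieces -/
noncomputable def kp (g : ℤ) : ℝ := ∑ i ∈ G.S.filter (fun i => g ≤ 2 * (i.1 : ℤ)), G.rho ^ i.1 * G.tot i

lemma kp_nonneg (g : ℤ) : 0 ≤ kp G g :=
  Finset.sum_nonneg fun i _ => mul_nonneg (pow_nonneg G.rho_pos.le _) (G.tot_nonneg i)

lemma kap_le {G : GapKernel} (hL : Loc G) (g : ℤ) (hg : 1 ≤ g) : G.kap g ≤ kp G g := by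
  unfold GapKernel.kap kp
  have h1 : ∑ g' ∈ Icc (g - G.R) (g + G.R), G.Kc g g'
      = ∑ i ∈ G.S, G.rho ^ i.1 * ∑ g' ∈ Icc (g - G.R) (g + G.R), G.K i g g' := by
    unfold GapKernel.Kc
    rw [Finset.sum_comm]
    exact Finset.sum_congr rfl fun i _ => by rw [Finset.mul_sum]
  rw [h1, ← G.crit', ← Finset.sum_sub_distrib, Finset.sum_filter]
  refine Finset.sum_le_sum fun i hi => ?_
  have h0 : 0 ≤ ∑ g' ∈ Icc (g - G.R) (g + G.R), G.K i g g' :=
    Finset.sum_nonneg fun g' _ => G.K_nonneg _ _ _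
  have hr := pow_nonneg G.rho_pos.le i.1
  split_ifs with h
  · have := mul_nonneg hr h0
    linarith
  · have h2 : ∑ g' ∈ Icc (g - (G.R : ℤ)) (g + G.R), G.K i g g' = G.tot i := by
      unfold GapKernel.tot
      rw [VL.sum_Icc_shift]
      refine Finset.sum_congr rfl fun d _ => ?_
      by_cases h3 : 1 ≤ g + d
      · rw [hL.K_loc i g (g + d) hg h3 (by omega)]
        congr 1
        ring
      · rw [G.K_out' i g (g + d) (by omega), hL.T_loc i d (by rw [lt_abs]; omega)]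
    rw [h2]
    linarith

/-- cast of sums over integer intervals -/
lemma sum_Icc_cast (N : ℕ) (f : ℤ → ℝ) :
    ∑ g ∈ Icc (1 : ℤ) N, f g = ∑ n ∈ Icc 1 N, f (n : ℤ) := by
  symm
  refine Finset.sum_bij (fun n _ => (n : ℤ)) ?_ ?_ ?_ ?_
  · intro n hn
    rw [Finset.mem_Icc] at hn ⊢
    omega
  · intro a _ b _ h
    exact_mod_cast h
  · intro b hb
    rw [Finset.mem_Icc] at hb
    exact ⟨b.toNat, by rw [Finset.mem_Icc]; omega, by omega⟩
  · intro n _
    rfl

/-- truncated tail of the defect -/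
noncomputable def kt (L : ℕ) (g : ℤ) : ℝ := if (L : ℤ) < g then kp G g else 0

lemma kt_nonneg (L : ℕ) (g : ℤ) : 0 ≤ kt G L g := by
  unfold kt
  split_ifs
  · exact kp_nonneg G g
  · exact le_rfl

lemma sum_kt_le (L N : ℕ) : ∑ g ∈ Icc (1 : ℤ) N, (g : ℝ) * kt G L g ≤
    ∑ i ∈ G.S.filter (fun i => L < 2 * i.1), 4 * (i.1 : ℝ) ^ 2 * (G.rho ^ i.1 * G.tot i) := by
  have hnn : ∀ i : ℕ × ℕ, 0 ≤ G.rho ^ i.1 * G.tot i := fun i =>
    mul_nonneg (pow_nonneg G.rho_pos.le _) (G.tot_nonneg i)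
  have h1 : ∀ g ∈ Icc (1 : ℤ) N, (g : ℝ) * kt G L g ≤
      ∑ i ∈ G.S.filter (fun i => L < 2 * i.1),
        (if g ≤ 2 * (i.1 : ℤ) then (g : ℝ) * (G.rho ^ i.1 * G.tot i) else 0) := by
    intro g hg
    rw [Finset.mem_Icc] at hg
    have hg1 : (1 : ℝ) ≤ g := by exact_mod_cast hg.1
    unfold kt kp
    split_ifs with h
    · rw [Finset.mul_sum, Finset.sum_filter, Finset.sum_filter]
      refine Finset.sum_le_sum fun i _ => ?_
      by_cases h2 : g ≤ 2 * (i.1 : ℤ)
      · rw [if_pos h2, if_pos (by omega)]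
      · simp only [if_neg h2]
        split_ifs <;> simp
    · rw [mul_zero]
      refine Finset.sum_nonneg fun i _ => ?_
      split_ifs
      · exact mul_nonneg (by linarith) (hnn i)
      · exact le_rfl
  refine (Finset.sum_le_sum h1).trans ?_
  rw [Finset.sum_comm]
  refine Finset.sum_le_sum fun i _ => ?_
  rw [← Finset.sum_filter]
  have h2 : ∀ g ∈ (Icc (1 : ℤ) N).filter (fun g => g ≤ 2 * (i.1 : ℤ)),
      (g : ℝ) * (G.rho ^ i.1 * G.tot i) ≤ (2 * i.1 : ℝ) * (G.rho ^ i.1 * G.tot i) := by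
    intro g hg
    rw [Finset.mem_filter] at hg
    have : (g : ℝ) ≤ 2 * i.1 := by exact_mod_cast hg.2
    exact mul_le_mul_of_nonneg_right this (hnn i)
  refine (Finset.sum_le_sum h2).trans ?_
  rw [Finset.sum_const, nsmul_eq_mul]
  have h3 : ((Icc (1 : ℤ) N).filter (fun g => g ≤ 2 * (i.1 : ℤ))).card ≤ 2 * i.1 := by
    have h4 : (Icc (1 : ℤ) N).filter (fun g => g ≤ 2 * (i.1 : ℤ)) ⊆ Icc (1 : ℤ) (2 * (i.1 : ℤ)) := by
      intro g hg
      rw [Finset.mem_filter, Finset.mem_Icc] at hg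
      rw [Finset.mem_Icc]
      omega
    refine (Finset.card_le_card h4).trans ?_
    rw [Int.card_Icc]
    omega
  have h5 : (((Icc (1 : ℤ) N).filter (fun g => g ≤ 2 * (i.1 : ℤ))).card : ℝ) ≤ 2 * i.1 := by
    exact_mod_cast h3
  calc _ ≤ (2 * i.1 : ℝ) * ((2 * i.1 : ℝ) * (G.rho ^ i.1 * G.tot i)) := by
        refine mul_le_mul_of_nonneg_right h5 ?_
        exact mul_nonneg (by positivity) (hnn i)
    _ = _ := by ring

/-- uniform smallness of the tail -/
lemma tail_small (C θ : ℝ) (hθ : 0 < θ) (hθ1 : θ < 1) (ε : ℝ) (hε : 0 < ε) :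
    ∃ L : ℕ, 1 ≤ L ∧ ∀ G : GapKernel, Cls C θ G →
      ∑ i ∈ G.S.filter (fun i => L < 2 * i.1), 4 * (i.1 : ℝ) ^ 2 * (G.rho ^ i.1 * G.tot i) ≤ ε := by
  have hs0 : Summable fun m : ℕ => (m : ℝ) ^ 2 * θ ^ m :=
    summable_pow_mul_geometric_of_norm_lt_one (R := ℝ) 2
      (by rw [Real.norm_of_nonneg hθ.le]; exact hθ1)
  have hs : Summable fun m : ℕ => 4 * C * ((m : ℝ) ^ 2 * θ ^ m) := hs0.mul_left (4 * C)
  obtain ⟨s, hs⟩ := summable_iff_vanishing_norm.1 hs ε hε
  refine ⟨2 * (s.sup id) + 1, by omega, fun G hG => ?_⟩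
  set L := 2 * (s.sup id) + 1 with hL
  set S' := G.S.filter (fun i => L < 2 * i.1) with hS'
  rw [← Finset.sum_fiberwise_of_maps_to (s := S') (t := S'.image Prod.fst) (g := Prod.fst)
    (fun x hx => Finset.mem_image_of_mem _ hx)]
  have h1 : ∀ m ∈ S'.image Prod.fst, ∑ i ∈ S'.filter (fun i => i.1 = m),
      4 * (i.1 : ℝ) ^ 2 * (G.rho ^ i.1 * G.tot i) ≤ 4 * C * ((m : ℝ) ^ 2 * θ ^ m) := by
    intro m _
    have h2 : ∑ i ∈ S'.filter (fun i => i.1 = m), 4 * (i.1 : ℝ) ^ 2 * (G.rho ^ i.1 * G.tot i)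
        = 4 * (m : ℝ) ^ 2 * ∑ i ∈ S'.filter (fun i => i.1 = m), G.rho ^ m * G.tot i := by
      rw [Finset.mul_sum]
      refine Finset.sum_congr rfl fun i hi => ?_
      rw [(Finset.mem_filter.1 hi).2]
    have h3 : ∑ i ∈ S'.filter (fun i => i.1 = m), G.rho ^ m * G.tot i
        ≤ ∑ i ∈ G.S.filter (fun i => i.1 = m), G.rho ^ m * G.tot i := by
      refine Finset.sum_le_sum_of_subset_of_nonneg
        (Finset.filter_subset_filter _ (Finset.filter_subset _ _)) fun i _ _ => ?_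
      exact mul_nonneg (pow_nonneg G.rho_pos.le _) (G.tot_nonneg i)
    rw [h2]
    calc 4 * (m : ℝ) ^ 2 * ∑ i ∈ S'.filter (fun i => i.1 = m), G.rho ^ m * G.tot i
        ≤ 4 * (m : ℝ) ^ 2 * (C * θ ^ m) :=
          mul_le_mul_of_nonneg_left (h3.trans (hG.dec m)) (by positivity)
      _ = _ := by ring
  refine (Finset.sum_le_sum h1).trans ?_
  refine (le_abs_self _).trans (hs (S'.image Prod.fst) ?_).le
  rw [Finset.disjoint_left]
  intro m hm hms
  rw [Finset.mem_image] at hm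
  obtain ⟨i, hi, rfl⟩ := hm
  have h5 := (Finset.mem_filter.1 hi).2
  have h6 : id i.1 ≤ s.sup id := Finset.le_sup hms
  simp only [id] at h6
  omega

/-- the main comparison -/
lemma one_le {G : GapKernel} (hL : Loc G) {N L : ℕ} (hN : 1 ≤ N) {x : ℕ → ℤ → ℝ} {t : ℤ → ℝ}
    (hx : ∀ a ∈ Icc 1 L, VX.RS G N (x a) (dl a)) (ht : VX.RS G N t (kt G L)) (g : ℤ)
    (hg : g ∈ Icc (1 : ℤ) N) :
    1 ≤ ((g : ℝ) + G.R) / N + t g + ∑ a ∈ Icc 1 L, x a g := by
  have hN0 : (0 : ℝ) < N := by exact_mod_cast hN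
  -- the indicator
  have hz : VX.RS G N (fun g => if g ∈ Icc (1 : ℤ) N then 1 else 0)
      (fun g => 1 - ∑ g' ∈ Icc (1 : ℤ) N, G.Kc g g' * 1) := by
    refine ⟨fun g hg => ?_, fun g hg => ?_⟩
    · simp only
      rw [if_neg]
      rw [Finset.mem_Icc]
      omega
    · simp only
      rw [if_pos hg]
      have : ∑ g' ∈ Icc (1 : ℤ) N, G.Kc g g' * (if g' ∈ Icc (1 : ℤ) N then (1 : ℝ) else 0)
          = ∑ g' ∈ Icc (1 : ℤ) N, G.Kc g g' * 1 :=
        Finset.sum_congr rfl fun g' hg' => by rw [if_pos hg']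
      rw [this]
      ring
  -- the linear function
  have hh : VX.RS G N (fun g => if g ∈ Icc (1 : ℤ) N then ((g : ℝ) + G.R) / N else 0)
      (fun g => ((g : ℝ) + G.R) / N - (∑ g' ∈ Icc (1 : ℤ) N, G.Kc g g' * ((g' : ℝ) + G.R)) / N) := by
    refine ⟨fun g hg => ?_, fun g hg => ?_⟩
    · simp only
      rw [if_neg]
      rw [Finset.mem_Icc]
      omega
    · simp only
      rw [if_pos hg]
      have : ∑ g' ∈ Icc (1 : ℤ) N,
          G.Kc g g' * (if g' ∈ Icc (1 : ℤ) N then ((g' : ℝ) + G.R) / N else 0)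
          = (∑ g' ∈ Icc (1 : ℤ) N, G.Kc g g' * ((g' : ℝ) + G.R)) / N := by
        rw [Finset.sum_div]
        exact Finset.sum_congr rfl fun g' hg' => by rw [if_pos hg', mul_div_assoc]
      rw [this]
      ring
  have key := RS_le G hz (RS_add G (RS_add G hh ht) (RS_sum G (Icc 1 L) hx)) (fun g hg => ?_) g
  · rw [if_pos hg, if_pos hg] at key
    exact key
  · have hgm := Finset.mem_Icc.1 hg
    -- superharmonicity with the part beyond `N`
    set β := ∑ g' ∈ Icc ((N : ℤ) + 1) (N + G.R), G.Kc g g' * 1 with hβ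
    have hβ0 : 0 ≤ β := Finset.sum_nonneg fun g' _ => mul_nonneg (VL.Kc_nonneg G _ _) zero_le_one
    have h1 := sum_split G N g hg (fun g' => (g' : ℝ) + G.R)
    have h2 := lin_super G g hgm.1
    have h3 : (N : ℝ) * β ≤ ∑ g' ∈ Icc ((N : ℤ) + 1) (N + G.R), G.Kc g g' * ((g' : ℝ) + G.R) := by
      rw [hβ, Finset.mul_sum]
      refine Finset.sum_le_sum fun g' hg' => ?_
      rw [Finset.mem_Icc] at hg'
      have h4 : (N : ℝ) ≤ (g' : ℝ) + G.R := by
        have : (N : ℤ) ≤ g' + G.R := by omega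
        exact_mod_cast this
      have h5 := mul_le_mul_of_nonneg_left h4 (VL.Kc_nonneg G g g')
      linarith
    have h6 : β ≤ ((g : ℝ) + G.R) / N
        - (∑ g' ∈ Icc (1 : ℤ) N, G.Kc g g' * ((g' : ℝ) + G.R)) / N := by
      rw [← sub_div, le_div_iff₀ hN0]
      linarith
    have h7 := sum_split G N g hg (fun _ => 1)
    rw [← hβ] at h7
    have h8 : ∑ g' ∈ Icc (g - G.R) (g + G.R), G.Kc g g' * 1 = 1 - G.kap g := by
      unfold GapKernel.kap
      simp
    have h9 : 0 ≤ ∑ g' ∈ Icc (1 : ℤ) N, G.Kc g g' * 1 :=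
      Finset.sum_nonneg fun g' _ => mul_nonneg (VL.Kc_nonneg G _ _) zero_le_one
    have h10 : 0 ≤ ∑ a ∈ Icc 1 L, dl a g := Finset.sum_nonneg fun a _ => dl_nonneg a g
    have h11 := kt_nonneg G L g
    by_cases hgL : (L : ℤ) < g
    · have h12 : kt G L g = kp G g := by unfold kt; rw [if_pos hgL]
      have h13 := kap_le hL g hgm.1
      rw [h12]
      linarith
    · have h12 : 1 ≤ ∑ a ∈ Icc 1 L, dl a g := by
        have h13 : dl g.toNat g ≤ ∑ a ∈ Icc 1 L, dl a g :=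
          Finset.single_le_sum (f := fun a => dl a g) (fun a _ => dl_nonneg a g)
            (by rw [Finset.mem_Icc]; omega)
        have h14 : dl g.toNat g = 1 := by
          unfold dl
          rw [if_pos (by omega)]
        linarith
      linarith

end GV

open GV in
/-- MODULE GV. -/
theorem gv (h : GRE_Stmt) (h2 : GSUP_Stmt) : GV_Stmt := by
  intro C θ hC hθ hθ1
  obtain ⟨C0, hC0, hRE⟩ := h C θ hC hθ hθ1
  obtain ⟨C1, hC1, hSUP⟩ := h2 C θ hC hθ hθ1
  obtain ⟨L, hL1, hL⟩ := tail_small C θ hθ hθ1 (1 / (2 * C1)) (by positivity)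
  have hsum : Summable fun n : ℕ => (n : ℝ) ^ 1 * θ ^ n :=
    summable_pow_mul_geometric_of_norm_lt_one (R := ℝ) 1 (by rw [Real.norm_of_nonneg hθ.le]; exact hθ1)
  set Sθ := ∑' n : ℕ, (n : ℝ) ^ 1 * θ ^ n with hSθ
  have hS0 : 0 ≤ Sθ := tsum_nonneg fun n => by positivity
  refine ⟨2 * L * C ^ (L + 1) + C1 * (C * Sθ) + C1 * (C * Sθ) ^ 2 + 1, by positivity, ?_⟩
  intro G hG R' s hs
  have hrho := G.rho_pos
  have hz : ‖(G.rho : ℂ)‖ ≤ G.rho := by
    rw [Complex.norm_real, Real.norm_of_nonneg G.rho_pos.le]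
  have hex : ∀ (N : ℕ) (e : ℤ → ℝ), ∃ x : ℤ → ℝ, VX.RS G N x e := by
    intro N e
    obtain ⟨V, hV⟩ := (hRE G hG N 0 (G.rho : ℂ) le_rfl hz).1 (fun g => ((e g : ℝ) : ℂ))
    exact ⟨_, VX.RS_of_solves G hV⟩
  have hlw : ∀ (N : ℕ) (e : ℤ → ℝ), (∀ g, 0 ≤ e g) →
      lw 1 N (fun g => ((e g : ℝ) : ℂ)) = ∑ g ∈ Icc (1 : ℤ) N, (g : ℝ) * e g := by
    intro N e he
    unfold lw
    refine Finset.sum_congr rfl fun g _ => ?_
    rw [pow_one, Complex.norm_real, Real.norm_of_nonneg (he g)]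
  choose X hX using fun N => hex N s
  have hXn : ∀ N g, 0 ≤ X N g := fun N => VX.RS_nonneg G (hX N) fun g _ => hs.nonneg g
  -- monotone
  have hmono : ∀ g, Monotone fun N => X N g := by
    intro g
    refine monotone_nat_of_le_succ fun N => ?_
    set y : ℤ → ℝ := fun g => if g ∈ Icc (1 : ℤ) N then X (N + 1) g else 0 with hy
    have hRS : VX.RS G N y (fun g => s g + G.Kc g ((N + 1 : ℕ) : ℤ) * X (N + 1) ((N + 1 : ℕ) : ℤ)) := by
      refine ⟨fun g hg => ?_, fun g hg => ?_⟩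
      · simp only [hy]
        rw [if_neg]
        rw [Finset.mem_Icc]
        omega
      · have h2 := (hX (N + 1)).2 g (by rw [Finset.mem_Icc] at hg ⊢; push_cast; omega)
        have h3 : Icc (1 : ℤ) ((N + 1 : ℕ) : ℤ) = insert ((N + 1 : ℕ) : ℤ) (Icc (1 : ℤ) N) := by
          ext u
          simp only [Finset.mem_insert, Finset.mem_Icc]
          push_cast
          omega
        rw [h3, Finset.sum_insert (by rw [Finset.mem_Icc]; push_cast; omega)] at h2
        have h4 : ∑ g' ∈ Icc (1 : ℤ) N, G.Kc g g' * y g'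
            = ∑ g' ∈ Icc (1 : ℤ) N, G.Kc g g' * X (N + 1) g' := by
          refine Finset.sum_congr rfl fun g' hg' => ?_
          simp only [hy]
          rw [if_pos hg']
        rw [h4]
        simp only [hy]
        rw [if_pos hg]
        linarith
    have hle := RS_le G (hX N) hRS (fun g _ => by
      have := mul_nonneg (VL.Kc_nonneg G g ((N + 1 : ℕ) : ℤ)) (hXn (N + 1) ((N + 1 : ℕ) : ℤ))
      linarith) g
    refine hle.trans ?_
    simp only [hy]
    split_ifs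
    · exact le_rfl
    · exact hXn _ _
  -- bounds
  have hls : ∀ N : ℕ, lw 1 N (fun g => ((s g : ℝ) : ℂ)) ≤ C * Sθ := by
    intro N
    rw [hlw N s hs.nonneg, sum_Icc_cast]
    have h3 : ∀ n ∈ Icc 1 N, ((n : ℤ) : ℝ) * s (n : ℤ) ≤ C * ((n : ℝ) ^ 1 * θ ^ n) := by
      intro n _
      have h4 := mul_le_mul_of_nonneg_left (hs.dec n) (Nat.cast_nonneg (α := ℝ) n)
      push_cast
      rw [pow_one]
      linarith
    refine (Finset.sum_le_sum h3).trans ?_
    rw [← Finset.mul_sum]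
    exact mul_le_mul_of_nonneg_left (hsum.sum_le_tsum _ fun n _ => by positivity) hC.le
  have hls0 : ∀ N : ℕ, 0 ≤ lw 1 N (fun g => ((s g : ℝ) : ℂ)) := by
    intro N
    rw [hlw N s hs.nonneg]
    refine Finset.sum_nonneg fun g hg => mul_nonneg ?_ (hs.nonneg g)
    rw [Finset.mem_Icc] at hg
    have : (0 : ℤ) ≤ g := by omega
    exact_mod_cast this
  have hsup : ∀ N, (∀ g, X N g ≤ C1 * (C * Sθ)) ∧
      ∑ g ∈ Icc (0 : ℤ) N, (X N (g + 1) - X N g) ^ 2 ≤ C1 * (C * Sθ) ^ 2 := by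
    intro N
    have h1 := hSUP G hG N 0 (G.rho : ℂ) _ _ le_rfl hz (VX.RS_solves G (hX N))
    refine ⟨fun g => ?_, ?_⟩
    · have := h1.1 g
      rw [Complex.norm_real, Real.norm_of_nonneg (hXn N g)] at this
      exact this.trans (mul_le_mul_of_nonneg_left (hls N) hC1.le)
    · have h2 := h1.2
      have h3 : Pot 0 N (fun g => ((X N g : ℝ) : ℂ)) = 0 := by
        unfold Pot
        simp
      rw [h3, add_zero] at h2
      refine le_trans (le_of_eq ?_) (h2.trans
        (mul_le_mul_of_nonneg_left (pow_le_pow_left₀ (hls0 N) (hls N) 2) hC1.le))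
      unfold En
      refine Finset.sum_congr rfl fun g _ => ?_
      rw [← Complex.ofReal_sub, Complex.norm_real, Real.norm_eq_abs, sq_abs]
  have hbdd : ∀ g, BddAbove (Set.range fun N => X N g) := by
    intro g
    refine ⟨C1 * (C * Sθ), ?_⟩
    rintro _ ⟨N, rfl⟩
    exact (hsup N).1 g
  set v : ℤ → ℝ := fun g => ⨆ N, X N g with hv
  have hlim : ∀ g, Tendsto (fun N => X N g) atTop (𝓝 (v g)) := fun g =>
    tendsto_atTop_ciSup (hmono g) (hbdd g)
  have hp1 : 0 ≤ C1 * (C * Sθ) := by positivity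
  have hp2 : 0 ≤ C1 * (C * Sθ) ^ 2 := by positivity
  have hp3 : 0 ≤ 2 * L * C ^ (L + 1) := by positivity
  refine ⟨v, ⟨?_, ?_, ?_, ?_, ?_⟩⟩
  · intro g hg
    refine tendsto_nhds_unique (hlim g) ?_
    have : (fun N => X N g) = fun _ => 0 := by
      funext N
      exact (hX N).1 g (by omega)
    rw [this]
    exact tendsto_const_nhds
  · -- lower bound
    intro g hg
    have hvn : 0 ≤ v g := ge_of_tendsto' (hlim g) fun N => hXn N g
    have hmain : ∀ N : ℕ, L ≤ N → g ≤ N →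
        1 ≤ 2 * (((g : ℝ) + G.R) / N) + 2 * L * C ^ (L + 1) * X N g := by
      intro N hN hgN
      obtain ⟨x1, hx1⟩ := hex N (dl 1)
      choose x hx using fun a => hex N (dl a)
      obtain ⟨t, ht⟩ := hex N (kt G L)
      have h1 := one_le hG.loc (le_trans hL1 hN) (fun a _ => hx a) ht g
        (by rw [Finset.mem_Icc]; omega)
      -- the tail part
      have h3 : t g ≤ 1 / 2 := by
        have h4 := (hSUP G hG N 0 (G.rho : ℂ) _ _ le_rfl hz (VX.RS_solves G ht)).1 g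
        rw [hlw N _ (kt_nonneg G L)] at h4
        have h5 := (sum_kt_le G L N).trans (hL G hG)
        have h6 : t g ≤ ‖((t g : ℝ) : ℂ)‖ := by
          rw [Complex.norm_real]
          exact Real.le_norm_self _
        have h7 := mul_le_mul_of_nonneg_left h5 hC1.le
        have h8 : C1 * (1 / (2 * C1)) = 1 / 2 := by field_simp
        linarith
      -- the Green's functions
      have h4 : ∀ a ∈ Icc 1 L, x a g ≤ C ^ L * x1 g := by
        intro a ha
        rw [Finset.mem_Icc] at ha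
        obtain ⟨b, rfl⟩ : ∃ b, a = b + 1 := ⟨a - 1, by omega⟩
        have h5 := dl_le G (hex N) hx1 b (by omega) (x (b + 1)) (hx (b + 1)) g
        have hxn : 0 ≤ x (b + 1) g := VX.RS_nonneg G (hx (b + 1)) (fun g _ => dl_nonneg _ g) g
        have hr1 : G.rho ≤ 1 := by
          have := VX.Kc_sum_one G 0
          have h9 : 0 ≤ ∑ g' ∈ Icc (1 : ℤ) (0 : ℕ), G.Kc 1 g' :=
            Finset.sum_nonneg fun g' _ => VL.Kc_nonneg G _ _
          linarith
        have h6 : (C⁻¹) ^ L ≤ G.rho ^ b :=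
          calc (C⁻¹) ^ L ≤ G.rho ^ L := pow_le_pow_left₀ (by positivity) hG.rho_ge L
            _ ≤ G.rho ^ b := pow_le_pow_of_le_one hrho.le hr1 (by omega)
        have h7 : (C⁻¹) ^ L * x (b + 1) g ≤ x1 g :=
          (mul_le_mul_of_nonneg_right h6 hxn).trans h5
        calc x (b + 1) g = C ^ L * ((C⁻¹) ^ L * x (b + 1) g) := by
              rw [← mul_assoc, ← mul_pow, mul_inv_cancel₀ hC.ne', one_pow, one_mul]
          _ ≤ C ^ L * x1 g := mul_le_mul_of_nonneg_left h7 (by positivity)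
      have h5 : ∑ a ∈ Icc 1 L, x a g ≤ L * (C ^ L * x1 g) := by
        refine (Finset.sum_le_sum h4).trans ?_
        rw [Finset.sum_const, nsmul_eq_mul, Nat.card_Icc]
        simp
      have h6 : C⁻¹ * x1 g ≤ X N g := by
        refine RS_le G (RS_smul G C⁻¹ hx1) (hX N) (fun g' hg' => ?_) g
        unfold dl
        split_ifs with h7
        · subst h7
          have := hs.one
          push_cast
          linarith
        · rw [mul_zero]
          exact hs.nonneg g'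
      have h7 : x1 g ≤ C * X N g := by
        calc x1 g = C * (C⁻¹ * x1 g) := by
              rw [← mul_assoc, mul_inv_cancel₀ hC.ne', one_mul]
          _ ≤ C * X N g := mul_le_mul_of_nonneg_left h6 hC.le
      have h8 : (L : ℝ) * (C ^ L * x1 g) ≤ L * (C ^ L * (C * X N g)) := by gcongr
      have h9 : (L : ℝ) * (C ^ L * (C * X N g)) = L * C ^ (L + 1) * X N g := by
        rw [pow_succ]; ring
      linarith
    have h3 : Tendsto (fun N : ℕ => 2 * (((g : ℝ) + G.R) / N) + 2 * L * C ^ (L + 1) * X N g) atTop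
        (𝓝 (2 * 0 + 2 * L * C ^ (L + 1) * v g)) :=
      ((tendsto_const_div_atTop_nhds_zero_nat _).const_mul 2).add ((hlim g).const_mul _)
    have h4 : 1 ≤ 2 * 0 + 2 * L * C ^ (L + 1) * v g := by
      refine ge_of_tendsto h3 ?_
      filter_upwards [eventually_ge_atTop (max L g.toNat)] with N hN
      exact hmain N (le_trans (le_max_left _ _) hN) (by
        have := le_trans (le_max_right L g.toNat) hN
        omega)
    rw [inv_le_iff_one_le_mul₀ (by positivity)]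
    nlinarith [mul_nonneg hp1 hvn, mul_nonneg hp2 hvn]
  · intro g
    exact (le_of_tendsto' (hlim g) fun N => (hsup N).1 g).trans (by linarith)
  · intro M
    have h1 : Tendsto (fun N => ∑ g ∈ Icc (0 : ℤ) M, (X N (g + 1) - X N g) ^ 2) atTop
        (𝓝 (∑ g ∈ Icc (0 : ℤ) M, (v (g + 1) - v g) ^ 2)) :=
      tendsto_finsetSum _ fun g _ => ((hlim (g + 1)).sub (hlim g)).pow 2
    refine le_trans (le_of_tendsto (b := C1 * (C * Sθ) ^ 2) h1 ?_) (by linarith)
    filter_upwards [eventually_ge_atTop M] with N hN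
    refine le_trans ?_ (hsup N).2
    exact Finset.sum_le_sum_of_subset_of_nonneg
      (Finset.Icc_subset_Icc le_rfl (by exact_mod_cast hN)) fun g _ _ => sq_nonneg _
  · intro g hg
    have h1 : Tendsto (fun N => s g + ∑ g' ∈ Icc (g - (G.R : ℤ)) (g + G.R), G.Kc g g' * X N g') atTop
        (𝓝 (s g + ∑ g' ∈ Icc (g - (G.R : ℤ)) (g + G.R), G.Kc g g' * v g')) :=
      tendsto_const_nhds.add (tendsto_finsetSum _ fun g' _ => (hlim g').const_mul _)
    refine tendsto_nhds_unique (hlim g) (h1.congr' ?_)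
    filter_upwards [eventually_ge_atTop (g + G.R).toNat] with N hN
    have hgN : g ∈ Icc (1 : ℤ) N := by rw [Finset.mem_Icc]; omega
    rw [(hX N).2 g hgN]
    congr 1
    exact (sum_full G g (X N) (Icc (1 : ℤ) N) fun g' h1 h2 h3 => by
      rw [Finset.mem_Icc]; omega).symm

end Pool.Agent.FL
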