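import Pool.Agent.Lib_helper89.FL.StmtsGU
import Pool.Agent.Lib_helper22.Gap.W

/-! Module GW: weighted bounds with constants which are uniform over the class `Cls C θ`. -/

set_option autoImplicit false

open Finset Filter Topology

namespace Pool.Agent.FL

open Pool.Agent.Gap Pool.Agent.Gap.H22

namespace GW

/-- the moment constant of the class -/
noncomputable def Mom (C θ : ℝ) : ℝ := ∑' m : ℕ, (2 * (m : ℝ) + 2) ^ 4 * (C * θ ^ m)

lemma mom_summable {C θ : ℝ} (hθ : 0 < θ) (hθ1 : θ < 1) :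
    Summable (fun m : ℕ => (2 * (m : ℝ) + 2) ^ 4 * (C * θ ^ m)) := by
  have h : ∀ k : ℕ, Summable (fun m : ℕ => (m : ℝ) ^ k * θ ^ m) := fun k =>
    summable_pow_mul_geometric_of_norm_lt_one k (by rw [Real.norm_eq_abs, abs_of_pos hθ]; exact hθ1)
  have h2 := (((((h 4).mul_left (16 * C)).add ((h 3).mul_left (64 * C))).add
    ((h 2).mul_left (96 * C))).add ((h 1).mul_left (64 * C))).add ((h 0).mul_left (16 * C))
  refine h2.congr fun m => ?_
  ring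

lemma mom_nonneg {C θ : ℝ} (hC : 0 < C) (hθ : 0 < θ) : 0 ≤ Mom C θ :=
  tsum_nonneg fun m => by positivity

lemma mom_le {C θ : ℝ} (hC : 0 < C) (hθ : 0 < θ) (hθ1 : θ < 1) {G : GapKernel} (hG : Cls C θ G)
    (s : Finset ℤ) : ∑ d ∈ s, G.kk d * (|(d : ℝ)| + 2) ^ 4 ≤ Mom C θ := by
  classical
  have h1 : ∑ d ∈ s, G.kk d * (|(d : ℝ)| + 2) ^ 4 =
      ∑ i ∈ G.S, G.rho ^ i.1 * ∑ d ∈ s, G.T i d * (|(d : ℝ)| + 2) ^ 4 := by
    unfold GapKernel.kk
    simp_rw [Finset.sum_mul, Finset.mul_sum]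
    rw [Finset.sum_comm]
    exact Finset.sum_congr rfl fun i _ => Finset.sum_congr rfl fun d _ => by ring
  rw [h1]
  have h2 : ∀ i ∈ G.S, G.rho ^ i.1 * ∑ d ∈ s, G.T i d * (|(d : ℝ)| + 2) ^ 4 ≤
      (2 * (i.1 : ℝ) + 2) ^ 4 * (G.rho ^ i.1 * G.tot i) := by
    intro i _
    have h3 : ∑ d ∈ s, G.T i d * (|(d : ℝ)| + 2) ^ 4 ≤
        ∑ d ∈ s, G.T i d * (2 * (i.1 : ℝ) + 2) ^ 4 := by
      refine Finset.sum_le_sum fun d _ => ?_
      rcases le_or_gt (|d|) (2 * (i.1 : ℤ)) with h | h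
      · refine mul_le_mul_of_nonneg_left ?_ (G.T_nonneg i d)
        have h' : |(d : ℝ)| ≤ 2 * (i.1 : ℝ) := by exact_mod_cast h
        exact pow_le_pow_left₀ (by positivity) (by linarith) 4
      · rw [hG.loc.T_loc i d h]
        simp
    have h4 : ∑ d ∈ s, G.T i d ≤ G.tot i := by
      have := G.sum_T_shift i 0 s
      simpa using this
    rw [← Finset.sum_mul] at h3
    calc G.rho ^ i.1 * ∑ d ∈ s, G.T i d * (|(d : ℝ)| + 2) ^ 4
        ≤ G.rho ^ i.1 * ((∑ d ∈ s, G.T i d) * (2 * (i.1 : ℝ) + 2) ^ 4) :=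
          mul_le_mul_of_nonneg_left h3 (pow_nonneg G.rho_pos.le _)
      _ ≤ G.rho ^ i.1 * (G.tot i * (2 * (i.1 : ℝ) + 2) ^ 4) :=
          mul_le_mul_of_nonneg_left (mul_le_mul_of_nonneg_right h4 (by positivity))
            (pow_nonneg G.rho_pos.le _)
      _ = _ := by ring
  refine (Finset.sum_le_sum h2).trans ?_
  rw [← Finset.sum_fiberwise_of_maps_to (g := Prod.fst) (t := G.S.image Prod.fst)
    (fun i hi => Finset.mem_image_of_mem _ hi)]
  have h5 : ∀ m ∈ G.S.image Prod.fst, ∑ i ∈ G.S.filter (fun i => i.1 = m),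
      (2 * (i.1 : ℝ) + 2) ^ 4 * (G.rho ^ i.1 * G.tot i) ≤
        (2 * (m : ℝ) + 2) ^ 4 * (C * θ ^ m) := by
    intro m _
    have h6 : ∑ i ∈ G.S.filter (fun i => i.1 = m),
        (2 * (i.1 : ℝ) + 2) ^ 4 * (G.rho ^ i.1 * G.tot i) =
        (2 * (m : ℝ) + 2) ^ 4 * ∑ i ∈ G.S.filter (fun i => i.1 = m), G.rho ^ m * G.tot i := by
      rw [Finset.mul_sum]
      refine Finset.sum_congr rfl fun i hi => ?_
      rw [(Finset.mem_filter.mp hi).2]
    rw [h6]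
    exact mul_le_mul_of_nonneg_left (hG.dec m) (by positivity)
  refine (Finset.sum_le_sum h5).trans ?_
  exact (mom_summable hθ hθ1).sum_le_tsum _ (fun m _ => by positivity)

lemma mom_shift {C θ : ℝ} (hC : 0 < C) (hθ : 0 < θ) (hθ1 : θ < 1) {G : GapKernel}
    (hG : Cls C θ G) (s : Finset ℤ) (g' : ℤ) :
    ∑ g ∈ s, G.kk (g' - g) * (|((g' - g : ℤ) : ℝ)| + 2) ^ 4 ≤ Mom C θ := by
  have h := mom_le hC hθ hθ1 hG (s.image (fun g => g' - g))
  rwa [Finset.sum_image (by intro a _ b _ h; simpa using h)] at h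

/-- a double sum over `(g, g')` with nonnegative terms is at most the sum over `(d, g')` -/
lemma sum_dg_le (N : ℕ) (b : ℤ → ℤ → ℝ) (hb : ∀ d g, 0 ≤ b d g) :
    ∑ g ∈ Icc (1 : ℤ) N, ∑ g' ∈ Icc (1 : ℤ) N, b (g' - g) g' ≤
      ∑ d ∈ Icc (-(N : ℤ)) N, ∑ g' ∈ Icc (1 : ℤ) N, b d g' := by
  classical
  rw [Finset.sum_comm, Finset.sum_comm (s := Icc (-(N : ℤ)) N)]
  refine Finset.sum_le_sum fun g' hg' => ?_
  have h1 : ∑ g ∈ Icc (1 : ℤ) N, b (g' - g) g' =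
      ∑ d ∈ (Icc (1 : ℤ) N).image (fun g => g' - g), b d g' := by
    rw [Finset.sum_image (by intro a _ b _ h; simpa using h)]
  rw [h1]
  refine Finset.sum_le_sum_of_subset_of_nonneg ?_ (fun d _ _ => hb d g')
  intro d hd
  rw [Finset.mem_image] at hd
  obtain ⟨g, hg, rfl⟩ := hd
  rw [Finset.mem_Icc] at hg hg' ⊢
  omega

/-- weighted energy of differences -/
lemma kk_diff {C θ : ℝ} (hC : 0 < C) (hθ : 0 < θ) (hθ1 : θ < 1) {G : GapKernel}
    (hG : Cls C θ G) {N : ℕ} {f : ℤ → ℂ} (hf : Supp N f) :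
    ∑ g ∈ Icc (1 : ℤ) N, ∑ g' ∈ Icc (1 : ℤ) N, G.kk (g' - g) * ‖f g' - f g‖ ^ 2
      ≤ Mom C θ * En N f := by
  have h1 := sum_dg_le N (fun d g' => G.kk d * ‖f g' - f (g' - d)‖ ^ 2)
    (fun d g => mul_nonneg (G.kk_nonneg d) (sq_nonneg _))
  have h2 : ∑ g ∈ Icc (1 : ℤ) N, ∑ g' ∈ Icc (1 : ℤ) N, G.kk (g' - g) * ‖f g' - f g‖ ^ 2 =
      ∑ g ∈ Icc (1 : ℤ) N, ∑ g' ∈ Icc (1 : ℤ) N,
        G.kk (g' - g) * ‖f g' - f (g' - (g' - g))‖ ^ 2 :=
    Finset.sum_congr rfl fun g _ => Finset.sum_congr rfl fun g' _ => by rw [sub_sub_cancel]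
  rw [h2]
  refine h1.trans ?_
  have h3 : ∀ d ∈ Icc (-(N : ℤ)) N, ∑ g' ∈ Icc (1 : ℤ) N, G.kk d * ‖f g' - f (g' - d)‖ ^ 2 ≤
      G.kk d * (|(d : ℝ)| + 2) ^ 4 * En N f := by
    intro d _
    rw [← Finset.mul_sum, mul_assoc]
    refine mul_le_mul_of_nonneg_left ?_ (G.kk_nonneg d)
    have h4 := shift_le hf (Icc (1 : ℤ) N) (-d)
    have h5 : ∑ g ∈ Icc (1 : ℤ) N, ‖f (g + -d) - f g‖ ^ 2 =
        ∑ g' ∈ Icc (1 : ℤ) N, ‖f g' - f (g' - d)‖ ^ 2 :=
      Finset.sum_congr rfl fun g _ => by rw [norm_sub_rev, ← sub_eq_add_neg]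
    rw [h5] at h4
    refine h4.trans (mul_le_mul_of_nonneg_right ?_ (En_nonneg N f))
    push_cast
    rw [neg_sq, ← sq_abs]
    have h0 := abs_nonneg (d : ℝ)
    calc |(d : ℝ)| ^ 2 ≤ (|(d : ℝ)| + 2) ^ 2 := pow_le_pow_left₀ h0 (by linarith) 2
      _ ≤ (|(d : ℝ)| + 2) ^ 4 := pow_le_pow_right₀ (by linarith) (by norm_num)
  refine (Finset.sum_le_sum h3).trans ?_
  rw [← Finset.sum_mul]
  exact mul_le_mul_of_nonneg_right (mom_le hC hθ hθ1 hG _) (En_nonneg N f)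

lemma norm_Q_le {G : GapKernel} {N : ℕ} {eps : ℝ} {z : ℂ} {v : ℤ → ℂ} (heps : 0 ≤ eps)
    (hz : ‖z‖ ≤ G.rho) (ζ : ℤ → ℝ) (B : ℤ → ℤ → ℝ) (hB : ∀ d g, 0 ≤ B d g)
    (hBe : ∀ d g, B (-d) g = B d g)
    (hζ : ∀ g ∈ Icc (1 : ℤ) N, ∀ g' ∈ Icc (1 : ℤ) N,
      |ζ g - ζ g'| * ‖v g'‖ ≤ B (g' - g) g') :
    ‖∑ g ∈ Icc (1 : ℤ) N, ∑ g' ∈ Icc (1 : ℤ) N, G.Kz 0 eps z g g' *
        ((ζ g : ℂ) * ((ζ g : ℂ) - (ζ g' : ℂ))) * ((starRingEnd ℂ) (v g) * v g')‖ ≤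
    ∑ g ∈ Icc (1 : ℤ) N, ∑ g' ∈ Icc (1 : ℤ) N, G.kk (g' - g) *
      (‖(ζ g' : ℂ) * v g' - (ζ g : ℂ) * v g‖ * B (g' - g) g') +
    (1 / 2) * ∑ g ∈ Icc (1 : ℤ) N, ∑ g' ∈ Icc (1 : ℤ) N,
      G.kk (g' - g) * (B (g' - g) g * B (g' - g) g') := by
  set s := Icc (1 : ℤ) N with hs
  set F : ℤ → ℤ → ℂ := fun g g' => G.Kz 0 eps z g g' *
        ((ζ g : ℂ) * ((ζ g : ℂ) - (ζ g' : ℂ))) * ((starRingEnd ℂ) (v g) * v g') with hF
  have h1 : ∑ g ∈ s, ∑ g' ∈ s, F g g' = (1 / 2 : ℂ) * ∑ g ∈ s, ∑ g' ∈ s, (F g g' + F g' g) := by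
    have h2 : ∑ g ∈ s, ∑ g' ∈ s, F g' g = ∑ g ∈ s, ∑ g' ∈ s, F g g' := Finset.sum_comm
    simp only [Finset.sum_add_distrib]
    rw [h2]
    ring
  have h3 : ∀ g ∈ s, ∀ g' ∈ s, ‖F g g' + F g' g‖ ≤
      2 * (G.kk (g' - g) * (‖(ζ g' : ℂ) * v g' - (ζ g : ℂ) * v g‖ * B (g' - g) g')) +
        G.kk (g' - g) * (B (g' - g) g * B (g' - g) g') := by
    intro g hg g' hg'
    have h4 : F g g' + F g' g = G.Kz 0 eps z g g' * (((ζ g - ζ g' : ℝ) : ℂ) *
        ((starRingEnd ℂ) ((ζ g : ℂ) * v g - (ζ g' : ℂ) * v g') * v g' +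
          (starRingEnd ℂ) (v g') * ((ζ g' : ℂ) * v g' - (ζ g : ℂ) * v g) +
          ((ζ g - ζ g' : ℝ) : ℂ) * ((starRingEnd ℂ) (v g') * v g))) := by
      simp only [hF]
      rw [G.Kz_symm 0 eps z g' g, map_sub, map_mul, map_mul, Complex.conj_ofReal,
        Complex.conj_ofReal]
      push_cast
      ring
    rw [h4, norm_mul, norm_mul]
    have hkz : ‖G.Kz 0 eps z g g'‖ ≤ G.kk (g' - g) := by
      rw [hs, Finset.mem_Icc] at hg hg'
      exact (G.norm_Kz_le heps hz g g' (by omega) (by omega)).trans (G.Kc_le g g')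
    have hkk := G.kk_nonneg (g' - g)
    have ha := hζ g hg g' hg'
    have ha' := hζ g' hg' g hg
    have hev : B (g - g') g = B (g' - g) g := by rw [← hBe, neg_sub]
    rw [hev] at ha'
    rw [Complex.norm_real, Real.norm_eq_abs]
    have h5 : ‖(starRingEnd ℂ) ((ζ g : ℂ) * v g - (ζ g' : ℂ) * v g') * v g' +
        (starRingEnd ℂ) (v g') * ((ζ g' : ℂ) * v g' - (ζ g : ℂ) * v g) +
        ((ζ g - ζ g' : ℝ) : ℂ) * ((starRingEnd ℂ) (v g') * v g)‖ ≤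
        2 * ‖(ζ g' : ℂ) * v g' - (ζ g : ℂ) * v g‖ * ‖v g'‖ +
          |ζ g - ζ g'| * (‖v g'‖ * ‖v g‖) := by
      refine (norm_add_le _ _).trans (add_le_add ((norm_add_le _ _).trans ?_) ?_)
      · rw [norm_mul, norm_mul, RCLike.norm_conj, RCLike.norm_conj,
          norm_sub_rev ((ζ g : ℂ) * v g)]
        linarith
      · rw [norm_mul, norm_mul, RCLike.norm_conj, Complex.norm_real, Real.norm_eq_abs]
    have h6 : |ζ g - ζ g'| * ‖(starRingEnd ℂ) ((ζ g : ℂ) * v g - (ζ g' : ℂ) * v g') * v g' +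
        (starRingEnd ℂ) (v g') * ((ζ g' : ℂ) * v g' - (ζ g : ℂ) * v g) +
        ((ζ g - ζ g' : ℝ) : ℂ) * ((starRingEnd ℂ) (v g') * v g)‖ ≤
        2 * (‖(ζ g' : ℂ) * v g' - (ζ g : ℂ) * v g‖ * B (g' - g) g') +
          B (g' - g) g * B (g' - g) g' := by
      refine (mul_le_mul_of_nonneg_left h5 (abs_nonneg _)).trans ?_
      have h7 : ‖(ζ g' : ℂ) * v g' - (ζ g : ℂ) * v g‖ * (|ζ g - ζ g'| * ‖v g'‖) ≤
          ‖(ζ g' : ℂ) * v g' - (ζ g : ℂ) * v g‖ * B (g' - g) g' :=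
        mul_le_mul_of_nonneg_left ha (norm_nonneg _)
      have h8 : (|ζ g - ζ g'| * ‖v g‖) * (|ζ g - ζ g'| * ‖v g'‖) ≤
          B (g' - g) g * B (g' - g) g' := by
        refine mul_le_mul ?_ ha (mul_nonneg (abs_nonneg _) (norm_nonneg _)) (hB _ g)
        rw [abs_sub_comm]
        exact ha'
      nlinarith
    calc ‖G.Kz 0 eps z g g'‖ * (|ζ g - ζ g'| * ‖(starRingEnd ℂ) ((ζ g : ℂ) * v g - (ζ g' : ℂ) * v g') * v g' +
        (starRingEnd ℂ) (v g') * ((ζ g' : ℂ) * v g' - (ζ g : ℂ) * v g) +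
        ((ζ g - ζ g' : ℝ) : ℂ) * ((starRingEnd ℂ) (v g') * v g)‖)
        ≤ G.kk (g' - g) * (2 * (‖(ζ g' : ℂ) * v g' - (ζ g : ℂ) * v g‖ * B (g' - g) g') +
            B (g' - g) g * B (g' - g) g') :=
          mul_le_mul hkz h6 (mul_nonneg (abs_nonneg _) (norm_nonneg _)) hkk
      _ = _ := by ring
  have h9 : (∑ g ∈ s, ∑ g' ∈ s, G.Kz 0 eps z g g' *
        ((ζ g : ℂ) * ((ζ g : ℂ) - (ζ g' : ℂ))) * ((starRingEnd ℂ) (v g) * v g')) =
      ∑ g ∈ s, ∑ g' ∈ s, F g g' := rfl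
  rw [h9, h1, norm_mul]
  have h10 : ‖∑ g ∈ s, ∑ g' ∈ s, (F g g' + F g' g)‖ ≤
      ∑ g ∈ s, ∑ g' ∈ s, (2 * (G.kk (g' - g) *
          (‖(ζ g' : ℂ) * v g' - (ζ g : ℂ) * v g‖ * B (g' - g) g')) +
        G.kk (g' - g) * (B (g' - g) g * B (g' - g) g')) :=
    (norm_sum_le _ _).trans (Finset.sum_le_sum fun g hg =>
      (norm_sum_le _ _).trans (Finset.sum_le_sum fun g' hg' => h3 g hg g' hg'))
  have h11 : ‖(1 / 2 : ℂ)‖ = 1 / 2 := by norm_num
  rw [h11]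
  refine (mul_le_mul_of_nonneg_left h10 (by norm_num)).trans (le_of_eq ?_)
  simp only [Finset.sum_add_distrib, ← Finset.mul_sum]
  ring

/-- source term -/
lemma source_le {N : ℕ} {v e : ℤ → ℂ} {W : ℝ} (hv : ∀ g, ‖v g‖ ≤ W)
    (ζ : ℤ → ℝ) (Z : ℝ) (hZ : ∀ g ∈ Icc (1 : ℤ) N, ζ g ^ 2 ≤ Z * (g : ℝ) ^ 4) :
    ∑ g ∈ Icc (1 : ℤ) N, ζ g ^ 2 * (‖v g‖ * ‖e g‖) ≤ Z * W * lw 4 N e := by
  unfold lw
  rw [Finset.mul_sum]
  refine Finset.sum_le_sum fun g hg => ?_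
  have h0 : 0 ≤ Z * (g : ℝ) ^ 4 := (sq_nonneg _).trans (hZ g hg)
  calc ζ g ^ 2 * (‖v g‖ * ‖e g‖) ≤ (Z * (g : ℝ) ^ 4) * (W * ‖e g‖) :=
        mul_le_mul (hZ g hg) (mul_le_mul_of_nonneg_right (hv g) (norm_nonneg _))
          (mul_nonneg (norm_nonneg _) (norm_nonneg _)) h0
    _ = _ := by ring

/-- weighted coercivity -/
lemma weighted {G : GapKernel} {c M : ℝ} (hc : 0 < c) (hM : 0 < M) (hC : Coer G c) {N : ℕ}
    {eps : ℝ} {z : ℂ} {v e : ℤ → ℂ} (heps : 0 ≤ eps) (hz : ‖z‖ ≤ G.rho)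
    (hs : G.Solves eps z N v e)
    (hMd : ∀ f : ℤ → ℂ, Supp N f → ∑ g ∈ Icc (1 : ℤ) N, ∑ g' ∈ Icc (1 : ℤ) N,
      G.kk (g' - g) * ‖f g' - f g‖ ^ 2 ≤ M * En N f)
    (ζ : ℤ → ℝ) (B : ℤ → ℤ → ℝ) (hB : ∀ d g, 0 ≤ B d g) (hBe : ∀ d g, B (-d) g = B d g)
    (hζ : ∀ g ∈ Icc (1 : ℤ) N, ∀ g' ∈ Icc (1 : ℤ) N,
      |ζ g - ζ g'| * ‖v g'‖ ≤ B (g' - g) g') :
    c / 2 * (‖(G.rho : ℂ) - z‖ * nsq N (fun g => (ζ g : ℂ) * v g) +
        En N (fun g => (ζ g : ℂ) * v g) + Pot eps N (fun g => (ζ g : ℂ) * v g)) ≤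
      ∑ g ∈ Icc (1 : ℤ) N, ζ g ^ 2 * (‖v g‖ * ‖e g‖) +
        (M / (2 * c) + 1 / 2) * ∑ g ∈ Icc (1 : ℤ) N, ∑ g' ∈ Icc (1 : ℤ) N,
          G.kk (g' - g) * B (g' - g) g' ^ 2 := by
  set V : ℤ → ℂ := fun g => (ζ g : ℂ) * v g with hV
  have hsupp : Supp N V := fun g hg => by simp only [hV]; rw [hs.1 g hg, mul_zero]
  have h1 := hC N eps z V heps hz hsupp
  rw [form_weighted hs ζ] at h1
  have h2 : ‖∑ g ∈ Icc (1 : ℤ) N, ((ζ g : ℂ)) ^ 2 * ((starRingEnd ℂ) (v g) * e g)‖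
      ≤ ∑ g ∈ Icc (1 : ℤ) N, ζ g ^ 2 * (‖v g‖ * ‖e g‖) := by
    refine (norm_sum_le _ _).trans (Finset.sum_le_sum fun g _ => ?_)
    rw [norm_mul, norm_mul, norm_pow, Complex.norm_real, Real.norm_eq_abs, sq_abs,
      RCLike.norm_conj]
  have h3 := norm_Q_le heps hz ζ B hB hBe hζ
  set T : ℝ := ∑ g ∈ Icc (1 : ℤ) N, ∑ g' ∈ Icc (1 : ℤ) N, G.kk (g' - g) * B (g' - g) g' ^ 2 with hT
  have h4 : ∑ g ∈ Icc (1 : ℤ) N, ∑ g' ∈ Icc (1 : ℤ) N, G.kk (g' - g) *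
      (‖(ζ g' : ℂ) * v g' - (ζ g : ℂ) * v g‖ * B (g' - g) g') ≤
      c / 2 * En N V + M / (2 * c) * T := by
    have h5 : ∀ g g' : ℤ, G.kk (g' - g) *
        (‖(ζ g' : ℂ) * v g' - (ζ g : ℂ) * v g‖ * B (g' - g) g') ≤
        c / (2 * M) * (G.kk (g' - g) * ‖V g' - V g‖ ^ 2) +
        M / (2 * c) * (G.kk (g' - g) * B (g' - g) g' ^ 2) := by
      intro g g'
      have h6 : ‖(ζ g' : ℂ) * v g' - (ζ g : ℂ) * v g‖ * B (g' - g) g' ≤
          c / (2 * M) * ‖V g' - V g‖ ^ 2 + M / (2 * c) * B (g' - g) g' ^ 2 := by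
        have h8 : c / (2 * M) * ‖V g' - V g‖ ^ 2 + M / (2 * c) * B (g' - g) g' ^ 2 -
            ‖V g' - V g‖ * B (g' - g) g' =
            (c * ‖V g' - V g‖ - M * B (g' - g) g') ^ 2 / (2 * c * M) := by
          field_simp
          ring
        have h9 : 0 ≤ (c * ‖V g' - V g‖ - M * B (g' - g) g') ^ 2 / (2 * c * M) := by
          positivity
        have h10 : ‖(ζ g' : ℂ) * v g' - (ζ g : ℂ) * v g‖ = ‖V g' - V g‖ := rfl
        rw [h10]
        linarith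
      have := mul_le_mul_of_nonneg_left h6 (G.kk_nonneg (g' - g))
      refine this.trans (le_of_eq ?_)
      ring
    calc ∑ g ∈ Icc (1 : ℤ) N, ∑ g' ∈ Icc (1 : ℤ) N, G.kk (g' - g) *
          (‖(ζ g' : ℂ) * v g' - (ζ g : ℂ) * v g‖ * B (g' - g) g')
        ≤ ∑ g ∈ Icc (1 : ℤ) N, ∑ g' ∈ Icc (1 : ℤ) N,
          (c / (2 * M) * (G.kk (g' - g) * ‖V g' - V g‖ ^ 2) +
            M / (2 * c) * (G.kk (g' - g) * B (g' - g) g' ^ 2)) :=
          Finset.sum_le_sum fun g _ => Finset.sum_le_sum fun g' _ => h5 g g'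
      _ = c / (2 * M) * ∑ g ∈ Icc (1 : ℤ) N, ∑ g' ∈ Icc (1 : ℤ) N,
            G.kk (g' - g) * ‖V g' - V g‖ ^ 2 + M / (2 * c) * T := by
          rw [hT]
          simp only [Finset.sum_add_distrib, Finset.mul_sum]
      _ ≤ c / (2 * M) * (M * En N V) + M / (2 * c) * T := by
          have := mul_le_mul_of_nonneg_left (hMd V hsupp) (by positivity : 0 ≤ c / (2 * M))
          linarith
      _ = _ := by
          field_simp
  have h5 : ∑ g ∈ Icc (1 : ℤ) N, ∑ g' ∈ Icc (1 : ℤ) N,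
      G.kk (g' - g) * (B (g' - g) g * B (g' - g) g') ≤ T := by
    have h6 : ∀ g g' : ℤ, G.kk (g' - g) * (B (g' - g) g * B (g' - g) g') ≤
        (1 / 2) * (G.kk (g' - g) * B (g' - g) g ^ 2) +
        (1 / 2) * (G.kk (g' - g) * B (g' - g) g' ^ 2) := by
      intro g g'
      nlinarith [mul_nonneg (G.kk_nonneg (g' - g)) (sq_nonneg (B (g' - g) g - B (g' - g) g'))]
    have h7 : ∑ g ∈ Icc (1 : ℤ) N, ∑ g' ∈ Icc (1 : ℤ) N, G.kk (g' - g) * B (g' - g) g ^ 2 = T := by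
      rw [hT, Finset.sum_comm]
      refine Finset.sum_congr rfl fun g _ => Finset.sum_congr rfl fun g' _ => ?_
      rw [G.kk_comm g' g, ← hBe, neg_sub]
    calc ∑ g ∈ Icc (1 : ℤ) N, ∑ g' ∈ Icc (1 : ℤ) N,
          G.kk (g' - g) * (B (g' - g) g * B (g' - g) g')
        ≤ ∑ g ∈ Icc (1 : ℤ) N, ∑ g' ∈ Icc (1 : ℤ) N,
          ((1 / 2) * (G.kk (g' - g) * B (g' - g) g ^ 2) +
            (1 / 2) * (G.kk (g' - g) * B (g' - g) g' ^ 2)) :=
          Finset.sum_le_sum fun g _ => Finset.sum_le_sum fun g' _ => h6 g g'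
      _ = (1 / 2) * ∑ g ∈ Icc (1 : ℤ) N, ∑ g' ∈ Icc (1 : ℤ) N, G.kk (g' - g) * B (g' - g) g ^ 2 +
          (1 / 2) * T := by
          rw [hT]
          simp only [Finset.sum_add_distrib, Finset.mul_sum]
      _ = T := by rw [h7]; ring
  have hn := nsq_nonneg N V
  have hE := En_nonneg N V
  have hP := Pot_nonneg heps N V
  have hδ := mul_nonneg (norm_nonneg ((G.rho : ℂ) - z)) hn
  have h6 := (h1.trans (norm_add_le _ _)).trans (add_le_add h2 (h3.trans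
    (add_le_add h4 (mul_le_mul_of_nonneg_left h5 (by norm_num)))))
  have h7 : 0 ≤ c * (‖(G.rho : ℂ) - z‖ * nsq N V) := mul_nonneg hc.le hδ
  have h8 : 0 ≤ c * Pot eps N V := mul_nonneg hc.le hP
  have h9 : 0 ≤ c * En N V := mul_nonneg hc.le hE
  nlinarith

lemma rho_le (G : GapKernel) : G.rho ≤ 1 / 4 := by
  have h1 : G.rho ^ ((1 : ℕ), (1 : ℕ)).1 * G.tot (1, 1) ≤ ∑ i ∈ G.S, G.rho ^ i.1 * G.tot i := by
    refine Finset.single_le_sum (f := fun i : ℕ × ℕ => G.rho ^ i.1 * G.tot i) ?_ G.i0_mem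
    intro i _
    exact mul_nonneg (pow_nonneg G.rho_pos.le _) (G.tot_nonneg i)
  rw [G.crit', G.tot_one] at h1
  norm_num at h1
  linarith

lemma lw_nonneg (p N : ℕ) (e : ℤ → ℂ) : 0 ≤ lw p N e := by
  refine Finset.sum_nonneg fun g hg => mul_nonneg (pow_nonneg ?_ _) (norm_nonneg _)
  rw [Finset.mem_Icc] at hg
  exact_mod_cast (by omega : (0 : ℤ) ≤ g)

lemma lw_mono {p p' : ℕ} (h : p ≤ p') (N : ℕ) (e : ℤ → ℂ) : lw p N e ≤ lw p' N e := by
  refine Finset.sum_le_sum fun g hg => mul_le_mul_of_nonneg_right ?_ (norm_nonneg _)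
  rw [Finset.mem_Icc] at hg
  exact pow_le_pow_right₀ (by exact_mod_cast hg.1) h

/-- polynomial weights in the jump are controlled by the moment constant -/
lemma sum_w_le {C θ : ℝ} (hC : 0 < C) (hθ : 0 < θ) (hθ1 : θ < 1) {G : GapKernel}
    (hG : Cls C θ G) (N : ℕ) (w : ℤ → ℝ) (hw : ∀ d : ℤ, w d ≤ (|(d : ℝ)| + 2) ^ 4)
    (y : ℤ → ℝ) (hy : ∀ g, 0 ≤ y g) :
    ∑ g ∈ Icc (1 : ℤ) N, ∑ g' ∈ Icc (1 : ℤ) N, G.kk (g' - g) * (w (g' - g) * y g') ≤
      Mom C θ * ∑ g ∈ Icc (1 : ℤ) N, y g := by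
  rw [Finset.sum_comm, Finset.mul_sum]
  refine Finset.sum_le_sum fun g' _ => ?_
  have h1 : ∑ g ∈ Icc (1 : ℤ) N, G.kk (g' - g) * (w (g' - g) * y g') ≤
      ∑ g ∈ Icc (1 : ℤ) N, G.kk (g' - g) * (|((g' - g : ℤ) : ℝ)| + 2) ^ 4 * y g' := by
    refine Finset.sum_le_sum fun g _ => ?_
    rw [mul_assoc]
    exact mul_le_mul_of_nonneg_left (mul_le_mul_of_nonneg_right (hw _) (hy g')) (G.kk_nonneg _)
  refine h1.trans ?_
  rw [← Finset.sum_mul]
  exact mul_le_mul_of_nonneg_right (mom_shift hC hθ hθ1 hG _ g') (hy g')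

end GW

open GW in
/-- MODULE GW -/
theorem gw (h : GC_Stmt) (h2 : GSUP_Stmt) : GW_Stmt := by
  intro C θ hC hθ hθ1
  obtain ⟨c, hc, hCo⟩ := h C θ hC hθ hθ1
  obtain ⟨Cs, hCs, hSUP⟩ := h2 C θ hC hθ hθ1
  set M : ℝ := Mom C θ + 1 with hM
  have hM0 : 0 < M := by have := mom_nonneg hC hθ; linarith
  have hMM : Mom C θ ≤ M := by linarith
  set C₁ : ℝ := M / (2 * c) + 1 / 2 with hC₁
  have hC₁0 : 0 ≤ C₁ := by positivity
  set K0 : ℝ := Cs ^ 2 + (2 / c) * (Cs + C₁ * (M * Cs ^ 2)) with hK0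
  have hK00 : 0 ≤ K0 := by positivity
  set K1 : ℝ := (2 / c) * (Cs + C₁ * (M * K0)) with hK1
  have hK10 : 0 ≤ K1 := by positivity
  set K2 : ℝ := (2 / c) * (Cs + C₁ * (M * K1)) with hK2
  have hK20 : 0 ≤ K2 := by positivity
  refine ⟨K0 + K1 + K2 + 1, by positivity, ?_⟩
  intro G hG N eps z v e heps hz hzne hs
  have hCoer : Coer G c := fun N eps z f h1 h2 h3 => hCo G hG N eps z f h1 h2 h3
  have hMd : ∀ f : ℤ → ℂ, Supp N f → ∑ g ∈ Icc (1 : ℤ) N, ∑ g' ∈ Icc (1 : ℤ) N,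
      G.kk (g' - g) * ‖f g' - f g‖ ^ 2 ≤ M * En N f := fun f hf =>
    (kk_diff hC hθ hθ1 hG hf).trans (mul_le_mul_of_nonneg_right hMM (En_nonneg N f))
  obtain ⟨hv1, -⟩ := hSUP G hG N eps z v e heps hz hs
  set L : ℝ := lw 4 N e with hL
  have hL0 : 0 ≤ L := lw_nonneg 4 N e
  have hv : ∀ g, ‖v g‖ ≤ Cs * L := fun g =>
    (hv1 g).trans (mul_le_mul_of_nonneg_left (lw_mono (by norm_num) N e) hCs.le)
  set δ : ℝ := ‖(G.rho : ℂ) - z‖ with hδ
  have hδ0 : 0 < δ := norm_pos_iff.mpr (sub_ne_zero.mpr (Ne.symm hzne))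
  have hδ2 : δ ≤ 1 := by
    have h1 : δ ≤ 2 * G.rho := delta_le hz
    have h2 := rho_le G
    linarith
  set A : ℝ := L ^ 2 with hA
  have hA0 : 0 ≤ A := sq_nonneg _
  set t : ℝ := Real.sqrt δ with ht
  have ht0 : 0 < t := Real.sqrt_pos.mpr hδ0
  have htt : t * t = δ := Real.mul_self_sqrt hδ0.le
  set X : ℝ := 1 / t with hX
  have hX0 : 0 < X := by positivity
  have hXt : X * t = 1 := by rw [hX]; field_simp
  have ht1 : t ≤ 1 := by rw [ht]; exact Real.sqrt_le_one.mpr hδ2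
  have hX1 : 1 ≤ X := by
    rw [← hXt]
    nlinarith
  have hvsq : ∀ g, ‖v g‖ ^ 2 ≤ Cs ^ 2 * A := by
    intro g
    have := pow_le_pow_left₀ (norm_nonneg _) (hv g) 2
    rw [mul_pow] at this
    exact this
  -- k = 0
  have hk0 : nsq N v ≤ K0 * A * X := by
    set ζ : ℤ → ℝ := fun g => min (t * g) 1 with hζ
    set B : ℤ → ℤ → ℝ := fun d g => if (g : ℝ) ≤ X + |(d : ℝ)| then t * |(d : ℝ)| * ‖v g‖ else 0
      with hB
    have hB0 : ∀ d g, 0 ≤ B d g := by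
      intro d g
      simp only [hB]
      split_ifs
      · positivity
      · exact le_rfl
    have hBe : ∀ d g, B (-d) g = B d g := by
      intro d g
      simp only [hB]
      push_cast
      rw [abs_neg]
    have hζB : ∀ g ∈ Icc (1 : ℤ) N, ∀ g' ∈ Icc (1 : ℤ) N,
        |ζ g - ζ g'| * ‖v g'‖ ≤ B (g' - g) g' := by
      intro g _ g' _
      simp only [hB]
      push_cast
      split_ifs with h
      · refine mul_le_mul_of_nonneg_right ?_ (norm_nonneg _)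
        simp only [hζ]
        refine (abs_min_sub_min_le_max _ _ _ _).trans ?_
        rw [sub_self, abs_zero, max_eq_left (abs_nonneg _), ← mul_sub, abs_mul, abs_of_pos ht0,
          abs_sub_comm]
      · push Not at h
        have h0 := abs_nonneg ((g' : ℝ) - g)
        have h00 := le_abs_self ((g' : ℝ) - g)
        have h1 : X ≤ (g' : ℝ) := by linarith
        have h2 : X ≤ (g : ℝ) := by linarith
        have h3 : ∀ y : ℝ, X ≤ y → min (t * y) 1 = 1 := by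
          intro y hy
          refine min_eq_right ?_
          rw [← hXt]
          nlinarith
        simp only [hζ]
        rw [h3 _ h1, h3 _ h2, sub_self, abs_zero, zero_mul]
    have hw := weighted hc hM0 hCoer heps hz hs hMd ζ B hB0 hBe hζB
    rw [← hδ, ← hC₁] at hw
    have hsrc := source_le (N := N) (e := e) hv ζ δ (by
      intro g hg
      rw [Finset.mem_Icc] at hg
      have hg1 : (1 : ℝ) ≤ g := by exact_mod_cast hg.1
      have h1 : 0 ≤ ζ g := le_min (by positivity) zero_le_one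
      have h2 : ζ g ≤ t * g := min_le_left _ _
      calc ζ g ^ 2 ≤ (t * g) ^ 2 := pow_le_pow_left₀ h1 h2 2
        _ = δ * (g : ℝ) ^ 2 := by rw [← htt]; ring
        _ ≤ δ * (g : ℝ) ^ 4 :=
          mul_le_mul_of_nonneg_left (pow_le_pow_right₀ hg1 (by norm_num)) hδ0.le)
    rw [← hL] at hsrc
    have hBs : ∑ g ∈ Icc (1 : ℤ) N, ∑ g' ∈ Icc (1 : ℤ) N, G.kk (g' - g) * B (g' - g) g' ^ 2 ≤
        δ * (M * (Cs ^ 2 * A) * X) := by
      refine (sum_dg_le N (fun d g' => G.kk d * B d g' ^ 2)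
        (fun d g => mul_nonneg (G.kk_nonneg d) (sq_nonneg _))).trans ?_
      have h1 : ∀ d ∈ Icc (-(N : ℤ)) N, ∑ g' ∈ Icc (1 : ℤ) N, G.kk d * B d g' ^ 2 ≤
          G.kk d * (|(d : ℝ)| + 2) ^ 4 * (δ * (Cs ^ 2 * A) * X) := by
        intro d _
        rw [← Finset.mul_sum, mul_assoc]
        refine mul_le_mul_of_nonneg_left ?_ (G.kk_nonneg d)
        have hd0 := abs_nonneg (d : ℝ)
        have h2 : ∀ g : ℤ, B d g ^ 2 =
            if (g : ℝ) ≤ X + |(d : ℝ)| then (t * |(d : ℝ)| * ‖v g‖) ^ 2 else 0 := by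
          intro g
          simp only [hB]
          split_ifs
          · rfl
          · norm_num
        simp only [h2]
        refine (sum_small_le N (X + |(d : ℝ)|) (δ * |(d : ℝ)| ^ 2 * (Cs ^ 2 * A)) (by positivity)
          (fun g => (t * |(d : ℝ)| * ‖v g‖) ^ 2) ?_ (by positivity)).trans ?_
        · intro g
          have : (t * |(d : ℝ)| * ‖v g‖) ^ 2 = δ * |(d : ℝ)| ^ 2 * ‖v g‖ ^ 2 := by
            rw [← htt]; ring
          rw [this]
          exact mul_le_mul_of_nonneg_left (hvsq g) (by positivity)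
        · have h3 : (X + |(d : ℝ)|) * |(d : ℝ)| ^ 2 ≤ (|(d : ℝ)| + 2) ^ 4 * X := by
            have h4 : X + |(d : ℝ)| ≤ (|(d : ℝ)| + 2) * X := by nlinarith
            have h5 : |(d : ℝ)| ^ 2 ≤ (|(d : ℝ)| + 2) ^ 2 :=
              pow_le_pow_left₀ hd0 (by linarith) 2
            have h6 : (|(d : ℝ)| + 2) ^ 3 ≤ (|(d : ℝ)| + 2) ^ 4 :=
              pow_le_pow_right₀ (by linarith) (by norm_num)
            calc (X + |(d : ℝ)|) * |(d : ℝ)| ^ 2
                ≤ ((|(d : ℝ)| + 2) * X) * (|(d : ℝ)| + 2) ^ 2 :=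
                  mul_le_mul h4 h5 (by positivity) (by positivity)
              _ = (|(d : ℝ)| + 2) ^ 3 * X := by ring
              _ ≤ _ := mul_le_mul_of_nonneg_right h6 hX0.le
          calc (X + |(d : ℝ)|) * (δ * |(d : ℝ)| ^ 2 * (Cs ^ 2 * A))
              = ((X + |(d : ℝ)|) * |(d : ℝ)| ^ 2) * (δ * (Cs ^ 2 * A)) := by ring
            _ ≤ ((|(d : ℝ)| + 2) ^ 4 * X) * (δ * (Cs ^ 2 * A)) :=
                mul_le_mul_of_nonneg_right h3 (by positivity)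
            _ = _ := by ring
      refine (Finset.sum_le_sum h1).trans ?_
      rw [← Finset.sum_mul]
      calc (∑ d ∈ Icc (-(N : ℤ)) N, G.kk d * (|(d : ℝ)| + 2) ^ 4) * (δ * (Cs ^ 2 * A) * X)
          ≤ M * (δ * (Cs ^ 2 * A) * X) :=
            mul_le_mul_of_nonneg_right ((mom_le hC hθ hθ1 hG _).trans hMM) (by positivity)
        _ = _ := by ring
    set V : ℤ → ℂ := fun g => (ζ g : ℂ) * v g with hV
    have hE := En_nonneg N V
    have hP := Pot_nonneg heps N V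
    have hn := nsq_nonneg N V
    have h1 : c / 2 * (δ * nsq N V) ≤ δ * (Cs * A + C₁ * (M * (Cs ^ 2 * A) * X)) := by
      have h2 : c / 2 * (δ * nsq N V) ≤ c / 2 * (δ * nsq N V + En N V + Pot eps N V) :=
        mul_le_mul_of_nonneg_left (by linarith) (by positivity)
      have h3 := mul_le_mul_of_nonneg_left hBs hC₁0
      calc c / 2 * (δ * nsq N V) ≤ δ * (Cs * L) * L +
            C₁ * (δ * (M * (Cs ^ 2 * A) * X)) := by linarith
        _ = _ := by rw [hA]; ring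
    have h2 : c / 2 * nsq N V ≤ Cs * A + C₁ * (M * (Cs ^ 2 * A) * X) := by
      have : δ * (c / 2 * nsq N V) ≤ δ * (Cs * A + C₁ * (M * (Cs ^ 2 * A) * X)) := by linarith
      exact le_of_mul_le_mul_left this hδ0
    have h3 : Cs * A + C₁ * (M * (Cs ^ 2 * A) * X) ≤ (Cs + C₁ * (M * Cs ^ 2)) * A * X := by
      have h4 : Cs * A * 1 ≤ Cs * A * X := mul_le_mul_of_nonneg_left hX1 (by positivity)
      linarith
    have h4 : nsq N V ≤ (2 / c) * ((Cs + C₁ * (M * Cs ^ 2)) * A * X) := by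
      have h5 := mul_le_mul_of_nonneg_left (h2.trans h3) (by positivity : 0 ≤ 2 / c)
      have h6 : 2 / c * (c / 2 * nsq N V) = nsq N V := by field_simp
      rw [h6] at h5
      exact h5
    have h5 : nsq N v ≤ X * (Cs ^ 2 * A) + nsq N V := by
      have h6 := sum_small_le N X (Cs ^ 2 * A) hX0.le (fun g => ‖v g‖ ^ 2) hvsq (by positivity)
      refine le_trans ?_ (add_le_add_left h6 _)
      unfold nsq
      rw [← Finset.sum_add_distrib]
      refine Finset.sum_le_sum fun g hg => ?_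
      split_ifs with h
      · have := sq_nonneg ‖V g‖
        linarith
      · have h7 : ζ g = 1 := by
          simp only [hζ]
          refine min_eq_right ?_
          rw [← hXt]
          nlinarith
        simp only [hV]
        rw [h7]
        simp
    calc nsq N v ≤ X * (Cs ^ 2 * A) + (2 / c) * ((Cs + C₁ * (M * Cs ^ 2)) * A * X) := by
          linarith
      _ = K0 * A * X := by rw [hK0]; ring
  -- k = 1
  have hk1 : δ * nsq N (mulg 1 v) + En N (mulg 1 v) + Pot eps N (mulg 1 v) ≤ K1 * A * X := by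
    set ζ : ℤ → ℝ := fun g => (g : ℝ) with hζ
    set B : ℤ → ℤ → ℝ := fun d g => |(d : ℝ)| * ‖v g‖ with hB
    have hB0 : ∀ d g, 0 ≤ B d g := by
      intro d g
      simp only [hB]
      positivity
    have hBe : ∀ d g, B (-d) g = B d g := by
      intro d g
      simp only [hB]
      push_cast
      rw [abs_neg]
    have hζB : ∀ g ∈ Icc (1 : ℤ) N, ∀ g' ∈ Icc (1 : ℤ) N,
        |ζ g - ζ g'| * ‖v g'‖ ≤ B (g' - g) g' := by
      intro g _ g' _
      simp only [hB, hζ]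
      push_cast
      rw [abs_sub_comm]
    have hw := weighted hc hM0 hCoer heps hz hs hMd ζ B hB0 hBe hζB
    rw [← hδ, ← hC₁] at hw
    have hsrc := source_le (N := N) (e := e) hv ζ 1 (by
      intro g hg
      rw [Finset.mem_Icc] at hg
      have hg1 : (1 : ℝ) ≤ g := by exact_mod_cast hg.1
      rw [one_mul]
      exact pow_le_pow_right₀ hg1 (by norm_num))
    rw [← hL] at hsrc
    have hBs : ∑ g ∈ Icc (1 : ℤ) N, ∑ g' ∈ Icc (1 : ℤ) N, G.kk (g' - g) * B (g' - g) g' ^ 2 ≤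
        M * nsq N v := by
      have h1 := sum_w_le hC hθ hθ1 hG N (fun d => |(d : ℝ)| ^ 2) (by
        intro d
        have h0 := abs_nonneg (d : ℝ)
        calc |(d : ℝ)| ^ 2 ≤ (|(d : ℝ)| + 2) ^ 2 := pow_le_pow_left₀ h0 (by linarith) 2
          _ ≤ (|(d : ℝ)| + 2) ^ 4 := pow_le_pow_right₀ (by linarith) (by norm_num))
        (fun g => ‖v g‖ ^ 2) (fun g => sq_nonneg _)
      have h2 : ∑ g ∈ Icc (1 : ℤ) N, ∑ g' ∈ Icc (1 : ℤ) N, G.kk (g' - g) * B (g' - g) g' ^ 2 =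
          ∑ g ∈ Icc (1 : ℤ) N, ∑ g' ∈ Icc (1 : ℤ) N,
            G.kk (g' - g) * (|((g' - g : ℤ) : ℝ)| ^ 2 * ‖v g'‖ ^ 2) :=
        Finset.sum_congr rfl fun g _ => Finset.sum_congr rfl fun g' _ => by
          simp only [hB]; rw [mul_pow]
      rw [h2]
      exact h1.trans (mul_le_mul_of_nonneg_right hMM (nsq_nonneg N v))
    have hV : (fun g => (ζ g : ℂ) * v g) = mulg 1 v := by
      funext g
      simp only [hζ, mulg, pow_one]
      push_cast
      ring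
    rw [hV] at hw
    have h4 : Cs * A * 1 ≤ Cs * A * X := mul_le_mul_of_nonneg_left hX1 (by positivity)
    have h5 : C₁ * (M * nsq N v) ≤ C₁ * (M * (K0 * A * X)) :=
      mul_le_mul_of_nonneg_left (mul_le_mul_of_nonneg_left hk0 hM0.le) hC₁0
    have h55 := mul_le_mul_of_nonneg_left hBs hC₁0
    have h6 : c / 2 * (δ * nsq N (mulg 1 v) + En N (mulg 1 v) + Pot eps N (mulg 1 v)) ≤
        (Cs + C₁ * (M * K0)) * A * X := by
      have h7 : 1 * (Cs * L) * L = Cs * A := by rw [hA]; ring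
      rw [h7] at hsrc
      calc _ ≤ Cs * A * X + C₁ * (M * (K0 * A * X)) := by linarith
        _ = _ := by ring
    have h7 := mul_le_mul_of_nonneg_left h6 (by positivity : 0 ≤ 2 / c)
    have h8 : 2 / c * (c / 2 * (δ * nsq N (mulg 1 v) + En N (mulg 1 v) + Pot eps N (mulg 1 v))) =
        δ * nsq N (mulg 1 v) + En N (mulg 1 v) + Pot eps N (mulg 1 v) := by field_simp
    rw [h8] at h7
    refine h7.trans (le_of_eq ?_)
    rw [hK1]
    ring
  -- k = 2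
  have h1δ : 1 ≤ 1 / δ := by rw [le_div_iff₀ hδ0]; linarith
  have hk1' : nsq N (mulg 1 v) ≤ K1 * A * X / δ := by
    rw [le_div_iff₀ hδ0]
    have := En_nonneg N (mulg 1 v)
    have := Pot_nonneg heps N (mulg 1 v)
    linarith
  have hk2 : δ * nsq N (mulg 2 v) + En N (mulg 2 v) + Pot eps N (mulg 2 v) ≤ K2 * A * X / δ := by
    set ζ : ℤ → ℝ := fun g => (g : ℝ) ^ 2 with hζ
    set B : ℤ → ℤ → ℝ := fun d g => |(d : ℝ)| * (|(d : ℝ)| + 2) * ‖mulg 1 v g‖ with hB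
    have hB0 : ∀ d g, 0 ≤ B d g := by
      intro d g
      simp only [hB]
      positivity
    have hBe : ∀ d g, B (-d) g = B d g := by
      intro d g
      simp only [hB]
      push_cast
      rw [abs_neg]
    have hζB : ∀ g ∈ Icc (1 : ℤ) N, ∀ g' ∈ Icc (1 : ℤ) N,
        |ζ g - ζ g'| * ‖v g'‖ ≤ B (g' - g) g' := by
      intro g hg g' hg'
      rw [Finset.mem_Icc] at hg hg'
      have hg1 : (1 : ℝ) ≤ g := by exact_mod_cast hg.1
      have hg1' : (1 : ℝ) ≤ g' := by exact_mod_cast hg'.1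
      simp only [hB, hζ, mulg, pow_one]
      push_cast
      rw [norm_mul, Complex.norm_intCast, ← mul_assoc]
      refine mul_le_mul_of_nonneg_right ?_ (norm_nonneg _)
      have h1 : (g : ℝ) ^ 2 - (g' : ℝ) ^ 2 = (g - g') * (g + g') := by ring
      rw [h1, abs_mul, abs_of_pos (by linarith : (0 : ℝ) < g + g'),
        abs_of_pos (by linarith : (0 : ℝ) < g'), abs_sub_comm]
      have h0 := abs_nonneg ((g' : ℝ) - g)
      have h00 := neg_abs_le ((g' : ℝ) - g)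
      have h2 : (g : ℝ) + g' ≤ (|(g' : ℝ) - g| + 2) * g' := by nlinarith
      calc |(g' : ℝ) - g| * (g + g') ≤ |(g' : ℝ) - g| * ((|(g' : ℝ) - g| + 2) * g') :=
            mul_le_mul_of_nonneg_left h2 h0
        _ = _ := by ring
    have hw := weighted hc hM0 hCoer heps hz hs hMd ζ B hB0 hBe hζB
    rw [← hδ, ← hC₁] at hw
    have hsrc := source_le (N := N) (e := e) hv ζ 1 (by
      intro g hg
      rw [one_mul]
      simp only [hζ]
      exact le_of_eq (by ring))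
    rw [← hL] at hsrc
    have hBs : ∑ g ∈ Icc (1 : ℤ) N, ∑ g' ∈ Icc (1 : ℤ) N, G.kk (g' - g) * B (g' - g) g' ^ 2 ≤
        M * nsq N (mulg 1 v) := by
      have h1 := sum_w_le hC hθ hθ1 hG N (fun d => (|(d : ℝ)| * (|(d : ℝ)| + 2)) ^ 2) (by
        intro d
        have h0 := abs_nonneg (d : ℝ)
        calc (|(d : ℝ)| * (|(d : ℝ)| + 2)) ^ 2 ≤ ((|(d : ℝ)| + 2) * (|(d : ℝ)| + 2)) ^ 2 :=
              pow_le_pow_left₀ (by positivity)
                (mul_le_mul_of_nonneg_right (by linarith) (by positivity)) 2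
          _ = (|(d : ℝ)| + 2) ^ 4 := by ring)
        (fun g => ‖mulg 1 v g‖ ^ 2) (fun g => sq_nonneg _)
      have h2 : ∑ g ∈ Icc (1 : ℤ) N, ∑ g' ∈ Icc (1 : ℤ) N, G.kk (g' - g) * B (g' - g) g' ^ 2 =
          ∑ g ∈ Icc (1 : ℤ) N, ∑ g' ∈ Icc (1 : ℤ) N,
            G.kk (g' - g) * ((|((g' - g : ℤ) : ℝ)| * (|((g' - g : ℤ) : ℝ)| + 2)) ^ 2 *
              ‖mulg 1 v g'‖ ^ 2) :=
        Finset.sum_congr rfl fun g _ => Finset.sum_congr rfl fun g' _ => by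
          simp only [hB]; rw [mul_pow]
      rw [h2]
      exact h1.trans (mul_le_mul_of_nonneg_right hMM (nsq_nonneg N (mulg 1 v)))
    have hV : (fun g => (ζ g : ℂ) * v g) = mulg 2 v := by
      funext g
      simp only [hζ, mulg]
      push_cast
      ring
    rw [hV] at hw
    have h4 : Cs * A * 1 ≤ Cs * A * (X * (1 / δ)) := by
      refine mul_le_mul_of_nonneg_left ?_ (by positivity)
      calc (1 : ℝ) = 1 * 1 := by ring
        _ ≤ _ := mul_le_mul hX1 h1δ zero_le_one (by positivity)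
    have h5 : C₁ * (M * nsq N (mulg 1 v)) ≤ C₁ * (M * (K1 * A * X / δ)) :=
      mul_le_mul_of_nonneg_left (mul_le_mul_of_nonneg_left hk1' hM0.le) hC₁0
    have h55 := mul_le_mul_of_nonneg_left hBs hC₁0
    have h6 : c / 2 * (δ * nsq N (mulg 2 v) + En N (mulg 2 v) + Pot eps N (mulg 2 v)) ≤
        (Cs + C₁ * (M * K1)) * A * X / δ := by
      have h7 : 1 * (Cs * L) * L = Cs * A := by rw [hA]; ring
      rw [h7] at hsrc
      calc _ ≤ Cs * A * (X * (1 / δ)) + C₁ * (M * (K1 * A * X / δ)) := by linarith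
        _ = _ := by ring
    have h7 := mul_le_mul_of_nonneg_left h6 (by positivity : 0 ≤ 2 / c)
    have h8 : 2 / c * (c / 2 * (δ * nsq N (mulg 2 v) + En N (mulg 2 v) + Pot eps N (mulg 2 v))) =
        δ * nsq N (mulg 2 v) + En N (mulg 2 v) + Pot eps N (mulg 2 v) := by field_simp
    rw [h8] at h7
    refine h7.trans (le_of_eq ?_)
    rw [hK2]
    ring
  have hAX : 0 ≤ A * X := by positivity
  have e1 := En_nonneg N (mulg 1 v)
  have e2 := En_nonneg N (mulg 2 v)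
  have p1 := Pot_nonneg heps N (mulg 1 v)
  have p2 := Pot_nonneg heps N (mulg 2 v)
  have n1 := nsq_nonneg N (mulg 1 v)
  have n2 := nsq_nonneg N (mulg 2 v)
  have hk2' : nsq N (mulg 2 v) ≤ K2 * A * X / δ / δ := by
    rw [le_div_iff₀ hδ0]
    linarith
  constructor
  · intro k hk
    have hform : ∀ (K : ℝ), K ≤ K0 + K1 + K2 + 1 → ∀ y : ℝ, y ≤ K * (A * X / δ ^ k) →
        y ≤ (K0 + K1 + K2 + 1) * A / (t * δ ^ k) := by
      intro K hK y hy
      have h1 : (K0 + K1 + K2 + 1) * A / (t * δ ^ k) = (K0 + K1 + K2 + 1) * (A * X / δ ^ k) := by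
        rw [hX]; field_simp
      rw [h1]
      exact hy.trans (mul_le_mul_of_nonneg_right hK (by positivity))
    interval_cases k
    · refine hform K0 (by linarith) _ ?_
      have : mulg 0 v = v := by funext g; simp [mulg]
      rw [this, pow_zero, div_one]
      linarith
    · refine hform K1 (by linarith) _ ?_
      rw [pow_one]
      refine hk1'.trans (le_of_eq ?_)
      ring
    · refine hform K2 (by linarith) _ ?_
      refine hk2'.trans (le_of_eq ?_)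
      field_simp
  · intro k hk1l hk
    have hform : ∀ (K : ℝ), K ≤ K0 + K1 + K2 + 1 → ∀ y : ℝ, y ≤ K * (A * X * δ / δ ^ k) →
        y ≤ (K0 + K1 + K2 + 1) * A * t / δ ^ k := by
      intro K hK y hy
      have h1 : (K0 + K1 + K2 + 1) * A * t / δ ^ k = (K0 + K1 + K2 + 1) * (A * X * δ / δ ^ k) := by
        have : X * δ = t := by rw [← htt, ← mul_assoc, hXt, one_mul]
        rw [mul_assoc A X δ, this]
        ring
      rw [h1]
      exact hy.trans (mul_le_mul_of_nonneg_right hK (by positivity))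
    interval_cases k
    · refine hform K1 (by linarith) _ ?_
      have h1 : K1 * (A * X * δ / δ ^ 1) = K1 * A * X := by field_simp
      rw [h1]
      have := mul_nonneg hδ0.le n1
      linarith
    · refine hform K2 (by linarith) _ ?_
      have h1 : K2 * (A * X * δ / δ ^ 2) = K2 * A * X / δ := by field_simp
      rw [h1]
      have := mul_nonneg hδ0.le n2
      linarith

end Pool.Agent.FL
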