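import Pool.Agent.Lib_helper89.FL.StmtsGU
import Pool.Agent.Lib_helper2.Gap.EB

/-!
# GEB: residual of the staircase solution in a kernel with exponential tails
-/

set_option autoImplicit false

open Finset Filter Topology

namespace Pool.Agent.FL

open Pool.Agent.Gap

namespace GEB

open Pool.Agent.Gap.EBaux

/-- contribution of the pieces of type `i` to the residual -/
noncomputable def tI (G : GapKernel) (eps : ℝ) (z : ℂ) (v : ℤ → ℂ) (i : ℕ × ℕ) (g : ℤ) : ℂ :=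
  (G.tot i : ℂ) * (v g - 1) - ∑ g' ∈ Icc (g - G.R) (g + G.R),
    (G.K i g g' : ℂ) * ((z / G.rho) ^ i.1 * (GapKernel.wt eps i g g' : ℂ) * v g' - 1)

/-- main term of the contribution -/
noncomputable def mI (G : GapKernel) (eps eps' : ℝ) (z z' : ℂ) (v : ℤ → ℂ) (i : ℕ × ℕ) (g : ℤ) :
    ℂ :=
  (G.tot i : ℂ) * ((i.1 : ℂ) * (1 - z / G.rho) + 2 * i.2 * eps * g) * v g
    - (1 / 2) * ((s2 G i : ℝ) : ℂ) * ((4 * (1 - 4 * z') + 8 * (eps' : ℂ) * (g : ℂ)) * v g)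

theorem crit_c (G : GapKernel) : ∑ i ∈ G.S, (G.rho : ℂ) ^ i.1 * (G.tot i : ℂ) = 1 := by
  have h2 : ((∑ i ∈ G.S, G.rho ^ i.1 * G.tot i : ℝ) : ℂ) = ((1 : ℝ) : ℂ) := by
    rw [G.crit']
  push_cast at h2
  exact h2

theorem lop_eq (G : GapKernel) {eps : ℝ} {z : ℂ} {N : ℕ} {v : ℤ → ℂ} {g : ℤ}
    (hs : ∀ x : ℤ, (x < 1 ∨ (N : ℤ) < x) → v x = 0) :
    G.Lop eps z N v g = (G.kap g : ℂ) + ∑ i ∈ G.S, (G.rho : ℂ) ^ i.1 * tI G eps z v i g := by
  have hrc : (G.rho : ℂ) ≠ 0 := by exact_mod_cast G.rho_pos.ne'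
  have e1 : G.Lop eps z N v g = v g - ∑ i ∈ G.S, ∑ g' ∈ Icc (g - G.R) (g + G.R),
      z ^ i.1 * ((G.K i g g' : ℂ) * (GapKernel.wt eps i g g' : ℂ)) * v g' := by
    unfold GapKernel.Lop GapKernel.Kap GapKernel.Kz
    congr 1
    simp only [Finset.sum_mul]
    rw [Finset.sum_comm]
    refine Finset.sum_congr rfl fun i _ => ?_
    have e2 : ∀ g' : ℤ, ((i.1 : ℂ)) ^ 0 * z ^ i.1
        * ((G.K i g g' * GapKernel.wt eps i g g' : ℝ) : ℂ) * v g'
        = z ^ i.1 * ((G.K i g g' : ℂ) * (GapKernel.wt eps i g g' : ℂ)) * v g' := by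
      intro g'
      push_cast
      ring
    simp only [e2]
    apply sum_eq_of_supp
    · intro y hy
      rw [hs y (by rw [Finset.mem_Icc] at hy; omega), mul_zero]
    · intro y hy
      rw [G.K_range i g y]
      · simp
      · rw [Finset.mem_Icc] at hy
        by_contra hcon
        push Not at hcon
        rw [abs_le] at hcon
        omega
  have e3 : ∑ i ∈ G.S, (G.rho : ℂ) ^ i.1 * tI G eps z v i g
      = (∑ i ∈ G.S, (G.rho : ℂ) ^ i.1 * (G.tot i : ℂ)) * (v g - 1)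
        - ∑ i ∈ G.S, ∑ g' ∈ Icc (g - G.R) (g + G.R),
          z ^ i.1 * ((G.K i g g' : ℂ) * (GapKernel.wt eps i g g' : ℂ)) * v g'
        + ∑ i ∈ G.S, ∑ g' ∈ Icc (g - G.R) (g + G.R), (G.rho : ℂ) ^ i.1 * (G.K i g g' : ℂ) := by
    rw [Finset.sum_mul, ← Finset.sum_sub_distrib, ← Finset.sum_add_distrib]
    refine Finset.sum_congr rfl fun i _ => ?_
    unfold tI
    have e4 : (G.rho : ℂ) ^ i.1 * ∑ g' ∈ Icc (g - G.R) (g + G.R),
        (G.K i g g' : ℂ) * ((z / G.rho) ^ i.1 * (GapKernel.wt eps i g g' : ℂ) * v g' - 1)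
        = ∑ g' ∈ Icc (g - G.R) (g + G.R),
          z ^ i.1 * ((G.K i g g' : ℂ) * (GapKernel.wt eps i g g' : ℂ)) * v g'
          - ∑ g' ∈ Icc (g - G.R) (g + G.R), (G.rho : ℂ) ^ i.1 * (G.K i g g' : ℂ) := by
      rw [Finset.mul_sum, ← Finset.sum_sub_distrib]
      refine Finset.sum_congr rfl fun g' _ => ?_
      rw [div_pow]
      field_simp
    rw [mul_sub, e4]
    ring
  have e5 : (G.kap g : ℂ) = 1 - ∑ i ∈ G.S, ∑ g' ∈ Icc (g - G.R) (g + G.R),
      (G.rho : ℂ) ^ i.1 * (G.K i g g' : ℂ) := by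
    unfold GapKernel.kap GapKernel.Kc
    push_cast
    rw [Finset.sum_comm]
  rw [e1, e3, e5, crit_c]
  ring

/-- summation of the main terms -/
theorem main_eq (G : GapKernel) (eps eps' : ℝ) (z z' : ℂ) (v : ℤ → ℂ) (g : ℤ) :
    ∑ i ∈ G.S, (G.rho : ℂ) ^ i.1 * mI G eps eps' z z' v i g
      = ((G.mbar : ℂ) * (1 - z / (G.rho : ℂ)) - 2 * (G.sig2 : ℂ) * (1 - 4 * z')) * v g
        + 2 * ((G.hbar * eps - 2 * G.sig2 * eps' : ℝ) : ℂ) * mulg 1 v g := by
  have m1 : (G.mbar : ℂ) = ∑ i ∈ G.S, (i.1 : ℂ) * (G.rho : ℂ) ^ i.1 * (G.tot i : ℂ) := by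
    unfold GapKernel.mbar; push_cast; rfl
  have m2 : (G.hbar : ℂ) = ∑ i ∈ G.S, (i.2 : ℂ) * (G.rho : ℂ) ^ i.1 * (G.tot i : ℂ) := by
    unfold GapKernel.hbar; push_cast; rfl
  have m3 : (G.sig2 : ℂ) = ∑ i ∈ G.S, (G.rho : ℂ) ^ i.1 * ((s2 G i : ℝ) : ℂ) := by
    unfold GapKernel.sig2 s2; push_cast; rfl
  have e1 : ∑ i ∈ G.S, (G.rho : ℂ) ^ i.1 * mI G eps eps' z z' v i g
      = (∑ i ∈ G.S, (i.1 : ℂ) * (G.rho : ℂ) ^ i.1 * (G.tot i : ℂ)) * ((1 - z / G.rho) * v g)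
        + (∑ i ∈ G.S, (i.2 : ℂ) * (G.rho : ℂ) ^ i.1 * (G.tot i : ℂ)) * (2 * eps * g * v g)
        - (∑ i ∈ G.S, (G.rho : ℂ) ^ i.1 * ((s2 G i : ℝ) : ℂ)) *
          ((1 / 2) * ((4 * (1 - 4 * z') + 8 * (eps' : ℂ) * (g : ℂ)) * v g)) := by
    rw [Finset.sum_mul, Finset.sum_mul, Finset.sum_mul, ← Finset.sum_add_distrib,
      ← Finset.sum_sub_distrib]
    refine Finset.sum_congr rfl fun i _ => ?_
    unfold mI
    ring
  rw [e1, ← m1, ← m2, ← m3]
  unfold mulg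
  push_cast
  ring

/-! ### pieces which do not see the wall -/

theorem tot_loc (G : GapKernel) (hL : Loc G) (i : ℕ × ℕ) :
    G.tot i = ∑ d ∈ Icc (-((2 * i.1 : ℕ) : ℤ)) ((2 * i.1 : ℕ) : ℤ), G.T i d := by
  unfold GapKernel.tot
  apply sum_eq_of_supp
  · intro d hd
    apply G.T_range
    rw [Finset.mem_Icc, ← abs_le] at hd
    exact not_le.mp hd
  · intro d hd
    apply hL.T_loc
    rw [Finset.mem_Icc, ← abs_le] at hd
    push_cast at hd
    exact not_le.mp hd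

theorem s2_loc (G : GapKernel) (hL : Loc G) (i : ℕ × ℕ) :
    s2 G i = ∑ d ∈ Icc (-((2 * i.1 : ℕ) : ℤ)) ((2 * i.1 : ℕ) : ℤ), (d : ℝ) ^ 2 * G.T i d := by
  unfold s2
  apply sum_eq_of_supp
  · intro d hd
    rw [G.T_range, mul_zero]
    rw [Finset.mem_Icc, ← abs_le] at hd
    exact not_le.mp hd
  · intro d hd
    rw [hL.T_loc, mul_zero]
    rw [Finset.mem_Icc, ← abs_le] at hd
    push_cast at hd
    exact not_le.mp hd

theorem s2_le (G : GapKernel) (hL : Loc G) (i : ℕ × ℕ) :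
    s2 G i ≤ 4 * (i.1 : ℝ) ^ 2 * G.tot i := by
  rw [s2_loc G hL, tot_loc G hL, Finset.mul_sum]
  refine Finset.sum_le_sum fun d hd => ?_
  refine mul_le_mul_of_nonneg_right ?_ (G.T_nonneg _ _)
  rw [Finset.mem_Icc] at hd
  have h1 : (d : ℝ) ≤ 2 * i.1 := by exact_mod_cast hd.2
  have h2 : -(2 * (i.1 : ℝ)) ≤ d := by exact_mod_cast hd.1
  nlinarith

theorem K_all (G : GapKernel) (hL : Loc G) (i : ℕ × ℕ) {g : ℤ} (hg : 2 * (i.1 : ℤ) < g) (g' : ℤ) :
    G.K i g g' = G.T i (g' - g) := by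
  rcases le_or_gt g' 0 with h | h
  · rw [G.K_out' i g g' h, hL.T_loc]
    rw [abs_of_nonpos (by omega)]
    omega
  · exact hL.K_loc i g g' (by omega) (by omega) hg

theorem tI_bulk (G : GapKernel) (hL : Loc G) (eps : ℝ) (z : ℂ) (v : ℤ → ℂ) (i : ℕ × ℕ) {g : ℤ}
    (hg : 2 * (i.1 : ℤ) < g) :
    tI G eps z v i g = (G.tot i : ℂ) * v g
      - ∑ d ∈ Icc (-((2 * i.1 : ℕ) : ℤ)) ((2 * i.1 : ℕ) : ℤ), (z / G.rho) ^ i.1
        * ((G.T i d : ℂ) * (Real.exp (-(eps * i.2 * (2 * g + d))) : ℂ)) * v (g + d) := by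
  have e1 : ∑ g' ∈ Icc (g - G.R) (g + G.R),
      (G.K i g g' : ℂ) * ((z / G.rho) ^ i.1 * (GapKernel.wt eps i g g' : ℂ) * v g' - 1)
      = ∑ d ∈ Icc (-((2 * i.1 : ℕ) : ℤ)) ((2 * i.1 : ℕ) : ℤ), (G.T i d : ℂ) *
        ((z / G.rho) ^ i.1 * (Real.exp (-(eps * i.2 * (2 * g + d))) : ℂ) * v (g + d) - 1) := by
    have e2 : ∑ d ∈ Icc (-((2 * i.1 : ℕ) : ℤ)) ((2 * i.1 : ℕ) : ℤ), (G.T i d : ℂ) *
        ((z / G.rho) ^ i.1 * (Real.exp (-(eps * i.2 * (2 * g + d))) : ℂ) * v (g + d) - 1)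
        = ∑ g' ∈ (Icc (-((2 * i.1 : ℕ) : ℤ)) ((2 * i.1 : ℕ) : ℤ)).map (addLeftEmbedding g),
          (G.K i g g' : ℂ) * ((z / G.rho) ^ i.1 * (GapKernel.wt eps i g g' : ℂ) * v g' - 1) := by
      rw [Finset.sum_map]
      refine Finset.sum_congr rfl fun d _ => ?_
      simp only [addLeftEmbedding_apply]
      rw [K_all G hL i hg, show g + d - g = d by ring]
      unfold GapKernel.wt
      have : (2 * (g : ℝ) + d) = g + ((g + d : ℤ) : ℝ) := by push_cast; ring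
      rw [this]
    rw [e2]
    apply sum_eq_of_supp
    · intro y hy
      rw [G.K_range i g y]
      · simp
      · rw [Finset.mem_Icc] at hy
        by_contra hcon
        push Not at hcon
        rw [abs_le] at hcon
        omega
    · intro y hy
      have : G.K i g y = 0 := by
        rw [K_all G hL i hg]
        apply hL.T_loc
        by_contra hcon
        push Not at hcon
        rw [abs_le] at hcon
        apply hy
        rw [Finset.mem_map]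
        refine ⟨y - g, ?_, ?_⟩
        · rw [Finset.mem_Icc]; push_cast; exact hcon
        · simp
      rw [this]
      simp
  unfold tI
  rw [e1]
  have e3 : ∑ d ∈ Icc (-((2 * i.1 : ℕ) : ℤ)) ((2 * i.1 : ℕ) : ℤ), (G.T i d : ℂ) *
        ((z / G.rho) ^ i.1 * (Real.exp (-(eps * i.2 * (2 * g + d))) : ℂ) * v (g + d) - 1)
      = ∑ d ∈ Icc (-((2 * i.1 : ℕ) : ℤ)) ((2 * i.1 : ℕ) : ℤ), (z / G.rho) ^ i.1
        * ((G.T i d : ℂ) * (Real.exp (-(eps * i.2 * (2 * g + d))) : ℂ)) * v (g + d)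
        - (G.tot i : ℂ) := by
    rw [tot_loc G hL]
    push_cast
    rw [← Finset.sum_sub_distrib]
    exact Finset.sum_congr rfl fun d _ => by ring
  rw [e3]
  ring

/-- the pointwise estimate for one type of pieces -/
theorem bulkI (G : GapKernel) (hL : Loc G) {N : ℕ} {D e eps eps' : ℝ} {z z' : ℂ} {v : ℤ → ℂ}
    {g : ℤ} (h : stair.Solves eps' z' N v (src1 z'))
    (hD : ‖(G.rho : ℂ) - z‖ ≤ D) (hD' : ‖(1 / 4 : ℂ) - z'‖ ≤ D)
    (heps : 0 ≤ eps) (he : eps ≤ e) (heps' : 0 ≤ eps') (he' : eps' ≤ e)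
    (hz : ‖z‖ ≤ G.rho) (hz' : ‖(1 / 4 : ℂ) - z'‖ ≤ 1 / 8) (i : ℕ × ℕ)
    (hg : 2 * (i.1 : ℤ) < g) :
    ‖tI G eps z v i g - mI G eps eps' z z' v i g‖
      ≤ (G.tot i * C1 (2 * i.1) G.rho i + 1 / 2 * s2 G i * 171) * FS (2 * i.1) N D e v g := by
  set q : ℂ := (4 * (1 - 4 * z') + 8 * (eps' : ℂ) * (g : ℂ)) * v g with hq
  set F := FS (2 * i.1) N D e v g with hF
  have hrc : (G.rho : ℂ) ≠ 0 := by exact_mod_cast G.rho_pos.ne'
  have hg' : ((2 * i.1 : ℕ) : ℤ) + 1 ≤ g := by push_cast; omega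
  set J := Icc (-((2 * i.1 : ℕ) : ℤ)) ((2 * i.1 : ℕ) : ℤ) with hJ
  have tot' : (G.tot i : ℂ) = ∑ d ∈ J, (G.T i d : ℂ) := by
    rw [tot_loc G hL]; push_cast; rfl
  have dec : tI G eps z v i g - mI G eps eps' z z' v i g
      = (∑ d ∈ J, (G.T i d : ℂ) *
          ((1 - (z / G.rho) ^ i.1 * (Real.exp (-(eps * i.2 * (2 * g + d))) : ℂ)) * v (g + d)
          - ((i.1 : ℂ) * (1 - z / G.rho) + 2 * i.2 * eps * g) * v g))
        + (∑ d ∈ J, (G.T i d : ℂ) * (v g - v (g + d))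
          + (1 / 2) * ((s2 G i : ℝ) : ℂ) * q) := by
    rw [tI_bulk G hL eps z v i hg]
    unfold mI
    rw [← hq]
    have e2 : ∑ d ∈ J, (G.T i d : ℂ) *
          ((1 - (z / G.rho) ^ i.1 * (Real.exp (-(eps * i.2 * (2 * g + d))) : ℂ)) * v (g + d)
          - ((i.1 : ℂ) * (1 - z / G.rho) + 2 * i.2 * eps * g) * v g)
        = ∑ d ∈ J, (G.T i d : ℂ) * v (g + d)
          - ∑ d ∈ J, (z / G.rho) ^ i.1
              * ((G.T i d : ℂ) * (Real.exp (-(eps * i.2 * (2 * g + d))) : ℂ)) * v (g + d)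
          - (G.tot i : ℂ) * (((i.1 : ℂ) * (1 - z / G.rho) + 2 * i.2 * eps * g) * v g) := by
      rw [tot', Finset.sum_mul, ← Finset.sum_sub_distrib, ← Finset.sum_sub_distrib]
      exact Finset.sum_congr rfl fun d _ => by ring
    have e3 : ∑ d ∈ J, (G.T i d : ℂ) * (v g - v (g + d))
        = (G.tot i : ℂ) * v g - ∑ d ∈ J, (G.T i d : ℂ) * v (g + d) := by
      rw [tot', Finset.sum_mul, ← Finset.sum_sub_distrib]
      exact Finset.sum_congr rfl fun d _ => by ring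
    rw [e2, e3]
    ring
  rw [dec]
  refine (norm_add_le _ _).trans ?_
  rw [add_mul (G.tot i * C1 (2 * i.1) G.rho i)]
  refine add_le_add ?_ ?_
  · refine (norm_sum_le _ _).trans ?_
    rw [tot_loc G hL, Finset.sum_mul, Finset.sum_mul]
    refine Finset.sum_le_sum fun d hd => ?_
    rw [norm_mul, Complex.norm_real, Real.norm_of_nonneg (G.T_nonneg _ _), mul_assoc (G.T i d)]
    refine mul_le_mul_of_nonneg_left ?_ (G.T_nonneg _ _)
    rw [Finset.mem_Icc] at hd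
    have hd' : |d| ≤ ((2 * i.1 : ℕ) : ℤ) := abs_le.mpr hd
    exact part_a G.rho_pos hD heps he hz hg' i hd'
  · have := part_b (2 * i.1) (G.T i) (G.T_even i) (G.T_nonneg i) v g q (171 * F)
      (fun j hj => L2_est' h hD' heps' he' hz' hg' hj)
    rw [s2_loc G hL]
    refine this.trans (le_of_eq ?_)
    ring

/-! ### pieces which see the wall -/

theorem rho_le (G : GapKernel) : G.rho ≤ 1 / 4 := by
  have h1 : G.rho ^ 1 * G.tot (1, 1) ≤ 1 := by
    rw [← G.crit']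
    refine Finset.single_le_sum (f := fun i : ℕ × ℕ => G.rho ^ i.1 * G.tot i) ?_ G.i0_mem
    intro i _
    have := G.rho_pos
    have := G.tot_nonneg i
    positivity
  rw [G.tot_one] at h1
  linarith

/-- polynomial bookkeeping for one point -/
theorem pt_bound (C m a D1 ep η w x E : ℝ) (hm : 1 ≤ m) (hC : 0 < C)
    (hD1 : 0 ≤ D1) (hD1' : D1 ≤ 1 / 2) (hep : 0 ≤ ep) (hep' : ep ≤ 1) (hη : 0 ≤ η)
    (ha : a ≤ m * (C * D1)) (hw : w ≤ ep * (6 * m ^ 2))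
    (hx0 : 0 ≤ x) (hx : x ≤ 1 + 4 * m * η) (hE : η + D1 + ep ≤ E) :
    a * x + w * x + 4 * m * η ≤ (3 * C + 34) * m ^ 3 * E := by
  have m2 : m ≤ m ^ 2 := by nlinarith
  have m3 : m ^ 2 ≤ m ^ 3 := by nlinarith [sq_nonneg m]
  have h1 : a * x ≤ m * (C * D1) * (1 + 4 * m * η) :=
    mul_le_mul ha hx hx0 (by positivity)
  have h2 : w * x ≤ ep * (6 * m ^ 2) * (1 + 4 * m * η) :=
    mul_le_mul hw hx hx0 (by positivity)
  have h3 : m * (C * D1) * (4 * m * η) ≤ 2 * C * m ^ 2 * η := by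
    have : m * (C * D1) * (4 * m * η) = (4 * C * m ^ 2 * η) * D1 := by ring
    rw [this]
    have h4 : (4 * C * m ^ 2 * η) * D1 ≤ (4 * C * m ^ 2 * η) * (1 / 2) :=
      mul_le_mul_of_nonneg_left hD1' (by positivity)
    linarith
  have h4 : ep * (6 * m ^ 2) * (4 * m * η) ≤ 24 * m ^ 3 * η := by
    have : ep * (6 * m ^ 2) * (4 * m * η) = (24 * m ^ 3 * η) * ep := by ring
    rw [this]
    have h5 : (24 * m ^ 3 * η) * ep ≤ (24 * m ^ 3 * η) * 1 :=
      mul_le_mul_of_nonneg_left hep' (by positivity)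
    linarith
  have g1 : m * (C * D1) ≤ C * m ^ 3 * D1 := by
    have : m * (C * D1) = m * (C * D1) := rfl
    have h6 : m * (C * D1) ≤ m ^ 3 * (C * D1) :=
      mul_le_mul_of_nonneg_right (m2.trans m3) (by positivity)
    linarith
  have g2 : ep * (6 * m ^ 2) ≤ 6 * m ^ 3 * ep := by
    have h6 : m ^ 2 * ep ≤ m ^ 3 * ep := mul_le_mul_of_nonneg_right m3 hep
    linarith
  have g3 : 2 * C * m ^ 2 * η ≤ 2 * C * m ^ 3 * η := by
    have h6 : m ^ 2 * (C * η) ≤ m ^ 3 * (C * η) := mul_le_mul_of_nonneg_right m3 (by positivity)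
    linarith
  have g4 : 4 * m * η ≤ 4 * m ^ 3 * η := by
    have h6 : m * η ≤ m ^ 3 * η := mul_le_mul_of_nonneg_right (m2.trans m3) hη
    linarith
  have key : a * x + w * x + 4 * m * η
      ≤ C * m ^ 3 * D1 + 6 * m ^ 3 * ep + (2 * C + 28) * m ^ 3 * η := by linarith
  refine key.trans ?_
  have hm3 : 0 ≤ m ^ 3 := by positivity
  have k1 : C * m ^ 3 * D1 ≤ (3 * C + 34) * m ^ 3 * D1 := by
    have := mul_nonneg hm3 hD1
    nlinarith [mul_nonneg hC.le this]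
  have k2 : 6 * m ^ 3 * ep ≤ (3 * C + 34) * m ^ 3 * ep := by
    have := mul_nonneg hm3 hep
    nlinarith [mul_nonneg hC.le this]
  have k3 : (2 * C + 28) * m ^ 3 * η ≤ (3 * C + 34) * m ^ 3 * η := by
    have := mul_nonneg hm3 hη
    nlinarith [mul_nonneg hC.le this]
  have k4 : (3 * C + 34) * m ^ 3 * (η + D1 + ep) ≤ (3 * C + 34) * m ^ 3 * E :=
    mul_le_mul_of_nonneg_left hE (by positivity)
  linarith

/-- one point of the sum for a piece which sees the wall -/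
theorem point (G : GapKernel) {C : ℝ} (hC : 0 < C) (hrho : C⁻¹ ≤ G.rho) {N : ℕ}
    {eps η E : ℝ} {z : ℂ} {v : ℤ → ℂ} (heps : 0 ≤ eps) (heps1 : eps ≤ 1)
    (hz : ‖z‖ ≤ G.rho) (hη : 0 ≤ η)
    (hs : ∀ x : ℤ, (x < 1 ∨ (N : ℤ) < x) → v x = 0)
    (hv : ∀ g ∈ Icc (1 : ℤ) N, ‖v g - 1‖ ≤ η * g)
    (hE : η + ‖(G.rho : ℂ) - z‖ + eps + (N : ℝ)⁻¹ ≤ E) (hN : 1 ≤ N)
    (i : ℕ × ℕ) (hi : 1 ≤ i.1) (hi2 : i.2 ≤ i.1) {g g' : ℤ} (hg1 : 1 ≤ g)
    (hg : g ≤ 2 * i.1) (hg1' : 1 ≤ g') (hg' : g' ≤ 4 * i.1) :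
    ‖(z / G.rho) ^ i.1 * (GapKernel.wt eps i g g' : ℂ) * v g' - 1‖
      ≤ (3 * C + 34) * (i.1 : ℝ) ^ 3 * E := by
  have hr := G.rho_pos
  have hm : (1 : ℝ) ≤ i.1 := by exact_mod_cast hi
  have hN0 : (0 : ℝ) < N := by exact_mod_cast hN
  have hNi : 0 < (N : ℝ)⁻¹ := by positivity
  have hDn : 0 ≤ ‖(G.rho : ℂ) - z‖ := norm_nonneg _
  have hE0 : 0 ≤ E := by linarith
  have hm2 : (i.1 : ℝ) ≤ (i.1 : ℝ) ^ 3 := by nlinarith [sq_nonneg (i.1 : ℝ)]
  rcases le_or_gt g' (N : ℤ) with hgN | hgN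
  · have hg'r : (g' : ℝ) ≤ 4 * i.1 := by exact_mod_cast hg'
    have hgr : (g : ℝ) ≤ 2 * i.1 := by exact_mod_cast hg
    have hg1r : (1 : ℝ) ≤ g := by exact_mod_cast hg1
    have hg1r' : (1 : ℝ) ≤ g' := by exact_mod_cast hg1'
    have h1 := hv g' (by rw [Finset.mem_Icc]; exact ⟨hg1', hgN⟩)
    have h1' : ‖v g' - 1‖ ≤ 4 * i.1 * η := by
      refine h1.trans ?_
      have := mul_le_mul_of_nonneg_left hg'r hη
      linarith
    have hx : ‖v g'‖ ≤ 1 + 4 * i.1 * η := by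
      calc ‖v g'‖ = ‖1 + (v g' - 1)‖ := by rw [add_sub_cancel]
        _ ≤ ‖(1 : ℂ)‖ + ‖v g' - 1‖ := norm_add_le _ _
        _ ≤ _ := by rw [norm_one]; linarith
    have hζ : ‖z / G.rho‖ ≤ 1 := by
      rw [norm_div, Complex.norm_real, Real.norm_of_nonneg hr.le, div_le_one hr]
      exact hz
    have ha : ‖1 - z / (G.rho : ℂ)‖ ≤ C * ‖(G.rho : ℂ) - z‖ := by
      have hrc : (G.rho : ℂ) ≠ 0 := by exact_mod_cast hr.ne'
      have e : 1 - z / (G.rho : ℂ) = ((G.rho : ℂ) - z) / G.rho := by field_simp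
      rw [e, norm_div, Complex.norm_real, Real.norm_of_nonneg hr.le, div_le_iff₀ hr]
      have : 1 ≤ C * G.rho := by
        rw [inv_le_iff_one_le_mul₀ hC] at hrho
        linarith
      nlinarith
    have P1 := pow_est1 (z / G.rho) hζ i.1
    have hw0 : 0 ≤ GapKernel.wt eps i g g' := (Real.exp_pos _).le
    have harg : 0 ≤ eps * (i.2 : ℝ) * ((g : ℝ) + (g' : ℝ)) := by
      have : 0 ≤ (g : ℝ) + (g' : ℝ) := by linarith
      positivity
    have hw1 : GapKernel.wt eps i g g' ≤ 1 := by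
      unfold GapKernel.wt
      rw [Real.exp_le_one_iff]
      linarith
    have hw2 : 1 - GapKernel.wt eps i g g' ≤ eps * (6 * (i.1 : ℝ) ^ 2) := by
      have h2 := Real.add_one_le_exp (-(eps * (i.2 : ℝ) * ((g : ℝ) + (g' : ℝ))))
      have h3 : (i.2 : ℝ) ≤ i.1 := by exact_mod_cast hi2
      have h4 : eps * (i.2 : ℝ) * ((g : ℝ) + (g' : ℝ)) ≤ eps * i.1 * (6 * i.1) := by
        apply mul_le_mul (mul_le_mul_of_nonneg_left h3 heps) (by linarith) (by linarith)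
          (by positivity)
      unfold GapKernel.wt
      linarith [(by ring : eps * (i.1 : ℝ) * (6 * i.1) = eps * (6 * (i.1 : ℝ) ^ 2))]
    have hwn : ‖((GapKernel.wt eps i g g' : ℝ) : ℂ) - 1‖ ≤ 1 - GapKernel.wt eps i g g' := by
      rw [← Complex.ofReal_one, ← Complex.ofReal_sub, Complex.norm_real, Real.norm_eq_abs,
        abs_sub_comm, abs_of_nonneg (by linarith)]
    have e : (z / G.rho) ^ i.1 * (GapKernel.wt eps i g g' : ℂ) * v g' - 1
        = ((z / G.rho) ^ i.1 - 1) * (GapKernel.wt eps i g g' : ℂ) * v g'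
          + ((GapKernel.wt eps i g g' : ℂ) - 1) * v g' + (v g' - 1) := by ring
    rw [e]
    refine (norm_add_le _ _).trans ?_
    refine (add_le_add (norm_add_le _ _) h1').trans ?_
    have b1 : ‖((z / G.rho) ^ i.1 - 1) * (GapKernel.wt eps i g g' : ℂ) * v g'‖
        ≤ ‖(z / (G.rho : ℂ)) ^ i.1 - 1‖ * ‖v g'‖ := by
      rw [norm_mul, norm_mul, Complex.norm_real, Real.norm_of_nonneg hw0]
      refine mul_le_mul_of_nonneg_right ?_ (norm_nonneg _)
      exact mul_le_of_le_one_right (norm_nonneg _) hw1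
    have b2 : ‖((GapKernel.wt eps i g g' : ℂ) - 1) * v g'‖
        ≤ (1 - GapKernel.wt eps i g g') * ‖v g'‖ := by
      rw [norm_mul]
      exact mul_le_mul_of_nonneg_right hwn (norm_nonneg _)
    have hD1' : ‖(G.rho : ℂ) - z‖ ≤ 1 / 2 := by
      have h5 := norm_sub_le (G.rho : ℂ) z
      rw [Complex.norm_real, Real.norm_of_nonneg hr.le] at h5
      have := rho_le G
      linarith
    have := pt_bound C i.1 ‖(z / (G.rho : ℂ)) ^ i.1 - 1‖ ‖(G.rho : ℂ) - z‖ eps η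
      (1 - GapKernel.wt eps i g g') ‖v g'‖ E hm hC hDn hD1' heps heps1 hη
      (P1.trans (mul_le_mul_of_nonneg_left ha (by positivity))) hw2 (norm_nonneg _) hx
      (by linarith)
    linarith
  · rw [hs g' (Or.inr hgN), mul_zero, zero_sub, norm_neg, norm_one]
    have h1 : (N : ℝ) ≤ 4 * i.1 := by exact_mod_cast (by omega : (N : ℤ) ≤ 4 * i.1)
    have h2 : 1 ≤ 4 * (i.1 : ℝ) * (N : ℝ)⁻¹ := by
      rw [← div_eq_mul_inv, le_div_iff₀ hN0]
      linarith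
    have h3 : (N : ℝ)⁻¹ ≤ E := by linarith
    calc (1 : ℝ) ≤ 4 * (i.1 : ℝ) * (N : ℝ)⁻¹ := h2
      _ ≤ 4 * (i.1 : ℝ) * E := mul_le_mul_of_nonneg_left h3 (by positivity)
      _ ≤ 4 * (i.1 : ℝ) ^ 3 * E := by
        refine mul_le_mul_of_nonneg_right ?_ hE0
        linarith
      _ ≤ (3 * C + 34) * (i.1 : ℝ) ^ 3 * E := by
        have : 0 ≤ (i.1 : ℝ) ^ 3 * E := by positivity
        nlinarith [mul_nonneg hC.le this]

/-- polynomial bookkeeping for the main term -/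
theorem main_bound (C m D1 D2 ep ep' η x t s p q E : ℝ) (hm : 1 ≤ m) (hC : 0 < C)
    (hD1 : 0 ≤ D1) (hD1' : D1 ≤ 1 / 2) (hD2 : 0 ≤ D2) (hD2' : D2 ≤ 1 / 8)
    (hep : 0 ≤ ep) (hep1 : ep ≤ 1) (hep' : 0 ≤ ep') (hep1' : ep' ≤ 1) (hη : 0 ≤ η)
    (hx0 : 0 ≤ x) (hx : x ≤ 1 + 2 * m * η) (ht : 0 ≤ t)
    (hs : s ≤ 4 * m ^ 2 * t) (hp : p ≤ m * (C * D1) + 4 * m ^ 2 * ep)
    (hq0 : 0 ≤ q) (hq : q ≤ 16 * D2 + 16 * m * ep')
    (hE : η + D1 + D2 + ep + ep' ≤ E) :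
    t * p * x + 1 / 2 * s * (q * x) ≤ t * ((2 * C + 148) * m ^ 4 * E) := by
  have m2 : m ≤ m ^ 2 := by nlinarith
  have m3 : m ^ 2 ≤ m ^ 3 := by nlinarith [sq_nonneg m]
  have m4 : m ^ 3 ≤ m ^ 4 := by
    have : 0 ≤ m ^ 3 := by positivity
    nlinarith
  have h1 : p * x ≤ (m * (C * D1) + 4 * m ^ 2 * ep) * (1 + 2 * m * η) :=
    mul_le_mul hp hx hx0 (by positivity)
  have h2 : q * x ≤ (16 * D2 + 16 * m * ep') * (1 + 2 * m * η) :=
    mul_le_mul hq hx hx0 (by positivity)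
  have h3 : (m * (C * D1) + 4 * m ^ 2 * ep) * (1 + 2 * m * η)
      ≤ C * m ^ 4 * D1 + 4 * m ^ 4 * ep + (C + 8) * m ^ 4 * η := by
    have a1 : m * (C * D1) ≤ C * m ^ 4 * D1 := by
      have : m * (C * D1) ≤ m ^ 4 * (C * D1) :=
        mul_le_mul_of_nonneg_right (m2.trans (m3.trans m4)) (by positivity)
      linarith
    have a2 : 4 * m ^ 2 * ep ≤ 4 * m ^ 4 * ep := by
      have : m ^ 2 * ep ≤ m ^ 4 * ep := mul_le_mul_of_nonneg_right (m3.trans m4) hep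
      linarith
    have a3 : m * (C * D1) * (2 * m * η) ≤ C * m ^ 4 * η := by
      have e : m * (C * D1) * (2 * m * η) = (2 * C * m ^ 2 * η) * D1 := by ring
      rw [e]
      have b1 : (2 * C * m ^ 2 * η) * D1 ≤ (2 * C * m ^ 2 * η) * (1 / 2) :=
        mul_le_mul_of_nonneg_left hD1' (by positivity)
      have b2 : m ^ 2 * (C * η) ≤ m ^ 4 * (C * η) :=
        mul_le_mul_of_nonneg_right (m3.trans m4) (by positivity)
      linarith
    have a4 : 4 * m ^ 2 * ep * (2 * m * η) ≤ 8 * m ^ 4 * η := by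
      have e : 4 * m ^ 2 * ep * (2 * m * η) = (8 * m ^ 3 * η) * ep := by ring
      rw [e]
      have b1 : (8 * m ^ 3 * η) * ep ≤ (8 * m ^ 3 * η) * 1 :=
        mul_le_mul_of_nonneg_left hep1 (by positivity)
      have b2 : m ^ 3 * η ≤ m ^ 4 * η := mul_le_mul_of_nonneg_right m4 hη
      linarith
    linarith
  have h4 : (16 * D2 + 16 * m * ep') * (1 + 2 * m * η)
      ≤ m ^ 2 * (16 * D2 + 16 * ep' + 36 * η) := by
    have a1 : 16 * D2 ≤ 16 * m ^ 2 * D2 := by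
      have : 1 * D2 ≤ m ^ 2 * D2 := mul_le_mul_of_nonneg_right (hm.trans m2) hD2
      linarith
    have a2 : 16 * m * ep' ≤ 16 * m ^ 2 * ep' := by
      have : m * ep' ≤ m ^ 2 * ep' := mul_le_mul_of_nonneg_right m2 hep'
      linarith
    have a3 : 16 * D2 * (2 * m * η) ≤ 4 * m ^ 2 * η := by
      have e : 16 * D2 * (2 * m * η) = (32 * m * η) * D2 := by ring
      rw [e]
      have b1 : (32 * m * η) * D2 ≤ (32 * m * η) * (1 / 8) :=
        mul_le_mul_of_nonneg_left hD2' (by positivity)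
      have b2 : m * η ≤ m ^ 2 * η := mul_le_mul_of_nonneg_right m2 hη
      linarith
    have a4 : 16 * m * ep' * (2 * m * η) ≤ 32 * m ^ 2 * η := by
      have e : 16 * m * ep' * (2 * m * η) = (32 * m ^ 2 * η) * ep' := by ring
      rw [e]
      have b1 : (32 * m ^ 2 * η) * ep' ≤ (32 * m ^ 2 * η) * 1 :=
        mul_le_mul_of_nonneg_left hep1' (by positivity)
      linarith
    linarith
  have h5 : 1 / 2 * s * (q * x) ≤ t * (2 * m ^ 2 * (m ^ 2 * (16 * D2 + 16 * ep' + 36 * η))) := by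
    have b1 : 1 / 2 * s ≤ 2 * m ^ 2 * t := by linarith
    calc 1 / 2 * s * (q * x) ≤ 2 * m ^ 2 * t * (q * x) :=
          mul_le_mul_of_nonneg_right b1 (mul_nonneg hq0 hx0)
      _ ≤ 2 * m ^ 2 * t * (m ^ 2 * (16 * D2 + 16 * ep' + 36 * η)) :=
          mul_le_mul_of_nonneg_left (h2.trans h4) (by positivity)
      _ = _ := by ring
  have h6 : t * p * x ≤ t * (C * m ^ 4 * D1 + 4 * m ^ 4 * ep + (C + 8) * m ^ 4 * η) := by
    rw [mul_assoc]
    exact mul_le_mul_of_nonneg_left (h1.trans h3) ht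
  have h7 : C * m ^ 4 * D1 + 4 * m ^ 4 * ep + (C + 8) * m ^ 4 * η
      + 2 * m ^ 2 * (m ^ 2 * (16 * D2 + 16 * ep' + 36 * η)) ≤ (2 * C + 148) * m ^ 4 * E := by
    have hm4 : 0 ≤ m ^ 4 := by positivity
    have c1 := mul_nonneg hm4 hD1
    have c2 := mul_nonneg hm4 hD2
    have c3 := mul_nonneg hm4 hep
    have c4 := mul_nonneg hm4 hep'
    have c5 := mul_nonneg hm4 hη
    have d1 := mul_nonneg hC.le c1
    have d2 := mul_nonneg hC.le c2
    have d3 := mul_nonneg hC.le c3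
    have d4 := mul_nonneg hC.le c4
    have d5 := mul_nonneg hC.le c5
    have k4 : (2 * C + 148) * m ^ 4 * (η + D1 + D2 + ep + ep') ≤ (2 * C + 148) * m ^ 4 * E :=
      mul_le_mul_of_nonneg_left hE (by positivity)
    have e1 : 2 * m ^ 2 * (m ^ 2 * (16 * D2 + 16 * ep' + 36 * η))
        = 32 * (m ^ 4 * D2) + 32 * (m ^ 4 * ep') + 72 * (m ^ 4 * η) := by ring
    have e2 : (2 * C + 148) * m ^ 4 * (η + D1 + D2 + ep + ep')
        = 2 * (C * (m ^ 4 * η)) + 2 * (C * (m ^ 4 * D1)) + 2 * (C * (m ^ 4 * D2))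
          + 2 * (C * (m ^ 4 * ep)) + 2 * (C * (m ^ 4 * ep'))
          + 148 * (m ^ 4 * η) + 148 * (m ^ 4 * D1) + 148 * (m ^ 4 * D2)
          + 148 * (m ^ 4 * ep) + 148 * (m ^ 4 * ep') := by ring
    have e3 : C * m ^ 4 * D1 + 4 * m ^ 4 * ep + (C + 8) * m ^ 4 * η
        = C * (m ^ 4 * D1) + 4 * (m ^ 4 * ep) + C * (m ^ 4 * η) + 8 * (m ^ 4 * η) := by ring
    linarith
  have h8 := mul_le_mul_of_nonneg_left h7 ht
  have e : t * (C * m ^ 4 * D1 + 4 * m ^ 4 * ep + (C + 8) * m ^ 4 * η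
      + 2 * m ^ 2 * (m ^ 2 * (16 * D2 + 16 * ep' + 36 * η)))
      = t * (C * m ^ 4 * D1 + 4 * m ^ 4 * ep + (C + 8) * m ^ 4 * η)
        + t * (2 * m ^ 2 * (m ^ 2 * (16 * D2 + 16 * ep' + 36 * η))) := by ring
  linarith

/-- the estimate for a type of pieces which see the wall -/
theorem wallI (G : GapKernel) (hL : Loc G) {C : ℝ} (hC : 0 < C) (hrho : C⁻¹ ≤ G.rho) {N : ℕ}
    {eps eps' η E : ℝ} {z z' : ℂ} {v : ℤ → ℂ} (heps : 0 ≤ eps) (heps1 : eps ≤ 1)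
    (heps' : 0 ≤ eps') (heps1' : eps' ≤ 1)
    (hz : ‖z‖ ≤ G.rho) (hz' : ‖(1 / 4 : ℂ) - z'‖ ≤ 1 / 8) (hη : 0 ≤ η)
    (hs : ∀ x : ℤ, (x < 1 ∨ (N : ℤ) < x) → v x = 0)
    (hv : ∀ g ∈ Icc (1 : ℤ) N, ‖v g - 1‖ ≤ η * g)
    (hE : η + ‖(G.rho : ℂ) - z‖ + ‖(1 / 4 : ℂ) - z'‖ + eps + eps' + (N : ℝ)⁻¹ ≤ E)
    (i : ℕ × ℕ) (hiS : i ∈ G.S) {g : ℤ} (hgN : g ∈ Icc (1 : ℤ) N) (hg : g ≤ 2 * i.1) :
    ‖tI G eps z v i g - mI G eps eps' z z' v i g‖
      ≤ G.tot i * ((5 * C + 184) * (i.1 : ℝ) ^ 4 * E) := by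
  have hr := G.rho_pos
  have hi : 1 ≤ i.1 := (G.pos_mem i hiS).1
  have hi2 : i.2 ≤ i.1 := hL.h_le i hiS
  have hm : (1 : ℝ) ≤ i.1 := by exact_mod_cast hi
  have hgv := hv g hgN
  rw [Finset.mem_Icc] at hgN
  have hN : 1 ≤ N := by omega
  have hN0 : (0 : ℝ) < N := by exact_mod_cast hN
  have hNi : 0 < (N : ℝ)⁻¹ := by positivity
  have hDn : 0 ≤ ‖(G.rho : ℂ) - z‖ := norm_nonneg _
  have hDn' : 0 ≤ ‖(1 / 4 : ℂ) - z'‖ := norm_nonneg _
  have hE0 : 0 ≤ E := by linarith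
  have ht := G.tot_nonneg i
  have hgr : (g : ℝ) ≤ 2 * i.1 := by exact_mod_cast hg
  have hg1r : (1 : ℝ) ≤ g := by exact_mod_cast hgN.1
  have m2 : (i.1 : ℝ) ≤ (i.1 : ℝ) ^ 2 := by nlinarith
  have m3 : (i.1 : ℝ) ^ 2 ≤ (i.1 : ℝ) ^ 3 := by nlinarith [sq_nonneg (i.1 : ℝ)]
  have m4 : (i.1 : ℝ) ^ 3 ≤ (i.1 : ℝ) ^ 4 := by
    have : 0 ≤ (i.1 : ℝ) ^ 3 := by positivity
    nlinarith
  have hvg : ‖v g - 1‖ ≤ 2 * i.1 * η := by
    refine hgv.trans ?_
    have := mul_le_mul_of_nonneg_left hgr hη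
    linarith
  have hx : ‖v g‖ ≤ 1 + 2 * i.1 * η := by
    calc ‖v g‖ = ‖1 + (v g - 1)‖ := by rw [add_sub_cancel]
      _ ≤ ‖(1 : ℂ)‖ + ‖v g - 1‖ := norm_add_le _ _
      _ ≤ _ := by rw [norm_one]; linarith
  have p1 : ‖(G.tot i : ℂ) * (v g - 1)‖ ≤ G.tot i * (2 * (i.1 : ℝ) ^ 4 * E) := by
    rw [norm_mul, Complex.norm_real, Real.norm_of_nonneg ht]
    refine mul_le_mul_of_nonneg_left ?_ ht
    refine hvg.trans ?_
    have h1 : η ≤ E := by linarith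
    calc 2 * (i.1 : ℝ) * η ≤ 2 * (i.1 : ℝ) ^ 4 * η := by
          refine mul_le_mul_of_nonneg_right ?_ hη
          linarith
      _ ≤ _ := mul_le_mul_of_nonneg_left h1 (by positivity)
  have p2 : ‖∑ g' ∈ Icc (g - G.R) (g + G.R),
      (G.K i g g' : ℂ) * ((z / G.rho) ^ i.1 * (GapKernel.wt eps i g g' : ℂ) * v g' - 1)‖
      ≤ G.tot i * ((3 * C + 34) * (i.1 : ℝ) ^ 4 * E) := by
    have h1 : ‖∑ g' ∈ Icc (g - G.R) (g + G.R),
        (G.K i g g' : ℂ) * ((z / G.rho) ^ i.1 * (GapKernel.wt eps i g g' : ℂ) * v g' - 1)‖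
        ≤ ∑ g' ∈ Icc (g - G.R) (g + G.R), G.K i g g' * ((3 * C + 34) * (i.1 : ℝ) ^ 3 * E) := by
      refine (norm_sum_le _ _).trans (Finset.sum_le_sum fun g' _ => ?_)
      rw [norm_mul, Complex.norm_real, Real.norm_of_nonneg (G.K_nonneg _ _ _)]
      rcases le_or_gt g' 0 with h0 | h0
      · rw [G.K_out' i g g' h0]
        simp
      · by_cases hR : |g' - g| ≤ 2 * (i.1 : ℤ)
        · refine mul_le_mul_of_nonneg_left ?_ (G.K_nonneg _ _ _)
          refine point G hC hrho heps heps1 hz hη hs hv (by linarith) hN i hi hi2 hgN.1 hg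
            (by omega) ?_
          rw [abs_le] at hR
          omega
        · have : G.K i g g' = 0 := by
            refine le_antisymm ((G.K_le i g g').trans_eq (hL.T_loc i _ (not_le.mp hR)))
              (G.K_nonneg i g g')
          rw [this]
          simp
    refine h1.trans ?_
    rw [← Finset.sum_mul]
    have h2 := G.sum_K_le i g (Icc (g - G.R) (g + G.R))
    have h3 : (3 * C + 34) * (i.1 : ℝ) ^ 3 * E ≤ (3 * C + 34) * (i.1 : ℝ) ^ 4 * E := by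
      refine mul_le_mul_of_nonneg_right ?_ hE0
      exact mul_le_mul_of_nonneg_left m4 (by positivity)
    have h4 : 0 ≤ (3 * C + 34) * (i.1 : ℝ) ^ 3 * E := by positivity
    exact mul_le_mul h2 h3 h4 ht
  have p3 : ‖mI G eps eps' z z' v i g‖ ≤ G.tot i * ((2 * C + 148) * (i.1 : ℝ) ^ 4 * E) := by
    unfold mI
    refine (norm_sub_le _ _).trans ?_
    have e1 : ‖(G.tot i : ℂ) * ((i.1 : ℂ) * (1 - z / G.rho) + 2 * i.2 * eps * g) * v g‖
        = G.tot i * ‖(i.1 : ℂ) * (1 - z / G.rho) + 2 * i.2 * eps * g‖ * ‖v g‖ := by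
      rw [norm_mul, norm_mul, Complex.norm_real, Real.norm_of_nonneg ht]
    have e2 : ‖(1 / 2) * ((s2 G i : ℝ) : ℂ) * ((4 * (1 - 4 * z') + 8 * (eps' : ℂ) * (g : ℂ)) * v g)‖
        = 1 / 2 * s2 G i * (‖4 * (1 - 4 * z') + 8 * (eps' : ℂ) * (g : ℂ)‖ * ‖v g‖) := by
      rw [norm_mul, norm_mul, norm_mul, Complex.norm_real, Real.norm_of_nonneg (s2_nonneg G i)]
      norm_num
    rw [e1, e2]
    have ha : ‖1 - z / (G.rho : ℂ)‖ ≤ C * ‖(G.rho : ℂ) - z‖ := by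
      have hrc : (G.rho : ℂ) ≠ 0 := by exact_mod_cast hr.ne'
      have e : 1 - z / (G.rho : ℂ) = ((G.rho : ℂ) - z) / G.rho := by field_simp
      rw [e, norm_div, Complex.norm_real, Real.norm_of_nonneg hr.le, div_le_iff₀ hr]
      have : 1 ≤ C * G.rho := by
        rw [inv_le_iff_one_le_mul₀ hC] at hrho
        linarith
      nlinarith
    have hp : ‖(i.1 : ℂ) * (1 - z / G.rho) + 2 * i.2 * eps * g‖
        ≤ i.1 * (C * ‖(G.rho : ℂ) - z‖) + 4 * (i.1 : ℝ) ^ 2 * eps := by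
      refine (norm_add_le _ _).trans (add_le_add ?_ ?_)
      · rw [norm_mul, Complex.norm_natCast]
        exact mul_le_mul_of_nonneg_left ha (by positivity)
      · rw [norm_mul, norm_mul, norm_mul, Complex.norm_real, Real.norm_of_nonneg heps,
          Complex.norm_natCast, Complex.norm_ofNat, Complex.norm_intCast,
          abs_of_nonneg (by linarith)]
        have h3 : (i.2 : ℝ) ≤ i.1 := by exact_mod_cast hi2
        have h4 : 2 * (i.2 : ℝ) * eps * g ≤ 2 * (i.1 : ℝ) * eps * (2 * i.1) := by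
          apply mul_le_mul _ hgr (by linarith) (by positivity)
          exact mul_le_mul_of_nonneg_right (by linarith) heps
        linarith [(by ring : 2 * (i.1 : ℝ) * eps * (2 * i.1) = 4 * (i.1 : ℝ) ^ 2 * eps)]
    have hq : ‖4 * (1 - 4 * z') + 8 * (eps' : ℂ) * (g : ℂ)‖
        ≤ 16 * ‖(1 / 4 : ℂ) - z'‖ + 16 * i.1 * eps' := by
      refine (norm_add_le _ _).trans (add_le_add ?_ ?_)
      · have : (4 : ℂ) * (1 - 4 * z') = 16 * ((1 / 4 : ℂ) - z') := by ring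
        rw [this, norm_mul, Complex.norm_ofNat]
      · rw [norm_mul, norm_mul, Complex.norm_real, Real.norm_of_nonneg heps',
          Complex.norm_ofNat, Complex.norm_intCast, abs_of_nonneg (by linarith)]
        have h4 : 8 * eps' * g ≤ 8 * eps' * (2 * i.1) :=
          mul_le_mul_of_nonneg_left hgr (by positivity)
        linarith
    have hD1' : ‖(G.rho : ℂ) - z‖ ≤ 1 / 2 := by
      have h5 := norm_sub_le (G.rho : ℂ) z
      rw [Complex.norm_real, Real.norm_of_nonneg hr.le] at h5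
      have := rho_le G
      linarith
    exact main_bound C i.1 ‖(G.rho : ℂ) - z‖ ‖(1 / 4 : ℂ) - z'‖ eps eps' η ‖v g‖ (G.tot i)
      (s2 G i) _ _ E hm hC hDn hD1' hDn' hz' heps heps1 heps' heps1' hη (norm_nonneg _) hx ht
      (s2_le G hL i) hp (norm_nonneg _) hq (by linarith)
  have e : tI G eps z v i g - mI G eps eps' z z' v i g
      = (G.tot i : ℂ) * (v g - 1) - ∑ g' ∈ Icc (g - G.R) (g + G.R),
        (G.K i g g' : ℂ) * ((z / G.rho) ^ i.1 * (GapKernel.wt eps i g g' : ℂ) * v g' - 1)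
        - mI G eps eps' z z' v i g := rfl
  rw [e]
  refine (norm_sub_le _ _).trans ?_
  refine (add_le_add (norm_sub_le _ _) le_rfl).trans ?_
  have e2 : G.tot i * ((5 * C + 184) * (i.1 : ℝ) ^ 4 * E)
      = G.tot i * (2 * (i.1 : ℝ) ^ 4 * E) + G.tot i * ((3 * C + 34) * (i.1 : ℝ) ^ 4 * E)
        + G.tot i * ((2 * C + 148) * (i.1 : ℝ) ^ 4 * E) := by ring
  rw [e2]
  exact add_le_add (add_le_add p1 p2) p3

/-! ### sums over the types -/

/-- the constant of the bulk part is polynomial -/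
theorem C1_le {C m h rho : ℝ} (hC : 0 < C) (hrho : C⁻¹ ≤ rho) (hr : 0 < rho) (hm : 1 ≤ m)
    (hh : 0 ≤ h) (hhm : h ≤ m) :
    m ^ 2 / rho ^ 2 + h ^ 2 * (2 + 2 * m) ^ 2 + m * h * (2 + 2 * m) / rho
      + h * (2 * m) + m / rho + 2 * h + 2 * h * (2 * m) ≤ (C ^ 2 + 5 * C + 24) * m ^ 4 := by
  have m2 : m ≤ m ^ 2 := by nlinarith
  have m3 : m ^ 2 ≤ m ^ 3 := by nlinarith [sq_nonneg m]
  have m4 : m ^ 3 ≤ m ^ 4 := by
    have : 0 ≤ m ^ 3 := by positivity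
    nlinarith
  have hi : rho⁻¹ ≤ C := by
    rw [inv_le_comm₀ hr hC]
    exact hrho
  have hi0 : 0 < rho⁻¹ := by positivity
  have h2 : 2 + 2 * m ≤ 4 * m := by linarith
  have h20 : 0 ≤ 2 + 2 * m := by linarith
  have a1 : m ^ 2 / rho ^ 2 ≤ C ^ 2 * m ^ 4 := by
    have e : m ^ 2 / rho ^ 2 = (rho⁻¹) ^ 2 * m ^ 2 := by
      rw [inv_pow]; field_simp
    rw [e]
    have : (rho⁻¹) ^ 2 ≤ C ^ 2 := pow_le_pow_left₀ hi0.le hi 2
    exact mul_le_mul this (m3.trans m4) (by positivity) (by positivity)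
  have a2 : h ^ 2 * (2 + 2 * m) ^ 2 ≤ 16 * m ^ 4 := by
    have b1 : h ^ 2 ≤ m ^ 2 := pow_le_pow_left₀ hh hhm 2
    have b2 : (2 + 2 * m) ^ 2 ≤ (4 * m) ^ 2 := pow_le_pow_left₀ h20 h2 2
    calc h ^ 2 * (2 + 2 * m) ^ 2 ≤ m ^ 2 * (4 * m) ^ 2 :=
          mul_le_mul b1 b2 (by positivity) (by positivity)
      _ = _ := by ring
  have a3 : m * h * (2 + 2 * m) / rho ≤ 4 * C * m ^ 4 := by
    have b1 : m * h ≤ m * m := mul_le_mul_of_nonneg_left hhm (by linarith)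
    have b2 : m * h * (2 + 2 * m) ≤ m * m * (4 * m) := mul_le_mul b1 h2 h20 (by positivity)
    calc m * h * (2 + 2 * m) / rho = m * h * (2 + 2 * m) * rho⁻¹ := by rw [div_eq_mul_inv]
      _ ≤ m * m * (4 * m) * C := mul_le_mul b2 hi hi0.le (by positivity)
      _ = 4 * C * m ^ 3 := by ring
      _ ≤ 4 * C * m ^ 4 := mul_le_mul_of_nonneg_left m4 (by positivity)
  have a4 : m / rho ≤ C * m ^ 4 := by
    rw [div_eq_mul_inv]
    calc m * rho⁻¹ ≤ m ^ 4 * C := mul_le_mul (m2.trans (m3.trans m4)) hi hi0.le (by positivity)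
      _ = _ := by ring
  have a5 : h * (2 * m) ≤ 2 * m ^ 4 := by
    have b1 : h * (2 * m) ≤ m * (2 * m) := mul_le_mul_of_nonneg_right hhm (by linarith)
    linarith [(by ring : m * (2 * m) = 2 * m ^ 2)]
  have a6 : 2 * h ≤ 2 * m ^ 4 := by linarith
  have a7 : 2 * h * (2 * m) ≤ 4 * m ^ 4 := by linarith
  linarith

/-- sums over the types are geometric sums over the half lengths -/
theorem sum_types (G : GapKernel) {C θ : ℝ} (hdec : ∀ m : ℕ,
    ∑ i ∈ G.S.filter (fun i => i.1 = m), G.rho ^ m * G.tot i ≤ C * θ ^ m)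
    (φ : ℕ → ℝ) (hφ : ∀ m, 0 ≤ φ m) :
    ∃ M : ℕ, ∑ i ∈ G.S, G.rho ^ i.1 * G.tot i * φ i.1 ≤ C * ∑ m ∈ range M, θ ^ m * φ m := by
  obtain ⟨M, hM⟩ : ∃ M : ℕ, ∀ i ∈ G.S, i.1 < M := by
    refine ⟨(G.S.sup Prod.fst) + 1, fun i hi => ?_⟩
    have := Finset.le_sup (f := Prod.fst) hi
    omega
  refine ⟨M, ?_⟩
  have e1 : ∑ i ∈ G.S, G.rho ^ i.1 * G.tot i * φ i.1
      = ∑ m ∈ range M, ∑ i ∈ G.S.filter (fun i => i.1 = m), G.rho ^ i.1 * G.tot i * φ i.1 := by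
    rw [Finset.sum_fiberwise_of_maps_to]
    intro i hi
    rw [Finset.mem_range]
    exact hM i hi
  rw [e1, Finset.mul_sum]
  refine Finset.sum_le_sum fun m _ => ?_
  have e2 : ∑ i ∈ G.S.filter (fun i => i.1 = m), G.rho ^ i.1 * G.tot i * φ i.1
      = (∑ i ∈ G.S.filter (fun i => i.1 = m), G.rho ^ m * G.tot i) * φ m := by
    rw [Finset.sum_mul]
    refine Finset.sum_congr rfl fun i hi => ?_
    rw [Finset.mem_filter] at hi
    rw [hi.2]
  rw [e2]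
  calc (∑ i ∈ G.S.filter (fun i => i.1 = m), G.rho ^ m * G.tot i) * φ m
      ≤ C * θ ^ m * φ m := mul_le_mul_of_nonneg_right (hdec m) (hφ m)
    _ = _ := by ring

/-- partial sums of the series `sum m^5 r^m` -/
theorem exists_sum_bound (r : ℝ) (h0 : 0 < r) (h1 : r < 1) :
    ∃ K : ℝ, 0 < K ∧ ∀ M : ℕ, ∑ m ∈ range M, (m : ℝ) ^ 5 * r ^ m ≤ K := by
  have hs : Summable fun m : ℕ => (m : ℝ) ^ 5 * r ^ m := by
    apply summable_pow_mul_geometric_of_norm_lt_one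
    rw [Real.norm_of_nonneg h0.le]
    exact h1
  refine ⟨∑' m : ℕ, (m : ℝ) ^ 5 * r ^ m + 1, ?_, fun M => ?_⟩
  · have : 0 ≤ ∑' m : ℕ, (m : ℝ) ^ 5 * r ^ m := tsum_nonneg fun m => by positivity
    linarith
  · have := hs.sum_le_tsum (range M) (fun m _ => by positivity)
    linarith

end GEB

open GEB Pool.Agent.Gap.EBaux in
theorem geb : GEB_Stmt := by
  intro C θ hC hθ hθ1
  obtain ⟨r, hr⟩ : ∃ r, r = Real.sqrt θ := ⟨_, rfl⟩
  obtain ⟨θ1, hθ1'⟩ : ∃ t, t = Real.sqrt r := ⟨_, rfl⟩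
  have r0 : 0 < r := by rw [hr]; exact Real.sqrt_pos.mpr hθ
  have r1 : r < 1 := by rw [hr, Real.sqrt_lt' one_pos]; linarith
  have rr : r ^ 2 = θ := by rw [hr]; exact Real.sq_sqrt hθ.le
  have t0 : 0 < θ1 := by rw [hθ1']; exact Real.sqrt_pos.mpr r0
  have t1 : θ1 < 1 := by rw [hθ1', Real.sqrt_lt' one_pos]; linarith
  have tt : θ1 ^ 2 = r := by rw [hθ1']; exact Real.sq_sqrt r0.le
  obtain ⟨K, hK0, hK⟩ := exists_sum_bound r r0 r1
  set c0 : ℝ := C ^ 2 + 5 * C + 24 + 342 with hc0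
  set c1 : ℝ := 5 * C + 184 with hc1
  have hc00 : 0 < c0 := by positivity
  have hc10 : 0 < c1 := by positivity
  refine ⟨7 * c0 * (C * K) + c1 * (C * K), θ1, by positivity, t0, t1, ?_⟩
  intro G hG N eps eps' η z z' v heps heps1 heps' heps1' hz hz4 hz' hη hsol hv
  have hL := hG.loc
  have hrp := G.rho_pos
  have hs := hsol.1
  set D : ℝ := ‖(G.rho : ℂ) - z‖ + ‖(1 / 4 : ℂ) - z'‖ with hD
  set e : ℝ := eps + eps' with he
  have hD0 : 0 ≤ D := by positivity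
  have he0 : 0 ≤ e := by positivity
  have hDa : ‖(G.rho : ℂ) - z‖ ≤ D := by rw [hD]; have := norm_nonneg ((1 / 4 : ℂ) - z'); linarith
  have hDb : ‖(1 / 4 : ℂ) - z'‖ ≤ D := by rw [hD]; have := norm_nonneg ((G.rho : ℂ) - z); linarith
  -- sums over the types
  have S1 : ∑ i ∈ G.S, G.rho ^ i.1 * G.tot i * (i.1 : ℝ) ^ 5 ≤ C * K := by
    obtain ⟨M, hM⟩ := sum_types G hG.dec (fun m => (m : ℝ) ^ 5) (fun m => by positivity)
    refine hM.trans (mul_le_mul_of_nonneg_left ?_ hC.le)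
    refine le_trans (Finset.sum_le_sum fun m _ => ?_) (hK M)
    rw [mul_comm]
    refine mul_le_mul_of_nonneg_left ?_ (by positivity)
    have : θ ≤ r := by rw [← rr]; nlinarith
    exact pow_le_pow_left₀ hθ.le this m
  have S2 : ∀ g : ℤ, ∑ i ∈ G.S.filter (fun i => g ≤ 2 * (i.1 : ℤ)),
      G.rho ^ i.1 * G.tot i * (i.1 : ℝ) ^ 5 ≤ C * K * θ1 ^ g.toNat := by
    intro g
    have e1 : ∑ i ∈ G.S.filter (fun i => g ≤ 2 * (i.1 : ℤ)),
        G.rho ^ i.1 * G.tot i * (i.1 : ℝ) ^ 5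
        = ∑ i ∈ G.S, G.rho ^ i.1 * G.tot i *
          (if g ≤ 2 * (i.1 : ℤ) then (i.1 : ℝ) ^ 5 else 0) := by
      rw [Finset.sum_filter]
      refine Finset.sum_congr rfl fun i _ => ?_
      split_ifs <;> simp
    rw [e1]
    obtain ⟨M, hM⟩ := sum_types G hG.dec
      (fun m => if g ≤ 2 * (m : ℤ) then (m : ℝ) ^ 5 else 0)
      (fun m => by split_ifs <;> positivity)
    refine hM.trans ?_
    rw [mul_assoc]
    refine mul_le_mul_of_nonneg_left ?_ hC.le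
    calc ∑ m ∈ range M, θ ^ m * (if g ≤ 2 * (m : ℤ) then (m : ℝ) ^ 5 else 0)
        ≤ ∑ m ∈ range M, ((m : ℝ) ^ 5 * r ^ m) * θ1 ^ g.toNat := by
          refine Finset.sum_le_sum fun m _ => ?_
          split_ifs with h
          · have h1 : θ ^ m = r ^ m * θ1 ^ (2 * m) := by
              rw [← rr, pow_mul θ1, tt, ← pow_mul, mul_comm 2 m, pow_mul, pow_two]
            have h2 : θ1 ^ (2 * m) ≤ θ1 ^ g.toNat :=
              pow_le_pow_of_le_one t0.le t1.le (by omega)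
            rw [h1]
            have h3 : 0 ≤ (m : ℝ) ^ 5 * r ^ m := by positivity
            calc r ^ m * θ1 ^ (2 * m) * (m : ℝ) ^ 5 = ((m : ℝ) ^ 5 * r ^ m) * θ1 ^ (2 * m) := by
                  ring
              _ ≤ _ := mul_le_mul_of_nonneg_left h2 h3
          · rw [mul_zero]
            positivity
      _ = (∑ m ∈ range M, (m : ℝ) ^ 5 * r ^ m) * θ1 ^ g.toNat := by rw [Finset.sum_mul]
      _ ≤ K * θ1 ^ g.toNat := mul_le_mul_of_nonneg_right (hK M) (by positivity)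
  -- the two parts
  set dl : ℕ × ℕ → ℤ → ℂ := fun i g => tI G eps z v i g - mI G eps eps' z z' v i g with hdl
  refine ⟨fun g => ∑ i ∈ G.S, (G.rho : ℂ) ^ i.1 * mI G eps eps' z z' v i g
      + ∑ i ∈ G.S.filter (fun i => ¬ g ≤ 2 * (i.1 : ℤ)), (G.rho : ℂ) ^ i.1 * dl i g,
    fun g => ∑ i ∈ G.S.filter (fun i => g ≤ 2 * (i.1 : ℤ)), (G.rho : ℂ) ^ i.1 * dl i g,
    ?_, ?_, ?_⟩
  · intro g _
    rw [lop_eq G hs]
    have h1 := Finset.sum_filter_add_sum_filter_not G.S (fun i => g ≤ 2 * (i.1 : ℤ))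
      (fun i => (G.rho : ℂ) ^ i.1 * dl i g)
    have h2 : ∑ i ∈ G.S, (G.rho : ℂ) ^ i.1 * dl i g
        = ∑ i ∈ G.S, (G.rho : ℂ) ^ i.1 * tI G eps z v i g
          - ∑ i ∈ G.S, (G.rho : ℂ) ^ i.1 * mI G eps eps' z z' v i g := by
      rw [← Finset.sum_sub_distrib]
      refine Finset.sum_congr rfl fun i _ => ?_
      rw [hdl]
      ring
    rw [h2] at h1
    linear_combination -h1
  · -- the bulk part
    set s := Icc (1 : ℤ) N with hsdef
    set a : ℝ := ‖2 * (G.sig2 : ℂ) * (1 - 4 * z') - (G.mbar : ℂ) * (1 - z / (G.rho : ℂ))‖ with ha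
    set b : ℝ := 2 * |2 * G.sig2 * eps' - G.hbar * eps| with hb
    set B : ℝ := D * Real.sqrt (En N v)
        + e * (Real.sqrt (En N (mulg 1 v)) + Real.sqrt (nsq N v))
        + D ^ 2 * Real.sqrt (nsq N v) + e ^ 2 * Real.sqrt (nsq N (mulg 2 v)) + ‖v N‖ with hB
    have hB0 : 0 ≤ B := by positivity
    have pt : ∀ g ∈ s, ‖∑ i ∈ G.S, (G.rho : ℂ) ^ i.1 * mI G eps eps' z z' v i g
        + ∑ i ∈ G.S.filter (fun i => ¬ g ≤ 2 * (i.1 : ℤ)), (G.rho : ℂ) ^ i.1 * dl i g‖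
        ≤ (a * ‖v g‖ + b * ‖mulg 1 v g‖) + ∑ i ∈ G.S,
          (G.rho ^ i.1 * G.tot i * (c0 * (i.1 : ℝ) ^ 4)) * FS (2 * i.1) N D e v g := by
      intro g _
      refine (norm_add_le _ _).trans (add_le_add ?_ ?_)
      · rw [main_eq]
        refine (norm_add_le _ _).trans (add_le_add ?_ ?_)
        · rw [norm_mul, ha, norm_sub_rev]
        · rw [norm_mul, norm_mul, Complex.norm_ofNat, Complex.norm_real, hb, Real.norm_eq_abs,
            abs_sub_comm]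
      · refine (norm_sum_le _ _).trans ?_
        have h1 : ∀ i ∈ G.S.filter (fun i => ¬ g ≤ 2 * (i.1 : ℤ)), ‖(G.rho : ℂ) ^ i.1 * dl i g‖
            ≤ (G.rho ^ i.1 * G.tot i * (c0 * (i.1 : ℝ) ^ 4)) * FS (2 * i.1) N D e v g := by
          intro i hi
          rw [Finset.mem_filter] at hi
          have hi1 := (G.pos_mem i hi.1).1
          have hi2 := hL.h_le i hi.1
          have ht := G.tot_nonneg i
          have hm : (1 : ℝ) ≤ i.1 := by exact_mod_cast hi1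
          rw [norm_mul, norm_pow, Complex.norm_real, Real.norm_of_nonneg hrp.le,
            mul_assoc, mul_assoc (G.rho ^ i.1)]
          refine mul_le_mul_of_nonneg_left ?_ (by positivity)
          have h2 := bulkI G hL hsol hDa hDb heps (by linarith : eps ≤ e) heps'
            (by linarith : eps' ≤ e) hz hz' i (not_le.mp hi.2)
          refine h2.trans ?_
          rw [← mul_assoc]
          refine mul_le_mul_of_nonneg_right ?_ (FS_nonneg hD0 he0)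
          have h3 : C1 (2 * i.1) G.rho i ≤ (C ^ 2 + 5 * C + 24) * (i.1 : ℝ) ^ 4 := by
            have := C1_le (h := (i.2 : ℝ)) hC hG.rho_ge hrp hm (by positivity)
              (by exact_mod_cast hi2)
            unfold C1
            push_cast
            exact this
          have h4 : G.tot i * C1 (2 * i.1) G.rho i
              ≤ G.tot i * ((C ^ 2 + 5 * C + 24) * (i.1 : ℝ) ^ 4) :=
            mul_le_mul_of_nonneg_left h3 ht
          have h5 : 1 / 2 * s2 G i * 171 ≤ G.tot i * (342 * (i.1 : ℝ) ^ 4) := by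
            have h6 := s2_le G hL i
            have h7 : (i.1 : ℝ) ^ 2 ≤ (i.1 : ℝ) ^ 4 := pow_le_pow_right₀ hm (by norm_num)
            have h8 : G.tot i * (342 * (i.1 : ℝ) ^ 2) ≤ G.tot i * (342 * (i.1 : ℝ) ^ 4) := by
              refine mul_le_mul_of_nonneg_left ?_ ht
              linarith
            linarith
          have h9 : G.tot i * (c0 * (i.1 : ℝ) ^ 4)
              = G.tot i * ((C ^ 2 + 5 * C + 24) * (i.1 : ℝ) ^ 4)
                + G.tot i * (342 * (i.1 : ℝ) ^ 4) := by rw [hc0]; ring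
          rw [h9]
          exact add_le_add h4 h5
        refine (Finset.sum_le_sum h1).trans ?_
        refine Finset.sum_le_sum_of_subset_of_nonneg (Finset.filter_subset _ _) ?_
        intro i _ _
        have ht := G.tot_nonneg i
        have := FS_nonneg (R := 2 * i.1) (N := N) (v := v) (g := g) hD0 he0
        positivity
    have L : Real.sqrt (nsq N (fun g => ∑ i ∈ G.S, (G.rho : ℂ) ^ i.1 * mI G eps eps' z z' v i g
        + ∑ i ∈ G.S.filter (fun i => ¬ g ≤ 2 * (i.1 : ℤ)), (G.rho : ℂ) ^ i.1 * dl i g))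
        = nr s (fun g => ‖∑ i ∈ G.S, (G.rho : ℂ) ^ i.1 * mI G eps eps' z z' v i g
        + ∑ i ∈ G.S.filter (fun i => ¬ g ≤ 2 * (i.1 : ℤ)), (G.rho : ℂ) ^ i.1 * dl i g‖) := rfl
    rw [L]
    refine (nr_mono s _ _ (fun g _ => norm_nonneg _) pt).trans ?_
    refine (nr_add _ _ _).trans ?_
    have step1 : nr s (fun g => a * ‖v g‖ + b * ‖mulg 1 v g‖)
        ≤ a * Real.sqrt (nsq N v) + b * Real.sqrt (nsq N (mulg 1 v)) := by
      refine (nr_add _ _ _).trans (add_le_add ?_ ?_)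
      · rw [nr_mul _ _ (norm_nonneg _)]
        exact le_rfl
      · rw [nr_mul _ _ (by positivity)]
        exact le_rfl
    have stepFS : ∀ i : ℕ × ℕ, nr s (FS (2 * i.1) N D e v) ≤ (4 * (i.1 : ℝ) + 3) * B := by
      intro i
      unfold FS
      refine (nr_sum s _ _).trans ?_
      have h5 : ∀ j ∈ Icc (-((2 * i.1 + 1 : ℕ) : ℤ)) ((2 * i.1 + 1 : ℕ) : ℤ),
          nr s (fun g => F0 N D e v (g + j)) ≤ B := by
        intro j _
        exact (nr_shift s (Icc (0 : ℤ) N) _ j (F0_out hs)).trans (nr_F0 hD0 he0 hs)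
      refine (Finset.sum_le_sum h5).trans ?_
      rw [Finset.sum_const, nsmul_eq_mul, Int.card_Icc]
      apply le_of_eq
      congr 1
      have h6 : (((2 * i.1 + 1 : ℕ) : ℤ) + 1 - -((2 * i.1 + 1 : ℕ) : ℤ)).toNat
          = 4 * i.1 + 3 := by
        omega
      rw [h6]
      push_cast
      ring
    have step2 : nr s (fun g => ∑ i ∈ G.S,
        (G.rho ^ i.1 * G.tot i * (c0 * (i.1 : ℝ) ^ 4)) * FS (2 * i.1) N D e v g)
        ≤ 7 * c0 * (C * K) * B := by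
      refine (nr_sum s _ _).trans ?_
      have h1 : ∀ i ∈ G.S, nr s (fun g =>
          (G.rho ^ i.1 * G.tot i * (c0 * (i.1 : ℝ) ^ 4)) * FS (2 * i.1) N D e v g)
          ≤ (G.rho ^ i.1 * G.tot i * (i.1 : ℝ) ^ 5) * (7 * c0 * B) := by
        intro i hi
        have ht := G.tot_nonneg i
        have hm : (1 : ℝ) ≤ i.1 := by exact_mod_cast (G.pos_mem i hi).1
        have hp : 0 ≤ G.rho ^ i.1 * G.tot i * (c0 * (i.1 : ℝ) ^ 4) := by positivity
        rw [nr_mul _ _ hp]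
        refine (mul_le_mul_of_nonneg_left (stepFS i) hp).trans ?_
        have h2 : 4 * (i.1 : ℝ) + 3 ≤ 7 * i.1 := by linarith
        calc G.rho ^ i.1 * G.tot i * (c0 * (i.1 : ℝ) ^ 4) * ((4 * (i.1 : ℝ) + 3) * B)
            ≤ G.rho ^ i.1 * G.tot i * (c0 * (i.1 : ℝ) ^ 4) * ((7 * i.1) * B) := by
              refine mul_le_mul_of_nonneg_left ?_ hp
              exact mul_le_mul_of_nonneg_right h2 hB0
          _ = _ := by ring
      refine (Finset.sum_le_sum h1).trans ?_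
      rw [← Finset.sum_mul]
      calc (∑ i ∈ G.S, G.rho ^ i.1 * G.tot i * (i.1 : ℝ) ^ 5) * (7 * c0 * B)
          ≤ (C * K) * (7 * c0 * B) := mul_le_mul_of_nonneg_right S1 (by positivity)
        _ = _ := by ring
    have step3 : 7 * c0 * (C * K) * B ≤ (7 * c0 * (C * K) + c1 * (C * K)) * B := by
      refine mul_le_mul_of_nonneg_right ?_ hB0
      have : 0 ≤ c1 * (C * K) := by positivity
      linarith
    linarith
  · -- the wall part
    intro g hg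
    set E : ℝ := η + ‖(G.rho : ℂ) - z‖ + ‖(1 / 4 : ℂ) - z'‖ + eps + eps' + (N : ℝ)⁻¹ with hE
    have hE0 : 0 ≤ E := by positivity
    refine (norm_sum_le _ _).trans ?_
    have h1 : ∀ i ∈ G.S.filter (fun i => g ≤ 2 * (i.1 : ℤ)), ‖(G.rho : ℂ) ^ i.1 * dl i g‖
        ≤ (G.rho ^ i.1 * G.tot i * (i.1 : ℝ) ^ 5) * (c1 * E) := by
      intro i hi
      rw [Finset.mem_filter] at hi
      have ht := G.tot_nonneg i
      have hm : (1 : ℝ) ≤ i.1 := by exact_mod_cast (G.pos_mem i hi.1).1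
      rw [norm_mul, norm_pow, Complex.norm_real, Real.norm_of_nonneg hrp.le]
      have h2 := wallI G hL hC hG.rho_ge heps heps1 heps' heps1' hz hz' hη hs hv
        (le_of_eq hE.symm) i hi.1 hg hi.2
      have h3 : G.tot i * ((5 * C + 184) * (i.1 : ℝ) ^ 4 * E)
          ≤ G.tot i * ((5 * C + 184) * (i.1 : ℝ) ^ 5 * E) := by
        refine mul_le_mul_of_nonneg_left ?_ ht
        refine mul_le_mul_of_nonneg_right ?_ hE0
        refine mul_le_mul_of_nonneg_left ?_ (by positivity)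
        exact pow_le_pow_right₀ hm (by norm_num)
      calc G.rho ^ i.1 * ‖dl i g‖
          ≤ G.rho ^ i.1 * (G.tot i * ((5 * C + 184) * (i.1 : ℝ) ^ 5 * E)) :=
            mul_le_mul_of_nonneg_left (h2.trans h3) (by positivity)
        _ = _ := by rw [hc1]; ring
    refine (Finset.sum_le_sum h1).trans ?_
    rw [← Finset.sum_mul]
    calc (∑ i ∈ G.S.filter (fun i => g ≤ 2 * (i.1 : ℤ)),
          G.rho ^ i.1 * G.tot i * (i.1 : ℝ) ^ 5) * (c1 * E)
        ≤ (C * K * θ1 ^ g.toNat) * (c1 * E) :=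
          mul_le_mul_of_nonneg_right (S2 g) (by positivity)
      _ = (c1 * (C * K)) * θ1 ^ g.toNat * E := by ring
      _ ≤ (7 * c0 * (C * K) + c1 * (C * K)) * θ1 ^ g.toNat * E := by
        refine mul_le_mul_of_nonneg_right ?_ hE0
        refine mul_le_mul_of_nonneg_right ?_ (by positivity)
        have : 0 ≤ 7 * c0 * (C * K) := by positivity
        linarith

end Pool.Agent.FL
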