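import Pool.Agent.Lib_helper89.FL.StmtsGU
import Pool.Agent.Lib_helper62.Gap.C2

/-!
FL_GC2 (MP_f6626d_co, helper75): the bilinear forms of single pieces with explicit constants.
The proofs are those of `Lib_helper62/Gap/C2.lean` with the range of the piece type.
-/

set_option autoImplicit false

open Finset Filter Topology

namespace Pool.Agent.FL.GC2

open Pool.Agent.Gap Pool.Agent.Gap.H62

variable (G : GapKernel)

/-- the main part -/
lemma part1 {N : ℕ} {f h : ℤ → ℂ} (hf : Supp N f) (hh : Supp N h) (i : ℕ × ℕ) (r : ℕ)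
    (hT : ∀ d : ℤ, (r : ℤ) < |d| → G.T i d = 0) :
    ‖(G.tot i : ℂ) * ∑ g ∈ Icc (1 : ℤ) N, f g * h g
      - ∑ g ∈ Icc (1 : ℤ) N, ∑ g' ∈ Icc (1 : ℤ) N, ((G.T i (g' - g) : ℝ) : ℂ) * f g * h g'‖
      ≤ (G.tot i * (r : ℝ) ^ 2) * (Real.sqrt (En N f) * Real.sqrt (En N h)) := by
  have hff := supp_fs hf
  have hhf := supp_fs hh
  rw [tot_mul_sum G hf, conv_sum G hf hh, ← Finset.sum_sub_distrib]
  have e1 : ∀ d : ℤ, ((G.T i d : ℝ) : ℂ) * ∑' g, f g * h g
      - ((G.T i d : ℝ) : ℂ) * ∑' g, f g * h (g + d)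
      = ((G.T i d : ℝ) : ℂ) * ∑' g, f g * (h g - h (g + d)) := by
    intro d
    rw [← mul_sub, ← Summable.tsum_sub]
    · congr 2
      funext g
      ring
    · exact FS.summable (hff.of_imp (fun g hg => by simp [hg]))
    · exact FS.summable (hff.of_imp (fun g hg => by simp [hg]))
  simp only [e1]
  set a : ℤ → ℂ := fun d => ∑' g, f g * (h g - h (g + d)) with ha
  -- symmetrise
  have hrefl : ∑ d ∈ Icc (-(G.R : ℤ)) G.R, ((G.T i d : ℝ) : ℂ) * a d
      = ∑ d ∈ Icc (-(G.R : ℤ)) G.R, ((G.T i d : ℝ) : ℂ) * a (-d) := by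
    refine Finset.sum_nbij' (fun d => -d) (fun d => -d) ?_ ?_ ?_ ?_ ?_
    · intro d hd; rw [Finset.mem_Icc] at hd ⊢; omega
    · intro d hd; rw [Finset.mem_Icc] at hd ⊢; omega
    · intro d _; simp
    · intro d _; simp
    · intro d _
      rw [G.T_even, neg_neg]
  have hsum : ∀ d : ℤ, a d + a (-d) = ∑' g, (f g - f (g + d)) * (h g - h (g + d)) := by
    intro d
    have e2 : a (-d) = ∑' g, f (g + d) * (h (g + d) - h g) := by
      rw [ha]
      simp only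
      rw [← tsum_shift (fun g => f g * (h g - h (g + -d))) d]
      congr 1
      funext g
      have : g + d + -d = g := by ring
      rw [this]
    rw [e2, ha, ← Summable.tsum_add]
    · congr 1
      funext g
      ring
    · exact FS.summable (hff.of_imp (fun g hg => by simp [hg]))
    · exact FS.summable ((hff.shift d).of_imp (fun g hg => by simp [hg]))
  have hbd : ∀ d : ℤ, |d| ≤ (r : ℤ) → ‖a d + a (-d)‖
      ≤ (r : ℝ) ^ 2 * (Real.sqrt (En N f) * Real.sqrt (En N h)) := by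
    intro d hd
    rw [hsum]
    refine (cs ?_ ?_).trans ?_
    · exact hff.of_imp2 (hff.shift d) (fun g h1 h2 => by simp [h1, h2])
    · exact hhf.of_imp2 (hhf.shift d) (fun g h1 h2 => by simp [h1, h2])
    have hd2 : (d : ℝ) ^ 2 ≤ (r : ℝ) ^ 2 := by
      have hd3 := abs_le.1 hd
      have h1 : (-(r : ℝ)) ≤ d := by exact_mod_cast hd3.1
      have h2 : (d : ℝ) ≤ r := by exact_mod_cast hd3.2
      nlinarith
    have f1 := (shift_diff hff d).trans
      (mul_le_mul_of_nonneg_right hd2 (tsum_nonneg fun _ => by positivity))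
    have f2 := (shift_diff hhf d).trans
      (mul_le_mul_of_nonneg_right hd2 (tsum_nonneg fun _ => by positivity))
    rw [← En_eq hf] at f1
    rw [← En_eq hh] at f2
    calc Real.sqrt (∑' g, ‖f g - f (g + d)‖ ^ 2) * Real.sqrt (∑' g, ‖h g - h (g + d)‖ ^ 2)
        ≤ Real.sqrt ((r : ℝ) ^ 2 * En N f) * Real.sqrt ((r : ℝ) ^ 2 * En N h) :=
          mul_le_mul (Real.sqrt_le_sqrt f1) (Real.sqrt_le_sqrt f2) (Real.sqrt_nonneg _)
            (Real.sqrt_nonneg _)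
      _ = (r : ℝ) ^ 2 * (Real.sqrt (En N f) * Real.sqrt (En N h)) := by
          rw [Real.sqrt_mul (by positivity), Real.sqrt_mul (by positivity),
            Real.sqrt_sq (by positivity)]
          ring
  have h2 : ∑ d ∈ Icc (-(G.R : ℤ)) G.R, ((G.T i d : ℝ) : ℂ) * a d
      = (1 / 2 : ℂ) * ∑ d ∈ Icc (-(G.R : ℤ)) G.R, ((G.T i d : ℝ) : ℂ) * (a d + a (-d)) := by
    have : ∑ d ∈ Icc (-(G.R : ℤ)) G.R, ((G.T i d : ℝ) : ℂ) * (a d + a (-d))
        = ∑ d ∈ Icc (-(G.R : ℤ)) G.R, ((G.T i d : ℝ) : ℂ) * a d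
          + ∑ d ∈ Icc (-(G.R : ℤ)) G.R, ((G.T i d : ℝ) : ℂ) * a (-d) := by
      rw [← Finset.sum_add_distrib]
      exact Finset.sum_congr rfl fun d _ => by ring
    rw [this, ← hrefl]
    ring
  rw [h2, norm_mul]
  have h3 : ‖∑ d ∈ Icc (-(G.R : ℤ)) G.R, ((G.T i d : ℝ) : ℂ) * (a d + a (-d))‖
      ≤ G.tot i * ((r : ℝ) ^ 2 * (Real.sqrt (En N f) * Real.sqrt (En N h))) := by
    refine (norm_sum_le _ _).trans ?_
    unfold GapKernel.tot
    rw [Finset.sum_mul]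
    refine Finset.sum_le_sum fun d hd => ?_
    rw [norm_mul, Complex.norm_real, Real.norm_of_nonneg (G.T_nonneg i d)]
    by_cases hr : |d| ≤ (r : ℤ)
    · exact mul_le_mul_of_nonneg_left (hbd d hr) (G.T_nonneg i d)
    · rw [hT d (by omega)]
      simp
  have h4 : ‖(1 / 2 : ℂ)‖ ≤ 1 := by norm_num
  calc _ ≤ 1 * (G.tot i * ((r : ℝ) ^ 2 * (Real.sqrt (En N f) * Real.sqrt (En N h)))) :=
        mul_le_mul h4 h3 (norm_nonneg _) (by norm_num)
    _ = _ := by ring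

lemma K_eq_T (i : ℕ × ℕ) (r : ℕ)
    (hK : ∀ g g' : ℤ, 1 ≤ g → 1 ≤ g' → (r : ℤ) < g → G.K i g g' = G.T i (g' - g))
    (g g' : ℤ) (h1 : 1 ≤ g) (h2 : 1 ≤ g')
    (h : (r : ℤ) < g ∨ (r : ℤ) < g') : G.K i g g' = G.T i (g' - g) := by
  rcases h with h | h
  · exact hK g g' h1 h2 h
  · rw [G.K_symm, hK g' g h2 h1 h, ← G.T_even]
    congr 1
    ring

/-- the wall part -/
lemma part2 {N : ℕ} {f h : ℤ → ℂ} (hf : Supp N f) (hh : Supp N h) (i : ℕ × ℕ) (r : ℕ)
    (hK : ∀ g g' : ℤ, 1 ≤ g → 1 ≤ g' → (r : ℤ) < g → G.K i g g' = G.T i (g' - g)) :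
    ‖∑ g ∈ Icc (1 : ℤ) N, ∑ g' ∈ Icc (1 : ℤ) N,
      (((G.T i (g' - g) - G.K i g g') : ℝ) : ℂ) * f g * h g'‖
      ≤ (G.tot i * (r : ℝ) ^ 3) * (Real.sqrt (En N f) * Real.sqrt (En N h)) := by
  have hval : ∀ {f : ℤ → ℂ}, Supp N f → ∀ g : ℤ, g ≤ r →
      ‖f g‖ ≤ Real.sqrt ((r : ℝ) * En N f) := by
    intro f hf g hg
    rcases lt_or_ge g 1 with h0 | h0
    · rw [hf g (Or.inl h0), norm_zero]
      exact Real.sqrt_nonneg _
    · obtain ⟨n, rfl⟩ := Int.eq_ofNat_of_zero_le (show 0 ≤ g by omega)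
      apply Real.le_sqrt_of_sq_le
      refine (sq_le_En hf n).trans ?_
      apply mul_le_mul_of_nonneg_right _ (En_nonneg _ _)
      exact_mod_cast hg
  set A := Real.sqrt ((r : ℝ) * En N f)
  set B := Real.sqrt ((r : ℝ) * En N h)
  have hterm : ∀ g ∈ Icc (1 : ℤ) N, ∀ g' ∈ Icc (1 : ℤ) N,
      ‖(((G.T i (g' - g) - G.K i g g') : ℝ) : ℂ) * f g * h g'‖
        ≤ (if g ≤ r then (1:ℝ) else 0) * (if g' ≤ r then (1:ℝ) else 0) *
          (G.tot i * (A * B)) := by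
    intro g hg g' hg'
    rw [Finset.mem_Icc] at hg hg'
    by_cases h1 : g ≤ r
    · by_cases h2 : g' ≤ r
      · rw [if_pos h1, if_pos h2, norm_mul, norm_mul, Complex.norm_real]
        have h3 : ‖G.T i (g' - g) - G.K i g g'‖ ≤ G.tot i := by
          rw [Real.norm_of_nonneg (by linarith [G.K_le i g g'])]
          linarith [G.K_nonneg i g g', T_le_tot G i (g' - g)]
        calc ‖G.T i (g' - g) - G.K i g g'‖ * ‖f g‖ * ‖h g'‖
            ≤ G.tot i * A * B := by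
              apply mul_le_mul (mul_le_mul h3 (hval hf g h1) (norm_nonneg _) (tot_nonneg G i))
                (hval hh g' h2) (norm_nonneg _)
              exact mul_nonneg (tot_nonneg G i) (Real.sqrt_nonneg _)
          _ = _ := by ring
      · rw [K_eq_T G i r hK g g' hg.1 hg'.1 (Or.inr (by omega))]
        simp [h2]
    · rw [K_eq_T G i r hK g g' hg.1 hg'.1 (Or.inl (by omega))]
      simp [h1]
  have hcount : ∑ g ∈ Icc (1 : ℤ) N, (if g ≤ r then (1:ℝ) else 0) ≤ r := by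
    rw [← Finset.sum_filter, Finset.sum_const, nsmul_eq_mul, mul_one]
    have : (Icc (1 : ℤ) (N : ℤ)).filter (fun g : ℤ => g ≤ (r : ℤ)) ⊆ Icc (1 : ℤ) (r : ℤ) := by
      intro g hg
      rw [Finset.mem_filter, Finset.mem_Icc] at hg
      rw [Finset.mem_Icc]
      omega
    have h1 := Finset.card_le_card this
    rw [Int.card_Icc] at h1
    have h2 : ((Icc (1 : ℤ) (N : ℤ)).filter (fun g : ℤ => g ≤ (r : ℤ))).card ≤ r := by
      refine h1.trans ?_
      simp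
    exact_mod_cast h2
  have hnn : 0 ≤ ∑ g ∈ Icc (1 : ℤ) N, (if g ≤ r then (1:ℝ) else 0) :=
    Finset.sum_nonneg fun _ _ => by split_ifs <;> norm_num
  have hAB : 0 ≤ G.tot i * (A * B) :=
    mul_nonneg (tot_nonneg G i) (mul_nonneg (Real.sqrt_nonneg _) (Real.sqrt_nonneg _))
  calc _ ≤ ∑ g ∈ Icc (1 : ℤ) N, ∑ g' ∈ Icc (1 : ℤ) N,
        ‖(((G.T i (g' - g) - G.K i g g') : ℝ) : ℂ) * f g * h g'‖ :=
        (norm_sum_le _ _).trans (Finset.sum_le_sum fun g _ => norm_sum_le _ _)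
    _ ≤ ∑ g ∈ Icc (1 : ℤ) N, ∑ g' ∈ Icc (1 : ℤ) N,
        (if g ≤ r then (1:ℝ) else 0) * (if g' ≤ r then (1:ℝ) else 0) *
          (G.tot i * (A * B)) :=
        Finset.sum_le_sum fun g hg => Finset.sum_le_sum fun g' hg' => hterm g hg g' hg'
    _ = (∑ g ∈ Icc (1 : ℤ) N, (if g ≤ r then (1:ℝ) else 0)) *
        (∑ g' ∈ Icc (1 : ℤ) N, (if g' ≤ r then (1:ℝ) else 0)) * (G.tot i * (A * B)) := by
        rw [Finset.sum_mul_sum, Finset.sum_mul]
        refine Finset.sum_congr rfl fun g _ => ?_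
        rw [Finset.sum_mul]
    _ ≤ (r : ℝ) * r * (G.tot i * (A * B)) := by
        apply mul_le_mul_of_nonneg_right _ hAB
        exact mul_le_mul hcount hcount hnn (Nat.cast_nonneg _)
    _ = (G.tot i * (r : ℝ) ^ 3) * (Real.sqrt (En N f) * Real.sqrt (En N h)) := by
        simp only [A, B]
        rw [Real.sqrt_mul (Nat.cast_nonneg _), Real.sqrt_mul (Nat.cast_nonneg _)]
        have : Real.sqrt (r : ℝ) * Real.sqrt (r : ℝ) = r :=
          Real.mul_self_sqrt (Nat.cast_nonneg _)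
        calc (r : ℝ) * r * (G.tot i * (Real.sqrt r * Real.sqrt (En N f) *
              (Real.sqrt r * Real.sqrt (En N h))))
            = (r : ℝ) * r * (G.tot i * ((Real.sqrt r * Real.sqrt r) *
              (Real.sqrt (En N f) * Real.sqrt (En N h)))) := by ring
          _ = _ := by rw [this]; ring

omit G in
lemma one_sub_wt_le {eps : ℝ} (he : 0 ≤ eps) (i : ℕ × ℕ) (r : ℕ) (g g' : ℤ) (h1 : 1 ≤ g) (h2 : 1 ≤ g')
    (hd : |g' - g| ≤ r) :
    1 - GapKernel.wt eps i g g'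
      ≤ (2 * (i.2 : ℝ) * (r + 1)) * (Real.sqrt (q eps g) * Real.sqrt (q eps g')) := by
  have hq := q_nonneg he (show 0 ≤ g by omega)
  have hq' := q_nonneg he (show 0 ≤ g' by omega)
  have e1 : 1 - GapKernel.wt eps i g g' = q eps ((i.2 : ℤ) * (g + g')) := by
    unfold GapKernel.wt q
    push_cast
    congr 3
    ring
  have e2 : q eps ((i.2 : ℤ) * (g + g')) ≤ i.2 * q eps (g + g') :=
    q_mul_le he (by omega) i.2 _ le_rfl
  have e3 : q eps (g + g') ≤ q eps g + q eps g' := by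
    unfold q
    have hx1 : Real.exp (-(eps * (g : ℝ))) ≤ 1 := by
      unfold q at hq; linarith
    have hx2 : Real.exp (-(eps * (g' : ℝ))) ≤ 1 := by
      unfold q at hq'; linarith
    have : Real.exp (-(eps * ((g + g' : ℤ) : ℝ)))
        = Real.exp (-(eps * (g : ℝ))) * Real.exp (-(eps * (g' : ℝ))) := by
      rw [← Real.exp_add]
      congr 1
      push_cast
      ring
    rw [this]
    nlinarith
  have habs := abs_le.1 hd
  have e4 : q eps g ≤ (r + 1 : ℝ) * q eps g' := by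
    have := q_mul_le he (show 0 ≤ g' by omega) (r + 1) g (by
      push_cast
      nlinarith)
    push_cast at this
    exact this
  have e5 : q eps g' ≤ (r + 1 : ℝ) * q eps g := by
    have := q_mul_le he (show 0 ≤ g by omega) (r + 1) g' (by
      push_cast
      nlinarith)
    push_cast at this
    exact this
  have hR : (1:ℝ) ≤ r + 1 := by
    have : (0:ℝ) ≤ r := Nat.cast_nonneg _
    linarith
  have e6 : q eps g ≤ (r + 1 : ℝ) * (Real.sqrt (q eps g) * Real.sqrt (q eps g')) := by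
    have : Real.sqrt (q eps g) ≤ (r + 1 : ℝ) * Real.sqrt (q eps g') := by
      rw [← Real.sqrt_sq (show (0:ℝ) ≤ r + 1 by linarith), ← Real.sqrt_mul (sq_nonneg _)]
      apply Real.sqrt_le_sqrt
      refine e4.trans ?_
      apply mul_le_mul_of_nonneg_right _ hq'
      nlinarith
    calc q eps g = Real.sqrt (q eps g) * Real.sqrt (q eps g) := (Real.mul_self_sqrt hq).symm
      _ ≤ Real.sqrt (q eps g) * ((r + 1 : ℝ) * Real.sqrt (q eps g')) :=
        mul_le_mul_of_nonneg_left this (Real.sqrt_nonneg _)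
      _ = _ := by ring
  have e7 : q eps g' ≤ (r + 1 : ℝ) * (Real.sqrt (q eps g) * Real.sqrt (q eps g')) := by
    have : Real.sqrt (q eps g') ≤ (r + 1 : ℝ) * Real.sqrt (q eps g) := by
      rw [← Real.sqrt_sq (show (0:ℝ) ≤ r + 1 by linarith), ← Real.sqrt_mul (sq_nonneg _)]
      apply Real.sqrt_le_sqrt
      refine e5.trans ?_
      apply mul_le_mul_of_nonneg_right _ hq
      nlinarith
    calc q eps g' = Real.sqrt (q eps g') * Real.sqrt (q eps g') := (Real.mul_self_sqrt hq').symm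
      _ ≤ Real.sqrt (q eps g') * ((r + 1 : ℝ) * Real.sqrt (q eps g)) :=
        mul_le_mul_of_nonneg_left this (Real.sqrt_nonneg _)
      _ = _ := by ring
  rw [e1]
  have hi : (0:ℝ) ≤ i.2 := Nat.cast_nonneg _
  calc q eps ((i.2 : ℤ) * (g + g')) ≤ i.2 * q eps (g + g') := e2
    _ ≤ i.2 * (q eps g + q eps g') := mul_le_mul_of_nonneg_left e3 hi
    _ ≤ i.2 * ((r + 1 : ℝ) * (Real.sqrt (q eps g) * Real.sqrt (q eps g')) +
        (r + 1 : ℝ) * (Real.sqrt (q eps g) * Real.sqrt (q eps g'))) :=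
        mul_le_mul_of_nonneg_left (add_le_add e6 e7) hi
    _ = _ := by ring

/-- the area part -/
lemma part3 {N : ℕ} {eps : ℝ} (he : 0 ≤ eps) {f h : ℤ → ℂ} (hf : Supp N f) (hh : Supp N h)
    (i : ℕ × ℕ) (r : ℕ) (hT : ∀ d : ℤ, (r : ℤ) < |d| → G.T i d = 0) :
    ‖∑ g ∈ Icc (1 : ℤ) N, ∑ g' ∈ Icc (1 : ℤ) N,
      ((G.K i g g' * (1 - GapKernel.wt eps i g g') : ℝ) : ℂ) * f g * h g'‖
      ≤ (2 * (i.2 : ℝ) * (r + 1) * G.tot i) *
        (Real.sqrt (Pot eps N f) * Real.sqrt (Pot eps N h)) := by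
  -- the real functions
  let F : ℤ → ℝ := fun g => Real.sqrt (q eps g) * ‖f g‖
  let H : ℤ → ℝ := fun g => Real.sqrt (q eps g) * ‖h g‖
  have hF0 : ∀ g, f g = 0 → F g = 0 := fun g hg => by simp [F, hg]
  have hH0 : ∀ g, h g = 0 → H g = 0 := fun g hg => by simp [H, hg]
  have hFfs : FS F := (supp_fs hf).of_imp hF0
  have hHfs : FS H := (supp_fs hh).of_imp hH0
  have hFn : ∀ g, 0 ≤ F g := fun g => mul_nonneg (Real.sqrt_nonneg _) (norm_nonneg _)
  have hHn : ∀ g, 0 ≤ H g := fun g => mul_nonneg (Real.sqrt_nonneg _) (norm_nonneg _)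
  have hPF : ∑' g, F g ^ 2 = Pot eps N f := by
    rw [tsum_supp hf (fun g => F g ^ 2) (fun g hg => by simp [hF0 g hg])]
    unfold Pot
    refine Finset.sum_congr rfl fun g hg => ?_
    rw [Finset.mem_Icc] at hg
    simp only [F, mul_pow]
    rw [Real.sq_sqrt (q_nonneg he (by omega))]
    rfl
  have hPH : ∑' g, H g ^ 2 = Pot eps N h := by
    rw [tsum_supp hh (fun g => H g ^ 2) (fun g hg => by simp [hH0 g hg])]
    unfold Pot
    refine Finset.sum_congr rfl fun g hg => ?_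
    rw [Finset.mem_Icc] at hg
    simp only [H, mul_pow]
    rw [Real.sq_sqrt (q_nonneg he (by omega))]
    rfl
  set M : ℝ := 2 * (i.2 : ℝ) * (r + 1) with hM
  have hM0 : 0 ≤ M := by positivity
  have hterm : ∀ g ∈ Icc (1 : ℤ) N, ∀ g' ∈ Icc (1 : ℤ) N,
      ‖((G.K i g g' * (1 - GapKernel.wt eps i g g') : ℝ) : ℂ) * f g * h g'‖
        ≤ M * (G.T i (g' - g) * F g * H g') := by
    intro g hg g' hg'
    rw [Finset.mem_Icc] at hg hg'
    have hKT := G.K_le i g g'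
    have hK := G.K_nonneg i g g'
    by_cases hd : |g' - g| ≤ (r : ℤ)
    · have hw := one_sub_wt_le he i r g g' hg.1 hg'.1 hd
      have hw0 : 0 ≤ 1 - GapKernel.wt eps i g g' := by
        unfold GapKernel.wt
        have h1 : (1:ℝ) ≤ g := by exact_mod_cast hg.1
        have h2 : (1:ℝ) ≤ g' := by exact_mod_cast hg'.1
        have : Real.exp (-(eps * (i.2 : ℝ) * ((g : ℝ) + (g' : ℝ)))) ≤ 1 := by
          apply Real.exp_le_one_iff.2
          have : 0 ≤ eps * (i.2 : ℝ) * ((g : ℝ) + (g' : ℝ)) := by positivity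
          linarith
        linarith
      rw [norm_mul, norm_mul, Complex.norm_real,
        Real.norm_of_nonneg (mul_nonneg hK hw0)]
      calc G.K i g g' * (1 - GapKernel.wt eps i g g') * ‖f g‖ * ‖h g'‖
          ≤ G.T i (g' - g) * (M * (Real.sqrt (q eps g) * Real.sqrt (q eps g'))) *
            ‖f g‖ * ‖h g'‖ := by
            apply mul_le_mul_of_nonneg_right _ (norm_nonneg _)
            apply mul_le_mul_of_nonneg_right _ (norm_nonneg _)
            exact mul_le_mul hKT hw hw0 (G.T_nonneg _ _)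
        _ = _ := by simp only [F, H]; ring
    · have hT' := hT (g' - g) (by omega)
      have hK0 : G.K i g g' = 0 := le_antisymm (by rw [← hT']; exact hKT) hK
      rw [hK0, hT']
      simp
  have hconv : ∑ g ∈ Icc (1 : ℤ) N, ∑ g' ∈ Icc (1 : ℤ) N, G.T i (g' - g) * F g * H g'
      ≤ G.tot i * (Real.sqrt (Pot eps N f) * Real.sqrt (Pot eps N h)) := by
    have h1 : ∀ g : ℤ, ∑ g' ∈ Icc (1 : ℤ) N, G.T i (g' - g) * F g * H g'
        = ∑ d ∈ Icc (-(G.R : ℤ)) G.R, G.T i d * (F g * H (g + d)) := by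
      intro g
      rw [← tsum_supp hh (fun g' => G.T i (g' - g) * F g * H g')
        (fun g' hg' => by simp [hH0 g' hg'])]
      rw [← tsum_shift (fun g' => G.T i (g' - g) * F g * H g') g]
      have e : ∀ d : ℤ, G.T i (d + g - g) * F g * H (d + g)
          = G.T i d * (F g * H (g + d)) := by
        intro d
        rw [add_sub_cancel_right, add_comm d g]
        ring
      simp only [e]
      apply tsum_eq_sum
      intro d hd
      rw [Finset.mem_Icc] at hd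
      have : (G.R : ℤ) < |d| := by
        rcases le_total 0 d with h0 | h0
        · rw [abs_of_nonneg h0]; omega
        · rw [abs_of_nonpos h0]; omega
      rw [G.T_range i d this]
      simp
    simp only [h1]
    rw [Finset.sum_comm]
    unfold GapKernel.tot
    rw [Finset.sum_mul]
    refine Finset.sum_le_sum fun d _ => ?_
    rw [← Finset.mul_sum]
    apply mul_le_mul_of_nonneg_left _ (G.T_nonneg i d)
    rw [← tsum_supp hf (fun g => F g * H (g + d)) (fun g hg => by simp [hF0 g hg])]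
    refine (csr hFfs (hHfs.shift d)).trans ?_
    rw [hPF, tsum_shift (fun g => H g ^ 2) d, hPH]
  calc _ ≤ ∑ g ∈ Icc (1 : ℤ) N, ∑ g' ∈ Icc (1 : ℤ) N,
        ‖((G.K i g g' * (1 - GapKernel.wt eps i g g') : ℝ) : ℂ) * f g * h g'‖ :=
        (norm_sum_le _ _).trans (Finset.sum_le_sum fun g _ => norm_sum_le _ _)
    _ ≤ ∑ g ∈ Icc (1 : ℤ) N, ∑ g' ∈ Icc (1 : ℤ) N, M * (G.T i (g' - g) * F g * H g') :=
        Finset.sum_le_sum fun g hg => Finset.sum_le_sum fun g' hg' => hterm g hg g' hg'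
    _ = M * ∑ g ∈ Icc (1 : ℤ) N, ∑ g' ∈ Icc (1 : ℤ) N, G.T i (g' - g) * F g * H g' := by
        rw [Finset.mul_sum]
        refine Finset.sum_congr rfl fun g _ => ?_
        rw [Finset.mul_sum]
    _ ≤ M * (G.tot i * (Real.sqrt (Pot eps N f) * Real.sqrt (Pot eps N h))) :=
        mul_le_mul_of_nonneg_left hconv hM0
    _ = _ := by ring

lemma C2_one {N : ℕ} {eps : ℝ} (he : 0 ≤ eps) {f h : ℤ → ℂ} (hf : Supp N f) (hh : Supp N h)
    (i : ℕ × ℕ) (r : ℕ) (hT : ∀ d : ℤ, (r : ℤ) < |d| → G.T i d = 0)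
    (hK : ∀ g g' : ℤ, 1 ≤ g → 1 ≤ g' → (r : ℤ) < g → G.K i g g' = G.T i (g' - g)) :
    ‖(G.tot i : ℂ) * ∑ g ∈ Icc (1 : ℤ) N, f g * h g
      - ∑ g ∈ Icc (1 : ℤ) N, ∑ g' ∈ Icc (1 : ℤ) N,
          ((G.K i g g' * GapKernel.wt eps i g g' : ℝ) : ℂ) * f g * h g'‖
      ≤ (G.tot i * (r : ℝ) ^ 2 + G.tot i * (r : ℝ) ^ 3 + 2 * (i.2 : ℝ) * (r + 1) * G.tot i) * (Real.sqrt (En N f + Pot eps N f) * Real.sqrt (En N h + Pot eps N h)) := by
  have hsplit : (G.tot i : ℂ) * ∑ g ∈ Icc (1 : ℤ) N, f g * h g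
      - ∑ g ∈ Icc (1 : ℤ) N, ∑ g' ∈ Icc (1 : ℤ) N,
          ((G.K i g g' * GapKernel.wt eps i g g' : ℝ) : ℂ) * f g * h g'
      = ((G.tot i : ℂ) * ∑ g ∈ Icc (1 : ℤ) N, f g * h g
        - ∑ g ∈ Icc (1 : ℤ) N, ∑ g' ∈ Icc (1 : ℤ) N, ((G.T i (g' - g) : ℝ) : ℂ) * f g * h g')
      + (∑ g ∈ Icc (1 : ℤ) N, ∑ g' ∈ Icc (1 : ℤ) N,
          (((G.T i (g' - g) - G.K i g g') : ℝ) : ℂ) * f g * h g')
      + ∑ g ∈ Icc (1 : ℤ) N, ∑ g' ∈ Icc (1 : ℤ) N,
          ((G.K i g g' * (1 - GapKernel.wt eps i g g') : ℝ) : ℂ) * f g * h g' := by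
    have : ∑ g ∈ Icc (1 : ℤ) N, ∑ g' ∈ Icc (1 : ℤ) N,
          ((G.K i g g' * GapKernel.wt eps i g g' : ℝ) : ℂ) * f g * h g'
        = ∑ g ∈ Icc (1 : ℤ) N, ∑ g' ∈ Icc (1 : ℤ) N, ((G.T i (g' - g) : ℝ) : ℂ) * f g * h g'
        - (∑ g ∈ Icc (1 : ℤ) N, ∑ g' ∈ Icc (1 : ℤ) N,
          (((G.T i (g' - g) - G.K i g g') : ℝ) : ℂ) * f g * h g')
        - ∑ g ∈ Icc (1 : ℤ) N, ∑ g' ∈ Icc (1 : ℤ) N,
          ((G.K i g g' * (1 - GapKernel.wt eps i g g') : ℝ) : ℂ) * f g * h g' := by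
      simp only [← Finset.sum_sub_distrib]
      refine Finset.sum_congr rfl fun g _ => Finset.sum_congr rfl fun g' _ => ?_
      push_cast
      ring
    rw [this]
    ring
  rw [hsplit]
  have p1 := part1 G hf hh i r hT
  have p2 := part2 G hf hh i r hK
  have p3 := part3 G he hf hh i r hT
  have hEf := En_nonneg N f
  have hEh := En_nonneg N h
  have hPf := Pot_nonneg he N f
  have hPh := Pot_nonneg he N h
  have m1 : Real.sqrt (En N f) * Real.sqrt (En N h)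
      ≤ Real.sqrt (En N f + Pot eps N f) * Real.sqrt (En N h + Pot eps N h) :=
    mul_le_mul (Real.sqrt_le_sqrt (by linarith)) (Real.sqrt_le_sqrt (by linarith))
      (Real.sqrt_nonneg _) (Real.sqrt_nonneg _)
  have m2 : Real.sqrt (Pot eps N f) * Real.sqrt (Pot eps N h)
      ≤ Real.sqrt (En N f + Pot eps N f) * Real.sqrt (En N h + Pot eps N h) :=
    mul_le_mul (Real.sqrt_le_sqrt (by linarith)) (Real.sqrt_le_sqrt (by linarith))
      (Real.sqrt_nonneg _) (Real.sqrt_nonneg _)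
  have ht := tot_nonneg G i
  refine (norm_add_le _ _).trans ?_
  refine (add_le_add (norm_add_le _ _) le_rfl).trans ?_
  refine (add_le_add (add_le_add p1 p2) p3).trans ?_
  have q1 := mul_le_mul_of_nonneg_left m1 (show 0 ≤ G.tot i * (r : ℝ) ^ 2 by positivity)
  have q2 := mul_le_mul_of_nonneg_left m1 (show 0 ≤ G.tot i * (r : ℝ) ^ 3 by positivity)
  have q3 := mul_le_mul_of_nonneg_left m2
    (show 0 ≤ 2 * (i.2 : ℝ) * (r + 1) * G.tot i by positivity)
  rw [add_mul, add_mul]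
  linarith

end Pool.Agent.FL.GC2

namespace Pool.Agent.FL

open Pool.Agent.Gap

/-- MODULE GC2 -/
theorem gc2 : GC2_Stmt := by
  refine ⟨18, by norm_num, ?_⟩
  intro G hL N eps i f h hi he hf hh
  have hT : ∀ d : ℤ, ((2 * i.1 : ℕ) : ℤ) < |d| → G.T i d = 0 := fun d hd =>
    hL.T_loc i d (by push_cast at hd; exact hd)
  have hK : ∀ g g' : ℤ, 1 ≤ g → 1 ≤ g' → ((2 * i.1 : ℕ) : ℤ) < g →
      G.K i g g' = G.T i (g' - g) := fun g g' h1 h2 h3 =>
    hL.K_loc i g g' h1 h2 (by push_cast at h3; exact h3)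
  refine (GC2.C2_one G he hf hh i (2 * i.1) hT hK).trans ?_
  apply mul_le_mul_of_nonneg_right _ (mul_nonneg (Real.sqrt_nonneg _) (Real.sqrt_nonneg _))
  have ht := H62.tot_nonneg G i
  have hm : (1 : ℝ) ≤ i.1 := by exact_mod_cast (G.pos_mem i hi).1
  have hh2 : (i.2 : ℝ) ≤ i.1 := by exact_mod_cast hL.h_le i hi
  have hh0 : (0 : ℝ) ≤ i.2 := Nat.cast_nonneg _
  push_cast
  have e1 : ((2 : ℝ) * i.1) ^ 2 ≤ 4 * (i.1 : ℝ) ^ 3 := by
    have : (i.1 : ℝ) ^ 2 ≤ (i.1 : ℝ) ^ 3 := by nlinarith [sq_nonneg (i.1 : ℝ)]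
    nlinarith
  have e2 : ((2 : ℝ) * i.1) ^ 3 = 8 * (i.1 : ℝ) ^ 3 := by ring
  have e3 : 2 * (i.2 : ℝ) * (2 * i.1 + 1) ≤ 6 * (i.1 : ℝ) ^ 3 := by
    have h1 : 2 * (i.2 : ℝ) * (2 * i.1 + 1) ≤ 2 * (i.1 : ℝ) * (3 * i.1) := by
      have : 2 * (i.2 : ℝ) * (2 * i.1 + 1) ≤ 2 * (i.1 : ℝ) * (2 * i.1 + 1) := by nlinarith
      nlinarith
    have : (i.1 : ℝ) ^ 2 ≤ (i.1 : ℝ) ^ 3 := by nlinarith [sq_nonneg (i.1 : ℝ)]
    nlinarith
  calc G.tot i * ((2 : ℝ) * i.1) ^ 2 + G.tot i * ((2 : ℝ) * i.1) ^ 3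
        + 2 * (i.2 : ℝ) * (2 * i.1 + 1) * G.tot i
      = G.tot i * (((2 : ℝ) * i.1) ^ 2 + ((2 : ℝ) * i.1) ^ 3 + 2 * (i.2 : ℝ) * (2 * i.1 + 1)) := by
        ring
    _ ≤ G.tot i * (18 * (i.1 : ℝ) ^ 3) := mul_le_mul_of_nonneg_left (by linarith) ht
    _ = 18 * (i.1 : ℝ) ^ 3 * G.tot i := by ring

end Pool.Agent.FL
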