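import Pool.Agent.Lib_helper24.Gap.M2b
import Pool.Agent.Lib_helper89.FL.StmtsGU

/-! MODULE GM2: second moment bound, uniform over a class of kernels. -/

set_option autoImplicit false

open Finset Filter Topology

namespace Pool.Agent.FL.GM2

open Pool.Agent.Gap

/-! ### The array of squared area steps -/

/-- source `∑ K (h (g+g'))² b` -/
noncomputable def sqS (G : GapKernel) (N : ℕ) (b : ℕ → ℤ → ℝ) (n : ℕ) (g : ℤ) : ℝ :=
  ∑ i ∈ G.S, if i.1 ≤ n then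
    ∑ g' ∈ Icc (1 : ℤ) N, G.K i g g' * ((i.2 : ℝ) * ((g : ℝ) + (g' : ℝ))) ^ 2 * b (n - i.1) g' else 0

lemma sqS_nonneg {G : GapKernel} {N : ℕ} {b : ℕ → ℤ → ℝ} (hb : ∀ n g, 0 ≤ b n g) (n : ℕ)
    (g : ℤ) : 0 ≤ sqS G N b n g := by
  refine sum_nonneg fun i _ => ?_
  split_ifs
  · exact sum_nonneg fun g' _ => mul_nonneg (mul_nonneg (G.K_nonneg _ _ _) (sq_nonneg _)) (hb _ _)
  · exact le_rfl

lemma sqS_le {G : GapKernel} {N : ℕ} {b : ℕ → ℤ → ℝ} (hb : ∀ n g, 0 ≤ b n g) (n : ℕ) (g : ℤ) :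
    sqS G N b n g ≤ HH G * sqSrc G N b n g := by
  unfold sqS sqSrc
  rw [mul_sum]
  refine sum_le_sum fun i hi => ?_
  split_ifs
  · rw [mul_sum]
    refine sum_le_sum fun g' _ => ?_
    have h1 := le_HH G i hi
    have h2 : 0 ≤ G.K i g g' * ((g : ℝ) + (g' : ℝ)) ^ 2 * b (n - i.1) g' :=
      mul_nonneg (mul_nonneg (G.K_nonneg _ _ _) (sq_nonneg _)) (hb _ _)
    calc G.K i g g' * ((i.2 : ℝ) * ((g : ℝ) + (g' : ℝ))) ^ 2 * b (n - i.1) g'
        = (i.2 : ℝ) ^ 2 * (G.K i g g' * ((g : ℝ) + (g' : ℝ)) ^ 2 * b (n - i.1) g') := by ring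
      _ ≤ _ := mul_le_mul_of_nonneg_right h1 h2
  · simp

lemma sqS_bound {G : GapKernel} {N : ℕ} {b : ℕ → ℤ → ℝ} (hb : ∀ n g, 0 ≤ b n g) (C : ℝ)
    (hC0 : 0 ≤ C) (hC : ∀ n g, b n g * G.rho ^ n ≤ C) (n : ℕ) (g : ℤ) (hg : g ∈ Icc (1 : ℤ) N) :
    sqS G N b n g * G.rho ^ n ≤ HH G * ((2 * (N : ℝ)) ^ 2 * C) := by
  have hrho := G.rho_pos
  have h1 := sqSrc_bound hb C hC0 hC n g hg
  calc sqS G N b n g * G.rho ^ n ≤ HH G * sqSrc G N b n g * G.rho ^ n :=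
        mul_le_mul_of_nonneg_right (sqS_le hb n g) (by positivity)
    _ = HH G * (sqSrc G N b n g * G.rho ^ n) := by ring
    _ ≤ _ := mul_le_mul_of_nonneg_left h1 (HH_nonneg G)

/-- second moment against the array of squared gaps -/
lemma m2_le' {G : GapKernel} {C0 : ℕ} {s : ℕ → ℤ → ℝ} (hs : IsCap C0 s)
    {B : ℕ → ℤ → Polynomial ℝ} (hB : IsSol G s B) {N : ℕ} {b q : ℕ → ℤ → ℝ}
    (hb : IsArr G s 0 N b) (hq : IsArr G (sqS G N b) 0 N q) (k : ℕ) :
    C0 + (G.R + 1) * (k + 1) ≤ N → ∀ g, m2 (B k g) ≤ k * q k g := by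
  have hb0 := arr_nonneg' hs.nonneg hb
  have hq0 := arr_nonneg' (sqS_nonneg hb0) hq
  induction k using Nat.strong_induction_on with
  | _ k ih =>
    intro hN g
    have hN' : (C0 : ℤ) + (G.R + 1) * (k + 1) ≤ N := by exact_mod_cast hN
    have hRk : (0 : ℤ) ≤ G.R * k := by positivity
    have hN2 : (C0 : ℤ) + G.R * k + G.R ≤ N := by nlinarith
    by_cases hg1 : 1 ≤ g
    swap
    · rw [hB.zero k g (by omega), hq.zero k g (by omega), m2_zero, mul_zero]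
    by_cases hgN : g ≤ (N : ℤ)
    swap
    · rw [sol_supp hs hB k g (by omega), hq.zero k g (by omega), m2_zero, mul_zero]
    rw [hB.step k g hg1, hq.step k g hg1 hgN, m2_add, m2_C, zero_add, m2_sum]
    unfold sqS
    rw [← sum_add_distrib, mul_sum]
    refine sum_le_sum fun i hi => ?_
    have hi1 := (G.pos_mem i hi).1
    split_ifs with h
    · rw [m2_sum, ← sum_add_distrib, mul_sum]
      -- termwise
      have hterm : ∀ g' ∈ Icc (1 : ℤ) N, m2 (Polynomial.C (G.K i g g') *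
          Polynomial.X ^ ((i.2 : ℤ) * (g + g')).toNat * B (k - i.1) g') ≤
          k * (G.K i g g' * ((i.2 : ℝ) * ((g : ℝ) + (g' : ℝ))) ^ 2 * b (k - i.1) g' +
            G.K i g g' * GapKernel.wt 0 i g g' * q (k - i.1) g') := by
        intro g' hg'
        rw [mem_Icc] at hg'
        have hw : GapKernel.wt 0 i g g' = 1 := by simp [GapKernel.wt]
        have hbe : b (k - i.1) g' = (B (k - i.1) g').eval 1 := by
          have := B1 G C0 s hs B hB N 0 b le_rfl hb (k - i.1) (by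
            refine le_trans ?_ hN
            have : (k - i.1 : ℕ) + 1 ≤ k + 1 := by omega
            exact Nat.add_le_add_left (Nat.mul_le_mul_left _ this) _) g'
          simpa using this
        have ha : (((((i.2 : ℤ) * (g + g')).toNat : ℕ)) : ℝ) = (i.2 : ℝ) * ((g : ℝ) + (g' : ℝ)) := by
          have h1 : (((((i.2 : ℤ) * (g + g')).toNat : ℕ) : ℤ) : ℝ) =
              (((i.2 : ℤ) * (g + g') : ℤ) : ℝ) := by
            rw [Int.toNat_of_nonneg]
            have : (0 : ℤ) ≤ g + g' := by omega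
            positivity
          rw [Int.cast_natCast] at h1
          rw [h1]
          push_cast
          ring
        rw [mul_assoc, m2_C_mul, hw, hbe]
        set P := B (k - i.1) g' with hP
        set e : ℝ := (i.2 : ℝ) * ((g : ℝ) + (g' : ℝ)) with he
        have hP0 : 0 ≤ P.eval 1 := sol_eval_nonneg hs hB _ _
        have ha2 : (((((i.2 : ℤ) * (g + g')).toNat : ℕ)) : ℝ) ^ 2 * P.eval 1 =
            e ^ 2 * P.eval 1 := by
          rw [ha]
        have hkey : m2 (Polynomial.X ^ ((i.2 : ℤ) * (g + g')).toNat * P) ≤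
            k * (e ^ 2 * P.eval 1 + q (k - i.1) g') := by
          have hq1 := hq0 (k - i.1) g'
          have he2 : 0 ≤ e ^ 2 * P.eval 1 := mul_nonneg (sq_nonneg _) hP0
          rcases Nat.eq_zero_or_pos (k - i.1) with h0 | h0
          · have hPC : P = Polynomial.C (s 0 g') := by
              rw [hP, h0, hB.step 0 g' hg'.1, sum_eq_zero, add_zero]
              intro i' hi'
              have := (G.pos_mem i' hi').1
              rw [if_neg (by omega)]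
            have h1k : (1 : ℝ) ≤ k := by
              have : 1 ≤ k := by omega
              exact_mod_cast this
            rw [m2_X_pow_mul, hPC, m1_C, m2_C, ← hPC, mul_zero, add_zero, add_zero, ha2]
            have h4 : 0 ≤ (k : ℝ) * q (k - i.1) g' := by positivity
            nlinarith
          · have h1 := good_ineq (sol_good hs hB (k - i.1) g') (((i.2 : ℤ) * (g + g')).toNat)
              (k - i.1) h0
            rw [← hP, ha2] at h1
            have h2 := ih (k - i.1) (by omega) (by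
              refine le_trans ?_ hN
              have : (k - i.1 : ℕ) + 1 ≤ k + 1 := by omega
              exact Nat.add_le_add_left (Nat.mul_le_mul_left _ this) _) g'
            rw [← hP] at h2
            set k' : ℕ := k - i.1 with hk'
            have hk'0 : (0 : ℝ) < k' := by exact_mod_cast h0
            have hk'k : (k' : ℝ) + 1 ≤ k := by
              have : k' + 1 ≤ k := by omega
              exact_mod_cast this
            have h3 : (1 + 1 / (k' : ℝ)) * m2 P ≤ (1 + 1 / (k' : ℝ)) * (k' * q k' g') :=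
              mul_le_mul_of_nonneg_left h2 (by positivity)
            have h4 : (1 + 1 / (k' : ℝ)) * (k' * q k' g') = ((k' : ℝ) + 1) * q k' g' := by
              field_simp
            have h6 : ((k' : ℝ) + 1) * q k' g' + (1 + (k' : ℝ)) * (e ^ 2 * P.eval 1)
                ≤ k * (e ^ 2 * P.eval 1 + q k' g') := by
              have h7 : 0 ≤ e ^ 2 * P.eval 1 + q k' g' := by positivity
              calc ((k' : ℝ) + 1) * q k' g' + (1 + (k' : ℝ)) * (e ^ 2 * P.eval 1)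
                  = ((k' : ℝ) + 1) * (e ^ 2 * P.eval 1 + q k' g') := by ring
                _ ≤ k * (e ^ 2 * P.eval 1 + q k' g') := mul_le_mul_of_nonneg_right hk'k h7
            linarith
        calc G.K i g g' * m2 (Polynomial.X ^ ((i.2 : ℤ) * (g + g')).toNat * P)
            ≤ G.K i g g' * (k * (e ^ 2 * P.eval 1 + q (k - i.1) g')) :=
              mul_le_mul_of_nonneg_left hkey (G.K_nonneg _ _ _)
          _ = _ := by ring
      have hnn : ∀ g' : ℤ, 0 ≤ (k : ℝ) * (G.K i g g' * ((i.2 : ℝ) * ((g : ℝ) + (g' : ℝ))) ^ 2 * b (k - i.1) g' +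
            G.K i g g' * GapKernel.wt 0 i g g' * q (k - i.1) g') := by
        intro g'
        have h1 := G.K_nonneg i g g'
        have h2 := hb0 (k - i.1) g'
        have h3 := hq0 (k - i.1) g'
        have h4 := wt_nonneg 0 i g g'
        positivity
      calc ∑ g' ∈ Icc (g - G.R) (g + G.R), m2 (Polynomial.C (G.K i g g') *
            Polynomial.X ^ ((i.2 : ℤ) * (g + g')).toNat * B (k - i.1) g')
          = ∑ g' ∈ Icc (g - G.R) (g + G.R) ∩ Icc (1 : ℤ) N, m2 (Polynomial.C (G.K i g g') *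
            Polynomial.X ^ ((i.2 : ℤ) * (g + g')).toNat * B (k - i.1) g') := by
            symm
            refine sum_subset inter_subset_left fun g' hg' hg'2 => ?_
            rw [mem_inter, not_and] at hg'2
            have h5 := hg'2 hg'
            rw [mem_Icc, not_and_or, not_le, not_le] at h5
            rw [mem_Icc] at hg'
            rcases h5 with h5 | h5
            · rw [G.K_out' i g g' (by omega), mul_assoc, m2_C_mul, zero_mul]
            · have h6 : (G.R : ℤ) * ((k - i.1 : ℕ) : ℤ) + G.R ≤ G.R * k := by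
                have h2 : (((k - i.1 : ℕ) : ℤ)) + 1 ≤ k := by omega
                calc (G.R : ℤ) * ((k - i.1 : ℕ) : ℤ) + G.R = G.R * (((k - i.1 : ℕ) : ℤ) + 1) := by
                      ring
                  _ ≤ G.R * k := mul_le_mul_of_nonneg_left h2 (by positivity)
              rw [sol_supp hs hB (k - i.1) g' (by omega), mul_zero, m2_zero]
        _ ≤ ∑ g' ∈ Icc (g - G.R) (g + G.R) ∩ Icc (1 : ℤ) N, (k : ℝ) *
            (G.K i g g' * ((i.2 : ℝ) * ((g : ℝ) + (g' : ℝ))) ^ 2 * b (k - i.1) g' +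
            G.K i g g' * GapKernel.wt 0 i g g' * q (k - i.1) g') :=
            sum_le_sum fun g' hg' => hterm g' (mem_inter.1 hg').2
        _ ≤ _ := sum_le_sum_of_subset_of_nonneg inter_subset_right fun g' _ _ => hnn g'
    · rw [m2_zero]
      simp


/-- generating function of the source -/
noncomputable def sqKh (G : GapKernel) (N : ℕ) (z : ℂ) (V : ℤ → ℂ) (g : ℤ) : ℂ :=
  ∑ i ∈ G.S, ∑ g' ∈ Icc (1 : ℤ) N,
    ((G.K i g g' * ((i.2 : ℝ) * ((g : ℝ) + (g' : ℝ))) ^ 2 : ℝ) : ℂ) * (z ^ i.1 * V g')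

lemma sqS_hasSum {G : GapKernel} {N : ℕ} {b : ℕ → ℤ → ℝ} {z : ℂ}
    (hs : ∀ g, Summable fun n : ℕ => ‖((b n g : ℝ) : ℂ) * z ^ n‖) (g : ℤ) :
    HasSum (fun n : ℕ => ((sqS G N b n g : ℝ) : ℂ) * z ^ n) (sqKh G N z (gf0 b z) g) := by
  have h2 : HasSum (fun n : ℕ => ∑ i ∈ G.S, ∑ g' ∈ Icc (1 : ℤ) N,
      ((G.K i g g' * ((i.2 : ℝ) * ((g : ℝ) + (g' : ℝ))) ^ 2 : ℝ) : ℂ) * (if i.1 ≤ n then
        ((b (n - i.1) g' : ℝ) : ℂ) * z ^ n else 0))
      (sqKh G N z (gf0 b z) g) := by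
    refine hasSum_sum fun i _ => hasSum_sum fun g' _ => ?_
    exact (shift_hasSum0 (c := fun n => b n g') (hs g').of_norm.hasSum i.1).mul_left _
  have h3 : (fun n : ℕ => ((sqS G N b n g : ℝ) : ℂ) * z ^ n) = fun n : ℕ =>
      ∑ i ∈ G.S, ∑ g' ∈ Icc (1 : ℤ) N,
      ((G.K i g g' * ((i.2 : ℝ) * ((g : ℝ) + (g' : ℝ))) ^ 2 : ℝ) : ℂ) * (if i.1 ≤ n then
        ((b (n - i.1) g' : ℝ) : ℂ) * z ^ n else 0) := by
    ext n
    unfold sqS
    rw [Complex.ofReal_sum, sum_mul]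
    refine sum_congr rfl fun i _ => ?_
    split_ifs with h
    · rw [Complex.ofReal_sum, sum_mul]
      refine sum_congr rfl fun g' _ => ?_
      rw [Complex.ofReal_mul]
      ring
    · simp
  rw [h3]
  exact h2

/-! ### Sums over the class -/

/-- fourth moment of the class -/
noncomputable def mom (C θ : ℝ) : ℝ := ∑' m : ℕ, (m : ℝ) ^ 4 * (C * θ ^ m)

lemma summable_mom (C θ : ℝ) (h0 : 0 < θ) (h1 : θ < 1) :
    Summable fun m : ℕ => (m : ℝ) ^ 4 * (C * θ ^ m) := by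
  have hr : ‖θ‖ < 1 := by rwa [Real.norm_of_nonneg h0.le]
  have h := (summable_pow_mul_geometric_of_norm_lt_one 4 hr).mul_left C
  refine h.congr fun m => ?_
  ring

lemma mom_nonneg (C θ : ℝ) (hC : 0 < C) (h0 : 0 < θ) : 0 ≤ mom C θ :=
  tsum_nonneg fun m => by positivity

lemma cls_sum {C θ : ℝ} (hC : 0 < C) (h0 : 0 < θ) (h1 : θ < 1) {G : GapKernel}
    (hG : Cls C θ G) : ∑ i ∈ G.S, (i.1 : ℝ) ^ 4 * (G.rho ^ i.1 * G.tot i) ≤ mom C θ := by
  classical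
  rw [← sum_fiberwise_of_maps_to (s := G.S) (t := G.S.image Prod.fst) (g := fun i => i.1)
    (fun i hi => mem_image_of_mem _ hi)]
  have h2 : ∀ m ∈ G.S.image Prod.fst, ∑ i ∈ G.S.filter (fun i => i.1 = m),
      (i.1 : ℝ) ^ 4 * (G.rho ^ i.1 * G.tot i) ≤ (m : ℝ) ^ 4 * (C * θ ^ m) := by
    intro m _
    have h3 : ∑ i ∈ G.S.filter (fun i => i.1 = m), (i.1 : ℝ) ^ 4 * (G.rho ^ i.1 * G.tot i) =
        (m : ℝ) ^ 4 * ∑ i ∈ G.S.filter (fun i => i.1 = m), G.rho ^ m * G.tot i := by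
      rw [mul_sum]
      refine sum_congr rfl fun i hi => ?_
      rw [(mem_filter.1 hi).2]
    rw [h3]
    exact mul_le_mul_of_nonneg_left (hG.dec m) (by positivity)
  refine (sum_le_sum h2).trans ?_
  exact (summable_mom C θ h0 h1).sum_le_tsum _ fun m _ => by positivity

/-- bound of the bilinear form with squared area steps -/
lemma form_bound {C θ : ℝ} (hC : 0 < C) (h0 : 0 < θ) (h1 : θ < 1) {G : GapKernel}
    (hG : Cls C θ G) (N : ℕ) (z : ℂ) (hz : ‖z‖ ≤ G.rho) (W V : ℤ → ℂ) :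
    ‖∑ g ∈ Icc (1 : ℤ) N, W g * sqKh G N z V g‖ ≤
      16 * mom C θ * ((nsq N (mulg 1 W) + nsq N (mulg 1 V)) / 2) := by
  have hrho := G.rho_pos
  have hterm : ∀ i ∈ G.S, ∀ g ∈ Icc (1 : ℤ) N, ∀ g' ∈ Icc (1 : ℤ) N,
      ‖W g * (((G.K i g g' * ((i.2 : ℝ) * ((g : ℝ) + (g' : ℝ))) ^ 2 : ℝ) : ℂ) *
        (z ^ i.1 * V g'))‖ ≤
      16 * (i.1 : ℝ) ^ 4 * G.rho ^ i.1 * (G.K i g g' *
        ((‖mulg 1 W g‖ ^ 2 + ‖mulg 1 V g'‖ ^ 2) / 2)) := by
    intro i hi g hg g' hg'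
    rw [mem_Icc] at hg hg'
    by_cases hR : 2 * (i.1 : ℤ) < |g' - g|
    · have hK0 : G.K i g g' = 0 := by
        refine le_antisymm ?_ (G.K_nonneg i g g')
        rw [← hG.loc.T_loc i (g' - g) hR]
        exact G.K_le i g g'
      rw [hK0]
      simp
    · rw [not_lt, abs_le] at hR
      have hg1 : (1 : ℝ) ≤ g := by exact_mod_cast hg.1
      have hg1' : (1 : ℝ) ≤ g' := by exact_mod_cast hg'.1
      have hm1 : (1 : ℝ) ≤ i.1 := by exact_mod_cast (G.pos_mem i hi).1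
      have hhm : (i.2 : ℝ) ≤ i.1 := by exact_mod_cast hG.loc.h_le i hi
      have hh0 : (0 : ℝ) ≤ i.2 := by positivity
      have hR1 : (g' : ℝ) - g ≤ 2 * i.1 := by exact_mod_cast hR.2
      have hR2 : -(2 * (i.1 : ℝ)) ≤ (g' : ℝ) - g := by exact_mod_cast hR.1
      have h1 : (g : ℝ) + g' ≤ (4 * (i.1 : ℝ)) * g := by nlinarith
      have h2 : (g : ℝ) + g' ≤ (4 * (i.1 : ℝ)) * g' := by nlinarith
      have h3 : ((i.2 : ℝ) * ((g : ℝ) + (g' : ℝ))) ^ 2 ≤
          16 * (i.1 : ℝ) ^ 4 * ((g : ℝ) * g') := by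
        have h4 : ((g : ℝ) + (g' : ℝ)) ^ 2 ≤ (4 * (i.1 : ℝ)) ^ 2 * ((g : ℝ) * g') := by
          calc ((g : ℝ) + (g' : ℝ)) ^ 2 = ((g : ℝ) + g') * ((g : ℝ) + g') := sq _
            _ ≤ ((4 * (i.1 : ℝ)) * g) * ((4 * (i.1 : ℝ)) * g') :=
                mul_le_mul h1 h2 (by linarith) (by positivity)
            _ = _ := by ring
        calc ((i.2 : ℝ) * ((g : ℝ) + (g' : ℝ))) ^ 2
            = (i.2 : ℝ) ^ 2 * ((g : ℝ) + (g' : ℝ)) ^ 2 := by ring
          _ ≤ (i.1 : ℝ) ^ 2 * ((4 * (i.1 : ℝ)) ^ 2 * ((g : ℝ) * g')) :=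
              mul_le_mul (pow_le_pow_left₀ hh0 hhm 2) h4 (sq_nonneg _) (sq_nonneg _)
          _ = _ := by ring
      have hK := G.K_nonneg i g g'
      rw [norm_mul, norm_mul, norm_mul, norm_pow, Complex.norm_real, Real.norm_of_nonneg
        (mul_nonneg hK (sq_nonneg _))]
      have hzi : ‖z‖ ^ i.1 ≤ G.rho ^ i.1 := pow_le_pow_left₀ (norm_nonneg _) hz _
      have hmW : ‖mulg 1 W g‖ = g * ‖W g‖ := by
        unfold mulg
        rw [pow_one, norm_mul, Complex.norm_intCast, abs_of_nonneg (by linarith)]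
      have hmV : ‖mulg 1 V g'‖ = g' * ‖V g'‖ := by
        unfold mulg
        rw [pow_one, norm_mul, Complex.norm_intCast, abs_of_nonneg (by linarith)]
      calc ‖W g‖ * (G.K i g g' * ((i.2 : ℝ) * ((g : ℝ) + (g' : ℝ))) ^ 2 * (‖z‖ ^ i.1 * ‖V g'‖))
          = ‖z‖ ^ i.1 * G.K i g g' * (((i.2 : ℝ) * ((g : ℝ) + (g' : ℝ))) ^ 2 *
            (‖W g‖ * ‖V g'‖)) := by ring
        _ ≤ G.rho ^ i.1 * G.K i g g' * ((16 * (i.1 : ℝ) ^ 4 * ((g : ℝ) * g')) *
            (‖W g‖ * ‖V g'‖)) := by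
            gcongr
        _ = 16 * (i.1 : ℝ) ^ 4 * G.rho ^ i.1 * (G.K i g g' *
            (‖mulg 1 W g‖ * ‖mulg 1 V g'‖)) := by rw [hmW, hmV]; ring
        _ ≤ _ := by
            gcongr
            nlinarith [sq_nonneg (‖mulg 1 W g‖ - ‖mulg 1 V g'‖)]
  have h2 : ‖∑ g ∈ Icc (1 : ℤ) N, W g * sqKh G N z V g‖ ≤
      ∑ g ∈ Icc (1 : ℤ) N, ∑ i ∈ G.S, ∑ g' ∈ Icc (1 : ℤ) N,
        16 * (i.1 : ℝ) ^ 4 * G.rho ^ i.1 * (G.K i g g' *
        ((‖mulg 1 W g‖ ^ 2 + ‖mulg 1 V g'‖ ^ 2) / 2)) := by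
    refine (norm_sum_le _ _).trans (sum_le_sum fun g hg => ?_)
    unfold sqKh
    rw [mul_sum]
    refine (norm_sum_le _ _).trans (sum_le_sum fun i hi => ?_)
    rw [mul_sum]
    refine (norm_sum_le _ _).trans (sum_le_sum fun g' hg' => ?_)
    exact hterm i hi g hg g' hg'
  refine h2.trans ?_
  rw [sum_comm]
  have h3 : ∀ i ∈ G.S, ∑ g ∈ Icc (1 : ℤ) N, ∑ g' ∈ Icc (1 : ℤ) N,
        16 * (i.1 : ℝ) ^ 4 * G.rho ^ i.1 * (G.K i g g' *
        ((‖mulg 1 W g‖ ^ 2 + ‖mulg 1 V g'‖ ^ 2) / 2)) ≤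
      16 * ((i.1 : ℝ) ^ 4 * (G.rho ^ i.1 * G.tot i)) *
        ((nsq N (mulg 1 W) + nsq N (mulg 1 V)) / 2) := by
    intro i _
    have h4 : ∑ g ∈ Icc (1 : ℤ) N, ∑ g' ∈ Icc (1 : ℤ) N,
        16 * (i.1 : ℝ) ^ 4 * G.rho ^ i.1 * (G.K i g g' *
        ((‖mulg 1 W g‖ ^ 2 + ‖mulg 1 V g'‖ ^ 2) / 2)) =
        16 * (i.1 : ℝ) ^ 4 * G.rho ^ i.1 / 2 * (∑ g ∈ Icc (1 : ℤ) N,
          (∑ g' ∈ Icc (1 : ℤ) N, G.K i g g') * ‖mulg 1 W g‖ ^ 2 +
          ∑ g' ∈ Icc (1 : ℤ) N, (∑ g ∈ Icc (1 : ℤ) N, G.K i g g') * ‖mulg 1 V g'‖ ^ 2) := by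
      have h5 : ∑ g' ∈ Icc (1 : ℤ) N, (∑ g ∈ Icc (1 : ℤ) N, G.K i g g') * ‖mulg 1 V g'‖ ^ 2 =
          ∑ g ∈ Icc (1 : ℤ) N, ∑ g' ∈ Icc (1 : ℤ) N, G.K i g g' * ‖mulg 1 V g'‖ ^ 2 := by
        rw [sum_comm]
        refine sum_congr rfl fun g' _ => ?_
        rw [sum_mul]
      rw [h5, ← sum_add_distrib, mul_sum]
      refine sum_congr rfl fun g _ => ?_
      rw [sum_mul, ← sum_add_distrib, mul_sum]
      refine sum_congr rfl fun g' _ => ?_
      ring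
    have h5 : ∑ g ∈ Icc (1 : ℤ) N, (∑ g' ∈ Icc (1 : ℤ) N, G.K i g g') * ‖mulg 1 W g‖ ^ 2 ≤
        G.tot i * nsq N (mulg 1 W) := by
      unfold nsq
      rw [mul_sum]
      exact sum_le_sum fun g _ => mul_le_mul_of_nonneg_right (G.sum_K_le i g _) (sq_nonneg _)
    have h6 : ∑ g' ∈ Icc (1 : ℤ) N, (∑ g ∈ Icc (1 : ℤ) N, G.K i g g') * ‖mulg 1 V g'‖ ^ 2 ≤
        G.tot i * nsq N (mulg 1 V) := by
      unfold nsq
      rw [mul_sum]
      exact sum_le_sum fun g _ => mul_le_mul_of_nonneg_right (G.sum_K_le' i g _) (sq_nonneg _)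
    rw [h4]
    have h7 : (0 : ℝ) ≤ 16 * (i.1 : ℝ) ^ 4 * G.rho ^ i.1 / 2 := by positivity
    calc 16 * (i.1 : ℝ) ^ 4 * G.rho ^ i.1 / 2 * _ ≤ 16 * (i.1 : ℝ) ^ 4 * G.rho ^ i.1 / 2 *
          (G.tot i * nsq N (mulg 1 W) + G.tot i * nsq N (mulg 1 V)) :=
          mul_le_mul_of_nonneg_left (add_le_add h5 h6) h7
      _ = _ := by ring
  refine (sum_le_sum h3).trans ?_
  rw [← sum_mul, ← mul_sum]
  have h4 := cls_sum hC h0 h1 hG
  have h5 : 0 ≤ nsq N (mulg 1 W) := sum_nonneg fun _ _ => sq_nonneg _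
  have h6 : 0 ≤ nsq N (mulg 1 V) := sum_nonneg fun _ _ => sq_nonneg _
  gcongr

/-- weighted l1 norm of the cap source -/
lemma lw_cap {C θ : ℝ} (hC : 0 < C) (h0 : 0 < θ) (h1 : θ < 1) {G : GapKernel} {C0 : ℕ}
    {s : ℕ → ℤ → ℝ} (hs : ClsCap C θ G C0 s) (N : ℕ) (z : ℂ) (hz : ‖z‖ ≤ G.rho) :
    lw 4 N (capz C0 s 0 z) ≤ mom C θ := by
  have hrho := G.rho_pos
  have h2 : lw 4 N (capz C0 s 0 z) ≤
      ∑ g ∈ Icc (1 : ℤ) N, ∑ m ∈ range (C0 + 1), (g : ℝ) ^ 4 * (G.rho ^ m * s m g) := by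
    unfold lw
    refine sum_le_sum fun g hg => ?_
    rw [mem_Icc] at hg
    have hg1 : (1 : ℝ) ≤ g := by exact_mod_cast hg.1
    rw [← mul_sum]
    refine mul_le_mul_of_nonneg_left ?_ (by positivity)
    unfold capz
    refine (norm_sum_le _ _).trans (sum_le_sum fun m _ => ?_)
    rw [norm_mul, norm_mul, norm_pow, norm_pow, Complex.norm_real,
      Real.norm_of_nonneg (hs.cap.nonneg m g), pow_zero, one_mul]
    exact mul_le_mul_of_nonneg_right (pow_le_pow_left₀ (norm_nonneg _) hz _)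
      (hs.cap.nonneg m g)
  refine h2.trans ?_
  rw [sum_comm]
  have h3 : ∀ m ∈ range (C0 + 1), ∑ g ∈ Icc (1 : ℤ) N, (g : ℝ) ^ 4 * (G.rho ^ m * s m g) ≤
      (m : ℝ) ^ 4 * (C * θ ^ m) := by
    intro m _
    have h4 : ∑ g ∈ Icc (1 : ℤ) N, (g : ℝ) ^ 4 * (G.rho ^ m * s m g) =
        ∑ g ∈ Icc (1 : ℤ) N ∩ Icc (1 : ℤ) m, (g : ℝ) ^ 4 * (G.rho ^ m * s m g) := by
      symm
      refine sum_subset inter_subset_left fun g hg hg' => ?_
      rw [mem_inter, not_and] at hg'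
      have h5 := hg' hg
      rw [mem_Icc] at hg h5
      rw [hs.supp m g (by omega)]
      simp
    rw [h4]
    have hnn : ∀ g ∈ Icc (1 : ℤ) m, (0 : ℝ) ≤ (m : ℝ) ^ 4 * (G.rho ^ m * s m g) := fun g _ =>
      mul_nonneg (by positivity) (mul_nonneg (by positivity) (hs.cap.nonneg m g))
    calc ∑ g ∈ Icc (1 : ℤ) N ∩ Icc (1 : ℤ) m, (g : ℝ) ^ 4 * (G.rho ^ m * s m g)
        ≤ ∑ g ∈ Icc (1 : ℤ) N ∩ Icc (1 : ℤ) m, (m : ℝ) ^ 4 * (G.rho ^ m * s m g) := by
          refine sum_le_sum fun g hg => ?_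
          rw [mem_inter, mem_Icc, mem_Icc] at hg
          have h5 : (0 : ℝ) ≤ g := by
            have : (0 : ℤ) ≤ g := by omega
            exact_mod_cast this
          have h6 : (g : ℝ) ≤ m := by exact_mod_cast hg.2.2
          exact mul_le_mul_of_nonneg_right (pow_le_pow_left₀ h5 h6 4)
            (mul_nonneg (by positivity) (hs.cap.nonneg m g))
      _ ≤ ∑ g ∈ Icc (1 : ℤ) m, (m : ℝ) ^ 4 * (G.rho ^ m * s m g) :=
          sum_le_sum_of_subset_of_nonneg inter_subset_right fun g hg _ => hnn g hg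
      _ = (m : ℝ) ^ 4 * ∑ g ∈ Icc (1 : ℤ) m, G.rho ^ m * s m g := by rw [mul_sum]
      _ ≤ _ := mul_le_mul_of_nonneg_left (hs.dec m) (by positivity)
  refine (sum_le_sum h3).trans ?_
  exact (summable_mom C θ h0 h1).sum_le_tsum _ fun m _ => by positivity

/-- weighted norm of the generating function of an array -/
lemma gf_weighted {C θ C1 : ℝ} (hC : 0 < C) (h0 : 0 < θ) (h1 : θ < 1) (hC1 : 0 < C1)
    (hW : ∀ G : GapKernel, Cls C θ G →
      ∀ (N : ℕ) (eps : ℝ) (z : ℂ) (v e : ℤ → ℂ), 0 ≤ eps → ‖z‖ ≤ G.rho → z ≠ (G.rho : ℂ) →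
      G.Solves eps z N v e →
      (∀ k : ℕ, k ≤ 2 → nsq N (mulg k v)
          ≤ C1 * (lw 4 N e) ^ 2 / (Real.sqrt ‖(G.rho : ℂ) - z‖ * ‖(G.rho : ℂ) - z‖ ^ k)) ∧
      (∀ k : ℕ, 1 ≤ k → k ≤ 2 → En N (mulg k v) + Pot eps N (mulg k v)
          ≤ C1 * (lw 4 N e) ^ 2 * Real.sqrt ‖(G.rho : ℂ) - z‖ / ‖(G.rho : ℂ) - z‖ ^ k))
    {G : GapKernel} (hG : Cls C θ G) {C0 : ℕ} {s : ℕ → ℤ → ℝ} (hs : ClsCap C θ G C0 s)
    (N : ℕ) (b : ℕ → ℤ → ℝ) (hb : IsArr G s 0 N b) (z : ℂ) (hz : ‖z‖ < G.rho) :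
    nsq N (mulg 1 (gf0 b z)) * (Real.sqrt ‖(G.rho : ℂ) - z‖ * ‖(G.rho : ℂ) - z‖) ≤
      C1 * mom C θ ^ 2 := by
  have hrho := G.rho_pos
  have hne : z ≠ (G.rho : ℂ) := by
    intro h
    rw [h, Complex.norm_real, Real.norm_of_nonneg hrho.le] at hz
    exact lt_irrefl _ hz
  have hd : 0 < ‖(G.rho : ℂ) - z‖ := by
    rw [norm_pos_iff, sub_ne_zero]
    exact hne.symm
  have hsol := ((J1 G C0 s hs.cap N 0 le_rfl).2 b hb).2.2.2 z hz 0
  have hsol' : G.Solves 0 z N (gf0 b z) (capz C0 s 0 z) := by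
    rw [← gf_zero_eq]
    have he : (fun g => capz C0 s 0 z g + ∑ l ∈ range 0, (((0 : ℕ).choose l : ℕ) : ℂ) *
        G.Kap (0 - l) 0 z N (gf l b z) g) = capz C0 s 0 z := by
      ext g
      simp
    rw [he] at hsol
    exact hsol
  have h2 := (hW G hG N 0 z (gf0 b z) (capz C0 s 0 z) le_rfl hz.le hne hsol').1 1 (by norm_num)
  rw [pow_one] at h2
  have h3 : (lw 4 N (capz C0 s 0 z)) ^ 2 ≤ mom C θ ^ 2 := by
    refine pow_le_pow_left₀ ?_ (lw_cap hC h0 h1 hs N z hz.le) 2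
    refine sum_nonneg fun g hg => ?_
    rw [mem_Icc] at hg
    have hg1 : (0 : ℝ) ≤ g := by
      have : (0 : ℤ) ≤ g := by omega
      exact_mod_cast this
    positivity
  have h4 : 0 < Real.sqrt ‖(G.rho : ℂ) - z‖ * ‖(G.rho : ℂ) - z‖ := by positivity
  rw [← le_div_iff₀ h4]
  refine h2.trans ?_
  gcongr

/-- rescaled coefficient bound -/
lemma coef_scaled (A C : ℝ) (hA : 0 ≤ A) (hC : 0 < C) : ∃ C' : ℝ, 0 ≤ C' ∧
    ∀ (rho : ℝ) (a : ℕ → ℝ), 0 < rho → C⁻¹ ≤ rho →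
    (∀ z : ℂ, ‖z‖ < rho → Summable fun m : ℕ => ‖((a m : ℝ) : ℂ) * z ^ m‖) →
    (∀ z : ℂ, ‖z‖ < rho → ‖∑' m : ℕ, ((a m : ℝ) : ℂ) * z ^ m‖ *
      (Real.sqrt ‖(rho : ℂ) - z‖ * ‖(rho : ℂ) - z‖) ≤ A) →
    ∀ n : ℕ, 1 ≤ n → |a n| * rho ^ n ≤ C' * Real.sqrt n := by
  obtain ⟨C', hC'0, hC'⟩ := coef_bound 1 (A * (Real.sqrt C * C)) one_pos (by positivity)
  refine ⟨C', hC'0, fun rho a hrho hr hs hF n hn => ?_⟩
  have hterm : ∀ (z : ℂ) (m : ℕ), (((a m * rho ^ m : ℝ)) : ℂ) * z ^ m =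
      ((a m : ℝ) : ℂ) * ((rho : ℂ) * z) ^ m := by
    intro z m
    push_cast
    rw [mul_pow]
    ring
  have hnorm : ∀ z : ℂ, ‖z‖ < 1 → ‖(rho : ℂ) * z‖ < rho := by
    intro z hz
    rw [norm_mul, Complex.norm_real, Real.norm_of_nonneg hrho.le]
    calc rho * ‖z‖ < rho * 1 := mul_lt_mul_of_pos_left hz hrho
      _ = rho := mul_one _
  have h1 := hC' (fun m => a m * rho ^ m) ?_ ?_ n hn
  · have h2 : |a n * rho ^ n| = |a n| * rho ^ n := by
      rw [abs_mul, abs_of_nonneg (by positivity : (0 : ℝ) ≤ rho ^ n)]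
    rw [← h2]
    rw [one_pow, mul_one] at h1
    exact h1
  · intro z hz
    have h2 := hs _ (hnorm z hz)
    refine h2.congr fun m => ?_
    rw [hterm]
  · intro z hz
    have h2 := hF _ (hnorm z hz)
    have h3 : ∑' m : ℕ, (((a m * rho ^ m : ℝ)) : ℂ) * z ^ m =
        ∑' m : ℕ, ((a m : ℝ) : ℂ) * ((rho : ℂ) * z) ^ m := tsum_congr fun m => hterm z m
    rw [h3]
    set F := ‖∑' m : ℕ, ((a m : ℝ) : ℂ) * ((rho : ℂ) * z) ^ m‖ with hFdef
    have hF0 : 0 ≤ F := norm_nonneg _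
    have h4 : ‖(rho : ℂ) - (rho : ℂ) * z‖ = rho * ‖((1 : ℝ) : ℂ) - z‖ := by
      have : (rho : ℂ) - (rho : ℂ) * z = (rho : ℂ) * (((1 : ℝ) : ℂ) - z) := by
        push_cast
        ring
      rw [this, norm_mul, Complex.norm_real, Real.norm_of_nonneg hrho.le]
    rw [h4, Real.sqrt_mul hrho.le] at h2
    set d := ‖((1 : ℝ) : ℂ) - z‖ with hd
    have hd0 : 0 ≤ d := norm_nonneg _
    have hCr : 1 ≤ C * rho := by
      have := mul_le_mul_of_nonneg_left hr hC.le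
      rwa [mul_inv_cancel₀ hC.ne'] at this
    have h5 : 1 ≤ Real.sqrt C * Real.sqrt rho := by
      rw [← Real.sqrt_mul hC.le]
      exact Real.one_le_sqrt.2 hCr
    have h6 : 0 ≤ F * (Real.sqrt d * d) := by positivity
    have h7 : 1 ≤ (Real.sqrt C * Real.sqrt rho) * (C * rho) := by
      calc (1 : ℝ) = 1 * 1 := (one_mul 1).symm
        _ ≤ _ := mul_le_mul h5 hCr zero_le_one (by positivity)
    calc F * (Real.sqrt d * d) = F * (Real.sqrt d * d) * 1 := (mul_one _).symm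
      _ ≤ F * (Real.sqrt d * d) * ((Real.sqrt C * Real.sqrt rho) * (C * rho)) :=
          mul_le_mul_of_nonneg_left h7 h6
      _ = (F * (Real.sqrt rho * Real.sqrt d * (rho * d))) * (Real.sqrt C * C) := by ring
      _ ≤ A * (Real.sqrt C * C) := mul_le_mul_of_nonneg_right h2 (by positivity)

end Pool.Agent.FL.GM2

namespace Pool.Agent.FL

open Pool.Agent.Gap GM2

set_option linter.unusedVariables false in
/-- GM2. -/
theorem gm2 (h2 : GC2_Stmt) (hRE : GRE_Stmt) (hSUP : GSUP_Stmt) (hW : GW_Stmt) : GM2_Stmt := by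
  intro C θ hC hθ0 hθ1
  obtain ⟨C1, hC1, hW1⟩ := hW C θ hC hθ0 hθ1
  have hM := mom_nonneg C θ hC hθ0
  set Q : ℝ := C1 * mom C θ ^ 2 with hQ
  have hQ0 : 0 ≤ Q := by positivity
  obtain ⟨C', hC'0, hC'⟩ := coef_scaled (16 * mom C θ * Q) C (by positivity) hC
  refine ⟨C' + 1, by positivity, fun G hG C0 s t hs ht B hB n => ?_⟩
  have hrho := G.rho_pos
  set N : ℕ := C0 + (G.R + 1) * (n + 1) with hN
  set b := arr G s 0 N with hbdef
  set b' := arr G t 0 N with hb'def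
  set q := arr G (sqS G N b) 0 N with hqdef
  have hb : IsArr G s 0 N b := arr_isArr G s 0 N
  have hb' : IsArr G t 0 N b' := arr_isArr G t 0 N
  have hq : IsArr G (sqS G N b) 0 N q := arr_isArr G _ 0 N
  have hb0 := arr_nonneg' hs.cap.nonneg hb
  have hq0 := arr_nonneg' (sqS_nonneg hb0) hq
  obtain ⟨Cb, hCb0, hCb⟩ := arr_bound hs.cap le_rfl hb
  have hC0N : C0 ≤ N := by omega
  -- the closed array of squared area steps
  have hcl : m2 (closeP C0 t B n) ≤ n * close C0 t q n := by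
    unfold closeP close
    rw [m2_sum, mul_sum]
    refine sum_le_sum fun m hm => ?_
    rw [mem_range] at hm
    rw [m2_sum, mul_sum]
    refine sum_le_sum fun g _ => ?_
    rw [m2_C_mul]
    have h1 := m2_le' hs.cap hB hb hq (n - m) (by
      have h2 : (n - m : ℕ) + 1 ≤ n + 1 := by omega
      exact Nat.add_le_add_left (Nat.mul_le_mul_left _ h2) _) g
    have h3 : ((n - m : ℕ) : ℝ) * q (n - m) g ≤ n * q (n - m) g := by
      refine mul_le_mul_of_nonneg_right ?_ (hq0 _ _)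
      exact_mod_cast Nat.sub_le n m
    calc t m g * m2 (B (n - m) g) ≤ t m g * (n * q (n - m) g) :=
          mul_le_mul_of_nonneg_left (h1.trans h3) (ht.cap.nonneg m g)
      _ = _ := by ring
  have hcl0 : 0 ≤ close C0 t q n :=
    sum_nonneg fun m _ => sum_nonneg fun g _ => mul_nonneg (ht.cap.nonneg m g) (hq0 _ _)
  change G.rho ^ n * m2 (closeP C0 t B n) ≤ _
  rcases Nat.eq_zero_or_pos n with h0 | hn
  · have h1 : m2 (closeP C0 t B n) ≤ 0 := by
      refine hcl.trans ?_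
      rw [h0]
      simp
    have h2 : G.rho ^ n * m2 (closeP C0 t B n) ≤ 0 :=
      mul_nonpos_of_nonneg_of_nonpos (by positivity) h1
    refine h2.trans ?_
    positivity
  -- summability
  have hsb : ∀ z : ℂ, ‖z‖ < G.rho → ∀ g, Summable fun n : ℕ => ‖((b n g : ℝ) : ℂ) * z ^ n‖ := by
    intro z hz g
    have := arr_summable hs.cap le_rfl hb z hz 0 g
    simpa using this
  have hsq : ∀ z : ℂ, ‖z‖ < G.rho → ∀ g, Summable fun n : ℕ => ‖((q n g : ℝ) : ℂ) * z ^ n‖ := by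
    intro z hz g
    exact arr_summable' (sqS_nonneg hb0) (HH G * ((2 * (N : ℝ)) ^ 2 * Cb)) le_rfl
      (fun m g hg => sqS_bound hb0 Cb hCb0 hCb m g hg) hq z hz g
  have hF : ∀ z : ℂ, ‖z‖ < G.rho → HasSum (fun n : ℕ => ((close C0 t q n : ℝ) : ℂ) * z ^ n)
      (∑ g ∈ Icc (1 : ℤ) N, gf0 b' z g * sqKh G N z (gf0 b z) g) := by
    intro z hz
    have h1 := close_hasSum ht.cap (hsq z hz)
    have h2 : ∑ g ∈ Icc (1 : ℤ) C0, capz C0 t 0 z g * gf0 q z g =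
        ∑ g ∈ Icc (1 : ℤ) N, gf0 b' z g * sqKh G N z (gf0 b z) g := by
      have h3 : ∑ g ∈ Icc (1 : ℤ) C0, capz C0 t 0 z g * gf0 q z g =
          ∑ g ∈ Icc (1 : ℤ) N, capz C0 t 0 z g * gf0 q z g := by
        refine sum_subset (Icc_subset_Icc le_rfl (by exact_mod_cast hC0N)) fun g hg hg' => ?_
        rw [mem_Icc] at hg hg'
        have : capz C0 t 0 z g = 0 := by
          unfold capz
          refine sum_eq_zero fun m _ => ?_
          rw [ht.cap.supp_g m g (by omega)]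
          simp
        rw [this, zero_mul]
      rw [h3]
      have h4 : ∀ g ∈ Icc (1 : ℤ) N, capz C0 t 0 z g = gf0 b' z g - G.Kap 0 0 z N (gf0 b' z) g := by
        intro g hg
        have := gf_eq ht.cap le_rfl hb' z hz 0 g hg
        rw [gf_zero_eq] at this
        rw [this]
        simp [gf_zero_eq]
      have h5 : ∀ g ∈ Icc (1 : ℤ) N, sqKh G N z (gf0 b z) g =
          gf0 q z g - G.Kap 0 0 z N (gf0 q z) g := by
        intro g hg
        rw [gf0_eq hq (hsq z hz) g hg _ (sqS_hasSum (hsb z hz) g)]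
        ring
      rw [sum_congr rfl (fun g hg => by rw [h4 g hg]), adjoint]
      exact sum_congr rfl (fun g hg => by rw [h5 g hg])
    rw [← h2]
    exact h1
  have h6 := hC' G.rho (close C0 t q) hrho hG.rho_ge ?_ ?_ n hn
  · rw [abs_of_nonneg hcl0] at h6
    have hn' : (0 : ℝ) < n := by exact_mod_cast hn
    have h7 : (0 : ℝ) ≤ (n : ℝ) * Real.sqrt n := by positivity
    calc G.rho ^ n * m2 (closeP C0 t B n) ≤ G.rho ^ n * (n * close C0 t q n) :=
          mul_le_mul_of_nonneg_left hcl (by positivity)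
      _ = n * (close C0 t q n * G.rho ^ n) := by ring
      _ ≤ n * (C' * Real.sqrt n) := mul_le_mul_of_nonneg_left h6 (by positivity)
      _ = C' * (n * Real.sqrt n) := by ring
      _ ≤ (C' + 1) * (n * Real.sqrt n) := mul_le_mul_of_nonneg_right (by linarith) h7
  · intro z hz
    have h7 : ∀ m, 0 ≤ close C0 t q m := fun m =>
      sum_nonneg fun m _ => sum_nonneg fun g _ => mul_nonneg (ht.cap.nonneg m g) (hq0 _ _)
    have h8 : ‖((‖z‖ : ℝ) : ℂ)‖ < G.rho := by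
      rw [Complex.norm_real, norm_norm]
      exact hz
    have h9 := (hF ((‖z‖ : ℝ) : ℂ) h8).summable
    have h10 : (fun m : ℕ => ((close C0 t q m : ℝ) : ℂ) * ((‖z‖ : ℝ) : ℂ) ^ m) = fun m : ℕ =>
        (((close C0 t q m * ‖z‖ ^ m : ℝ)) : ℂ) := by
      ext m
      push_cast
      ring
    rw [h10] at h9
    have h11 : Summable fun m : ℕ => close C0 t q m * ‖z‖ ^ m := by
      exact_mod_cast h9
    refine h11.congr fun m => ?_
    rw [norm_mul, norm_pow, Complex.norm_real, Real.norm_of_nonneg (h7 m)]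
  · intro z hz
    rw [(hF z hz).tsum_eq]
    have h7 := form_bound hC hθ0 hθ1 hG N z hz.le (gf0 b' z) (gf0 b z)
    have h8 := gf_weighted hC hθ0 hθ1 hC1 hW1 hG ht N b' hb' z hz
    have h9 := gf_weighted hC hθ0 hθ1 hC1 hW1 hG hs N b hb z hz
    have h10 : 0 ≤ Real.sqrt ‖(G.rho : ℂ) - z‖ * ‖(G.rho : ℂ) - z‖ := by positivity
    calc ‖∑ g ∈ Icc (1 : ℤ) N, gf0 b' z g * sqKh G N z (gf0 b z) g‖ *
          (Real.sqrt ‖(G.rho : ℂ) - z‖ * ‖(G.rho : ℂ) - z‖)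
        ≤ 16 * mom C θ * ((nsq N (mulg 1 (gf0 b' z)) + nsq N (mulg 1 (gf0 b z))) / 2) *
          (Real.sqrt ‖(G.rho : ℂ) - z‖ * ‖(G.rho : ℂ) - z‖) :=
          mul_le_mul_of_nonneg_right h7 h10
      _ = 16 * mom C θ * ((nsq N (mulg 1 (gf0 b' z)) *
          (Real.sqrt ‖(G.rho : ℂ) - z‖ * ‖(G.rho : ℂ) - z‖) + nsq N (mulg 1 (gf0 b z)) *
          (Real.sqrt ‖(G.rho : ℂ) - z‖ * ‖(G.rho : ℂ) - z‖)) / 2) := by ring
      _ ≤ 16 * mom C θ * ((Q + Q) / 2) := by gcongr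
      _ = 16 * mom C θ * Q := by ring

end Pool.Agent.FL
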