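import Pool.Agent.Lib_helper89.FL.StmtsGU
import Pool.Agent.Lib_helper22.Gap.SUP

/-! Module GSUP: sup bound and energy bound for arbitrary sources, with the weight `g`. -/

set_option autoImplicit false

open Finset Filter Topology

namespace Pool.Agent.FL

open Pool.Agent.Gap

namespace GSUP

lemma lw1 (N : ℕ) (e : ℤ → ℂ) : lw 1 N e = ∑ g ∈ Icc (1 : ℤ) N, (g : ℝ) * ‖e g‖ := by
  unfold lw
  simp only [pow_one]

lemma lw_nonneg (p N : ℕ) (e : ℤ → ℂ) : 0 ≤ lw p N e := by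
  unfold lw
  refine Finset.sum_nonneg fun g hg => ?_
  rw [Finset.mem_Icc] at hg
  have : (0 : ℝ) ≤ g := by exact_mod_cast (by omega : (0 : ℤ) ≤ g)
  positivity

/-- energy bound for arbitrary sources -/
lemma energy {G : GapKernel} {c : ℝ} (hc : 0 < c) (hC : H22.Coer G c) {N : ℕ} {eps : ℝ} {z : ℂ}
    {v e : ℤ → ℂ} (heps : 0 ≤ eps) (hz : ‖z‖ ≤ G.rho) (hs : G.Solves eps z N v e) :
    En N v + Pot eps N v ≤ 1 / c ^ 2 * lw 1 N e ^ 2 := by
  have hsupp : Supp N v := hs.1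
  set D := En N v + Pot eps N v with hD
  have hE := H22.En_nonneg N v
  have hP := H22.Pot_nonneg heps N v
  have hD0 : 0 ≤ D := by linarith
  have hl := lw_nonneg 1 N e
  have h1 : c * D ≤ Real.sqrt D * lw 1 N e := by
    have h2 := hC N eps z v heps hz hsupp
    rw [H22.form_eq hs] at h2
    have h4 : 0 ≤ ‖(G.rho : ℂ) - z‖ * nsq N v := mul_nonneg (norm_nonneg _) (H22.nsq_nonneg N v)
    have h5 : c * D ≤ c * (‖(G.rho : ℂ) - z‖ * nsq N v + En N v + Pot eps N v) :=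
      mul_le_mul_of_nonneg_left (by linarith) hc.le
    refine (h5.trans h2).trans ((norm_sum_le _ _).trans ?_)
    rw [lw1, Finset.mul_sum]
    refine Finset.sum_le_sum fun g hg => ?_
    rw [Finset.mem_Icc] at hg
    rw [Complex.ofReal_one, one_pow, one_mul, norm_mul, RCLike.norm_conj, ← mul_assoc]
    refine mul_le_mul_of_nonneg_right ?_ (norm_nonneg _)
    have hg1 : (1 : ℝ) ≤ g := by exact_mod_cast hg.1
    have h6 := H22.normsq_le_En hsupp g (by omega)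
    have h7 : ‖v g‖ ^ 2 ≤ (Real.sqrt D * g) ^ 2 := by
      rw [mul_pow, Real.sq_sqrt hD0]
      have h8 : (g : ℝ) * En N v ≤ g * D := mul_le_mul_of_nonneg_left (by linarith) (by linarith)
      have h9 : (g : ℝ) * D ≤ D * (g : ℝ) ^ 2 := by
        have : 0 ≤ D * (g : ℝ) * ((g : ℝ) - 1) :=
          mul_nonneg (mul_nonneg hD0 (by linarith)) (by linarith)
        nlinarith
      linarith
    have h10 : 0 ≤ Real.sqrt D * (g : ℝ) := mul_nonneg (Real.sqrt_nonneg _) (by linarith)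
    exact (sq_le_sq₀ (norm_nonneg _) h10).1 h7
  rcases hD0.eq_or_lt with h0 | h0
  · rw [← h0]; positivity
  · have hsq : Real.sqrt D ^ 2 = D := Real.sq_sqrt hD0
    have h3 : (c * D) ^ 2 ≤ (Real.sqrt D * lw 1 N e) ^ 2 :=
      pow_le_pow_left₀ (mul_nonneg hc.le hD0) h1 2
    rw [mul_pow, mul_pow, hsq] at h3
    have h4 : c ^ 2 * D ≤ lw 1 N e ^ 2 := by
      have h5 : D * (c ^ 2 * D) ≤ D * (lw 1 N e ^ 2) := by nlinarith
      exact le_of_mul_le_mul_left h5 h0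
    rw [one_div, inv_mul_eq_div, le_div_iff₀ (by positivity)]
    linarith

/-- sup bound for a source at one gap -/
lemma single {G : GapKernel} {c : ℝ} (hc : 0 < c) (hC : H22.Coer G c) {N : ℕ} {eps : ℝ} {z : ℂ}
    {v : ℤ → ℂ} (heps : 0 ≤ eps) (hz : ‖z‖ ≤ G.rho) (g0 : ℤ) (hg0 : 1 ≤ g0) (a : ℂ)
    (hs : G.Solves eps z N v (fun g => if g = g0 then a else 0)) (g : ℤ) :
    ‖v g‖ ≤ (g0 : ℝ) / c * ‖a‖ := by
  obtain ⟨n0, rfl⟩ := Int.eq_ofNat_of_zero_le (by omega : 0 ≤ g0)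
  have he : ∀ g : ℤ, (n0 : ℤ) < g → (fun g : ℤ => if g = (n0 : ℤ) then a else 0) g = 0 := by
    intro g hg
    exact if_neg (by omega)
  obtain ⟨_, h2⟩ := H22.energy_le hc hC heps hz hs he
  have hl : l1 n0 (fun g : ℤ => if g = (n0 : ℤ) then a else 0) = ‖a‖ := by
    unfold l1
    rw [Finset.sum_eq_single (n0 : ℤ)]
    · show ‖(if (n0 : ℤ) = (n0 : ℤ) then a else 0)‖ = ‖a‖
      rw [if_pos rfl]
    · intro b _ hb
      show ‖(if b = (n0 : ℤ) then a else 0)‖ = 0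
      rw [if_neg hb, norm_zero]
    · intro h
      exact absurd (Finset.mem_Icc.mpr ⟨hg0, le_refl _⟩) h
  rw [hl] at h2
  rw [Int.cast_natCast]
  set M := (n0 : ℝ) / c * ‖a‖ with hM
  have hM0 : 0 ≤ M := by positivity
  have hmax := H22.max_principle hc hC N (fun g => ‖v g‖) M hM0 (by
    intro g hg hlt
    have hgR : (n0 : ℤ) < g := by
      by_contra hcon
      push Not at hcon
      rw [Finset.mem_Icc] at hg
      exact absurd (h2 g (Finset.mem_Icc.mpr ⟨hg.1, hcon⟩)) (not_le.mpr hlt)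
    have h3 := hs.2 g hg
    rw [he g hgR, GapKernel.Lop, sub_eq_zero] at h3
    rw [h3]
    refine (norm_sum_le _ _).trans (Finset.sum_le_sum fun g' hg' => ?_)
    rw [norm_mul]
    rw [Finset.mem_Icc] at hg hg'
    exact mul_le_mul_of_nonneg_right (G.norm_Kz_le heps hz g g' (by omega) (by omega))
      (norm_nonneg _))
  by_cases hg : g ∈ Icc (1 : ℤ) N
  · exact hmax g hg
  · rw [Finset.mem_Icc] at hg
    rw [hs.1 g (by omega), norm_zero]
    exact hM0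

lemma solves_sum {G : GapKernel} {N : ℕ} {eps : ℝ} {z : ℂ} (s : Finset ℤ) (V E : ℤ → ℤ → ℂ)
    (h : ∀ a ∈ s, G.Solves eps z N (V a) (E a)) :
    G.Solves eps z N (fun g => ∑ a ∈ s, V a g) (fun g => ∑ a ∈ s, E a g) := by
  refine ⟨fun g hg => Finset.sum_eq_zero fun a ha => (h a ha).1 g hg, fun g hg => ?_⟩
  show ∑ a ∈ s, V a g - ∑ g' ∈ Icc (1 : ℤ) N, G.Kz 0 eps z g g' * ∑ a ∈ s, V a g' =
    ∑ a ∈ s, E a g
  have h1 : ∑ g' ∈ Icc (1 : ℤ) N, G.Kz 0 eps z g g' * ∑ a ∈ s, V a g' =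
      ∑ a ∈ s, ∑ g' ∈ Icc (1 : ℤ) N, G.Kz 0 eps z g g' * V a g' := by
    simp only [Finset.mul_sum]
    exact Finset.sum_comm
  rw [h1, ← Finset.sum_sub_distrib]
  exact Finset.sum_congr rfl fun a ha => (h a ha).2 g hg

end GSUP

/-- MODULE GSUP -/
theorem gsup (h : GC_Stmt) (h2 : GRE_Stmt) : GSUP_Stmt := by
  intro C θ hC0 hθ hθ1
  obtain ⟨c, hc, hC⟩ := h C θ hC0 hθ hθ1
  obtain ⟨C1, _, hRE⟩ := h2 C θ hC0 hθ hθ1
  refine ⟨1 / c + 1 / c ^ 2, by positivity, ?_⟩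
  intro G hG N eps z v e heps hz hs
  have hCo : H22.Coer G c := hC G hG
  obtain ⟨hex, huniq, _⟩ := hRE G hG N eps z heps hz
  have hl := GSUP.lw_nonneg 1 N e
  have hc1 : 0 ≤ 1 / c := by positivity
  have hc2 : 0 ≤ 1 / c ^ 2 := by positivity
  refine ⟨fun g => ?_, ?_⟩
  · choose V hV using fun a : ℤ => hex (fun g => if g = a then e a else 0)
    have h3 := GSUP.solves_sum (Icc (1 : ℤ) N) V _ (fun a _ => hV a)
    have h4 : G.Solves eps z N (fun g => ∑ a ∈ Icc (1 : ℤ) N, V a g) e := by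
      refine ⟨h3.1, fun g hg => ?_⟩
      rw [h3.2 g hg]
      show ∑ a ∈ Icc (1 : ℤ) N, (if g = a then e a else 0) = e g
      rw [Finset.sum_ite_eq, if_pos hg]
    have h5 := huniq _ _ _ hs h4
    rw [h5]
    calc ‖∑ a ∈ Icc (1 : ℤ) N, V a g‖ ≤ ∑ a ∈ Icc (1 : ℤ) N, ‖V a g‖ := norm_sum_le _ _
      _ ≤ ∑ a ∈ Icc (1 : ℤ) N, (a : ℝ) / c * ‖e a‖ :=
        Finset.sum_le_sum fun a ha => GSUP.single hc hCo heps hz a (Finset.mem_Icc.1 ha).1
          (e a) (hV a) g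
      _ = 1 / c * lw 1 N e := by
        rw [GSUP.lw1, Finset.mul_sum]
        exact Finset.sum_congr rfl fun a _ => by ring
      _ ≤ (1 / c + 1 / c ^ 2) * lw 1 N e := mul_le_mul_of_nonneg_right (by linarith) hl
  · refine (GSUP.energy hc hCo heps hz hs).trans ?_
    exact mul_le_mul_of_nonneg_right (by linarith) (sq_nonneg _)

end Pool.Agent.FL
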