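import Mathlib
import Pool.Agent.Lib_helper89.FL.StmtsGU
import Pool.Agent.Lib_helper2.Gap.RE

/-!
# Module GRE (uniform resolvent estimate), after the old module RE
-/

set_option autoImplicit false

open Finset Filter Topology

namespace Pool.Agent.FL

open Pool.Agent.Gap GapKernel

theorem gre (hC : GC_Stmt) : GRE_Stmt := by
  intro C0 θ0 hC0 hθ0 hθ1
  obtain ⟨c, hc, HG⟩ := hC C0 θ0 hC0 hθ0 hθ1
  refine ⟨1 / c, by positivity, ?_⟩
  intro G hG
  have H := HG G hG
  have main : ∀ (N : ℕ) (eps : ℝ) (z : ℂ), 0 ≤ eps → ‖z‖ ≤ G.rho → ∀ v e : ℤ → ℂ,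
      G.Solves eps z N v e → c * (‖(G.rho : ℂ) - z‖ * nsq N v + En N v + Pot eps N v)
        ≤ Real.sqrt (nsq N v) * Real.sqrt (nsq N e) := by
    intro N eps z he hz v e hv
    refine (H N eps z v he hz hv.1).trans ?_
    have : form N v (G.Lop eps z N v) = form N v e := by
      unfold form
      refine Finset.sum_congr rfl fun g hg => ?_
      rw [hv.2 g hg]
    rw [this]
    exact form_le N v e
  have uniq : ∀ (N : ℕ) (eps : ℝ) (z : ℂ), 0 ≤ eps → ‖z‖ ≤ G.rho → ∀ v : ℤ → ℂ,
      G.Solves eps z N v 0 → v = 0 := by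
    intro N eps z he hz v hv
    have h1 := main N eps z he hz v 0 hv
    have h2 : nsq N (0 : ℤ → ℂ) = 0 := by simp [nsq]
    rw [h2, Real.sqrt_zero, mul_zero] at h1
    have h3 := nsq_nonneg' N v
    have h4 := Pot_nonneg' he N v
    have h5 : 0 ≤ ‖(G.rho : ℂ) - z‖ * nsq N v := by positivity
    refine zero_of_En hv.1 ?_
    by_contra hcon
    push Not at hcon
    have : 0 < c * (‖(G.rho : ℂ) - z‖ * nsq N v + En N v + Pot eps N v) := by
      apply mul_pos hc; linarith
    linarith
  intro N eps z he hz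
  refine ⟨?_, ?_, ?_⟩
  · -- existence
    intro e
    have hinj : Function.Injective (Llin G eps z N) := by
      rw [injective_iff_map_eq_zero]
      intro x hx
      have hs : G.Solves eps z N (ext0 N x) 0 := by
        refine ⟨ext0_supp N x, fun g hg => ?_⟩
        have := congrFun hx ⟨g, hg⟩
        simpa [Llin] using this
      have h0 := uniq N eps z he hz _ hs
      funext g
      have := congrFun h0 g.1
      unfold ext0 at this
      rw [dif_pos g.2] at this
      simpa using this
    have hsurj : Function.Surjective (Llin G eps z N) :=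
      LinearMap.injective_iff_surjective.mp hinj
    obtain ⟨x, hx⟩ := hsurj (fun g => e g.1)
    refine ⟨ext0 N x, ext0_supp N x, fun g hg => ?_⟩
    exact congrFun hx ⟨g, hg⟩
  · intro v v' e hv hv'
    have : G.Solves eps z N (v - v') 0 := by
      refine ⟨fun g hg => ?_, fun g hg => ?_⟩
      · simp [hv.1 g hg, hv'.1 g hg]
      · rw [Lop_sub, hv.2 g hg, hv'.2 g hg]; simp
    exact sub_eq_zero.mp (uniq N eps z he hz _ this)
  · intro v e hv
    have h1 := main N eps z he hz v e hv
    have h2 := En_nonneg' N v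
    have h3 := Pot_nonneg' he N v
    have h4 := nsq_nonneg' N v
    have hd : 0 ≤ ‖(G.rho : ℂ) - z‖ := norm_nonneg _
    constructor
    · by_cases hz0 : nsq N v = 0
      · rw [hz0, Real.sqrt_zero, mul_zero]
        positivity
      · have hpos : 0 < Real.sqrt (nsq N v) :=
          Real.sqrt_pos.mpr (lt_of_le_of_ne h4 (Ne.symm hz0))
        have h5 : c * (‖(G.rho : ℂ) - z‖ * nsq N v)
            ≤ Real.sqrt (nsq N v) * Real.sqrt (nsq N e) := by
          refine le_trans ?_ h1
          apply mul_le_mul_of_nonneg_left _ hc.le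
          linarith
        have h6 : nsq N v = Real.sqrt (nsq N v) * Real.sqrt (nsq N v) :=
          (Real.mul_self_sqrt h4).symm
        have h7 : Real.sqrt (nsq N v) * (c * (‖(G.rho : ℂ) - z‖ * Real.sqrt (nsq N v)))
            ≤ Real.sqrt (nsq N v) * Real.sqrt (nsq N e) := by
          calc Real.sqrt (nsq N v) * (c * (‖(G.rho : ℂ) - z‖ * Real.sqrt (nsq N v)))
              = c * (‖(G.rho : ℂ) - z‖ * (Real.sqrt (nsq N v) * Real.sqrt (nsq N v))) := by ring
            _ = c * (‖(G.rho : ℂ) - z‖ * nsq N v) := by rw [← h6]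
            _ ≤ _ := h5
        have h8 := le_of_mul_le_mul_left h7 hpos
        rw [one_div, ← div_eq_inv_mul, le_div_iff₀ hc]
        linarith
    · have h5 : c * (En N v + Pot eps N v) ≤ Real.sqrt (nsq N v) * Real.sqrt (nsq N e) := by
        refine le_trans ?_ h1
        apply mul_le_mul_of_nonneg_left _ hc.le
        have : 0 ≤ ‖(G.rho : ℂ) - z‖ * nsq N v := by positivity
        linarith
      rw [one_div, ← div_eq_inv_mul, le_div_iff₀ hc]
      linarith


end Pool.Agent.FL
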