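import Pool.Agent.Lib_helper89.FL.MainPre
import Pool.Agent.Lib_helper89.FL.GRE
import Pool.Agent.Lib_helper89.FL.HG
import Pool.Agent.Lib_helper89.FL.ZBound

set_option autoImplicit false

namespace Pool.Agent.FL

open Filter Topology MeasureTheory Pool.Agent.AreaLaw Pool.Agent.Gap Finset Pool.Agent.SapR

/-- The area law of self-avoiding polygons under a force. -/
theorem main :
    ∃ μ : Measure ℝ, IsProbabilityMeasure μ ∧
      (∀ x : ℝ, μ {x} = 0 →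
        Tendsto (fun n : ℕ => areaCdf n (Staircase n) x) atTop (𝓝 (μ (Set.Iic x)).toReal)) ∧
      ∃ e : ℕ → ℝ, (∀ n, 0 < e n) ∧ Tendsto e atTop (𝓝 0) ∧
        ∀ f : ℕ → ℝ, (∀ᶠ n in atTop, e n ≤ f n) → ∀ x : ℝ, μ {x} = 0 →
          Tendsto (fun n : ℕ => forceCdf (f n) n x) atTop (𝓝 (μ (Set.Iic x)).toReal) :=
  main_of gre hg

/-- The exponential tails of the pieces. -/
theorem mg_main : MG_Stmt := mgt MG.mgn H27.mgi1 mgi2

/-- The uniform local limit theorem. -/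
theorem glt_main : GLT_Stmt := by
  have hC2 : GC2_Stmt := gc2
  have hC : GC_Stmt := GC.gc hC2
  have hRE' : GRE_Stmt := gre hC
  have hSUP : GSUP_Stmt := gsup hC hRE'
  have hW : GW_Stmt := gw hC hSUP
  have hJ2 : GJ2_Stmt := GJ2.gj2 hC2 hC hRE' hSUP hW
  have hV : GV_Stmt := gv hRE' hSUP
  obtain ⟨oLT, oLT1, oM2, oBAL, oST, oSUP, oW⟩ := old_gap
  exact glt (ge hRE' hSUP hW hV gvl oST geb oSUP oW) hJ2

/-- Two-sided bound of the weighted number of canonical words, uniformly for `s ≤ s1`. -/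
theorem z_bound (s1 : ℝ) (h0 : 0 < s1) (h1 : s1 < 1) :
    ∃ C1 : ℝ, 0 < C1 ∧ ∃ N1 : ℕ, ∀ n : ℕ, N1 ≤ n → ∀ s : ℝ, 0 < s → s ≤ s1 →
      ∃ rho : ℝ, 0 < rho ∧ ∑ p ∈ Pc (2 * n - 1), rho ^ hl p * s ^ (hl p - htn p) = 1 ∧
        C1⁻¹ ≤ ((n : ℝ) * Real.sqrt n) * rho ^ n * ∑ q ∈ M41.Om (2 * n - 1) n, wtq n s q ∧
        ((n : ℝ) * Real.sqrt n) * rho ^ n * ∑ q ∈ M41.Om (2 * n - 1) n, wtq n s q ≤ C1 := by
  obtain ⟨oLT, oLT1, oM2, oBAL, oST, oSUP, oW⟩ := old_gap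
  exact Z_bound mg_main mgi2 (kw hg) glt_main oLT1 oM2 oBAL s1 h0 h1

end Pool.Agent.FL
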