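import Pool.Agent.Lib_helper89.FL.Defs

/-!
# Polygons under a force (MP_f6626d_co): statements of the modules of the mass gap part (MG)
-/

set_option autoImplicit false

namespace Pool.Agent.FL

open Finset Pool.Agent.Lib27 Pool.Agent.SapR
open scoped NNReal ENNReal

/-- MGA : bridges. -/
def MGA_Stmt : Prop := ∀ x : ℝ≥0,
  (∀ H H' : ℕ, bb x H * bb x H' ≤ bb x (H + H')) ∧
  (∀ H H' : ℕ, bb x (H + H') ≤ bb x H * chi x * bb x H') ∧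
  (∀ h : ℤ, gfw x (Gn h) ≤ chi x * bb x h.natAbs * chi x)

/-- MGB : Hammersley-Welsh in the direction of the levels. -/
def MGB_Stmt : Prop := ∀ x : ℝ≥0, 0 < x → ∑' H : ℕ, bb x H ≠ ⊤ → chi x ≠ ⊤

/-- MGC : the decay rate exists and `l ^ 2 = s` can be solved (from MGA, MGB). -/
def MGC_Stmt : Prop := ∀ s0 s1 : ℝ, 0 < s0 → s0 ≤ s1 → s1 < 1 →
  ∃ (x0 : ℝ≥0) (X : ℝ), 0 < x0 ∧ 0 < X ∧ ∀ c : ℝ, 0 < c → ∃ eta : ℝ≥0, 0 < eta ∧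
    ∀ s : ℝ, s0 ≤ s → s ≤ s1 → ∃ (x : ℝ≥0) (l l' : ℝ), x0 ≤ x ∧ Lam x l ∧ l ^ 2 = s ∧
      Lam ((1 + eta) * x) l' ∧ chi ((1 + eta) * x) ≤ ENNReal.ofReal X ∧ l' ^ 2 ≤ s * Real.exp c

/-- MGD : backtrack estimate (from MGA). -/
def MGD_Stmt : Prop := ∀ (x : ℝ≥0) (l : ℝ), Lam x l → ∀ K H : ℕ, 1 ≤ K →
  ∑' w : Cr H, (x : ℝ≥0∞) ^ (w : Wd).length * ENNReal.ofReal ((l⁻¹) ^ (RK K w H)) ≤
    ENNReal.ofReal (2 * (chi x).toReal ^ 6 / (1 - l) *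
      (1 + (chi x).toReal ^ 6 * l ^ K / (1 - l)) ^ (H + 1) * l ^ H)

open Classical in
/-- MGF : bad grid levels cost backtracks. -/
def MGF_Stmt : Prop := ∀ K J H : ℕ, 1 ≤ K → (J + 1) * K ≤ H → ∀ w ∈ Cr H,
  K * ((Icc 1 J).filter (fun j => ¬ Good K w j)).card ≤ 2 * RK K w H

/-- MGE : cutting loops. -/
def MGE_Stmt : Prop := ∀ (x : ℝ≥0), 0 < x → chi x ≠ ⊤ → ∀ K J H : ℕ, 1 ≤ K → (J + 1) * K ≤ H →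
  ∀ g : Finset ℕ, g ⊆ Icc 1 J →
    (1 + ((chi x)⁻¹) ^ 2) ^ g.card *
      gfp x {p | p.1 ∈ Cr H ∧ p.2 ∈ Cr H ∧ goodset K J p = g ∧ cutset K J p = ∅} ≤
    gfp x {p | p.1 ∈ Cr H ∧ p.2 ∈ Cr H ∧ goodset K J p = g}

/-- MGG : mass gap (from MGA, MGD, MGE, MGF). -/
def MGG_Stmt : Prop := ∀ (x0 : ℝ≥0) (X : ℝ), 0 < x0 → 0 < X → ∃ C c0 : ℝ, 0 < C ∧ 0 < c0 ∧
  ∀ (x : ℝ≥0) (l : ℝ), x0 ≤ x → Lam x l → chi x ≤ ENNReal.ofReal X → ∀ H : ℕ,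
    gfp x (NC H) ≤ ENNReal.ofReal (C * Real.exp (-(c0 * H)) * l ^ (2 * H))

/-- MGI1 : pieces, caps and polygons without cut are embedded in the pairs without common cut. -/
def MGI1_Stmt : Prop := ∀ (x y : ℝ≥0),
  ∑' p : {p : Wd × Wd | FreePiece p.1 p.2}, (x : ℝ≥0∞) ^ ((p : Wd × Wd).1.length +
      (p : Wd × Wd).2.length) * (y : ℝ≥0∞) ^ htn p ≤ ∑' H : ℕ, (y : ℝ≥0∞) ^ H * gfp x (NC H) ∧
  ∑' T : Cap, (x : ℝ≥0∞) ^ (T : Wd).length * (y : ℝ≥0∞) ^ hgt T ≤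
      ∑' H : ℕ, (y : ℝ≥0∞) ^ H * gfp x (NC H) ∧
  ∀ n : ℕ, 1 ≤ n → ∑ w ∈ NoCut n, (x : ℝ≥0∞) ^ (2 * n) * (y : ℝ≥0∞) ^ spn w ≤
      (2 * n : ℕ) * ∑' H : ℕ, (y : ℝ≥0∞) ^ H * gfp x (NC H)

/-- MGH : renewal equation for the free pieces (from MGA, MGI1). -/
def MGH_Stmt : Prop := ∀ (x : ℝ≥0) (l : ℝ), Lam x l →
  (∃ C c0 : ℝ, 0 < C ∧ 0 < c0 ∧ ∀ H : ℕ,
    gfp x (NC H) ≤ ENNReal.ofReal (C * Real.exp (-(c0 * H)) * l ^ (2 * H))) →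
  ∑' p : {p : Wd × Wd | FreePiece p.1 p.2}, (x : ℝ≥0∞) ^ ((p : Wd × Wd).1.length +
      (p : Wd × Wd).2.length) * ENNReal.ofReal ((l⁻¹) ^ (2 * htn p)) = 1

/-- MGN : output of the mass gap proof (helper74): the critical `x` of the free pieces for the
force `s = exp (-f)`, and the room above it, uniformly on compact intervals. -/
def MGN_Stmt : Prop := ∀ s0 s1 : ℝ≥0, 0 < s0 → s0 ≤ s1 → s1 < 1 → ∃ C eta : ℝ≥0, 0 < eta ∧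
  ∀ s : ℝ≥0, s0 ≤ s → s ≤ s1 → ∃ x : ℝ≥0, 0 < x ∧
    ∑' p : {p : Wd × Wd | FreePiece p.1 p.2}, (x : ℝ≥0∞) ^ ((p : Wd × Wd).1.length +
      (p : Wd × Wd).2.length) * ((s⁻¹ : ℝ≥0) : ℝ≥0∞) ^ htn p = 1 ∧
    ∑' H : ℕ, ((s⁻¹ : ℝ≥0) : ℝ≥0∞) ^ H * gfp ((1 + eta) * x) (NC H) ≤ C

/-- the three exponential tail bounds for the force `s = exp (-f)`, half perimeter `n`, at `rho` -/
def Tails (C θ : ℝ) (n : ℕ) (s rho : ℝ) : Prop :=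
  (∀ m : ℕ, ∑ p ∈ (Pc (2 * n - 1)).filter (fun p => hl p = m), rho ^ m * s ^ (m - htn p) ≤
    C * θ ^ m) ∧
  (∀ m : ℕ, ∑ x ∈ Icc (1 : ℤ) m, ∑ T ∈ CapSet (2 * n - 1) x (2 * m), rho ^ m * s ^ (m - hgt T) ≤
    C * θ ^ m) ∧
  ∑ w ∈ NoCut n, rho ^ n * s ^ (n - spn w) ≤ C * n * θ ^ n

/-- MGI2 : the trivial range of small `s`, and the lower bound of the critical weight. -/
def MGI2_Stmt : Prop := (∃ s2 C θ : ℝ, 0 < s2 ∧ s2 < 1 ∧ 0 < C ∧ 0 < θ ∧ θ < 1 ∧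
    ∀ (n : ℕ) (s rho : ℝ), 1 ≤ n → 0 < s → s ≤ s2 → 0 < rho → rho ≤ 1 / 4 → Tails C θ n s rho) ∧
  ∀ (n : ℕ) (s rho : ℝ), 1 ≤ n → 0 < s → s ≤ 1 → 0 < rho →
    ∑ p ∈ Pc (2 * n - 1), rho ^ hl p * s ^ (hl p - htn p) = 1 → 1 / 100 ≤ rho ∧ rho ≤ 1 / 4

/-- MG : exponential tails at the critical weight, uniformly for `s <= s1 < 1` (module MGT: from
MGN, MGI1, MGI2). -/
def MG_Stmt : Prop := ∀ s1 : ℝ, 0 < s1 → s1 < 1 → ∃ C θ : ℝ, 0 < C ∧ 0 < θ ∧ θ < 1 ∧ ∃ n0 : ℕ,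
  ∀ (n : ℕ) (s rho : ℝ), n0 ≤ n → 0 < s → s ≤ s1 → 0 < rho →
    ∑ p ∈ Pc (2 * n - 1), rho ^ hl p * s ^ (hl p - htn p) = 1 → Tails C θ n s rho

end Pool.Agent.FL
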