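import Pool.Agent.Lib_helper89.FL.GFINa

/-!
Two-sided bounds of the generating polynomials at `1`, uniform over the class of kernels.
-/

set_option autoImplicit false

namespace Pool.Agent.FL.Bound

open Finset Filter Topology Pool.Agent.Gap Pool.Agent.FL.GFIN

/-- a kernel of the class with caps and a solution -/
structure Dt (C θ : ℝ) where
  G : GapKernel
  C0 : ℕ
  s : ℕ → ℤ → ℝ
  t : ℕ → ℤ → ℝ
  B : ℕ → ℤ → Polynomial ℝ
  cls : Cls C θ G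
  cs : ClsCap C θ G C0 s
  ct : ClsCap C θ G C0 t
  sol : IsSol G s B

/-- normalised value -/
noncomputable def Dt.X {C θ : ℝ} (D : Dt C θ) (n : ℕ) : ℝ :=
  ((n : ℝ) * Real.sqrt n) * D.G.rho ^ n * (closeP D.C0 D.t D.B n).eval 1

/-- sequences with convergent parameters -/
theorem seq_val (hLT : GLT_Stmt) {L0 : ℝ} (hL0 : 0 < L0)
    (hL : Tendsto (fun n : ℕ => ((n : ℝ) * Real.sqrt n) * (1 / 4 : ℝ) ^ n
        * (closeP 1 cap1 B0 n).eval 1) atTop (𝓝 L0)) {C θ : ℝ} (hC : 0 < C) (hθ : 0 < θ)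
    (hθ1 : θ < 1) : ∃ C1 : ℝ, 0 < C1 ∧ ∀ D : ℕ → Dt C θ, ∀ q : ℝ × ℝ × ℝ, 0 < q.1 → 0 < q.2.2 →
      Tendsto (fun n => par (D n).G) atTop (𝓝 q) →
      ∀ᶠ n : ℕ in atTop, C1⁻¹ ≤ (D n).X n ∧ (D n).X n ≤ C1 := by
  obtain ⟨C1, hC1, hLT1⟩ := hLT C θ hC hθ hθ1
  set K : ℝ := max (2 * (C1 * (2 / L0))) (2 * C1 * (2 * L0)) + 1 with hK
  have hK0 : 0 < K := by positivity
  refine ⟨K, hK0, fun D q hq1 hq3 hlim => ?_⟩
  have hKS : KSeq C θ (fun n => (D n).G) q.1 q.2.1 q.2.2 := by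
    refine ⟨fun n => (D n).cls, ?_, ?_, ?_⟩
    · exact (continuous_fst.tendsto q).comp hlim
    · exact ((continuous_fst.comp continuous_snd).tendsto q).comp hlim
    · exact ((continuous_snd.comp continuous_snd).tendsto q).comp hlim
  obtain ⟨cr, hcr, h1⟩ := hLT1 (fun n => (D n).G) q.1 q.2.1 q.2.2 (fun n => (D n).C0)
    (fun n => (D n).s) (fun n => (D n).t) (fun n => (D n).B) hKS (fun n => (D n).cs)
    (fun n => (D n).ct) (fun n => (D n).sol) B0 B0_isSol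
  set β : ℝ := 2 * q.2.2 / q.1 with hβ
  have hβ0 : 0 < β := by positivity
  set n0 : ℕ → ℕ := fun n => ⌊β * n⌋₊ with hn0
  have h2 : Tendsto (fun n : ℕ => (n0 n : ℝ) / n) atTop (𝓝 (2 * q.2.2 / q.1)) := by
    rw [← hβ]
    exact (tendsto_nat_floor_mul_div_atTop hβ0.le).comp tendsto_natCast_atTop_atTop
  have h3 : Tendsto n0 atTop atTop :=
    tendsto_nat_floor_atTop.comp (tendsto_natCast_atTop_atTop.const_mul_atTop hβ0)
  have h4 := h1 n0 h2 0 le_rfl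
  have hlam : lamS q.1 q.2.1 q.2.2 0 = 0 := by unfold lamS; ring
  simp only [hlam, epsn_zero, neg_zero, Real.exp_zero] at h4
  have h5 := hL.comp h3
  have e0 : 0 < C1⁻¹ * (L0 / 4) := by positivity
  have e1 : ∀ᶠ n : ℕ in atTop, |((n : ℝ) * Real.sqrt n) * (D n).G.rho ^ n
          * (closeP (D n).C0 (D n).t (D n).B n).eval 1
        - cr n * (((n0 n : ℝ) * Real.sqrt (n0 n)) * (1 / 4 : ℝ) ^ (n0 n)
          * (closeP 1 cap1 B0 (n0 n)).eval 1)| < C1⁻¹ * (L0 / 4) := by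
    have := h4.abs
    rw [abs_zero] at this
    exact this.eventually (gt_mem_nhds e0)
  have e2 : ∀ᶠ n : ℕ in atTop, L0 / 2 < ((n0 n : ℝ) * Real.sqrt (n0 n)) * (1 / 4 : ℝ) ^ (n0 n)
          * (closeP 1 cap1 B0 (n0 n)).eval 1 :=
    h5.eventually (lt_mem_nhds (by linarith))
  have e3 : ∀ᶠ n : ℕ in atTop, ((n0 n : ℝ) * Real.sqrt (n0 n)) * (1 / 4 : ℝ) ^ (n0 n)
          * (closeP 1 cap1 B0 (n0 n)).eval 1 < 2 * L0 :=
    h5.eventually (gt_mem_nhds (by linarith))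
  filter_upwards [e1, e2, e3] with n f1 f2 f3
  obtain ⟨c1, c2⟩ := hcr n
  have hc0 : 0 < cr n := lt_of_lt_of_le (inv_pos.2 hC1) c1
  set S : ℝ := ((n0 n : ℝ) * Real.sqrt (n0 n)) * (1 / 4 : ℝ) ^ (n0 n)
          * (closeP 1 cap1 B0 (n0 n)).eval 1 with hS
  have g1 : (D n).X n = ((n : ℝ) * Real.sqrt n) * (D n).G.rho ^ n
          * (closeP (D n).C0 (D n).t (D n).B n).eval 1 := rfl
  rw [← g1, abs_lt] at f1
  have g2 : C1⁻¹ * (L0 / 2) ≤ cr n * S :=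
    mul_le_mul c1 f2.le (by positivity) hc0.le
  have g3 : cr n * S ≤ C1 * (2 * L0) :=
    mul_le_mul c2 f3.le (by linarith [hL0]) hC1.le
  have hinv : C1⁻¹ * L0 / 4 ≤ C1 * L0 / 4 := by
    have : C1⁻¹ ≤ C1 := c1.trans c2
    have := mul_le_mul_of_nonneg_right this hL0.le
    linarith
  constructor
  · have k1 : K⁻¹ ≤ C1⁻¹ * (L0 / 4) := by
      rw [inv_le_comm₀ hK0 (by positivity)]
      have : (C1⁻¹ * (L0 / 4))⁻¹ = 2 * (C1 * (2 / L0)) := by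
        field_simp
        norm_num
      rw [this]
      linarith [le_max_left (2 * (C1 * (2 / L0))) (2 * C1 * (2 * L0))]
    linarith
  · have k2 := le_max_right (2 * (C1 * (2 / L0))) (2 * C1 * (2 * L0))
    have k3 : 0 < C1 * L0 := by positivity
    linarith

/-- two-sided bound at `1`, uniform over the class -/
theorem two_sided (hLT : GLT_Stmt) (oLT1 : Gap.LT1_Stmt) (oM2 : Gap.M2_Stmt)
    (oBAL : Gap.BAL_Stmt) {C θ : ℝ} (hC : 0 < C) (hθ : 0 < θ) (hθ1 : θ < 1) :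
    ∃ C1 : ℝ, 0 < C1 ∧ ∃ n1 : ℕ, ∀ D : Dt C θ, ∀ n ≥ n1, C1⁻¹ ≤ D.X n ∧ D.X n ≤ C1 := by
  obtain ⟨L, m0, C', hL0, hm0, hC', hL, hexp⟩ := stair_side oLT1 oM2 oBAL
  have hL1 := hL 0 le_rfl
  simp only [epsn_zero, neg_zero, Real.exp_zero] at hL1
  obtain ⟨C1, hC1, hseq⟩ := seq_val hLT hL0 hL1 hC hθ hθ1
  refine ⟨C1, hC1, ?_⟩
  by_contra hcon
  push Not at hcon
  choose D ν hν hbad using hcon
  have hνt : Tendsto ν atTop atTop := tendsto_atTop_mono hν tendsto_id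
  obtain ⟨φ, hφ, hφ'⟩ := strictMono_subseq_of_tendsto_atTop hνt
  obtain ⟨M, hM⟩ := par_mem hC hθ hθ1
  obtain ⟨q, hq, χ, hχ, hlim⟩ := (isCompact_Icc (a := ((1 : ℝ), (1 : ℝ), C⁻¹))
    (b := (M, M, M))).tendsto_subseq (x := fun k => par (D (φ k)).G)
    (fun k => hM _ (D (φ k)).cls)
  rw [Set.mem_Icc] at hq
  have hq1 : 0 < q.1 := lt_of_lt_of_le one_pos hq.1.1
  have hq3 : 0 < q.2.2 := lt_of_lt_of_le (inv_pos.2 hC) hq.1.2.2
  set m : ℕ → ℕ := fun k => ν (φ (χ k)) with hm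
  have hmm : StrictMono m := hφ'.comp hχ
  set E : ℕ → Dt C θ := fun n => D (φ (χ (lastIdx m n))) with hE
  have hlim' : Tendsto (fun n => par (E n).G) atTop (𝓝 q) :=
    hlim.comp (lastIdx_tendsto hmm)
  have h1 := hseq E q hq1 hq3 hlim'
  have h2 := hmm.tendsto_atTop.eventually h1
  obtain ⟨k, hk⟩ := h2.exists
  have hEk : E (m k) = D (φ (χ k)) := by
    simp only [hE, lastIdx_self hmm]
  rw [hEk] at hk
  have h3 := hbad (φ (χ k)) hk.1
  have h4 : m k = ν (φ (χ k)) := rfl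
  rw [h4] at hk
  exact absurd hk.2 (not_le.2 h3)

end Pool.Agent.FL.Bound
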