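import Pool.Agent.Lib_helper24.SapR.Defs

/-!
# Polygons under a force (MP_f6626d_co): definitions for the mass gap part

Words are lists over `Fin 4`, see `Lib_helper27` (`ep`, `vs`, `vt`, `dbl`, `words`, `W`, `rv`) and
`Lib_helper24/SapR/Defs` (`lev`, `cnt`, `Cut`, `Fam`, `Arch`, `CapSet`, `StripPair`, `FreePiece`,
`Pc`, `ht`, `jump`).
-/

set_option autoImplicit false

namespace Pool.Agent.FL

open Finset Pool.Agent.Lib27 Pool.Agent.SapR
open scoped NNReal ENNReal

/-- words -/
abbrev Wd : Type := List (Fin 4)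

/-- generating function (by length) of a set of words -/
noncomputable def gfw (x : ℝ≥0) (A : Set Wd) : ℝ≥0∞ := ∑' w : A, (x : ℝ≥0∞) ^ (w : Wd).length

/-- generating function (by total length) of a set of pairs of words -/
noncomputable def gfp (x : ℝ≥0) (A : Set (Wd × Wd)) : ℝ≥0∞ :=
  ∑' p : A, (x : ℝ≥0∞) ^ ((p : Wd × Wd).1.length + (p : Wd × Wd).2.length)

/-- self-avoiding words -/
def Sw : Set Wd := {w | (vt 0 w).Nodup}

/-- the susceptibility -/
noncomputable def chi (x : ℝ≥0) : ℝ≥0∞ := gfw x Sw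

/-- bridges of height `H`: from level `0` to level `H`, all other vertices at levels `1..H` -/
def Bg (H : ℕ) : Set Wd :=
  {w | (vt 0 w).Nodup ∧ lev (ep 0 w) = H ∧ ∀ p ∈ (vt 0 w).tail, 0 < lev p ∧ lev p ≤ H}

/-- generating function of the bridges of height `H` -/
noncomputable def bb (x : ℝ≥0) (H : ℕ) : ℝ≥0∞ := gfw x (Bg H)

/-- self-avoiding words from level `0` to level `h` -/
def Gn (h : ℤ) : Set Wd := {w | (vt 0 w).Nodup ∧ lev (ep 0 w) = h}

/-- crossing words: from level `0` to level `H`, all vertices at levels `0..H` -/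
def Cr (H : ℕ) : Set Wd :=
  {w | (vt 0 w).Nodup ∧ lev (ep 0 w) = H ∧ ∀ p ∈ vt 0 w, 0 ≤ lev p ∧ lev p ≤ H}

/-- `l` is the decay rate of the bridges at `x` -/
structure Lam (x : ℝ≥0) (l : ℝ) : Prop where
  x_pos : 0 < x
  chi_fin : chi x ≠ ⊤
  l_pos : 0 < l
  l_lt : l < 1
  up : ∀ H : ℕ, bb x H ≤ ENNReal.ofReal (l ^ H)
  low : ∀ H : ℕ, ENNReal.ofReal (l ^ H) ≤ chi x * bb x H

/-- level of the vertex number `j` -/
def lv (w : Wd) (j : ℕ) : ℤ := lev (ep 0 (w.take j))

/-- running maximum of the levels of the vertices `0..j` -/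
def rmx (w : Wd) (j : ℕ) : ℤ := (range (j + 1)).sup' ⟨0, by simp⟩ (fun i => lv w i)

/-- deepest backtrack below the running maximum `a` -/
def dep (w : Wd) (a : ℕ) : ℕ :=
  (range (w.length + 1)).sup (fun j => if rmx w j = a then ((a : ℤ) - lv w j).toNat else 0)

/-- total size of the backtracks of size at least `K` -/
def RK (K : ℕ) (w : Wd) (H : ℕ) : ℕ :=
  ∑ a ∈ range (H + 1), if K ≤ dep w a then dep w a else 0

/-- the part of `w` between the first and the last visit of the level `j K` stays strictly between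
the levels `(j-1) K` and `(j+1) K` -/
def Good (K : ℕ) (w : Wd) (j : ℕ) : Prop :=
  ∀ i1 i i2 : ℕ, i1 ≤ i → i ≤ i2 → i2 ≤ w.length → lv w i1 = (j : ℤ) * K → lv w i2 = (j : ℤ) * K →
    ((j : ℤ) - 1) * K < lv w i ∧ lv w i < ((j : ℤ) + 1) * K

open Classical in
/-- the grid levels which are good for both words -/
noncomputable def goodset (K J : ℕ) (p : Wd × Wd) : Finset ℕ :=
  (Icc 1 J).filter (fun j => Good K p.1 j ∧ Good K p.2 j)

open Classical in
/-- the grid levels visited exactly once by each of the two words -/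
noncomputable def cutset (K J : ℕ) (p : Wd × Wd) : Finset ℕ :=
  (Icc 1 J).filter (fun j => cnt (vt 0 p.1) ((j : ℤ) * K) = 1 ∧ cnt (vt 0 p.2) ((j : ℤ) * K) = 1)

/-- pairs of crossing words without common cut level -/
def NC (H : ℕ) : Set (Wd × Wd) :=
  {p | p.1 ∈ Cr H ∧ p.2 ∈ Cr H ∧
    ∀ k : ℤ, 0 < k → k < H → ¬ (cnt (vt 0 p.1) k = 1 ∧ cnt (vt 0 p.2) k = 1)}

/-- highest level of a word (at least `0`) -/
def hgt (w : Wd) : ℕ := (vt 0 w).toFinset.sup (fun p => (lev p).toNat)

/-- span of a closed word: the difference between the highest and the lowest level -/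
def spn (w : Wd) : ℕ :=
  ((vs 0 w).toFinset ×ˢ (vs 0 w).toFinset).sup (fun p => (lev p.1 - lev p.2).toNat)

/-- half of the number of steps of a piece -/
def hl (p : Wd × Wd) : ℕ := (p.1.length + p.2.length) / 2

/-- the height of a piece as a natural number -/
def htn (p : Wd × Wd) : ℕ := (ht p).toNat

/-- caps: arches of positive gap without cut -/
def Cap : Set Wd := {T | ∃ x : ℤ, 1 ≤ x ∧ Arch x T ∧ ∀ h : ℤ, 1 ≤ h → ¬ Cut (vt 0 T) h}

open Classical in
/-- words of polygons without cut -/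
noncomputable def NoCut (n : ℕ) : Finset Wd := (W n).filter (fun w => ∀ h : ℤ, ¬ Cut (vs 0 w) h)

end Pool.Agent.FL
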