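import Pool.Agent.Lib_helper89.FL.StmtsCW
import Pool.Agent.Lib_helper66.SapR.K5
import Pool.Agent.Lib_helper58.SapR.Root

/-!
Assembly, part A: the span of a closed word, the data of one kernel, the sequence of models.
-/

set_option autoImplicit false

namespace Pool.Agent.FL

open Finset Pool.Agent.Lib27 Pool.Agent.SapR Pool.Agent.Gap Filter Topology

/-! ### span of a closed word -/

lemma L_lip (s : Wd) (i j : ℕ) (hij : i ≤ j) (hj : j ≤ s.length) :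
    |H58.L s j - H58.L s i| ≤ (j : ℤ) - i := by
  induction j with
  | zero =>
    have : i = 0 := by omega
    subst this
    simp
  | succ j ih =>
    rcases Nat.lt_or_ge i (j + 1) with h | h
    · have h1 := ih (by omega) (by omega)
      have h2 := H58.L_succ s j (by omega)
      have h3 := H58.lev_dv (s.getD j 0)
      have h4 : |lev (dv (s.getD j 0))| ≤ 1 := by
        rw [h3]
        split_ifs <;> norm_num
      rw [h2]
      rw [abs_le] at *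
      push_cast
      constructor <;> linarith [h1.1, h1.2, h4.1, h4.2]
    · have : i = j + 1 := by omega
      subst this
      simp

lemma spn_le (n : ℕ) (w : Wd) (hw : w ∈ W n) : spn w ≤ n := by
  have hw' := (mem_W n w).1 hw
  unfold spn
  apply Finset.sup_le
  rintro ⟨p, q⟩ hpq
  rw [mem_product, List.mem_toFinset, List.mem_toFinset] at hpq
  obtain ⟨hp, hq⟩ := hpq
  rw [H58.vs_eq_map, List.mem_map] at hp hq
  obtain ⟨i, hi, rfl⟩ := hp
  obtain ⟨j, hj, rfl⟩ := hq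
  rw [List.mem_range] at hi hj
  have hL : H58.L w w.length = 0 := H58.L_length w hw'.2.1
  have key : ∀ a b : ℕ, a ≤ b → b < w.length → |H58.L w b - H58.L w a| ≤ n := by
    intro a b hab hb
    have h1 := L_lip w a b hab hb.le
    have h2 := L_lip w b w.length hb.le le_rfl
    have h3 := L_lip w 0 a (Nat.zero_le _) (by omega)
    rw [hL] at h2
    rw [H58.L_zero] at h3
    rw [hw'.1] at h2
    rw [abs_le] at *
    push_cast at h2 h3
    constructor <;> omega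
  have h5 : |H58.L w i - H58.L w j| ≤ n := by
    rcases le_total i j with h | h
    · rw [abs_sub_comm]
      exact key i j h hj
    · exact key j i h hi
  have h6 := le_abs_self (H58.L w i - H58.L w j)
  change (H58.L w i - H58.L w j).toNat ≤ n
  omega

/-! ### the data of one kernel -/

/-- the kernel, arrays and bounds for half perimeter `n` and force `s = exp (-f)` -/
structure Dat (C θ : ℝ) (n : ℕ) (s : ℝ) where
  G : GapKernel
  B : ℕ → ℤ → Polynomial ℝ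
  cls : Cls C θ G
  cap : ClsCap C θ G (2 * n) (capW n s)
  sol : IsSol G (capW n s) B
  count : ∑ q ∈ M41.Om (2 * n - 1) n, Polynomial.C (wtq n s q) *
      (Polynomial.X : Polynomial ℝ) ^ (M41.Ar (2 * n - 1) q.2.2.2) =
        closeP (2 * n) (capW n s) B n
  crit : ∑ p ∈ Pc (2 * n - 1), G.rho ^ hl p * s ^ (hl p - htn p) = 1
  tails : Tails C θ n s G.rho

lemma Tails.mono {C C' θ : ℝ} (hC : C ≤ C') (hθ : 0 < θ) {n : ℕ} {s rho : ℝ}
    (h : Tails C θ n s rho) : Tails C' θ n s rho := by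
  obtain ⟨h1, h2, h3⟩ := h
  refine ⟨fun m => (h1 m).trans ?_, fun m => (h2 m).trans ?_, h3.trans ?_⟩
  · exact mul_le_mul_of_nonneg_right hC (by positivity)
  · exact mul_le_mul_of_nonneg_right hC (by positivity)
  · exact mul_le_mul_of_nonneg_right (mul_le_mul_of_nonneg_right hC (Nat.cast_nonneg n))
      (by positivity)

lemma exists_dat (hMG : MG_Stmt) (hMG2 : MGI2_Stmt) (hKW : KW_Stmt) (s1 : ℝ) (h0 : 0 < s1)
    (h1 : s1 < 1) : ∃ C θ : ℝ, 0 < C ∧ 0 < θ ∧ θ < 1 ∧ ∃ N0 : ℕ, 2 ≤ N0 ∧ ∀ n : ℕ, N0 ≤ n →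
      ∀ s : ℝ, 0 < s → s ≤ s1 → Nonempty (Dat C θ n s) := by
  obtain ⟨C, θ, hC, hθ, hθ1, n0, h⟩ := hMG s1 h0 h1
  refine ⟨max C 100, θ, lt_max_of_lt_left hC, hθ, hθ1, max n0 2, le_max_right _ _, ?_⟩
  intro n hn s hs hs1
  have hn0 : n0 ≤ n := (le_max_left _ _).trans hn
  have hn1 : 1 ≤ n := by
    have : 2 ≤ n := (le_max_right _ _).trans hn
    omega
  obtain ⟨G, B, hloc, hcrit, htot, hcap, hone, hsupp, hsol, hcount⟩ :=
    hKW n s hn1 hs (hs1.trans h1.le)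
  have hT := (h n s G.rho hn0 hs hs1 G.rho_pos hcrit).mono (le_max_left C 100) hθ
  have hrho := hMG2.2 n s G.rho hn1 hs (hs1.trans h1.le) G.rho_pos hcrit
  have hCi : (max C 100)⁻¹ ≤ 1 / 100 := by
    rw [← one_div]
    exact one_div_le_one_div_of_le (by norm_num) (le_max_right _ _)
  refine ⟨⟨G, B, ⟨hloc, hCi.trans hrho.1, ?_⟩, ⟨hcap, ?_, hsupp, ?_⟩, hsol, hcount, hcrit, hT⟩⟩
  · intro m
    have h2 := hT.1 m
    rw [← Finset.mul_sum] at h2 ⊢
    rw [htot m]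
    exact h2
  · refine (hCi.trans (by norm_num)).trans hone
  · intro m
    have h2 := hT.2.1 m
    refine le_trans (le_of_eq ?_) h2
    refine Finset.sum_congr rfl fun g hg => ?_
    rw [Finset.mem_Icc] at hg
    unfold capW
    rw [if_pos hg.1, Finset.mul_sum]

/-! ### the sequence of models -/

/-- the error sequence -/
noncomputable def kap0 (C1 C θ : ℝ) (n : ℕ) : ℝ :=
  C1 * (Real.log n / Real.sqrt n) + C1 / (n : ℝ) ^ 5 + 2 * C * ((n : ℝ) ^ 4 * θ ^ n)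

lemma kap0_lim (C1 C θ : ℝ) (h0 : 0 < θ) (h1 : θ < 1) : Tendsto (kap0 C1 C θ) atTop (𝓝 0) := by
  have e1 : Tendsto (fun n : ℕ => Real.log n / Real.sqrt n) atTop (𝓝 0) := by
    have h := (isLittleO_log_rpow_atTop (show (0 : ℝ) < 1 / 2 by norm_num)).tendsto_div_nhds_zero
    have h2 := h.comp tendsto_natCast_atTop_atTop
    refine h2.congr fun n => ?_
    simp only [Function.comp_apply]
    rw [← Real.sqrt_eq_rpow]
  have e2 : Tendsto (fun n : ℕ => C1 / (n : ℝ) ^ 5) atTop (𝓝 0) := by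
    have : Tendsto (fun n : ℕ => (n : ℝ) ^ 5) atTop atTop :=
      (tendsto_pow_atTop (by norm_num)).comp tendsto_natCast_atTop_atTop
    exact this.const_div_atTop C1
  have e3 : Tendsto (fun n : ℕ => (n : ℝ) ^ 4 * θ ^ n) atTop (𝓝 0) :=
    tendsto_pow_const_mul_const_pow_of_lt_one 4 h0.le h1
  have h := ((e1.const_mul C1).add e2).add (e3.const_mul (2 * C))
  simp only [mul_zero, add_zero] at h
  exact h

lemma near_bound {C θ C1 : ℝ} (hC : 0 < C) (hθ : 0 < θ) (hC1 : 0 < C1)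
    (hN : ∀ (n : ℕ) (s rho : ℝ), 2 ≤ n → 0 < s → s ≤ 1 → 0 < rho →
      ∑ p ∈ Pc (2 * n - 1), rho ^ hl p * s ^ (hl p - htn p) = 1 → Tails C θ n s rho →
      ∑ q ∈ M41.Om (2 * n - 1) n, wtq n s q *
        |(|((dbl 0 q.2.2.2 + dbl 0 q.2.2.1 : ℤ) : ℝ)| - (M41.Ar (2 * n - 1) q.2.2.2 : ℝ))| ≤
      C1 * n * Real.log n * ∑ q ∈ M41.Om (2 * n - 1) n, wtq n s q + C1 / ((n : ℝ) ^ 5 * rho ^ n))
    (n' n : ℕ) (hnn : n' = n) (hn : 2 ≤ n) (s : ℝ) (hs : 0 < s) (hs1 : s ≤ 1)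
    (d : Dat C θ n' s) :
    ∑ q ∈ M41.Om (2 * n' - 1) n', wtq n' s q *
        |(|((dbl 0 q.2.2.2 + dbl 0 q.2.2.1 : ℤ) : ℝ)| - (M41.Ar (2 * n' - 1) q.2.2.2 : ℝ))| ≤
      kap0 C1 C θ n * ((n : ℝ) * Real.sqrt n) * (∑ q ∈ M41.Om (2 * n' - 1) n', wtq n' s q +
        1 / ((n : ℝ) * Real.sqrt n * d.G.rho ^ n)) := by
  subst hnn
  have h1 := hN n' s d.G.rho hn hs hs1 d.G.rho_pos d.crit d.tails
  refine h1.trans ?_
  have hn0 : (0 : ℝ) < n' := by
    have : 0 < n' := by omega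
    exact_mod_cast this
  have hn1 : (1 : ℝ) ≤ n' := by
    have : 1 ≤ n' := by omega
    exact_mod_cast this
  have hsq : 0 < Real.sqrt n' := Real.sqrt_pos.2 hn0
  have hρ := pow_pos d.G.rho_pos n'
  have hlog : 0 ≤ Real.log n' := Real.log_nonneg hn1
  obtain ⟨S, hS⟩ : ∃ S, S = ∑ q ∈ M41.Om (2 * n' - 1) n', wtq n' s q := ⟨_, rfl⟩
  have hS0 : 0 ≤ S := by
    rw [hS]
    refine Finset.sum_nonneg fun q _ => ?_
    unfold wtq
    positivity
  rw [← hS]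
  have hθn : 0 < θ ^ n' := pow_pos hθ n'
  have e1 : kap0 C1 C θ n' * ((n' : ℝ) * Real.sqrt n') *
      (S + 1 / ((n' : ℝ) * Real.sqrt n' * d.G.rho ^ n')) =
      kap0 C1 C θ n' * ((n' : ℝ) * Real.sqrt n') * S + kap0 C1 C θ n' / d.G.rho ^ n' := by
    field_simp
  rw [e1]
  have e2 : C1 * n' * Real.log n' ≤ kap0 C1 C θ n' * ((n' : ℝ) * Real.sqrt n') := by
    have h3 : C1 * n' * Real.log n' = C1 * (Real.log n' / Real.sqrt n') * ((n' : ℝ) * Real.sqrt n') := by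
      field_simp
    rw [h3]
    refine mul_le_mul_of_nonneg_right ?_ (by positivity)
    unfold kap0
    have : 0 ≤ C1 / (n' : ℝ) ^ 5 := by positivity
    have : 0 ≤ 2 * C * ((n' : ℝ) ^ 4 * θ ^ n') := by positivity
    linarith
  have e3 : C1 / ((n' : ℝ) ^ 5 * d.G.rho ^ n') ≤ kap0 C1 C θ n' / d.G.rho ^ n' := by
    rw [← div_div]
    refine div_le_div_of_nonneg_right ?_ hρ.le
    unfold kap0
    have : 0 ≤ C1 * (Real.log n' / Real.sqrt n') := by positivity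
    have : 0 ≤ 2 * C * ((n' : ℝ) ^ 4 * θ ^ n') := by positivity
    linarith
  have e4 := mul_le_mul_of_nonneg_right e2 hS0
  linarith

lemma bad_bound {C θ C1 : ℝ} (hC : 0 < C) (hθ : 0 < θ) (hC1 : 0 < C1)
    (n' n : ℕ) (hnn : n' = n) (hn : 2 ≤ n) (s : ℝ) (hs : 0 < s)
    (d : Dat C θ n' s) :
    ∑ w ∈ NoCut n', 1 / (4 * (n' : ℝ)) * s ^ (n' - spn w) * (1 + |((dbl 0 w : ℤ) : ℝ)|) ≤
      kap0 C1 C θ n * (1 / ((n : ℝ) * Real.sqrt n * d.G.rho ^ n)) := by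
  subst hnn
  have hn0 : (0 : ℝ) < n' := by
    have : 0 < n' := by omega
    exact_mod_cast this
  have hn1 : (1 : ℝ) ≤ n' := by
    have : 1 ≤ n' := by omega
    exact_mod_cast this
  have hsq : 0 < Real.sqrt n' := Real.sqrt_pos.2 hn0
  have hsq1 : Real.sqrt n' ≤ n' := by
    rw [Real.sqrt_le_left hn0.le]
    nlinarith
  have hρ := pow_pos d.G.rho_pos n'
  have hlog : 0 ≤ Real.log n' := Real.log_nonneg hn1
  have hθn : 0 < θ ^ n' := pow_pos hθ n'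
  have h3 := d.tails.2.2
  rw [← Finset.mul_sum] at h3
  obtain ⟨S, hS⟩ : ∃ S, S = ∑ w ∈ NoCut n', s ^ (n' - spn w) := ⟨_, rfl⟩
  rw [← hS] at h3
  have hS0 : 0 ≤ S := by
    rw [hS]
    exact Finset.sum_nonneg fun w _ => by positivity
  have h4 : S ≤ C * n' * θ ^ n' / d.G.rho ^ n' := by
    rw [le_div_iff₀ hρ]
    linarith
  have h5 : ∑ w ∈ NoCut n', 1 / (4 * (n' : ℝ)) * s ^ (n' - spn w) * (1 + |((dbl 0 w : ℤ) : ℝ)|) ≤
      1 / (4 * (n' : ℝ)) * (5 * (n' : ℝ) ^ 2) * S := by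
    rw [hS, Finset.mul_sum]
    refine Finset.sum_le_sum fun w hw => ?_
    have hw' : w ∈ W n' := by
      classical
      exact (Finset.mem_filter.1 hw).1
    have hlen := ((mem_W n' w).1 hw').1
    have h6 := H66.abs_dbl_le w
    rw [hlen] at h6
    have h7 : |((dbl 0 w : ℤ) : ℝ)| ≤ 4 * (n' : ℝ) ^ 2 := by
      have h8 : ((|dbl 0 w| : ℤ) : ℝ) ≤ (((2 * n' : ℕ) : ℤ) ^ 2 : ℤ) := by exact_mod_cast h6
      push_cast at h8
      nlinarith
    have h9 : 1 + |((dbl 0 w : ℤ) : ℝ)| ≤ 5 * (n' : ℝ) ^ 2 := by nlinarith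
    have h10 : 0 < s ^ (n' - spn w) := pow_pos hs _
    calc 1 / (4 * (n' : ℝ)) * s ^ (n' - spn w) * (1 + |((dbl 0 w : ℤ) : ℝ)|)
        ≤ 1 / (4 * (n' : ℝ)) * s ^ (n' - spn w) * (5 * (n' : ℝ) ^ 2) :=
          mul_le_mul_of_nonneg_left h9 (by positivity)
      _ = _ := by ring
  refine h5.trans ?_
  have h11 : 1 / (4 * (n' : ℝ)) * (5 * (n' : ℝ) ^ 2) * S ≤
      1 / (4 * (n' : ℝ)) * (5 * (n' : ℝ) ^ 2) * (C * n' * θ ^ n' / d.G.rho ^ n') :=
    mul_le_mul_of_nonneg_left h4 (by positivity)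
  refine h11.trans ?_
  have h12 : 2 * C * ((n' : ℝ) ^ 4 * θ ^ n') ≤ kap0 C1 C θ n' := by
    unfold kap0
    have : 0 ≤ C1 * (Real.log n' / Real.sqrt n') := by positivity
    have : 0 ≤ C1 / (n' : ℝ) ^ 5 := by positivity
    linarith
  have h13 : 2 * C * ((n' : ℝ) ^ 4 * θ ^ n') * (1 / ((n' : ℝ) * Real.sqrt n' * d.G.rho ^ n')) ≤
      kap0 C1 C θ n' * (1 / ((n' : ℝ) * Real.sqrt n' * d.G.rho ^ n')) :=
    mul_le_mul_of_nonneg_right h12 (by positivity)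
  refine le_trans ?_ h13
  have e1 : 1 / (4 * (n' : ℝ)) * (5 * (n' : ℝ) ^ 2) * (C * n' * θ ^ n' / d.G.rho ^ n') =
      (5 / 4 * C * θ ^ n' / d.G.rho ^ n') * (n' : ℝ) ^ 2 := by
    field_simp
  have e2 : 2 * C * ((n' : ℝ) ^ 4 * θ ^ n') * (1 / ((n' : ℝ) * Real.sqrt n' * d.G.rho ^ n')) =
      (2 * C * θ ^ n' / d.G.rho ^ n') * ((n' : ℝ) ^ 3 / Real.sqrt n') := by
    field_simp
  rw [e1, e2]
  have e3 : (n' : ℝ) ^ 2 ≤ (n' : ℝ) ^ 3 / Real.sqrt n' := by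
    rw [le_div_iff₀ hsq]
    calc (n' : ℝ) ^ 2 * Real.sqrt n' ≤ (n' : ℝ) ^ 2 * n' :=
          mul_le_mul_of_nonneg_left hsq1 (by positivity)
      _ = _ := by ring
  have e4 : 5 / 4 * C * θ ^ n' / d.G.rho ^ n' ≤ 2 * C * θ ^ n' / d.G.rho ^ n' := by
    refine div_le_div_of_nonneg_right ?_ hρ.le
    have : 0 < C * θ ^ n' := by positivity
    nlinarith
  exact mul_le_mul e4 e3 (by positivity) (by positivity)

end Pool.Agent.FL
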