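import Pool.Agent.Lib_helper89.FL.StmtsGU
import Pool.Agent.Lib_helper79.Gap.LT
import Pool.Agent.Lib_helper62.Gap.C
import Pool.Agent.Lib_helper62.Gap.C2
import Pool.Agent.Lib_helper2.Gap.RE
import Pool.Agent.Lib_helper22.Gap.SUP
import Pool.Agent.Lib_helper22.Gap.W
import Pool.Agent.Lib_helper22.Gap.J2
import Pool.Agent.Lib_helper24.Gap.J1
import Pool.Agent.Lib_helper24.Gap.B1
import Pool.Agent.Lib_helper84.Gap.X

/-!
# Module GLT: Laplace comparison for sequences of kernels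

The old module LT (`Lib_helper79/Gap/LT.lean`) for a sequence of kernels of the class: the old
module X is applied at the fixed radius `1` to the arrays `close * rho_n ^ m`, and the factor
`mbar_n A_n A'_n` is put into the second array.
-/

set_option autoImplicit false

open Finset Filter Topology

namespace Pool.Agent.FL

open Pool.Agent.Gap

namespace GLT

variable {C θ : ℝ}

/-! ### Uniform bounds of the parameters of the kernels of the class -/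

lemma sum_fiber_le {G : GapKernel} (h : Cls C θ G) (hC : 0 < C) (hθ : 0 < θ) (f : ℕ → ℝ)
    (hf : ∀ m, 0 ≤ f m) (hs : Summable fun m : ℕ => f m * θ ^ m) :
    ∑ i ∈ G.S, f i.1 * (G.rho ^ i.1 * G.tot i) ≤ C * ∑' m : ℕ, f m * θ ^ m := by
  have hmaps : ∀ i ∈ G.S, i.1 ∈ G.S.image Prod.fst := fun i hi => Finset.mem_image_of_mem _ hi
  rw [← Finset.sum_fiberwise_of_maps_to hmaps]
  calc ∑ m ∈ G.S.image Prod.fst, ∑ i ∈ G.S.filter (fun i => i.1 = m),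
        f i.1 * (G.rho ^ i.1 * G.tot i)
      ≤ ∑ m ∈ G.S.image Prod.fst, C * (f m * θ ^ m) := by
        refine Finset.sum_le_sum fun m _ => ?_
        have e : ∑ i ∈ G.S.filter (fun i => i.1 = m), f i.1 * (G.rho ^ i.1 * G.tot i)
            = f m * ∑ i ∈ G.S.filter (fun i => i.1 = m), G.rho ^ m * G.tot i := by
          rw [Finset.mul_sum]
          refine Finset.sum_congr rfl fun i hi => ?_
          rw [(Finset.mem_filter.mp hi).2]
        rw [e]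
        calc _ ≤ f m * (C * θ ^ m) := mul_le_mul_of_nonneg_left (h.dec m) (hf m)
          _ = _ := by ring
    _ = C * ∑ m ∈ G.S.image Prod.fst, f m * θ ^ m := by rw [Finset.mul_sum]
    _ ≤ _ := by
        refine mul_le_mul_of_nonneg_left ?_ hC.le
        refine hs.sum_le_tsum _ fun m _ => ?_
        have := hf m
        positivity

lemma one_le_mbar (G : GapKernel) : 1 ≤ G.mbar := by
  rw [← G.crit']
  unfold GapKernel.mbar
  refine Finset.sum_le_sum fun i hi => ?_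
  have h1 : (1 : ℝ) ≤ i.1 := by exact_mod_cast (G.pos_mem i hi).1
  have h2 : 0 ≤ G.rho ^ i.1 * G.tot i :=
    mul_nonneg (pow_nonneg G.rho_pos.le _) (G.tot_nonneg i)
  nlinarith

lemma mbar_le {G : GapKernel} (h : Cls C θ G) (hC : 0 < C) (hθ : 0 < θ) (hθ1 : θ < 1) :
    G.mbar ≤ C * ∑' m : ℕ, (m : ℝ) ^ 1 * θ ^ m := by
  have hs : Summable fun m : ℕ => (m : ℝ) ^ 1 * θ ^ m :=
    summable_pow_mul_geometric_of_norm_lt_one 1 (by rwa [Real.norm_of_nonneg hθ.le])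
  have h1 := sum_fiber_le h hC hθ (fun m => (m : ℝ) ^ 1) (fun m => by positivity) hs
  refine le_trans (le_of_eq ?_) h1
  unfold GapKernel.mbar
  refine Finset.sum_congr rfl fun i _ => ?_
  ring

lemma rho_le_sig2 (G : GapKernel) : G.rho ≤ G.sig2 := by
  have hR := G.R_pos
  have h : G.rho ^ 1 * ∑ d ∈ Icc (-(G.R : ℤ)) G.R, (d : ℝ) ^ 2 * G.T (1, 1) d ≤ G.sig2 := by
    refine Finset.single_le_sum (f := fun i : ℕ × ℕ => G.rho ^ i.1 *
      ∑ d ∈ Icc (-(G.R : ℤ)) G.R, (d : ℝ) ^ 2 * G.T i d) ?_ G.i0_mem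
    intro i _
    have := G.rho_pos
    have h2 : 0 ≤ ∑ d ∈ Icc (-(G.R : ℤ)) G.R, (d : ℝ) ^ 2 * G.T i d :=
      Finset.sum_nonneg fun d _ => mul_nonneg (sq_nonneg _) (G.T_nonneg i d)
    positivity
  have h1 : (1 : ℝ) ≤ ∑ d ∈ Icc (-(G.R : ℤ)) G.R, (d : ℝ) ^ 2 * G.T (1, 1) d := by
    have h3 : ((1 : ℤ) : ℝ) ^ 2 * G.T (1, 1) 1 ≤ ∑ d ∈ Icc (-(G.R : ℤ)) G.R, (d : ℝ) ^ 2 * G.T (1, 1) d := by
      refine Finset.single_le_sum (f := fun d : ℤ => (d : ℝ) ^ 2 * G.T (1, 1) d)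
        (fun d _ => mul_nonneg (sq_nonneg _) (G.T_nonneg _ d)) ?_
      rw [Finset.mem_Icc]
      omega
    rw [G.T_one.2.1] at h3
    norm_num at h3
    exact h3
  have := G.rho_pos
  nlinarith

lemma sig2_le {G : GapKernel} (h : Cls C θ G) (hC : 0 < C) (hθ : 0 < θ) (hθ1 : θ < 1) :
    G.sig2 ≤ 4 * (C * ∑' m : ℕ, (m : ℝ) ^ 2 * θ ^ m) := by
  have hs : Summable fun m : ℕ => (m : ℝ) ^ 2 * θ ^ m :=
    summable_pow_mul_geometric_of_norm_lt_one 2 (by rwa [Real.norm_of_nonneg hθ.le])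
  have h1 := sum_fiber_le h hC hθ (fun m => (m : ℝ) ^ 2) (fun m => by positivity) hs
  refine le_trans ?_ (mul_le_mul_of_nonneg_left h1 (by norm_num : (0 : ℝ) ≤ 4))
  unfold GapKernel.sig2
  rw [Finset.mul_sum]
  refine Finset.sum_le_sum fun i hi => ?_
  have h2 : ∑ d ∈ Icc (-(G.R : ℤ)) G.R, (d : ℝ) ^ 2 * G.T i d ≤ (2 * (i.1 : ℝ)) ^ 2 * G.tot i := by
    unfold GapKernel.tot
    rw [Finset.mul_sum]
    refine Finset.sum_le_sum fun d _ => ?_
    by_cases hd : 2 * (i.1 : ℤ) < |d|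
    · rw [h.loc.T_loc i d hd]
      simp
    · have hd' : |(d : ℝ)| ≤ 2 * (i.1 : ℝ) := by
        have : |d| ≤ 2 * (i.1 : ℤ) := not_lt.mp hd
        exact_mod_cast this
      have h3 : (d : ℝ) ^ 2 ≤ (2 * (i.1 : ℝ)) ^ 2 := by
        rw [← sq_abs (d : ℝ)]
        gcongr
      exact mul_le_mul_of_nonneg_right h3 (G.T_nonneg i d)
  calc G.rho ^ i.1 * ∑ d ∈ Icc (-(G.R : ℤ)) G.R, (d : ℝ) ^ 2 * G.T i d
      ≤ G.rho ^ i.1 * ((2 * (i.1 : ℝ)) ^ 2 * G.tot i) :=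
        mul_le_mul_of_nonneg_left h2 (pow_nonneg G.rho_pos.le _)
    _ = _ := by ring

/-! ### Pairings -/

/-- convergence of the bilinear pairing from the comparison of the two solutions, bounded
amplitudes -/
lemma pairing_limit (N : ℕ → ℕ) (V W V0 : ℕ → ℤ → ℂ) (A A' : ℕ → ℝ) (C D : ℝ) (hC : 0 ≤ C)
    (hA : ∀ n, |A n| ≤ D) (hA' : ∀ n, |A' n| ≤ D)
    (hV0 : ∀ᶠ n in atTop, Real.sqrt (nsq (N n) (V0 n)) ≤ C * qn n)
    (h1 : Tendsto (fun n : ℕ => nsq (N n) (fun g => V n g - (A n : ℂ) * V0 n g) / Real.sqrt n)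
      atTop (𝓝 0))
    (h2 : Tendsto (fun n : ℕ => nsq (N n) (fun g => W n g - (A' n : ℂ) * V0 n g) / Real.sqrt n)
      atTop (𝓝 0)) :
    Tendsto (fun n : ℕ => ((∑ g ∈ Icc (1 : ℤ) (N n), V n g * W n g)
      - ((A n * A' n : ℝ) : ℂ) * ∑ g ∈ Icc (1 : ℤ) (N n), V0 n g * V0 n g)
        / ((Real.sqrt n : ℝ) : ℂ)) atTop (𝓝 0) := by
  have hs1 : Tendsto (fun n : ℕ => Real.sqrt (nsq (N n) (fun g => V n g - (A n : ℂ) * V0 n g)
      / Real.sqrt n)) atTop (𝓝 0) := by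
    have := (Real.continuous_sqrt.tendsto 0).comp h1
    rwa [Real.sqrt_zero] at this
  have hs2 : Tendsto (fun n : ℕ => Real.sqrt (nsq (N n) (fun g => W n g - (A' n : ℂ) * V0 n g)
      / Real.sqrt n)) atTop (𝓝 0) := by
    have := (Real.continuous_sqrt.tendsto 0).comp h2
    rwa [Real.sqrt_zero] at this
  set x : ℕ → ℝ := fun n => Real.sqrt (nsq (N n) (fun g => V n g - (A n : ℂ) * V0 n g)
    / Real.sqrt n) with hx
  set y : ℕ → ℝ := fun n => Real.sqrt (nsq (N n) (fun g => W n g - (A' n : ℂ) * V0 n g)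
    / Real.sqrt n) with hy
  have hb : Tendsto (fun n : ℕ => x n * (y n + D * C) + D * (C * y n)) atTop (𝓝 0) := by
    have := (hs1.mul (hs2.add_const (D * C))).add ((hs2.const_mul C).const_mul D)
    simpa using this
  rw [tendsto_zero_iff_norm_tendsto_zero]
  refine squeeze_zero' (Eventually.of_forall fun n => norm_nonneg _) ?_ hb
  filter_upwards [hV0, eventually_ge_atTop 1] with n hn hn1
  have hq := qn_pos n hn1
  have hqs : qn n * qn n = Real.sqrt n := by rw [← qn_sq n]; ring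
  have ex : Real.sqrt (nsq (N n) (fun g => V n g - (A n : ℂ) * V0 n g)) = x n * qn n := by
    simp only [hx]
    rw [Real.sqrt_div (nsq_nonneg _ _)]
    unfold qn at hq ⊢
    field_simp
  have ey : Real.sqrt (nsq (N n) (fun g => W n g - (A' n : ℂ) * V0 n g)) = y n * qn n := by
    simp only [hy]
    rw [Real.sqrt_div (nsq_nonneg _ _)]
    unfold qn at hq ⊢
    field_simp
  have hx0 : 0 ≤ x n := Real.sqrt_nonneg _
  have hy0 : 0 ≤ y n := Real.sqrt_nonneg _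
  have e1 : (∑ g ∈ Icc (1 : ℤ) (N n), V n g * W n g)
      - ((A n * A' n : ℝ) : ℂ) * ∑ g ∈ Icc (1 : ℤ) (N n), V0 n g * V0 n g
      = (∑ g ∈ Icc (1 : ℤ) (N n), (V n g - (A n : ℂ) * V0 n g) * (W n g - (A' n : ℂ) * V0 n g))
        + (A' n : ℂ) * (∑ g ∈ Icc (1 : ℤ) (N n), (V n g - (A n : ℂ) * V0 n g) * V0 n g)
        + (A n : ℂ) * (∑ g ∈ Icc (1 : ℤ) (N n), V0 n g * (W n g - (A' n : ℂ) * V0 n g)) := by
    rw [Finset.mul_sum, Finset.mul_sum, Finset.mul_sum, ← Finset.sum_sub_distrib,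
      ← Finset.sum_add_distrib, ← Finset.sum_add_distrib]
    refine Finset.sum_congr rfl fun g _ => ?_
    push_cast
    ring
  rw [norm_div, Complex.norm_real, Real.norm_of_nonneg (Real.sqrt_nonneg _), ← hqs,
    div_le_iff₀ (by positivity), e1]
  have t1 := norm_sum_mul_le (N n) (fun g => V n g - (A n : ℂ) * V0 n g)
    (fun g => W n g - (A' n : ℂ) * V0 n g)
  have t2 := norm_sum_mul_le (N n) (fun g => V n g - (A n : ℂ) * V0 n g) (V0 n)
  have t3 := norm_sum_mul_le (N n) (V0 n) (fun g => W n g - (A' n : ℂ) * V0 n g)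
  rw [ex, ey] at t1
  rw [ex] at t2
  rw [ey] at t3
  refine norm_add₃_le.trans ?_
  rw [norm_mul, norm_mul, Complex.norm_real, Complex.norm_real, Real.norm_eq_abs, Real.norm_eq_abs]
  have s2 : ‖∑ g ∈ Icc (1 : ℤ) (N n), (V n g - (A n : ℂ) * V0 n g) * V0 n g‖
      ≤ x n * qn n * (C * qn n) := t2.trans (by gcongr)
  have s3 : ‖∑ g ∈ Icc (1 : ℤ) (N n), V0 n g * (W n g - (A' n : ℂ) * V0 n g)‖
      ≤ C * qn n * (y n * qn n) := t3.trans (by gcongr)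
  have a1 := hA n
  have a2 := hA' n
  have a3 : 0 ≤ D := (abs_nonneg _).trans a1
  calc _ ≤ x n * qn n * (y n * qn n) + D * (x n * qn n * (C * qn n))
        + D * (C * qn n * (y n * qn n)) := by gcongr
    _ = _ := by ring

/-! ### The staircase solution at a scale `n0 n ~ β n` -/

lemma n0_atTop {n0 : ℕ → ℕ} {β : ℝ} (hβ : 0 < β)
    (h : Tendsto (fun n : ℕ => (n0 n : ℝ) / n) atTop (𝓝 β)) : Tendsto n0 atTop atTop := by
  have h2 : Tendsto (fun n : ℕ => ((n0 n : ℝ) / n) * n) atTop atTop :=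
    h.pos_mul_atTop hβ tendsto_natCast_atTop_atTop
  have h3 : Tendsto (fun n : ℕ => (n0 n : ℝ)) atTop atTop := by
    refine h2.congr' ?_
    filter_upwards [eventually_gt_atTop 0] with n hn
    have : (n : ℝ) ≠ 0 := by exact_mod_cast hn.ne'
    field_simp
  exact tendsto_natCast_atTop_iff.mp h3

/-- `n (1/4 - z') → w / (4 β)` in norm -/
lemma tendsto_zn'_norm {n0 : ℕ → ℕ} {β : ℝ} (hβ : 0 < β)
    (h : Tendsto (fun n : ℕ => (n0 n : ℝ) / n) atTop (𝓝 β)) (w : ℂ) :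
    Tendsto (fun n : ℕ => (n : ℝ) * ‖(1 / 4 : ℂ) - zn (1 / 4) w (n0 n)‖) atTop
      (𝓝 (β⁻¹ * (1 / 4 * ‖w‖))) := by
  have h1 := tendsto_zn_norm (1 / 4) (by norm_num) w n0 (n0_atTop hβ h)
  have h2 : Tendsto (fun n : ℕ => (n : ℝ) / n0 n) atTop (𝓝 β⁻¹) := by
    refine (h.inv₀ hβ.ne').congr fun n => ?_
    rw [inv_div]
  have e4 : (((1 / 4 : ℝ) : ℝ) : ℂ) = (1 / 4 : ℂ) := by push_cast; ring
  rw [e4] at h1
  refine (h2.mul h1).congr' ?_
  filter_upwards [(n0_atTop hβ h).eventually_ge_atTop 1] with n hn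
  have hn' : ((n0 n : ℕ) : ℝ) ≠ 0 := by
    have : n0 n ≠ 0 := by omega
    exact_mod_cast this
  field_simp

/-- bound of the staircase solution by `n ^ (1/4)` -/
lemma v0_bound (hW : W_Stmt) {n0 : ℕ → ℕ} {β : ℝ} (hβ : 0 < β)
    (h : Tendsto (fun n : ℕ => (n0 n : ℝ) / n) atTop (𝓝 β)) (N : ℕ → ℕ) (eps : ℕ → ℝ)
    (heps : ∀ n, 0 ≤ eps n) (w : ℂ) (hw : 0 < w.re) (v0 : ℕ → ℤ → ℂ)
    (hv0 : ∀ n, 1 ≤ n → 1 ≤ n0 n →
      stair.Solves (eps n) (zn (1 / 4) w (n0 n)) (N n) (v0 n) (src1 (zn (1 / 4) w (n0 n)))) :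
    ∃ C : ℝ, 0 < C ∧ ∀ᶠ n in atTop, Real.sqrt (nsq (N n) (v0 n)) ≤ C * qn n := by
  obtain ⟨Cw, hCw, hW'⟩ := hW stair 1
  have hwn : 0 < ‖w‖ := by
    rw [norm_pos_iff]
    rintro rfl
    simp at hw
  set L : ℝ := β⁻¹ * (1 / 4 * ‖w‖) with hL
  have hLpos : 0 < L := by
    have := inv_pos.mpr hβ
    positivity
  have h1 := tendsto_zn'_norm hβ h w
  have h2 : ∀ᶠ n : ℕ in atTop, L / 2 < (n : ℝ) * ‖(1 / 4 : ℂ) - zn (1 / 4) w (n0 n)‖ :=
    h1.eventually_const_lt (by rw [← hL]; linarith)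
  set c : ℝ := Real.sqrt (L / 2) with hc
  have hcpos : 0 < c := Real.sqrt_pos.mpr (by positivity)
  have hc2 : c ^ 2 = L / 2 := Real.sq_sqrt (by positivity)
  refine ⟨Real.sqrt (Cw / c), Real.sqrt_pos.mpr (by positivity), ?_⟩
  filter_upwards [h2, eventually_ge_atTop 1, (n0_atTop hβ h).eventually_ge_atTop 1]
    with n hn hn1 hn0
  have hq := qn_pos n hn1
  have hsol := hv0 n hn1 hn0
  set z' := zn (1 / 4) w (n0 n) with hz'
  have hz'le : ‖z'‖ ≤ 1 / 4 := zn_norm_le (1 / 4) (by norm_num) w hw _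
  have hz'ne : z' ≠ ((stair.rho : ℝ) : ℂ) := zn_ne (1 / 4) (by norm_num) w hw _ hn0
  have hstair : stair.rho = 1 / 4 := rfl
  have hsrc : ∀ g : ℤ, ((1 : ℕ) : ℤ) < g → src1 z' g = 0 := by
    intro g hg
    unfold src1
    rw [if_neg]
    push_cast at hg
    omega
  have hl1 : l1 1 (src1 z') ≤ 1 := by
    rw [l1_src1]
    linarith
  have hl10 : 0 ≤ l1 1 (src1 z') := by
    rw [l1_src1]
    exact norm_nonneg _
  have hl1sq : (l1 1 (src1 z')) ^ 2 ≤ 1 := by nlinarith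
  obtain ⟨hWk, _⟩ := hW' (N n) (eps n) z' (v0 n) (src1 z') (heps n) (by rw [hstair]; exact hz'le)
    hz'ne hsol hsrc
  have hδeq : ‖((stair.rho : ℝ) : ℂ) - z'‖ = ‖(1 / 4 : ℂ) - z'‖ := by
    rw [hstair]
    push_cast
    rfl
  rw [hδeq] at hWk
  set δ := ‖(1 / 4 : ℂ) - z'‖ with hδ
  have hn' : (0 : ℝ) < n := by exact_mod_cast hn1
  have hδlow : c ^ 2 / qn n ^ 4 ≤ δ := by
    rw [qn_four, hc2, div_le_iff₀ hn']
    linarith
  have hδpos : 0 < δ := lt_of_lt_of_le (by positivity) hδlow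
  have hsδ : c / qn n ^ 2 ≤ Real.sqrt δ := by
    refine Real.le_sqrt_of_sq_le ?_
    refine le_trans (le_of_eq ?_) hδlow
    rw [div_pow]
    ring
  have hkey : nsq (N n) (v0 n) ≤ Cw / c * qn n ^ 2 := by
    have h0 := hWk 0 (by norm_num)
    rw [nsq_mulg_zero, pow_zero, mul_one] at h0
    refine h0.trans ?_
    calc Cw * (l1 1 (src1 z')) ^ 2 / Real.sqrt δ ≤ Cw * 1 / (c / qn n ^ 2) := by gcongr
      _ = _ := by field_simp
  have hCc : 0 ≤ Cw / c := by positivity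
  calc Real.sqrt (nsq (N n) (v0 n)) ≤ Real.sqrt (Cw / c * qn n ^ 2) := Real.sqrt_le_sqrt hkey
    _ = Real.sqrt (Cw / c) * qn n := by rw [Real.sqrt_mul hCc, Real.sqrt_sq hq.le]

/-! ### Rescaled generating functions -/

lemma sgf_scale (j : ℕ) (a : ℕ → ℝ) (r : ℝ) (z : ℂ) :
    sgf j (fun m => a m * r ^ m) z = sgf j a ((r : ℂ) * z) := by
  unfold sgf
  refine tsum_congr fun m => ?_
  push_cast
  rw [mul_pow]
  ring

lemma sgf_const_mul (j : ℕ) (a : ℕ → ℝ) (c : ℝ) (z : ℂ) :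
    sgf j (fun m => c * a m) z = (c : ℂ) * sgf j a z := by
  unfold sgf
  rw [← tsum_mul_left]
  refine tsum_congr fun m => ?_
  push_cast
  ring

lemma zn_scale (r : ℝ) (w : ℂ) (n : ℕ) : (r : ℂ) * zn 1 w n = zn r w n := by
  unfold zn
  push_cast
  ring

/-- the scaled sequence satisfies the hypotheses of module X at radius `1` -/
lemma bounds_scale {a : ℕ → ℝ} {r κ C1 : ℝ} (hr : 0 < r) (hκ : 0 < κ) (hκr : κ ≤ r)
    (hC1 : 0 < C1)
    (h : ∀ z : ℂ, ‖z‖ < r →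
      (∀ j, Summable fun m : ℕ => ‖((m : ℂ)) ^ j * ((a m : ℝ) : ℂ) * z ^ m‖) ∧
      ‖sgf 2 a z‖ * (‖(r : ℂ) - z‖ * Real.sqrt ‖(r : ℂ) - z‖) ≤ C1 ∧
      ‖sgf 3 a z‖ * (‖(r : ℂ) - z‖ ^ 2 * Real.sqrt ‖(r : ℂ) - z‖) ≤ C1)
    (z : ℂ) (hz : ‖z‖ < 1) :
    (∀ j, Summable fun m : ℕ => ‖((m : ℂ)) ^ j * ((a m * r ^ m : ℝ) : ℂ) * z ^ m‖) ∧
    ‖sgf 2 (fun m => a m * r ^ m) z‖ * (‖((1 : ℝ) : ℂ) - z‖ * Real.sqrt ‖((1 : ℝ) : ℂ) - z‖)
      ≤ C1 / (κ * Real.sqrt κ) + C1 / (κ ^ 2 * Real.sqrt κ) ∧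
    ‖sgf 3 (fun m => a m * r ^ m) z‖ * (‖((1 : ℝ) : ℂ) - z‖ ^ 2 * Real.sqrt ‖((1 : ℝ) : ℂ) - z‖)
      ≤ C1 / (κ * Real.sqrt κ) + C1 / (κ ^ 2 * Real.sqrt κ) := by
  have hz' : ‖(r : ℂ) * z‖ < r := by
    rw [norm_mul, Complex.norm_real, Real.norm_of_nonneg hr.le]
    nlinarith
  obtain ⟨h1, h2, h3⟩ := h _ hz'
  have hd : ‖(r : ℂ) - (r : ℂ) * z‖ = r * ‖((1 : ℝ) : ℂ) - z‖ := by
    have : (r : ℂ) - (r : ℂ) * z = (r : ℂ) * (((1 : ℝ) : ℂ) - z) := by push_cast; ring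
    rw [this, norm_mul, Complex.norm_real, Real.norm_of_nonneg hr.le]
  rw [hd] at h2 h3
  set δ := ‖((1 : ℝ) : ℂ) - z‖ with hδ
  have hδ0 : 0 ≤ δ := norm_nonneg _
  have hsκ : 0 < Real.sqrt κ := Real.sqrt_pos.mpr hκ
  have hp1 : 0 < C1 / (κ * Real.sqrt κ) := by positivity
  have hp2 : 0 < C1 / (κ ^ 2 * Real.sqrt κ) := by positivity
  refine ⟨fun j => ?_, ?_, ?_⟩
  · refine (h1 j).congr fun m => ?_
    congr 1
    push_cast
    rw [mul_pow]
    ring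
  · rw [sgf_scale]
    have h4 : ‖sgf 2 a ((r : ℂ) * z)‖ * (δ * Real.sqrt δ) * (κ * Real.sqrt κ) ≤ C1 := by
      refine le_trans ?_ h2
      calc ‖sgf 2 a ((r : ℂ) * z)‖ * (δ * Real.sqrt δ) * (κ * Real.sqrt κ)
          = ‖sgf 2 a ((r : ℂ) * z)‖ * ((κ * δ) * Real.sqrt (κ * δ)) := by
            rw [Real.sqrt_mul hκ.le]; ring
        _ ≤ _ := by gcongr
    have h5 : ‖sgf 2 a ((r : ℂ) * z)‖ * (δ * Real.sqrt δ) ≤ C1 / (κ * Real.sqrt κ) := by
      rw [le_div_iff₀ (by positivity)]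
      exact h4
    linarith
  · rw [sgf_scale]
    have h4 : ‖sgf 3 a ((r : ℂ) * z)‖ * (δ ^ 2 * Real.sqrt δ) * (κ ^ 2 * Real.sqrt κ) ≤ C1 := by
      refine le_trans ?_ h3
      calc ‖sgf 3 a ((r : ℂ) * z)‖ * (δ ^ 2 * Real.sqrt δ) * (κ ^ 2 * Real.sqrt κ)
          = ‖sgf 3 a ((r : ℂ) * z)‖ * ((κ * δ) ^ 2 * Real.sqrt (κ * δ)) := by
            rw [Real.sqrt_mul hκ.le]; ring
        _ ≤ _ := by gcongr
    have h5 : ‖sgf 3 a ((r : ℂ) * z)‖ * (δ ^ 2 * Real.sqrt δ) ≤ C1 / (κ ^ 2 * Real.sqrt κ) := by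
      rw [le_div_iff₀ (by positivity)]
      exact h4
    linarith

/-- the sequence multiplied by a bounded factor -/
lemma bounds_const {a : ℕ → ℝ} {r F M C1 : ℝ} (hC1 : 0 < C1) (hF : 0 ≤ F) (hFM : F ≤ M)
    (h : ∀ z : ℂ, ‖z‖ < r →
      (∀ j, Summable fun m : ℕ => ‖((m : ℂ)) ^ j * ((a m : ℝ) : ℂ) * z ^ m‖) ∧
      ‖sgf 2 a z‖ * (‖(r : ℂ) - z‖ * Real.sqrt ‖(r : ℂ) - z‖) ≤ C1 ∧
      ‖sgf 3 a z‖ * (‖(r : ℂ) - z‖ ^ 2 * Real.sqrt ‖(r : ℂ) - z‖) ≤ C1)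
    (z : ℂ) (hz : ‖z‖ < r) :
    (∀ j, Summable fun m : ℕ => ‖((m : ℂ)) ^ j * ((F * a m : ℝ) : ℂ) * z ^ m‖) ∧
    ‖sgf 2 (fun m => F * a m) z‖ * (‖(r : ℂ) - z‖ * Real.sqrt ‖(r : ℂ) - z‖) ≤ M * C1 ∧
    ‖sgf 3 (fun m => F * a m) z‖ * (‖(r : ℂ) - z‖ ^ 2 * Real.sqrt ‖(r : ℂ) - z‖) ≤ M * C1 := by
  obtain ⟨h1, h2, h3⟩ := h z hz
  refine ⟨fun j => ?_, ?_, ?_⟩
  · refine ((h1 j).mul_left F).congr fun m => ?_
    rw [← Real.norm_of_nonneg hF, ← Complex.norm_real, ← norm_mul]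
    congr 1
    rw [Complex.norm_real, Real.norm_of_nonneg hF]
    push_cast
    ring
  · rw [sgf_const_mul, norm_mul, Complex.norm_real, Real.norm_of_nonneg hF, mul_assoc]
    exact mul_le_mul hFM h2 (by positivity) (hF.trans hFM)
  · rw [sgf_const_mul, norm_mul, Complex.norm_real, Real.norm_of_nonneg hF, mul_assoc]
    exact mul_le_mul hFM h3 (by positivity) (hF.trans hFM)

end GLT

open GLT in
/-- module GLT, from GE, GJ2 and the old modules -/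
theorem glt_of (hE : GE_Stmt) (hJ2 : GJ2_Stmt) (hW : W_Stmt) (hJ1 : J1_Stmt) (hJ2s : J2_Stmt)
    (hX : X_Stmt) (hB1 : B1_Stmt) : GLT_Stmt := by
  intro C θ hC hθ hθ1
  obtain ⟨CE, hCE, hE'⟩ := hE C θ hC hθ hθ1
  obtain ⟨C1, hC1, hJ⟩ := hJ2 C θ hC hθ hθ1
  obtain ⟨C2, hC2, hJ0⟩ := hJ2s stair 1 cap1 cap1 isCap_cap1 isCap_cap1
  -- uniform bounds of mbar and sig2
  set M : ℝ := C * ∑' m : ℕ, (m : ℝ) ^ 1 * θ ^ m with hM
  set S : ℝ := 4 * (C * ∑' m : ℕ, (m : ℝ) ^ 2 * θ ^ m) with hS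
  -- lower and upper bound of cr
  set lo : ℝ := (CE⁻¹ * CE⁻¹) * Real.sqrt (2 * C⁻¹ / M) with hlo
  set up : ℝ := M * (CE * CE) * Real.sqrt (2 * S) with hup
  refine ⟨|lo|⁻¹ + |up| + 1, by positivity, ?_⟩
  intro G mb hb sg C0 s t B hK hs ht hB B0 hB0
  have hmb1 : 1 ≤ mb := ge_of_tendsto' hK.lim_m fun n => one_le_mbar (G n)
  have hmbM : mb ≤ M := le_of_tendsto' hK.lim_m fun n => mbar_le (hK.cls n) hC hθ hθ1
  have hsg1 : C⁻¹ ≤ sg := ge_of_tendsto' hK.lim_s fun n =>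
    (hK.cls n).rho_ge.trans (rho_le_sig2 (G n))
  have hsgS : sg ≤ S := le_of_tendsto' hK.lim_s fun n => sig2_le (hK.cls n) hC hθ hθ1
  have hhb : 0 ≤ hb := ge_of_tendsto' hK.lim_h fun n => (G n).hbar_pos.le
  have hCi : 0 < C⁻¹ := inv_pos.mpr hC
  have hsg : 0 < sg := lt_of_lt_of_le hCi hsg1
  have hmb : 0 < mb := by linarith
  have hMpos : 0 < M := by linarith
  have hSpos : 0 < S := by linarith
  obtain ⟨As, hAs, hEs⟩ := hE' G mb hb sg C0 s hK hs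
  obtain ⟨At, hAt, hEt⟩ := hE' G mb hb sg C0 t hK ht
  have hCEi : 0 < CE⁻¹ := inv_pos.mpr hCE
  have hAs0 : ∀ n, 0 < As n := fun n => lt_of_lt_of_le hCEi (hAs n).1
  have hAt0 : ∀ n, 0 < At n := fun n => lt_of_lt_of_le hCEi (hAt n).1
  set β := 2 * sg / mb with hβ
  have hβ0 : 0 < β := by positivity
  set F : ℕ → ℝ := fun n => (G n).mbar * (As n * At n) with hF
  have hmn : ∀ n, 0 < (G n).mbar := fun n => (G n).mbar_pos
  have hF0 : ∀ n, 0 ≤ F n := fun n => by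
    have := hmn n
    have := hAs0 n
    have := hAt0 n
    simp only [hF]
    positivity
  have hFlo : ∀ n, CE⁻¹ * CE⁻¹ ≤ F n := fun n => by
    have h1 := one_le_mbar (G n)
    have h2 : CE⁻¹ * CE⁻¹ ≤ As n * At n := mul_le_mul (hAs n).1 (hAt n).1 hCEi.le (hAs0 n).le
    have h3 : 0 ≤ As n * At n := mul_nonneg (hAs0 n).le (hAt0 n).le
    simp only [hF]
    nlinarith
  have hFup : ∀ n, F n ≤ M * (CE * CE) := fun n => by
    have h1 : (G n).mbar ≤ M := mbar_le (hK.cls n) hC hθ hθ1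
    have h2 : As n * At n ≤ CE * CE := mul_le_mul (hAs n).2 (hAt n).2 (hAt0 n).le hCE.le
    exact mul_le_mul h1 h2 (mul_nonneg (hAs0 n).le (hAt0 n).le) hMpos.le
  have hβlo : 2 * C⁻¹ / M ≤ β := by
    rw [hβ]
    gcongr
  have hβup : β ≤ 2 * S := by
    rw [hβ, div_le_iff₀ hmb]
    nlinarith
  have hlo0 : 0 < lo := by
    rw [hlo]
    positivity
  have hup0 : 0 < up := by
    rw [hup]
    positivity
  refine ⟨fun n => Real.sqrt β * F n, fun n => ⟨?_, ?_⟩, ?_⟩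
  · -- lower bound
    have h1 : lo ≤ Real.sqrt β * F n := by
      rw [hlo, mul_comm]
      exact mul_le_mul (Real.sqrt_le_sqrt hβlo) (hFlo n) (by positivity) (Real.sqrt_nonneg _)
    refine le_trans ?_ h1
    rw [abs_of_pos hlo0, abs_of_pos hup0]
    have h2 : (lo⁻¹ + up + 1)⁻¹ ≤ (lo⁻¹)⁻¹ := by
      apply inv_anti₀ (by positivity)
      linarith
    rwa [inv_inv] at h2
  · have h1 : Real.sqrt β * F n ≤ up := by
      rw [hup, mul_comm]
      exact mul_le_mul (hFup n) (Real.sqrt_le_sqrt hβup) (Real.sqrt_nonneg _) (by positivity)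
    refine h1.trans ?_
    have h2 : 0 ≤ |lo|⁻¹ := by positivity
    have h3 := le_abs_self up
    linarith
  intro n0 hn0 lam hlam
  have hl0 : 0 ≤ lamS mb hb sg lam := by
    unfold lamS
    have : 0 < 2 * sg / mb := hβ0
    positivity
  set lam' := lamS mb hb sg lam with hlam'
  set N : ℕ → ℕ := fun n => 4 * n ^ 2 + 4 * (n0 n) ^ 2 + C0 n + ((G n).R + 1) * (n + 1)
    + 2 * (n0 n + 1) + 1 with hN
  have hNbig : ∀ n, 4 * n ^ 2 + 4 * (n0 n) ^ 2 ≤ N n := fun n => by simp only [hN]; omega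
  -- arrays
  have hex : ∀ n, ∃ b, IsArr (G n) (s n) (epsn lam n) (N n) b := fun n =>
    (hJ1 (G n) (C0 n) (s n) (hs n).cap (N n) (epsn lam n) (epsn_nonneg _ hlam _)).1
  choose b hbA using hex
  have hex' : ∀ n, ∃ b, IsArr (G n) (t n) (epsn lam n) (N n) b := fun n =>
    (hJ1 (G n) (C0 n) (t n) (ht n).cap (N n) (epsn lam n) (epsn_nonneg _ hlam _)).1
  choose b' hbA' using hex'
  have hex0 : ∀ n, ∃ b, IsArr stair cap1 (epsn lam' (n0 n)) (N n) b := fun n =>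
    (hJ1 stair 1 cap1 isCap_cap1 (N n) (epsn lam' (n0 n)) (epsn_nonneg _ hl0 _)).1
  choose b0 hbA0 using hex0
  have hC0N : ∀ n, C0 n ≤ N n := fun n => by simp only [hN]; omega
  have h1N : ∀ n, 1 ≤ N n := fun n => by simp only [hN]; omega
  set K1 : ℝ := C1 / (C⁻¹ * Real.sqrt C⁻¹) + C1 / (C⁻¹ ^ 2 * Real.sqrt C⁻¹) with hK1
  set K2 : ℝ := M * (CE * CE) * C2 with hK2
  have key := hX 1 (1 / 4) β 1 (max K1 K2) n0
    (fun n m => close (C0 n) (t n) (b n) m * (G n).rho ^ m)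
    (fun n m => F n * close 1 cap1 (b0 n) m) one_pos (by norm_num) hβ0 hn0
    (by
      intro n z hz
      obtain ⟨a1, a2, a3⟩ := bounds_scale (a := close (C0 n) (t n) (b n)) (r := (G n).rho)
        (κ := C⁻¹) (C1 := C1) (G n).rho_pos hCi (hK.cls n).rho_ge hC1
        (by
          intro z hz
          obtain ⟨a1, _, a3, a4⟩ := hJ (G n) (hK.cls n) (C0 n) (s n) (t n) (hs n) (ht n) (N n)
            (epsn lam n) (epsn_nonneg _ hlam _) (hC0N n) (b n) (b' n) (hbA n) (hbA' n) z hz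
          exact ⟨a1, a3, a4⟩) z hz
      exact ⟨a1, a2.trans (le_max_left _ _), a3.trans (le_max_left _ _)⟩)
    (by
      intro n z hz
      obtain ⟨a1, a2, a3⟩ := bounds_const (a := close 1 cap1 (b0 n)) (r := 1 / 4)
        (F := F n) (M := M * (CE * CE)) (C1 := C2) hC2 (hF0 n) (hFup n)
        (by
          intro z hz
          obtain ⟨a1, _, a3, a4⟩ := hJ0 (N n) (epsn lam' (n0 n)) (epsn_nonneg _ hl0 _) (h1N n)
            (b0 n) (b0 n) (hbA0 n) (hbA0 n) z hz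
          have e4 : ((stair.rho : ℝ) : ℂ) = (((1 / 4 : ℝ) : ℝ) : ℂ) := rfl
          rw [e4] at a3 a4
          exact ⟨a1, a3, a4⟩) z hz
      exact ⟨a1, a2.trans (le_max_right _ _), a3.trans (le_max_right _ _)⟩)
    (by
      intro w hw
      -- the solutions
      have hsol : ∀ n, 1 ≤ n → 1 ≤ n0 n →
          (G n).Solves (epsn lam n) (zn (G n).rho w n) (N n) (gf 0 (b n) (zn (G n).rho w n))
            (capz (C0 n) (s n) 0 (zn (G n).rho w n)) := by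
        intro n hn1 _
        have := ((hJ1 (G n) (C0 n) (s n) (hs n).cap (N n) (epsn lam n)
          (epsn_nonneg _ hlam _)).2 (b n) (hbA n)).2.2.2
          (zn (G n).rho w n) (zn_norm_lt _ (G n).rho_pos w hw n hn1) 0
        simpa using this
      have hsol' : ∀ n, 1 ≤ n → 1 ≤ n0 n →
          (G n).Solves (epsn lam n) (zn (G n).rho w n) (N n) (gf 0 (b' n) (zn (G n).rho w n))
            (capz (C0 n) (t n) 0 (zn (G n).rho w n)) := by
        intro n hn1 _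
        have := ((hJ1 (G n) (C0 n) (t n) (ht n).cap (N n) (epsn lam n)
          (epsn_nonneg _ hlam _)).2 (b' n) (hbA' n)).2.2.2
          (zn (G n).rho w n) (zn_norm_lt _ (G n).rho_pos w hw n hn1) 0
        simpa using this
      have hsol0 : ∀ n, 1 ≤ n → 1 ≤ n0 n →
          stair.Solves (epsn lam' (n0 n)) (zn (1 / 4) w (n0 n)) (N n)
            (gf 0 (b0 n) (zn (1 / 4) w (n0 n))) (src1 (zn (1 / 4) w (n0 n))) := by
        intro n _ hn0'
        have := ((hJ1 stair 1 cap1 isCap_cap1 (N n) (epsn lam' (n0 n))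
          (epsn_nonneg _ hl0 _)).2 (b0 n) (hbA0 n)).2.2.2
          (zn (1 / 4) w (n0 n)) (zn_norm_lt _ (by norm_num) w hw _ hn0') 0
        rw [← capz_cap1]
        simpa using this
      have c1 := hEs n0 N hn0 hNbig lam w hlam hw (fun n => gf 0 (b n) (zn (G n).rho w n))
        (fun n => gf 0 (b0 n) (zn (1 / 4) w (n0 n))) (fun n h1 h2 => ⟨hsol n h1 h2, hsol0 n h1 h2⟩)
      have c2 := hEt n0 N hn0 hNbig lam w hlam hw (fun n => gf 0 (b' n) (zn (G n).rho w n))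
        (fun n => gf 0 (b0 n) (zn (1 / 4) w (n0 n))) (fun n h1 h2 => ⟨hsol' n h1 h2, hsol0 n h1 h2⟩)
      obtain ⟨Cq, hCq, hq⟩ := v0_bound hW hβ0 hn0 N (fun n => epsn lam' (n0 n))
        (fun n => epsn_nonneg _ hl0 _) w hw (fun n => gf 0 (b0 n) (zn (1 / 4) w (n0 n))) hsol0
      have hp := pairing_limit N (fun n => gf 0 (b n) (zn (G n).rho w n))
        (fun n => gf 0 (b' n) (zn (G n).rho w n)) (fun n => gf 0 (b0 n) (zn (1 / 4) w (n0 n)))
        As At Cq CE hCq.le (fun n => by rw [abs_of_pos (hAs0 n)]; exact (hAs n).2)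
        (fun n => by rw [abs_of_pos (hAt0 n)]; exact (hAt n).2) hq c1 c2
      -- assemble
      have hsq : Tendsto (fun n : ℕ => (C1 + M * (CE * CE) * C2) / Real.sqrt n) atTop (𝓝 0) :=
        sqrt_atTop.const_div_atTop _
      have hp2 := (hp.norm.const_mul M).add hsq
      rw [norm_zero, mul_zero, add_zero] at hp2
      rw [tendsto_zero_iff_norm_tendsto_zero]
      refine squeeze_zero' (Eventually.of_forall fun n => norm_nonneg _) ?_ hp2
      filter_upwards [eventually_ge_atTop 1, (n0_atTop hβ0 hn0).eventually_ge_atTop 1]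
        with n hn1 hn0'
      have hz := zn_norm_lt (G n).rho (G n).rho_pos w hw n hn1
      have hz0 := zn_norm_lt (1 / 4) (by norm_num) w hw (n0 n) hn0'
      obtain ⟨_, a2, _, _⟩ := hJ (G n) (hK.cls n) (C0 n) (s n) (t n) (hs n) (ht n) (N n)
        (epsn lam n) (epsn_nonneg _ hlam _) (hC0N n) (b n) (b' n) (hbA n) (hbA' n) _ hz
      obtain ⟨_, d2, _, _⟩ := hJ0 (N n) (epsn lam' (n0 n)) (epsn_nonneg _ hl0 _) (h1N n)
        (b0 n) (b0 n) (hbA0 n) (hbA0 n) _ hz0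
      rw [mbar_stair] at d2
      rw [sgf_scale, sgf_const_mul, zn_scale]
      set P := ∑ g ∈ Icc (1 : ℤ) (N n), gf 0 (b n) (zn (G n).rho w n) g
        * gf 0 (b' n) (zn (G n).rho w n) g with hP
      set Q := ∑ g ∈ Icc (1 : ℤ) (N n), gf 0 (b0 n) (zn (1 / 4) w (n0 n)) g
        * gf 0 (b0 n) (zn (1 / 4) w (n0 n)) g with hQ
      have hsn : 0 < Real.sqrt n := by
        have : (0 : ℝ) < n := by exact_mod_cast hn1
        positivity
      have e1 : sgf 1 (close (C0 n) (t n) (b n)) (zn (G n).rho w n)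
          - ((1 : ℝ) : ℂ) * ((F n : ℂ) * sgf 1 (close 1 cap1 (b0 n)) (zn (1 / 4) w (n0 n)))
          = (sgf 1 (close (C0 n) (t n) (b n)) (zn (G n).rho w n) - ((G n).mbar : ℂ) * P)
            + ((G n).mbar : ℂ) * (P - ((As n * At n : ℝ) : ℂ) * Q)
            + -((F n : ℂ) *
              (sgf 1 (close 1 cap1 (b0 n)) (zn (1 / 4) w (n0 n)) - ((1 : ℝ) : ℂ) * Q)) := by
        simp only [hF]
        push_cast
        ring
      rw [e1, norm_div, Complex.norm_real, Real.norm_of_nonneg hsn.le, norm_div,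
        Complex.norm_real, Real.norm_of_nonneg hsn.le]
      have n3 := norm_add₃_le
        (a := sgf 1 (close (C0 n) (t n) (b n)) (zn (G n).rho w n) - ((G n).mbar : ℂ) * P)
        (b := ((G n).mbar : ℂ) * (P - ((As n * At n : ℝ) : ℂ) * Q))
        (c := -((F n : ℂ) *
              (sgf 1 (close 1 cap1 (b0 n)) (zn (1 / 4) w (n0 n)) - ((1 : ℝ) : ℂ) * Q)))
      rw [norm_neg, norm_mul, norm_mul, Complex.norm_real, Complex.norm_real,
        Real.norm_of_nonneg (hmn n).le, Real.norm_of_nonneg (hF0 n)] at n3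
      have hmM : (G n).mbar ≤ M := mbar_le (hK.cls n) hC hθ hθ1
      have hFM := hFup n
      have hMC : 0 ≤ M * (CE * CE) := (hF0 n).trans hFM
      calc _ ≤ (C1 + M * ‖P - ((As n * At n : ℝ) : ℂ) * Q‖ + M * (CE * CE) * C2) / Real.sqrt n := by
            gcongr
            refine n3.trans ?_
            gcongr
        _ = _ := by ring)
  refine key.congr fun n => ?_
  have ev1 : close (C0 n) (t n) (b n) n
      = (closeP (C0 n) (t n) (B n) n).eval (Real.exp (-(epsn lam n))) := by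
    refine eval_closeP (C0 n) (t n) (B n) (b n) _ n fun m hmn g => ?_
    refine hB1 (G n) (C0 n) (s n) (hs n).cap (B n) (hB n) (N n) (epsn lam n) (b n)
      (epsn_nonneg _ hlam _) (hbA n) m ?_ g
    have : ((G n).R + 1) * (m + 1) ≤ ((G n).R + 1) * (n + 1) := Nat.mul_le_mul_left _ (by omega)
    simp only [hN]
    omega
  have ev0 : close 1 cap1 (b0 n) (n0 n)
      = (closeP 1 cap1 B0 (n0 n)).eval (Real.exp (-(epsn lam' (n0 n)))) := by
    refine eval_closeP 1 cap1 B0 (b0 n) _ (n0 n) fun m hmn g => ?_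
    refine hB1 stair 1 cap1 isCap_cap1 B0 hB0 (N n) (epsn lam' (n0 n)) (b0 n)
      (epsn_nonneg _ hl0 _) (hbA0 n) m ?_ g
    have hR : stair.R = 1 := rfl
    rw [hR]
    simp only [hN]
    have h1 : n0 n ≤ (n0 n) ^ 2 := by nlinarith [Nat.zero_le (n0 n)]
    omega
  simp only [ev1, ev0]
  ring

/-- **Module GLT.** -/
theorem glt (hE : GE_Stmt) (hJ2 : GJ2_Stmt) : GLT_Stmt := by
  have hC2 : C2_Stmt := Gap.C2
  have hC : C_Stmt := Gap.C hC2
  have hRE : RE_Stmt := Gap.RE hC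
  exact glt_of hE hJ2 (Gap.W hC) Gap.J1 (Gap.J2 hC2 hC hRE) Gap.X Gap.B1

end Pool.Agent.FL
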