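import Pool.Agent.Lib_helper89.FL.FinC
import Pool.Agent.Lib_helper89.FL.GC2
import Pool.Agent.Lib_helper89.FL.GC
import Pool.Agent.Lib_helper89.FL.GSUP
import Pool.Agent.Lib_helper89.FL.GW
import Pool.Agent.Lib_helper89.FL.GV
import Pool.Agent.Lib_helper89.FL.GVL
import Pool.Agent.Lib_helper89.FL.GEB
import Pool.Agent.Lib_helper89.FL.GE
import Pool.Agent.Lib_helper89.FL.GJ2
import Pool.Agent.Lib_helper89.FL.GM2
import Pool.Agent.Lib_helper89.FL.GLT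
import Pool.Agent.Lib_helper89.FL.GFIN
import Pool.Agent.Lib_helper89.FL.NEAR
import Pool.Agent.Lib_helper89.FL.TR
import Pool.Agent.Lib_helper89.FL.K1H
import Pool.Agent.Lib_helper89.FL.KW
import Pool.Agent.Lib_helper12.FL.MGT
import Pool.Agent.Lib_helper12.FL.MGI2
import Pool.Agent.Lib_helper27.FL.MGI1
import Pool.Agent.Lib_helper74.MG.Final
import Pool.Agent.Lib_helper79.Gap.Main
import Pool.Agent.Lib_helper62.Gap.BAL

set_option autoImplicit false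

namespace Pool.Agent.FL

open Filter Topology MeasureTheory Pool.Agent.AreaLaw Pool.Agent.Gap

/-- the old analysis -/
theorem old_gap : LT_Stmt ∧ LT1_Stmt ∧ M2_Stmt ∧ BAL_Stmt ∧ ST1_Stmt ∧ SUP_Stmt ∧ W_Stmt := by
  have hC2 : C2_Stmt := C2
  have hC : C_Stmt := C hC2
  have hRE : RE_Stmt := RE hC
  have hSUP : SUP_Stmt := SUP hC
  have hW : W_Stmt := W hC
  have hJ1 : J1_Stmt := J1
  have hJ2 : J2_Stmt := J2 hC2 hC hRE
  have hVEX : VEX_Stmt := VEX hRE hSUP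
  have hVLIM : VLIM_Stmt := VLIM
  have hST : ST1_Stmt := ST1 hC
  have hEB : EB_Stmt := EB
  have hX : X_Stmt := X
  have hX1 : X1_Stmt := X1
  have hB1 : B1_Stmt := B1
  have hE : E_Stmt := E hRE hSUP hW hVEX hVLIM hST hEB
  have hLT : LT_Stmt := LT hE hSUP hW hJ1 hJ2 hX hB1
  have hLT1 : LT1_Stmt := LT1 LIM2 hJ1 hJ2 hX1 hB1
  have hM2 : M2_Stmt := M2 hW
  exact ⟨hLT, hLT1, hM2, BAL, hST, hSUP, hW⟩

/-- the final theorem from the pending modules -/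
theorem main_of (hRE : GC_Stmt → GRE_Stmt) (hHG : HG_Stmt) :
    ∃ μ : Measure ℝ, IsProbabilityMeasure μ ∧
      (∀ x : ℝ, μ {x} = 0 →
        Tendsto (fun n : ℕ => areaCdf n (Staircase n) x) atTop (𝓝 (μ (Set.Iic x)).toReal)) ∧
      ∃ e : ℕ → ℝ, (∀ n, 0 < e n) ∧ Tendsto e atTop (𝓝 0) ∧
        ∀ f : ℕ → ℝ, (∀ᶠ n in atTop, e n ≤ f n) → ∀ x : ℝ, μ {x} = 0 →
          Tendsto (fun n : ℕ => forceCdf (f n) n x) atTop (𝓝 (μ (Set.Iic x)).toReal) := by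
  have hC2 : GC2_Stmt := gc2
  have hC : GC_Stmt := GC.gc hC2
  have hRE' : GRE_Stmt := hRE hC
  have hSUP : GSUP_Stmt := gsup hC hRE'
  have hW : GW_Stmt := gw hC hSUP
  have hJ2 : GJ2_Stmt := GJ2.gj2 hC2 hC hRE' hSUP hW
  have hM2 : GM2_Stmt := gm2 hC2 hRE' hSUP hW
  have hV : GV_Stmt := gv hRE' hSUP
  obtain ⟨oLT, oLT1, oM2, oBAL, oST, oSUP, oW⟩ := old_gap
  have hE' : GE_Stmt := ge hRE' hSUP hW hV gvl oST geb oSUP oW
  have hLT : GLT_Stmt := glt hE' hJ2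
  have hG : GFIN_Stmt := GFIN.gfin hLT hM2 oLT oLT1 oM2 oBAL
  have hMG : MG_Stmt := mgt MG.mgn H27.mgi1 mgi2
  obtain ⟨μ, hμ, h1, e, he, he0, h2⟩ :=
    final hMG mgi2 (kw hHG) (near hHG) hHG (tr K1H.k1h) hG
  refine ⟨μ, hμ, h1, e, he, he0, fun f hf x hx => ?_⟩
  refine (h2 (fun n => max (f n) (e n)) (fun n => le_max_right _ _) x hx).congr' ?_
  filter_upwards [hf] with n hn
  rw [max_eq_left hn]

end Pool.Agent.FL
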